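import Mathlib.MeasureTheory.Integral.Bochner.Basic
import Mathlib.MeasureTheory.Measure.Haar.OfBasis
import Mathlib.Analysis.Calculus.ContDiff.Defs
import Mathlib.Data.Real.Sign

open MeasureTheory Set Filter Topology

namespace MP34a893

/-- Admissible kernel: continuous on `[0,∞)`, of class `C¹` on `(0,∞)`, nonnegative, non-increasing,
with `∫ γ^p = 1`. Every monotone nonnegative `W^{2,1}` kernel of unit `L^p` norm has such a representative. -/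
def IsKernel (p : ℝ) (γ : ℝ → ℝ) : Prop :=
  ContinuousOn γ (Ici 0) ∧ ContDiffOn ℝ 1 γ (Ioi 0) ∧ AntitoneOn γ (Ici 0) ∧
    (∀ s ∈ Ici (0 : ℝ), 0 ≤ γ s) ∧ ∫ s in Ioi (0 : ℝ), γ s ^ p = 1

/-- `q` is jointly measurable and essentially bounded on `[0,T] × ℝ`. -/
def Bdd (T : ℝ) (q : ℝ → ℝ → ℝ) : Prop :=
  Measurable (Function.uncurry q) ∧ ∃ B : ℝ, ∀ t ∈ Icc 0 T, ∀ᵐ x, |q t x| ≤ B

/-- `t ↦ q t` is continuous from `[0,T]` to `L¹_loc(ℝ)`. -/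
def ContL1 (T : ℝ) (q : ℝ → ℝ → ℝ) : Prop :=
  ∀ a b : ℝ, ∀ t0 ∈ Icc 0 T,
    Tendsto (fun t => ∫ x in Icc a b, |q t x - q t0 x|) (𝓝[Icc 0 T] t0) (𝓝 0)

/-- Distributional form of `q_t + F_x = 0`, `q(0) = q0`, for test functions in `C¹_c((-∞,T) × ℝ)`. -/
def WeakId (T : ℝ) (q0 : ℝ → ℝ) (q F : ℝ → ℝ → ℝ) : Prop :=
  ∀ φ : ℝ × ℝ → ℝ, ContDiff ℝ 1 φ → HasCompactSupport φ → tsupport φ ⊆ Iio T ×ˢ univ →
    (∫ z in Ioo 0 T ×ˢ univ,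
        (q z.1 z.2 * fderiv ℝ φ z (1, 0) + F z.1 z.2 * fderiv ℝ φ z (0, 1))) +
      ∫ x, q0 x * φ (0, x) = 0

/-- The nonlocal term `W_{p,η}[q,γ](t,x)`. -/
noncomputable def Wnl (p η : ℝ) (γ : ℝ → ℝ) (q : ℝ → ℝ → ℝ) (t x : ℝ) : ℝ :=
  ((1 / η) * ∫ y in Ioi x, (γ ((y - x) / η) * q t y) ^ p) ^ (1 / p)

/-- Bounded nonnegative weak solution of the nonlocal problem with parameter `η`. -/
def IsWeakSol (p η T : ℝ) (V γ q0 : ℝ → ℝ) (q : ℝ → ℝ → ℝ) : Prop :=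
  Bdd T q ∧ (∀ t ∈ Icc 0 T, ∀ᵐ x, 0 ≤ q t x) ∧ ContL1 T q ∧
    WeakId T q0 q (fun t x => V (Wnl p η γ q t x) * q t x)

/-- Kruzhkov entropy solution of `q_t + (V(q) q)_x = 0`, `q(0) = q0`. -/
def IsEntropySol (T : ℝ) (V q0 : ℝ → ℝ) (q : ℝ → ℝ → ℝ) : Prop :=
  Bdd T q ∧ ContL1 T q ∧ WeakId T q0 q (fun t x => V (q t x) * q t x) ∧
    ∀ κ : ℝ, ∀ φ : ℝ × ℝ → ℝ, ContDiff ℝ 1 φ → HasCompactSupport φ →
      tsupport φ ⊆ Ioo 0 T ×ˢ univ → (∀ z, 0 ≤ φ z) →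
        0 ≤ ∫ z in Ioo 0 T ×ˢ univ,
          (|q z.1 z.2 - κ| * fderiv ℝ φ z (1, 0) +
            Real.sign (q z.1 z.2 - κ) * (V (q z.1 z.2) * q z.1 z.2 - V κ * κ) *
              fderiv ℝ φ z (0, 1))

end MP34a893
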