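import Mathlib.MeasureTheory.Integral.IntervalIntegral.Basic
import Mathlib.Topology.EMetricSpace.BoundedVariation
import Pool.Agent.MP_34a893_an.Defs
import Mathlib.Topology.Sheaves.Presheaf
import Mathlib.Tactic.Monotonicity.Lemmas
import Mathlib.RingTheory.Finiteness.Prod
import Mathlib.Algebra.Order.Star.Real
import Mathlib.Analysis.Calculus.LineDeriv.IntegrationByParts
import Mathlib.Analysis.Distribution.AEEqOfIntegralContDiff
import Mathlib.MeasureTheory.Integral.IntervalIntegral.AbsolutelyContinuousFun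
import Mathlib.Analysis.SpecialFunctions.PolarCoord
import Mathlib.Analysis.ODE.Gronwall
import Mathlib.RingTheory.PiTensorProduct
import Mathlib.MeasureTheory.Order.Group.Lattice
import Mathlib.Order.CompletePartialOrder
import Mathlib.Topology.UniformSpace.Uniformizable

-- ======== part 0: formerly Pool.Agent.MP_34a893_an.Spec
section MrgPart0

open MeasureTheory Set Filter Topology
open scoped ENNReal

namespace MP34a893

noncomputable section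

/-! Fixed data: exponent, velocity profile in the variable `z = q^p`, kernel density `g = -k'`. -/

structure Par where
  p : ℝ
  Φ : ℝ → ℝ
  b : ℝ → ℝ
  g : ℝ → ℝ
  s1 : ℝ
  s2 : ℝ
  m0 : ℝ
  hp0 : 0 < p
  hp1 : p < 1
  hΦ : ∀ z, HasDerivAt Φ (-b z) z
  hb : Continuous b
  hb0 : ∀ z, 0 ≤ b z
  hg : Measurable g
  hg0 : ∀ s, 0 ≤ g s
  hgz : ∀ s : ℝ, s ≤ 0 → g s = 0
  hgi : Integrable g
  hki : IntegrableOn (fun s => ∫ r in Ioi s, g r) (Ioi 0)
  hk1 : ∫ s in Ioi (0 : ℝ), (∫ r in Ioi s, g r) = 1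
  hs1 : 0 < s1
  hs12 : s1 < s2
  hm0 : 0 < m0
  hgm : ∀ s ∈ Icc s1 s2, m0 ≤ g s

namespace Par
variable (P : Par)

def k (s : ℝ) : ℝ := ∫ r in Ioi s, P.g r
def k0 : ℝ := P.k 0
def d : ℝ := (P.s2 - P.s1) / 4
def N (M : ℝ) : ℝ := M ^ P.p
def bm (M : ℝ) : ℝ := sSup (P.b '' Icc 0 (P.N M))
/-- bound for the spread of velocities -/
def DV (M : ℝ) : ℝ := P.bm M * P.N M
/-- bound for the absolute value of the velocity -/
def Vm (M : ℝ) : ℝ := |P.Φ 0| + P.DV M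
/-- bound for `|v_x|` -/
def C0 (M : ℝ) : ℝ := P.bm M * P.k0 * P.N M
/-- bound for the rate factor -/
def Th (M : ℝ) : ℝ := P.p * P.bm M * P.N M
def E1 (M : ℝ) : ℝ := 2 * (P.Th M * P.k0) ^ 2 * P.N M
def C2 (M : ℝ) : ℝ := P.C0 M + 2 * P.Th M * P.k0
def C3 (M : ℝ) : ℝ := 2 * P.Vm M + P.Th M * (1 + P.k0 * P.DV M)
/-- Lipschitz constant of `z ↦ z^(1/p)` on `[0,N]` -/
def Lq (M : ℝ) : ℝ := (1 / P.p) * P.N M ^ (1 / P.p - 1)
/-- the local flux -/
def f (q : ℝ) : ℝ := q * P.Φ (q ^ P.p)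
/-- speed of the chain in the mass label -/
def lam (z : ℝ) : ℝ := P.p * P.b z * z * z ^ (1 / P.p)
def Strict (M : ℝ) : Prop := StrictMonoOn P.lam (Icc 0 (P.N M))
/-- admissible step size -/
def Small (M h : ℝ) : Prop := 0 < h ∧ h ≤ 1 ∧ P.Th M * P.k0 * h ≤ 1 / 2 ∧ P.C0 M * h ≤ 1 / 4
/-- noise of one step: relative time, jump length, acceptance variable -/
def noise : Measure (ℝ × ℝ × ℝ) :=
  (volume.restrict (Icc (0 : ℝ) 1)).prod
    (((ENNReal.ofReal P.k0)⁻¹ • volume.withDensity (fun s => ENNReal.ofReal (P.g s))).prod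
      (volume.restrict (Icc (0 : ℝ) 1)))

structure Facts (M : ℝ) : Prop where
  k_anti : Antitone P.k
  k_cont : Continuous P.k
  k_nonneg : ∀ s, 0 ≤ P.k s
  k_le : ∀ s, P.k s ≤ P.k0
  k0_pos : 0 < P.k0
  k_int : IntegrableOn P.k (Ioi 0)
  k_one : ∫ s in Ioi (0 : ℝ), P.k s = 1
  g_int : ∫ s in Ioi (0 : ℝ), P.g s = P.k0
  sg_int : IntegrableOn (fun s => s * P.g s) (Ioi 0)
  sg_one : ∫ s in Ioi (0 : ℝ), s * P.g s = 1
  k_sub : ∀ a c, P.k a - P.k c = ∫ s in a..c, P.g s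
  d_pos : 0 < P.d
  k_mid : P.m0 * (2 * P.d) ≤ P.k (P.s1 + 2 * P.d)
  tail : Tendsto (fun R => ∫ s in Ioi R, P.k s) atTop (𝓝 0)
  tail' : Tendsto (fun R => R * P.k R) atTop (𝓝 0)
  swap : ∀ w : ℝ → ℝ, Measurable w → (∃ C, ∀ x, |w x| ≤ C) →
    ∫ s in Ioi (0 : ℝ), P.g s * (∫ r in (0 : ℝ)..s, w r) = ∫ s in Ioi (0 : ℝ), P.k s * w s
  swap_trunc : ∀ w : ℝ → ℝ, Measurable w → (∃ C, ∀ x, |w x| ≤ C) → ∀ R, 0 ≤ R →
    ∫ s in (0 : ℝ)..R, P.g s * (∫ r in (0 : ℝ)..s, w r) = ∫ s in (0 : ℝ)..R, (P.k s - P.k R) * w s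
  N_pos : 0 < P.N M
  N_root : P.N M ^ (1 / P.p) = M
  bm_nonneg : 0 ≤ P.bm M
  b_le : ∀ z ∈ Icc 0 (P.N M), P.b z ≤ P.bm M
  Φ_anti : Antitone P.Φ
  Φ_cont : Continuous P.Φ
  Φ_lip : ∀ z ∈ Icc 0 (P.N M), ∀ z' ∈ Icc 0 (P.N M), |P.Φ z - P.Φ z'| ≤ P.bm M * |z - z'|
  b_pos : P.Strict M → ∀ z ∈ Ioc 0 (P.N M), 0 < P.b z
  b_low : P.Strict M → ∀ z0, 0 < z0 → ∃ b0, 0 < b0 ∧ ∀ z ∈ Icc z0 (P.N M), b0 ≤ P.b z
  Φ_lt : P.Strict M → ∀ z, 0 < z → P.Φ z < P.Φ 0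
  lam_cont : ContinuousOn P.lam (Icc 0 (P.N M))
  lam_gap : P.Strict M → ∀ δ, 0 < δ → ∃ c, 0 < c ∧ ∀ z ∈ Icc 0 (P.N M), ∀ z' ∈ Icc 0 (P.N M),
    z + δ ≤ z' → P.lam z + c ≤ P.lam z'
  root_lip : ∀ z ∈ Icc 0 (P.N M), ∀ z' ∈ Icc 0 (P.N M),
    |z ^ (1 / P.p) - z' ^ (1 / P.p)| ≤ P.Lq M * |z - z'|
  root_le : ∀ z ∈ Icc 0 (P.N M), z ^ (1 / P.p) ≤ P.N M ^ (1 / P.p - 1) * z
  le_root : ∀ δ : ℝ, 0 < δ → ∀ z : ℝ, 0 ≤ z → z ≤ δ + δ ^ (1 - 1 / P.p) * z ^ (1 / P.p)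
  f_cont : ContinuousOn P.f (Icc 0 M)
  f_meas : Measurable P.f
  f_abs : ∀ q ∈ Icc 0 M, |P.f q| ≤ M * P.Vm M
  small : ∃ h0, 0 < h0 ∧ ∀ h, 0 < h → h ≤ h0 → P.Small M h
  noise_prob : IsProbabilityMeasure P.noise

end Par

/-- Lagrangian description of a solution in microscopic units. -/
structure Lag (P : Par) (M : ℝ) where
  T : ℝ
  q0 : ℝ → ℝ
  X : ℝ → ℝ → ℝ
  Y : ℝ → ℝ → ℝ
  j : ℝ → ℝ → ℝ
  u : ℝ → ℝ → ℝ
  hT : 0 ≤ T
  q0_meas : Measurable q0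
  q0_nonneg : ∀ y, 0 ≤ q0 y
  q0_le : ∀ y, q0 y ≤ M
  X_cont : Continuous (Function.uncurry X)
  Y_cont : Continuous (Function.uncurry Y)
  XY : ∀ t x, X t (Y t x) = x
  YX : ∀ t y, Y t (X t y) = y
  X_zero : ∀ y, X 0 y = y
  j_meas : Measurable (Function.uncurry j)
  j_pos : ∀ t y, 0 < j t y
  j_zero : ∀ y, j 0 y = 1
  j_clamp : ∀ t y, j t y = j (max 0 (min t T)) y
  j_int : ∀ t y1 y2, IntervalIntegrable (j t) volume y1 y2
  X_sub : ∀ t y1 y2, X t y2 - X t y1 = ∫ y in y1..y2, j t y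
  u_meas : Measurable (Function.uncurry u)
  u_eq : ∀ t y, u t (X t y) = (q0 y / j t y) ^ P.p
  u_le : ∀ t x, u t x ≤ P.N M
  Z_cont : Continuous (fun z : ℝ × ℝ => ∫ s in Ioi (0 : ℝ), P.k s * u z.1 (z.2 + s))
  G_cont : Continuous (fun z : ℝ × ℝ => ∫ s in Ioi (0 : ℝ), P.g s * u z.1 (z.2 + s))
  X_deriv : ∀ y, ∀ t ∈ Icc 0 T, HasDerivWithinAt (fun τ => X τ y)
    (P.Φ (∫ s in Ioi (0 : ℝ), P.k s * u t (X t y + s))) (Icc 0 T) t
  j_deriv : ∀ y, ∀ t ∈ Icc 0 T, HasDerivWithinAt (fun τ => j τ y)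
    (j t y * (P.b (∫ s in Ioi (0 : ℝ), P.k s * u t (X t y + s)) *
      (P.k0 * u t (X t y) - ∫ s in Ioi (0 : ℝ), P.g s * u t (X t y + s)))) (Icc 0 T) t

/-- Killed random recursion: `A n` is the set of (state, noise) pairs that survive step `n`. -/
def evolve {S Ξ : Type} [MeasurableSpace S] [MeasurableSpace Ξ] (ν : Measure Ξ)
    (F : ℕ → S × Ξ → S) (A : ℕ → Set (S × Ξ)) (μ0 : Measure S) : ℕ → Measure S
  | 0 => μ0
  | n + 1 => (((evolve ν F A μ0 n).prod ν).restrict (A n)).map (F n)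

theorem evolve_finite {S Ξ : Type} [MeasurableSpace S] [MeasurableSpace Ξ] (ν : Measure Ξ)
    [IsFiniteMeasure ν] (F : ℕ → S × Ξ → S) (A : ℕ → Set (S × Ξ)) (μ0 : Measure S)
    [IsFiniteMeasure μ0] (n : ℕ) : IsFiniteMeasure (evolve ν F A μ0 n) := by
  induction n with
  | zero => simpa [evolve]
  | succ n ih => unfold evolve; infer_instance

theorem lintegral_evolve_succ {S Ξ : Type} [MeasurableSpace S] [MeasurableSpace Ξ]
    (ν : Measure Ξ) [SFinite ν] (F : ℕ → S × Ξ → S) (A : ℕ → Set (S × Ξ)) (μ0 : Measure S)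
    (n : ℕ) (hF : Measurable (F n)) (hA : MeasurableSet (A n)) (φ : S → ℝ≥0∞)
    (hφ : Measurable φ) :
    ∫⁻ s, φ s ∂(evolve ν F A μ0 (n + 1)) =
      ∫⁻ s, (∫⁻ ξ, (A n).indicator (fun z => φ (F n z)) (s, ξ) ∂ν) ∂(evolve ν F A μ0 n) := by
  have h1 : Measurable ((A n).indicator (fun z => φ (F n z))) := (hφ.comp hF).indicator hA
  rw [evolve, lintegral_map hφ hF, ← lintegral_indicator hA, lintegral_prod _ h1.aemeasurable]

namespace Lag
variable {P : Par} {M : ℝ} (L : Lag P M)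

def Z (t x : ℝ) : ℝ := ∫ s in Ioi (0 : ℝ), P.k s * L.u t (x + s)
def G (t x : ℝ) : ℝ := ∫ s in Ioi (0 : ℝ), P.g s * L.u t (x + s)
def v (t x : ℝ) : ℝ := P.Φ (L.Z t x)
def U (t y : ℝ) : ℝ := L.u t (L.X t y)
def q (t x : ℝ) : ℝ := L.u t x ^ (1 / P.p)
/-- mass label -/
def m (y : ℝ) : ℝ := ∫ y' in (0 : ℝ)..y, L.q0 y'
def Q (t x : ℝ) : ℝ := L.m (L.Y t x)
def rate (t y : ℝ) : ℝ := P.p * P.b (L.Z t (L.X t y)) * L.U t y
/-- expansion rate `b(Z) G` seen by particle `y` -/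
def bG (t y : ℝ) : ℝ := P.b (L.Z t (L.X t y)) * L.G t (L.X t y)
def jmp (t y s : ℝ) : ℝ := L.Y t (L.X t y + s)
/-- deficit of particle `y` against the free speed on `[t1,t2]` -/
def dfc (y t1 t2 : ℝ) : ℝ := P.Φ 0 * (t2 - t1) - (L.X t2 y - L.X t1 y)
/-- one backward step of the chain from time `t` to time `t - h` -/
def step (t h y : ℝ) (ξ : ℝ × ℝ × ℝ) : ℝ :=
  if ξ.2.2 < L.rate (t - h * ξ.1) y * P.k0 * h then L.jmp (t - h * ξ.1) y (max ξ.2.1 0) else y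
def Pop (t h : ℝ) (φ : ℝ → ℝ) (y : ℝ) : ℝ := ∫ ξ, φ (L.step t h y ξ) ∂P.noise
def Pit (h : ℝ) : ℕ → ℝ → (ℝ → ℝ) → ℝ → ℝ
  | 0, _, φ => φ
  | n + 1, t, φ => L.Pop t h (Pit h n (t - h) φ)
def law (t h : ℝ) (μ0 : Measure ℝ) (n : ℕ) : Measure ℝ :=
  evolve P.noise (fun i z => L.step (t - i * h) h z.1 z.2) (fun _ => univ) μ0 n
/-- uniform start on the set `H` of positions at time `t` -/
def start (t : ℝ) (H : Set ℝ) : Measure ℝ := (volume H)⁻¹ • (volume.restrict H).map (L.Y t)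
/-- second moment of `U` after `n` steps -/
def mom (t h : ℝ) (H : Set ℝ) (n : ℕ) : ℝ :=
  ∫ y, L.U (t - n * h) y ^ 2 ∂(L.law t h (L.start t H) n)
/-- conditional variation over `n` steps -/
def w (t h : ℝ) (n : ℕ) (y : ℝ) : ℝ :=
  L.Pit h n t (fun y' => (L.U (t - n * h) y' - L.U t y) ^ 2) y
/-- no vacuum on the rectangle `[t1,t2] × [a,c]` -/
def NV (ε ν t1 t2 a c : ℝ) : Prop :=
  ∀ τ ∈ Icc t1 t2, volume {x | x ∈ Icc a c ∧ L.u τ x < ε} ≤ ENNReal.ofReal ν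

structure Facts : Prop where
  u_nonneg : ∀ t x, 0 ≤ L.u t x
  Z_mem : ∀ t x, L.Z t x ∈ Icc 0 (P.N M)
  G_mem : ∀ t x, L.G t x ∈ Icc 0 (P.k0 * P.N M)
  q_mem : ∀ t x, L.q t x ∈ Icc 0 M
  q_pow : ∀ t x, L.q t x ^ P.p = L.u t x
  q_meas : Measurable (Function.uncurry L.q)
  U_meas : Measurable (Function.uncurry L.U)
  rate_meas : Measurable (Function.uncurry L.rate)
  rate_mem : ∀ t y, L.rate t y ∈ Icc 0 (P.Th M)
  bG_cont : Continuous (Function.uncurry L.bG)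
  bG_mem : ∀ t y, L.bG t y ∈ Icc 0 (P.C0 M)
  v_cont : Continuous (Function.uncurry L.v)
  v_mem : ∀ t x, L.v t x ∈ Icc (P.Φ 0 - P.DV M) (P.Φ 0)
  v_abs : ∀ t x, |L.v t x| ≤ P.Vm M
  X_mono : ∀ t, StrictMono (L.X t)
  Y_mono : ∀ t, StrictMono (L.Y t)
  cov : ∀ t, Measure.map (L.Y t) volume = volume.withDensity (fun y => ENNReal.ofReal (L.j t y))
  cov_int : ∀ t, ∀ φ : ℝ → ℝ, Measurable φ → (∃ C, ∀ x, |φ x| ≤ C) → ∀ y1 y2,
    ∫ x in L.X t y1..L.X t y2, φ x = ∫ y in y1..y2, φ (L.X t y) * L.j t y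
  qj : ∀ t y, L.q t (L.X t y) * L.j t y = L.q0 y
  u_zero : ∀ y, L.u 0 y = L.q0 y ^ P.p
  Z_sub : ∀ t x1 x2, L.Z t x2 - L.Z t x1 = ∫ x in x1..x2, (L.G t x - P.k0 * L.u t x)
  v_sub : ∀ t x1 x2, L.v t x2 - L.v t x1 =
    ∫ x in x1..x2, P.b (L.Z t x) * (P.k0 * L.u t x - L.G t x)
  m_mono : Monotone L.m
  m_cont : Continuous L.m
  Q_cont : Continuous (Function.uncurry L.Q)
  Q_X : ∀ t y, L.Q t (L.X t y) = L.m y
  Q_sub : ∀ t x1 x2, L.Q t x2 - L.Q t x1 = ∫ x in x1..x2, L.q t x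
  Q_time : ∀ t ∈ Icc 0 L.T, ∀ τ ∈ Icc 0 L.T, ∀ x, |L.Q t x - L.Q τ x| ≤ M * P.Vm M * |t - τ|
  X_int : ∀ y, ∀ t1 ∈ Icc 0 L.T, ∀ t2 ∈ Icc 0 L.T,
    L.X t2 y - L.X t1 y = ∫ τ in t1..t2, L.v τ (L.X τ y)
  X_lip : ∀ y, ∀ t ∈ Icc 0 L.T, ∀ τ ∈ Icc 0 L.T, |L.X t y - L.X τ y| ≤ P.Vm M * |t - τ|
  U_cont : ∀ y, ContinuousOn (fun t => L.U t y) (Icc 0 L.T)
  logj : ∀ y, ∀ t1 ∈ Icc 0 L.T, ∀ t2 ∈ Icc 0 L.T, Real.log (L.j t2 y) - Real.log (L.j t1 y) =
    ∫ τ in t1..t2, (P.b (L.Z τ (L.X τ y)) * (P.k0 * L.U τ y) - L.bG τ y)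
  j_ratio : ∀ y, ∀ t ∈ Icc 0 L.T, ∀ τ ∈ Icc 0 L.T,
    L.j t y ≤ Real.exp (P.C0 M * |t - τ|) * L.j τ y
  U_deriv : ∀ y, ∀ t ∈ Icc 0 L.T, HasDerivWithinAt (fun τ => L.U τ y)
    (L.rate t y * (L.G t (L.X t y) - P.k0 * L.U t y)) (Icc 0 L.T) t
  U_int : ∀ y, ∀ t1 ∈ Icc 0 L.T, ∀ t2 ∈ Icc 0 L.T, L.U t2 y - L.U t1 y =
    ∫ τ in t1..t2, L.rate τ y * (L.G τ (L.X τ y) - P.k0 * L.U τ y)
  U_lip : ∀ y, ∀ t ∈ Icc 0 L.T, ∀ τ ∈ Icc 0 L.T,
    |L.U t y - L.U τ y| ≤ P.Th M * P.k0 * P.N M * |t - τ|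
  U_ratio : ∀ y, ∀ t ∈ Icc 0 L.T, ∀ τ ∈ Icc 0 L.T,
    L.U t y ≤ Real.exp (P.C0 M * |t - τ|) * L.U τ y
  dist_mul : ∀ y1 y2, y1 ≤ y2 → ∀ t ∈ Icc 0 L.T, ∀ τ ∈ Icc 0 L.T,
    L.X τ y2 - L.X τ y1 ≤ Real.exp (P.C0 M * |t - τ|) * (L.X t y2 - L.X t y1)
  dist_add : ∀ y1 y2, ∀ t ∈ Icc 0 L.T, ∀ τ ∈ Icc 0 L.T,
    L.X τ y2 - L.X τ y1 ≤ L.X t y2 - L.X t y1 + P.DV M * |t - τ|
  dfc_int : ∀ y, ∀ t1 ∈ Icc 0 L.T, ∀ t2 ∈ Icc 0 L.T,
    L.dfc y t1 t2 = ∫ τ in t1..t2, (P.Φ 0 - L.v τ (L.X τ y))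
  dfc_mem : ∀ y, ∀ t1 t2, 0 ≤ t1 → t1 ≤ t2 → t2 ≤ L.T →
    L.dfc y t1 t2 ∈ Icc 0 (P.DV M * (t2 - t1))

/-- One-step facts of the chain. -/
structure Step : Prop where
  step_meas : ∀ t h, Measurable (fun z : ℝ × (ℝ × ℝ × ℝ) => L.step t h z.1 z.2)
  jmp_cont : Continuous (fun z : ℝ × ℝ × ℝ => L.jmp z.1 z.2.1 z.2.2)
  le_step : ∀ t h y ξ, y ≤ L.step t h y ξ
  lint : ∀ t h, P.Small M h → ∀ y, ∀ φ : ℝ → ℝ≥0∞, Measurable φ →
    ∫⁻ ξ, φ (L.step t h y ξ) ∂P.noise =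
      ENNReal.ofReal (1 - P.k0 * ∫ τ in (t - h)..t, L.rate τ y) * φ y +
        ∫⁻ τ in Ioc (t - h) t, ENNReal.ofReal (L.rate τ y) *
          ∫⁻ s in Ioi (0 : ℝ), ENNReal.ofReal (P.g s) * φ (L.jmp τ y s)
  Pop_eq : ∀ t h, P.Small M h → ∀ y, ∀ φ : ℝ → ℝ, Measurable φ → (∃ C, ∀ x, |φ x| ≤ C) →
    L.Pop t h φ y = φ y + ∫ τ in (t - h)..t, L.rate τ y *
      ∫ s in Ioi (0 : ℝ), P.g s * (φ (L.jmp τ y s) - φ y)
  Pop_meas : ∀ t h, ∀ φ : ℝ → ℝ, Measurable φ → Measurable (L.Pop t h φ)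
  Pit_meas : ∀ h n t, ∀ φ : ℝ → ℝ, Measurable φ → Measurable (L.Pit h n t φ)
  Pit_mem : ∀ h n t a c, ∀ φ : ℝ → ℝ, Measurable φ → (∀ x, φ x ∈ Icc a c) →
    ∀ y, L.Pit h n t φ y ∈ Icc a c
  Pit_mono : ∀ h n t, ∀ φ ψ : ℝ → ℝ, Measurable φ → Measurable ψ → (∃ C, ∀ x, |φ x| ≤ C) →
    (∃ C, ∀ x, |ψ x| ≤ C) → (∀ x, φ x ≤ ψ x) → ∀ y, L.Pit h n t φ y ≤ L.Pit h n t ψ y
  Pit_lin : ∀ h n t a c e, ∀ φ ψ : ℝ → ℝ, Measurable φ → Measurable ψ → (∃ C, ∀ x, |φ x| ≤ C) →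
    (∃ C, ∀ x, |ψ x| ≤ C) → ∀ y, L.Pit h n t (fun x => a * φ x + c * ψ x + e) y =
      a * L.Pit h n t φ y + c * L.Pit h n t ψ y + e
  Pit_succ : ∀ h n t, ∀ φ : ℝ → ℝ,
    L.Pit h (n + 1) t φ = L.Pit h n t (L.Pop (t - n * h) h φ)
  w_meas : ∀ t h n, Measurable (L.w t h n)
  w_mem : ∀ t h n y, L.w t h n y ∈ Icc 0 (P.N M ^ 2)
  mart : ∀ t h, P.Small M h → h ≤ t → t ≤ L.T → ∀ y,
    |L.Pop t h (L.U (t - h)) y - L.U t y| ≤ P.E1 M * h ^ 2
  mart_it : ∀ h (n : ℕ) t, P.Small M h → n * h ≤ t → t ≤ L.T → ∀ y,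
    |L.Pit h n t (L.U (t - n * h)) y - L.U t y| ≤ n * (P.E1 M * h ^ 2)
  leb : ∀ t h, P.Small M h → h ≤ t → t ≤ L.T → ∀ A : Set ℝ, MeasurableSet A → ∀ r, 0 ≤ r →
    (∀ y ∈ A, ∀ τ ∈ Icc (t - h) t, L.rate τ y ≤ r) → ∀ φ : ℝ → ℝ≥0∞, Measurable φ →
    ∫⁻ y in A, (∫⁻ ξ, φ (L.step t h y ξ) ∂P.noise) * ENNReal.ofReal (L.j (t - h) y) ≤
      ENNReal.ofReal (1 + 2 * r * P.k0 * h) * ∫⁻ y, φ y * ENNReal.ofReal (L.j (t - h) y)
  disp : ∀ t h, P.Small M h → h ≤ t → t ≤ L.T → ∀ y r,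
    (∀ τ ∈ Icc (t - h) t, L.rate τ y ≤ r) →
    ∫⁻ ξ, ENNReal.ofReal (L.X (t - h) (L.step t h y ξ) - L.X (t - h) y) ∂P.noise ≤
      ENNReal.ofReal (r * h * (1 + P.k0 * P.DV M))
  jump_prob : ∀ t h, P.Small M h → ∀ y r, (∀ τ ∈ Icc (t - h) t, L.rate τ y ≤ r) →
    P.noise {ξ | L.step t h y ξ ≠ y} ≤ ENNReal.ofReal (r * P.k0 * h)
  cross : ∀ t h, P.Small M h → h ≤ t → t ≤ L.T → ∀ y y', y ≤ y' →
    P.noise {ξ | y' < L.step t h y ξ} ≤
      ENNReal.ofReal (P.Th M * h * P.k (L.X t y' - L.X t y - P.DV M * h))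

/-- Facts on the law of the chain. -/
structure Law : Prop where
  prob : ∀ t h μ0, IsProbabilityMeasure μ0 → ∀ n, IsProbabilityMeasure (L.law t h μ0 n)
  start_prob : ∀ t H, MeasurableSet H → volume H ≠ 0 → volume H ≠ ∞ →
    IsProbabilityMeasure (L.start t H)
  start_ae : ∀ t H, MeasurableSet H → ∀ᵐ y ∂(L.start t H), L.X t y ∈ H
  succ : ∀ t h μ0 (n : ℕ), ∀ φ : ℝ → ℝ≥0∞, Measurable φ →
    ∫⁻ y, φ y ∂(L.law t h μ0 (n + 1)) =
      ∫⁻ y, (∫⁻ ξ, φ (L.step (t - n * h) h y ξ) ∂P.noise) ∂(L.law t h μ0 n)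
  add : ∀ t h μ0, IsFiniteMeasure μ0 → ∀ n n' : ℕ, ∀ φ : ℝ → ℝ, Measurable φ →
    (∃ C, ∀ x, |φ x| ≤ C) →
    ∫ y, φ y ∂(L.law t h μ0 (n + n')) = ∫ y, L.Pit h n' (t - n * h) φ y ∂(L.law t h μ0 n)
  mass : ∀ t h μ0 n, L.law t h μ0 n univ = μ0 univ
  ge : ∀ t h μ0 a, (∀ᵐ y ∂μ0, a ≤ y) → ∀ n, ∀ᵐ y ∂(L.law t h μ0 n), a ≤ y
  dens : ∀ t h (n : ℕ), P.Small M h → n * h ≤ t → t ≤ L.T → ∀ H : Set ℝ, ∀ c : ℝ≥0∞,
    ∀ φ : ℝ → ℝ≥0∞, Measurable φ →
    ∫⁻ y, φ y ∂(L.law t h (c • (volume.restrict H).map (L.Y t)) n) ≤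
      c * ENNReal.ofReal (Real.exp (P.C2 M * (n * h))) * ∫⁻ x, φ (L.Y (t - n * h) x)
  left : ∀ (t h : ℝ) (n : ℕ) μ0 (a : ℝ), 0 < h → n * h ≤ t → t ≤ L.T → (∀ᵐ y ∂μ0, a ≤ L.X t y) →
    ∀ᵐ y ∂(L.law t h μ0 n), a - P.Vm M * (n * h) ≤ L.X (t - n * h) y
  right : ∀ t h (n : ℕ) μ0 c ρ, P.Small M h → n * h ≤ t → t ≤ L.T → 0 < ρ →
    (∀ᵐ y ∂μ0, L.X t y ≤ c) →
    L.law t h μ0 n {y | c + ρ < L.X (t - n * h) y} ≤
      μ0 univ * ENNReal.ofReal (P.C3 M * (n * h) / ρ)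
  mean : ∀ t h (n : ℕ) μ0, IsProbabilityMeasure μ0 → P.Small M h → n * h ≤ t → t ≤ L.T →
    |∫ y, L.U (t - n * h) y ∂(L.law t h μ0 n) - ∫ y, L.U t y ∂μ0| ≤ n * (P.E1 M * h ^ 2)
  mom_mem : ∀ t h H n, IsProbabilityMeasure (L.start t H) → L.mom t h H n ∈ Icc 0 (P.N M ^ 2)
  one : ∀ t h H (n : ℕ), IsProbabilityMeasure (L.start t H) → P.Small M h → (n + 1) * h ≤ t →
    t ≤ L.T → ∫ y, L.w (t - n * h) h 1 y ∂(L.law t h (L.start t H) n) ≤
      L.mom t h H (n + 1) - L.mom t h H n + 2 * P.N M * (P.E1 M * h ^ 2)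
  wsum : ∀ t h H (n1 n2 l : ℕ), IsProbabilityMeasure (L.start t H) → P.Small M h →
    n1 + l ≤ n2 → n2 * h ≤ t → t ≤ L.T →
    ∑ n ∈ Finset.Ico n1 (n2 - l), ∫ y, L.w (t - n * h) h l y ∂(L.law t h (L.start t H) n) ≤
      l * (L.mom t h H n2 - L.mom t h H n1 + 4 * P.N M * (n2 * (P.E1 M * h ^ 2)))

end Lag

/-! Rows, part 0: basic facts. -/

def ParFactsS : Prop := ∀ (P : Par) (M : ℝ), 0 < M → P.Facts M
def LagFactsS : Prop := ∀ (P : Par) (M : ℝ) (L : Lag P M), 0 < M → L.Facts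
def StepS : Prop := ∀ (P : Par) (M : ℝ) (L : Lag P M), 0 < M → L.Step
def LawS : Prop := ∀ (P : Par) (M : ℝ) (L : Lag P M), 0 < M → L.Law
/-- All basic facts together; every later row may assume it. -/
def Basic : Prop := ParFactsS ∧ LagFactsS ∧ StepS ∧ LawS

/-! Rows, part C: vacuum exclusion. -/

def SparseS : Prop := ∀ (P : Par) (M : ℝ) (L : Lag P M), 0 < M → ∀ t x1 x2 z, x1 ≤ x2 → 0 < z →
  ∫ x in x1..x2, (if L.Z t x < z then L.u t x else 0) ≤ z / P.k P.d * ((x2 - x1) / P.d + 1)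

def DefS : Prop := ∀ (P : Par) (M : ℝ), 0 < M → P.Strict M → ∀ θ, 0 < θ →
  ∃ κ0, 0 < κ0 ∧ ∀ κ S, 0 < κ → κ ≤ κ0 → 1 ≤ κ * S → ∀ (L : Lag P M) (τ y : ℝ), S ≤ τ → τ ≤ L.T →
    L.dfc y (τ - S) τ ≤ κ * S → L.Q τ (L.X τ y) - L.Q τ (L.X τ y - κ * S) ≤ θ * (κ * S)

def GapP (P : Par) (M l γ : ℝ) : Prop := ∀ B0 : ℝ, ∃ B, B0 ≤ B ∧ 0 < B ∧ ∃ μ, 0 < μ ∧
  ∀ (L : Lag P M) (τ x : ℝ), B ≤ τ → τ ≤ L.T → L.Q τ (x + l) - L.Q τ x ≤ μ →
    L.dfc (L.Y τ x) (τ - B) τ ≤ γ * B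

/-- the width of a label interval of small mass almost never shrinks backward in time -/
def WidthS : Prop := ∀ (P : Par) (M : ℝ), 0 < M → ∀ B e, 0 < B → 0 < e → ∃ μ, 0 < μ ∧
  ∀ (L : Lag P M) (y1 y2 τ σ : ℝ), y1 ≤ y2 → L.m y2 - L.m y1 ≤ μ → 0 ≤ σ → σ ≤ τ → τ ≤ L.T →
    τ - σ ≤ B → (1 - e) * (L.X τ y2 - L.X τ y1) - e ≤ L.X σ y2 - L.X σ y1

def GapBaseS : Prop := ∀ (P : Par) (M : ℝ), 0 < M → ∀ γ, 0 < γ → ∃ l, P.d ≤ l ∧ GapP P M l γ

def GapStepS : Prop := ∀ (P : Par) (M : ℝ), 0 < M → P.Strict M → ∀ l γ e, P.d ≤ l → 0 < γ →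
  0 < e → GapP P M (l + P.d) γ → GapP P M l (γ + e)

def GapBlockS : Prop := ∀ (P : Par) (M : ℝ), 0 < M → P.Strict M → ∀ γ, 0 < γ →
  ∃ B K, 2 ≤ B ∧ 0 < K ∧ ∀ (L : Lag P M) (y t1 t2 : ℝ), B ≤ t1 → t2 ≤ L.T → B / 2 ≤ t2 - t1 →
    t2 - t1 ≤ B → L.dfc y t1 t2 ≤ K * (∫ τ in t1..t2, L.bG τ y) + γ * (t2 - t1)

def VacS : Prop := ∀ (P : Par) (M : ℝ), 0 < M → P.Strict M → ∀ γ0, 0 < γ0 →
  ∃ ε1 c S0, 0 < ε1 ∧ 0 < c ∧ ∀ (L : Lag P M) (S τ a a' : ℝ), S0 ≤ S → 2 * S ≤ τ → τ ≤ L.T →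
    a ≤ a' → (∀ x ∈ Icc a a', γ0 * S ≤ L.dfc (L.Y τ x) (τ - S) τ) →
    volume {x | x ∈ Icc a a' ∧ L.u τ x < ε1} ≤ ENNReal.ofReal (Real.exp (-c * S) * (a' - a + S))

/-! Rows, part D: tubes. -/

def NVZS : Prop := ∀ (P : Par) (M : ℝ), 0 < M → ∀ ε1, 0 < ε1 → ∃ RZ ν0, 0 < RZ ∧ 0 < ν0 ∧
  ∀ (L : Lag P M) (τ x : ℝ),
    volume {x' | x' ∈ Icc x (x + RZ) ∧ L.u τ x' < ε1} ≤ ENNReal.ofReal ν0 →
    ε1 / 2 ≤ L.Z τ x ∧ ε1 ^ (1 / P.p) * P.s1 / 2 ≤ L.Q τ (x + P.s1) - L.Q τ x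

def HarS : Prop := ∀ (P : Par) (M : ℝ), 0 < M → P.Strict M → ∃ D1, 0 < D1 ∧
  ∀ ε1 T0 R' e, 0 < ε1 → 1 ≤ T0 → D1 ≤ R' → 0 < e → ∃ R3 ν0 e' h0, 0 < ν0 ∧ 0 < e' ∧ 0 < h0 ∧
    ∀ (L : Lag P M) (t h y : ℝ) (n : ℕ), 0 < h → h ≤ h0 → T0 ≤ n * h → n * h ≤ T0 + 1 →
      n * h ≤ t → t ≤ L.T → L.NV ε1 ν0 (t - n * h) t (L.X t y - R3) (L.X t y + R3) →
      ε1 ≤ L.U t y → L.w t h n y ≤ e' →
      ∫ s in D1..R', |L.u (t - n * h) (L.X (t - n * h) y + s) - L.U t y| ≤ e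

/-- progress of the chain in the mass label, for a Lebesgue start on `[x, x+R]` -/
def ProgS : Prop := ∀ (P : Par) (M : ℝ), 0 < M → P.Strict M → ∀ ε1 R D e, 0 < ε1 → 0 < R →
  0 < D → 0 < e → ∃ T0, 1 ≤ T0 ∧ ∃ R3 ν0 h0, 0 < ν0 ∧ 0 < h0 ∧
    ∀ (L : Lag P M) (t h y : ℝ) (n : ℕ), 0 < h → h ≤ h0 → T0 ≤ n * h → n * h ≤ T0 + 1 →
      n * h ≤ t → t ≤ L.T → L.NV ε1 ν0 (t - n * h) t (L.X t y - R3) (L.X t y + R3) →
      L.law t h ((volume.restrict (Icc (L.X t y) (L.X t y + R))).map (L.Y t)) n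
        {y' | L.m y' - L.m y < D} ≤ ENNReal.ofReal e

def TubeS : Prop := ∀ (P : Par) (M : ℝ), 0 < M → P.Strict M → ∀ ε1 R e, 0 < ε1 → 0 < R → 0 < e →
  ∃ T0, 1 ≤ T0 ∧ ∃ R3 ν0 e' h0, 0 < ν0 ∧ 0 < e' ∧ 0 < h0 ∧
    ∀ (L : Lag P M) (t h y : ℝ) (n : ℕ), 0 < h → h ≤ h0 → T0 ≤ n * h → n * h ≤ T0 + 1 →
      n * h ≤ t → t ≤ L.T → L.NV ε1 ν0 (t - n * h) t (L.X t y - R3) (L.X t y + R3) →
      ε1 ≤ L.U t y → L.w t h n y ≤ e' →
      ∀ τ ∈ Icc (t - h) t, ∫ s in (0 : ℝ)..R, |L.u τ (L.X τ y + s) - L.U t y| ≤ e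

/-- label drift of one step at a state with a tube, from above and (short jumps only) from below -/
def DriftS : Prop := ∀ (P : Par) (M : ℝ), 0 < M → ∀ e, 0 < e → ∃ R0, 4 ≤ R0 ∧ ∀ R, R0 ≤ R →
  ∃ e' h0, 0 < e' ∧ 0 < h0 ∧ ∀ (L : Lag P M) (t h y : ℝ), 0 < h → h ≤ h0 → h ≤ t → t ≤ L.T →
    (∀ τ ∈ Icc (t - h) t, ∫ s in (0 : ℝ)..R, |L.u τ (L.X τ y + s) - L.U t y| ≤ e') →
    (∫⁻ ξ, ENNReal.ofReal (L.m (L.step t h y ξ) - L.m y) ∂P.noise ≤
        ENNReal.ofReal (h * (P.lam (L.U t y) + e))) ∧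
      ∀ y', L.X t y + R / 2 ≤ L.X t y' →
        ENNReal.ofReal (h * (P.lam (L.U t y) - e)) ≤
          ∫⁻ ξ in {ξ | L.step t h y ξ ≤ y'}, ENNReal.ofReal (L.m (L.step t h y ξ) - L.m y) ∂P.noise

/-- label drift of one step at any state -/
def DriftAnyS : Prop := ∀ (P : Par) (M : ℝ) (L : Lag P M) (t h y : ℝ), 0 < M → P.Small M h →
  ∫⁻ ξ, ENNReal.ofReal (L.m (L.step t h y ξ) - L.m y) ∂P.noise ≤ ENNReal.ofReal (h * (P.Th M * M))

/-! Rows, parts E and F. -/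

/-- the core of the pair argument, started at step `n1` from a sub-probability `μ` on ordered pairs -/
def PairCoreS : Prop := ∀ (P : Par) (M : ℝ), 0 < M → P.Strict M → ∀ gap ε1 π0 K, 0 < gap →
  0 < ε1 → 0 < π0 → 1 ≤ K → ∃ K3 K4 eQ ν0 s0, 2 ≤ K3 ∧ 0 < K4 ∧ 0 < eQ ∧ 0 < ν0 ∧ 1 ≤ s0 ∧
    ∀ s, s0 ≤ s → ∃ h0, 0 < h0 ∧ ∀ (L : Lag P M) (t h α β x1 : ℝ) (n1 n2 : ℕ) (H H' : Set ℝ)
      (μ : Measure (ℝ × ℝ)), 0 < h → h ≤ h0 → n1 * h ≤ s + 1 → K3 * s ≤ n2 * h →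
      n2 * h ≤ K3 * s + 1 → n2 * h ≤ t → t ≤ L.T → α + gap ≤ β →
      IsProbabilityMeasure (L.start t H) → IsProbabilityMeasure (L.start t H') →
      μ ≤ (L.law t h (L.start t H) n1).prod (L.law t h (L.start t H') n1) →
      ENNReal.ofReal π0 ≤ μ univ →
      (∀ᵐ z ∂μ, z.1 ≤ z.2 ∧ β ≤ L.U (t - n1 * h) z.1 ∧ ε1 ≤ L.U (t - n1 * h) z.2 ∧
        L.U (t - n1 * h) z.2 ≤ α ∧ x1 ≤ L.X (t - n1 * h) z.1 ∧
        L.X (t - n1 * h) z.2 ≤ x1 + K * s) →
      L.NV ε1 ν0 (t - n2 * h) t (x1 - K4 * s) (x1 + K4 * s) →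
      L.mom t h H n2 - L.mom t h H n1 ≤ eQ → L.mom t h H' n2 - L.mom t h H' n1 ≤ eQ → False

def PairS : Prop := ∀ (P : Par) (M : ℝ), 0 < M → P.Strict M → ∀ gap, 0 < gap →
  ∃ K1, 1 ≤ K1 ∧ ∀ ε1 K2, 0 < ε1 → K1 ≤ K2 →
    ∃ K3 K4 eQ ν0 s0, 2 ≤ K3 ∧ 0 < K4 ∧ 0 < eQ ∧ 0 < ν0 ∧ 1 ≤ s0 ∧
    ∀ s, s0 ≤ s → ∃ h0, 0 < h0 ∧ ∀ (L : Lag P M) (t h α β x1 x2 ρ ν : ℝ) (n1 n2 : ℕ)
      (H H' : Set ℝ), 0 < h → h ≤ h0 → s ≤ n1 * h → n1 * h ≤ s + 1 → K3 * s ≤ n2 * h →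
      n2 * h ≤ K3 * s + 1 → n2 * h ≤ t → t ≤ L.T → α + gap ≤ β →
      MeasurableSet H → MeasurableSet H' → H ⊆ Icc x1 (x1 + s) → H' ⊆ Icc x2 (x2 + s) →
      0 < ρ → ENNReal.ofReal ρ ≤ volume H → ENNReal.ofReal ρ ≤ volume H' →
      (∀ x ∈ H, β ≤ L.u t x) → (∀ x ∈ H', L.u t x ≤ α) →
      K1 * s ≤ x2 - x1 → x2 - x1 ≤ K2 * s →
      L.NV ε1 ν (t - n2 * h) t (x1 - K4 * s) (x1 + K4 * s) → 0 ≤ ν → ν ≤ ν0 →
      ν * Real.exp (P.C2 M * (s + 1)) ≤ ν0 * ρ →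
      L.mom t h H n2 - L.mom t h H n1 ≤ eQ → L.mom t h H' n2 - L.mom t h H' n1 ≤ eQ → False

/-- block `[x, x+l]` is bad at levels `α < β` -/
def Lag.BadBlock {P : Par} {M : ℝ} (L : Lag P M) (t α β ρ x l : ℝ) : Prop :=
  ENNReal.ofReal (ρ * l) ≤ volume {x' | x' ∈ Icc x (x + l) ∧ L.u t x' ≤ α} ∧
    ENNReal.ofReal (ρ * l) ≤ volume {x' | x' ∈ Icc x (x + l) ∧ β ≤ L.u t x'}

open Classical in
/-- few bad blocks in a region without vacuum -/
def FewS : Prop := ∀ (P : Par) (M : ℝ), 0 < M → P.Strict M → ∀ gap ρ δ ε1, 0 < gap → 0 < ρ →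
  0 < δ → 0 < ε1 → ∃ (nb : ℕ) (K5 ν0 l0 : ℝ), 0 < nb ∧ 0 < K5 ∧ 0 < ν0 ∧ 0 < l0 ∧
    ∀ (L : Lag P M) (t l x α β ν : ℝ), l0 ≤ l → K5 * l ≤ t → t ≤ L.T → α + gap ≤ β → 0 ≤ ν →
      ν * Real.exp (K5 * l) ≤ ν0 →
      L.NV ε1 ν (t - K5 * l) t (x - K5 * l) (x + K5 * l) →
      (((Finset.range nb).filter (fun i : ℕ => L.BadBlock t α β ρ (x + i * l) l)).card : ℝ) ≤ δ * nb

/-- in a region without vacuum a superblock has small block oscillation -/
def DenseS : Prop := ∀ (P : Par) (M : ℝ), 0 < M → P.Strict M → ∀ e ε1, 0 < e → 0 < ε1 →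
  ∃ (nb : ℕ) (K5 ν0 l0 : ℝ), 0 < nb ∧ 0 < K5 ∧ 0 < ν0 ∧ 0 < l0 ∧
    ∀ (L : Lag P M) (t l x ν : ℝ), l0 ≤ l → K5 * l ≤ t → t ≤ L.T → 0 ≤ ν →
      ν * Real.exp (K5 * l) ≤ ν0 →
      L.NV ε1 ν (t - K5 * l) t (x - K5 * l) (x + K5 * l) →
      ∃ c : ℕ → ℝ, (∀ i, c i ∈ Icc 0 (P.N M)) ∧
        ∑ i ∈ Finset.range nb, ∫ x' in (x + i * l)..(x + (i + 1) * l), |L.u t x' - c i| ≤ e * (nb * l)

/-- block oscillation bound for a function `w` on `[x0, x0+S]` cut into `K` blocks -/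
def OscP (w : ℝ → ℝ) (lo hi : ℝ) (K : ℕ) (x0 S e : ℝ) : Prop :=
  ∃ c : ℕ → ℝ, (∀ i, c i ∈ Icc lo hi) ∧
    ∑ i ∈ Finset.range K, ∫ x in (x0 + i * (S / K))..(x0 + (i + 1) * (S / K)), |w x - c i| ≤ e * S

def OscS : Prop := ∀ (P : Par) (M : ℝ), 0 < M → P.Strict M → ∀ e, 0 < e →
  ∃ (K : ℕ) (S0 : ℝ), 0 < K ∧ ∀ (L : Lag P M) (S t x0 : ℝ), S0 ≤ S → S ≤ t → t ≤ L.T →
    OscP (L.u t) 0 (P.N M) K x0 S e

def FluxS : Prop := ∀ (P : Par) (M : ℝ), 0 < M → ∀ e (K : ℕ), 0 < e → 0 < K → ∃ S0,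
  ∀ (L : Lag P M) (S t x0 : ℝ), S0 ≤ S → OscP (L.u t) 0 (P.N M) K x0 S e →
    ∫ x in x0..(x0 + S), |L.v t x * L.q t x - P.f (L.q t x)| ≤ 3 * M * P.bm M * e * S

def InitS : Prop := ∀ (P : Par) (M : ℝ) (L : Lag P M), 0 < M → ∀ t x r lo hi, 0 ≤ t → t ≤ L.T →
  0 < r → (∀ y ∈ Icc (x - P.Vm M * t) (x + r), lo ≤ L.q0 y ^ P.p ∧ L.q0 y ^ P.p ≤ hi) →
    lo - P.N M * P.C3 M * t / r ≤ L.u t x ∧ L.u t x ≤ hi + P.N M * P.C3 M * t / r

def MaxS : Prop := ∀ (P : Par) (B M : ℝ) (L : Lag P B), 0 < B → 0 < M → (∀ y, L.q0 y ≤ M) →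
  ∀ t x, L.u t x ≤ P.N M

/-! Rows, part G: potentials and identification. -/

structure Pot (T C : ℝ) (q F Q : ℝ → ℝ → ℝ) : Prop where
  q_meas : Measurable (Function.uncurry q)
  F_meas : Measurable (Function.uncurry F)
  bdd : ∀ t ∈ Icc 0 T, ∀ᵐ x, |q t x| ≤ C ∧ |F t x| ≤ C
  Qx : ∀ t ∈ Icc 0 T, ∀ x1 x2, Q t x2 - Q t x1 = ∫ x in x1..x2, q t x
  Qt : ∀ t1 ∈ Icc 0 T, ∀ t2 ∈ Icc 0 T, ∀ x1 x2,
    ∫ x in x1..x2, (Q t2 x - Q t1 x) = -∫ t in t1..t2, ∫ x in x1..x2, F t x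
  lip : ∀ t1 ∈ Icc 0 T, ∀ t2 ∈ Icc 0 T, ∀ x, |Q t2 x - Q t1 x| ≤ C * |t2 - t1|

/-- time differences against one test function of `x` -/
def SliceS : Prop := ∀ (T C : ℝ) (q0 : ℝ → ℝ) (q F : ℝ → ℝ → ℝ), 0 < T →
  Measurable (Function.uncurry q) → Measurable (Function.uncurry F) →
  (∀ t ∈ Icc 0 T, ∀ᵐ x, |q t x| ≤ C ∧ |F t x| ≤ C) → Measurable q0 → (∀ x, |q0 x| ≤ C) →
  ContL1 T q → WeakId T q0 q F → ∀ ζ : ℝ → ℝ, ContDiff ℝ 1 ζ → HasCompactSupport ζ →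
    ∀ t ∈ Icc 0 T, ∫ x, ζ x * q t x = (∫ x, ζ x * q0 x) + ∫ τ in (0 : ℝ)..t, ∫ x, deriv ζ x * F τ x

def PotS : Prop := ∀ (T C : ℝ) (q0 : ℝ → ℝ) (q F : ℝ → ℝ → ℝ), 0 < T →
  Measurable (Function.uncurry q) → Measurable (Function.uncurry F) →
  (∀ t ∈ Icc 0 T, ∀ᵐ x, |q t x| ≤ C ∧ |F t x| ≤ C) → Measurable q0 → (∀ x, |q0 x| ≤ C) →
  ContL1 T q → WeakId T q0 q F →
    ∃ Q, Pot T C q F Q ∧ Q 0 0 = 0 ∧ ∀ᵐ x, q 0 x = q0 x

def ConvS : Prop := ∀ (κ : ℝ → ℝ) (w : ℝ → ℝ → ℝ) (C : ℝ), IntegrableOn κ (Ioi 0) →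
  Measurable (Function.uncurry w) → (∀ t x, |w t x| ≤ C) →
  (∀ a c t0, Tendsto (fun t => ∫ x in Icc a c, |w t x - w t0 x|) (𝓝 t0) (𝓝 0)) →
    Continuous (fun z : ℝ × ℝ => ∫ s in Ioi (0 : ℝ), κ s * w z.1 (z.2 + s))

structure Flow (T K : ℝ) (v X Y : ℝ → ℝ → ℝ) : Prop where
  X_cont : Continuous (Function.uncurry X)
  Y_cont : Continuous (Function.uncurry Y)
  XY : ∀ t x, X t (Y t x) = x
  YX : ∀ t y, Y t (X t y) = y
  X_zero : ∀ y, X 0 y = y
  clamp : ∀ t y, X t y = X (max 0 (min t T)) y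
  deriv : ∀ y, ∀ t ∈ Icc 0 T, HasDerivWithinAt (fun τ => X τ y) (v t (X t y)) (Icc 0 T) t
  lower : ∀ t y1 y2, y1 ≤ y2 → Real.exp (-(K * T)) * (y2 - y1) ≤ X t y2 - X t y1
  upper : ∀ t y1 y2, y1 ≤ y2 → X t y2 - X t y1 ≤ Real.exp (K * T) * (y2 - y1)

def FlowS : Prop := ∀ (T K : ℝ) (v : ℝ → ℝ → ℝ), 0 ≤ T → 0 ≤ K →
  Continuous (Function.uncurry v) → (∀ t x, |v t x| ≤ K) →
  (∀ t x x', |v t x - v t x'| ≤ K * |x - x'|) → ∃ X Y, Flow T K v X Y

def ConstS : Prop := ∀ (T K C : ℝ) (q v Q X Y : ℝ → ℝ → ℝ), 0 ≤ T → 0 ≤ K →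
  Continuous (Function.uncurry v) → (∀ t x, |v t x| ≤ K) →
  (∀ t x x', |v t x - v t x'| ≤ K * |x - x'|) → Flow T K v X Y →
  Pot T C q (fun t x => v t x * q t x) Q → ∀ t ∈ Icc 0 T, ∀ y, Q t (X t y) = Q 0 y

/-- change of variables for an increasing bijection given by a density -/
def CovS : Prop := ∀ (X Y j : ℝ → ℝ), Continuous Y → (∀ x, X (Y x) = x) → (∀ y, Y (X y) = y) →
  StrictMono X → Measurable j → (∀ᵐ y, 0 ≤ j y) → (∀ a c, IntervalIntegrable j volume a c) →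
  (∀ a c, X c - X a = ∫ y in a..c, j y) →
    Measure.map Y volume = volume.withDensity (fun y => ENNReal.ofReal (j y)) ∧
    ∀ φ : ℝ → ℝ, Measurable φ → (∃ C, ∀ x, |φ x| ≤ C) → ∀ y1 y2,
      ∫ x in X y1..X y2, φ x = ∫ y in y1..y2, φ (X y) * j y

/-- spatial increments of the nonlocal velocity for any bounded measurable profile -/
def VelS : Prop := ∀ (P : Par) (M : ℝ) (w : ℝ → ℝ), 0 < M → Measurable w →
  (∀ x, w x ∈ Icc 0 (P.N M)) → ∀ Z G : ℝ → ℝ,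
  (∀ x, Z x = ∫ s in Ioi (0 : ℝ), P.k s * w (x + s)) →
  (∀ x, G x = ∫ s in Ioi (0 : ℝ), P.g s * w (x + s)) →
    (∀ x, Z x ∈ Icc 0 (P.N M) ∧ G x ∈ Icc 0 (P.k0 * P.N M)) ∧
    (∀ x1 x2, Z x2 - Z x1 = ∫ x in x1..x2, (G x - P.k0 * w x)) ∧
    (∀ x1 x2, P.Φ (Z x2) - P.Φ (Z x1) = ∫ x in x1..x2, P.b (Z x) * (P.k0 * w x - G x)) ∧
    ∀ x1 x2, |P.Φ (Z x2) - P.Φ (Z x1)| ≤ P.C0 M * |x2 - x1|

/-- explicit solution of the Jacobian equation along one family of paths -/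
def JacOdeS : Prop := ∀ (p T B k0 : ℝ) (q0 : ℝ → ℝ) (β Γ : ℝ → ℝ → ℝ), 0 < p → p < 1 → 0 ≤ T →
  0 < B → 0 ≤ k0 → Measurable q0 → (∀ y, q0 y ∈ Icc 0 B) →
  Continuous (Function.uncurry β) → Continuous (Function.uncurry Γ) → (∃ K, ∀ t y, β t y ∈ Icc 0 K) →
  (∀ t y, Γ t y ∈ Icc 0 (k0 * B ^ p)) →
    ∃ (j : ℝ → ℝ → ℝ) (c : ℝ), 0 < c ∧ Measurable (Function.uncurry j) ∧
      (∀ t y, j t y ∈ Icc c c⁻¹) ∧ (∀ y, j 0 y = 1) ∧ (∀ t y, j t y = j (max 0 (min t T)) y) ∧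
      (∀ t y, (q0 y / j t y) ^ p ≤ B ^ p) ∧
      ∀ y, ∀ t ∈ Icc 0 T, HasDerivWithinAt (fun τ => j τ y)
        (j t y * (β t y * (k0 * (q0 y / j t y) ^ p - Γ t y))) (Icc 0 T) t

def LagS : Prop := ∀ (P : Par) (T B C : ℝ) (q0 : ℝ → ℝ) (q Q : ℝ → ℝ → ℝ), 0 ≤ T → 0 < B →
  Measurable q0 → (∀ y, q0 y ∈ Icc 0 B) → (∀ t ∈ Icc 0 T, ∀ᵐ x, q t x ∈ Icc 0 B) →
  ContL1 T q → (∀ᵐ x, q 0 x = q0 x) → Q 0 0 = 0 →
  Pot T C q (fun t x => P.Φ (∫ s in Ioi (0 : ℝ), P.k s * q t (x + s) ^ P.p) * q t x) Q →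
    ∃ L : Lag P B, L.T = T ∧ L.q0 = q0 ∧ (∀ t ∈ Icc 0 T, ∀ᵐ x, L.q t x = q t x) ∧
      ∀ t ∈ Icc 0 T, ∀ x, L.Q t x = Q t x

/-- local comparison with affine solutions -/
def SProp (T M C1 e1 e2 : ℝ) (f : ℝ → ℝ) (Q : ℝ → ℝ → ℝ) : Prop :=
  ∀ s δ x κ, 0 ≤ s → 0 ≤ δ → s + δ ≤ T → κ ∈ Icc 0 M → ∃ y, |y - x| ≤ C1 * δ + e2 ∧
    Q (s + δ) x ≤ Q s y + κ * (x - y) - δ * f κ + e1 * δ + e2

def SubS : Prop := ∀ (P : Par) (M : ℝ), 0 < M → ∃ C1, 0 ≤ C1 ∧ ∀ e, 0 < e → ∃ D0, 0 < D0 ∧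
  ∀ L : Lag P M, SProp L.T M C1 e D0 P.f L.Q

/-- distributional inequality `η_t + ψ_x ≤ 0` in the open strip -/
def SubId (T : ℝ) (η ψ : ℝ → ℝ → ℝ) : Prop :=
  ∀ φ : ℝ × ℝ → ℝ, ContDiff ℝ 1 φ → HasCompactSupport φ → tsupport φ ⊆ Ioo 0 T ×ˢ univ →
    (∀ z, 0 ≤ φ z) → 0 ≤ ∫ z in Ioo 0 T ×ˢ univ,
      (η z.1 z.2 * fderiv ℝ φ z (1, 0) + ψ z.1 z.2 * fderiv ℝ φ z (0, 1))

def ConeS : Prop := ∀ (T C C' : ℝ) (η ψ : ℝ → ℝ → ℝ), 0 ≤ C → Measurable (Function.uncurry η) →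
  Measurable (Function.uncurry ψ) →
  (∀ t ∈ Icc 0 T, ∀ᵐ x, 0 ≤ η t x ∧ η t x ≤ C' ∧ |ψ t x| ≤ C * η t x) → ContL1 T η →
  SubId T η ψ → ∀ s δ a c, 0 ≤ s → 0 ≤ δ → s + δ ≤ T →
    (∀ᵐ x, x ∈ Icc (a - C * δ) (c + C * δ) → η s x = 0) → ∀ᵐ x, x ∈ Icc a c → η (s + δ) x = 0

/-- renormalisation of the Kruzhkov inequality by a function of the potential -/
def RenormS : Prop := ∀ (T C κ fκ : ℝ) (q F Q : ℝ → ℝ → ℝ) (θ : ℝ → ℝ), 0 < T → Pot T C q F Q →
  ContDiff ℝ 1 θ → (∀ r, 0 ≤ θ r) →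
  SubId T (fun t x => |q t x - κ|) (fun t x => Real.sign (q t x - κ) * (F t x - fκ)) →
  SubId T (fun t x => θ (Q t x - κ * x + fκ * t) * |q t x - κ|)
    (fun t x => θ (Q t x - κ * x + fκ * t) * (Real.sign (q t x - κ) * (F t x - fκ)))

def RangeS : Prop := ∀ (T M : ℝ) (V q0 : ℝ → ℝ) (q : ℝ → ℝ → ℝ), 0 < T → ContDiff ℝ 1 V →
  Measurable q0 → (∀ x, q0 x ∈ Icc 0 M) → IsEntropySol T V q0 q →
    ∀ t ∈ Icc 0 T, ∀ᵐ x, q t x ∈ Icc 0 M

def EntS : Prop := ∀ (T M C : ℝ) (V q0 : ℝ → ℝ) (q Q : ℝ → ℝ → ℝ), 0 < T → ContDiff ℝ 1 V →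
  IsEntropySol T V q0 q → (∀ t ∈ Icc 0 T, ∀ᵐ x, q t x ∈ Icc 0 M) →
  Pot T C q (fun t x => V (q t x) * q t x) Q →
    ∃ C1, 0 ≤ C1 ∧ SProp T M C1 0 0 (fun κ => κ * V κ) Q

def HLupS : Prop := ∀ (T M C1 e : ℝ) (f : ℝ → ℝ), 0 < T → 0 < M → 0 ≤ C1 → 0 < e →
  ContinuousOn f (Icc 0 M) → StrictConcaveOn ℝ (Icc 0 M) f → ∃ e0, 0 < e0 ∧
    ∀ (e1 e2 : ℝ) (Q : ℝ → ℝ → ℝ), 0 ≤ e1 → e1 ≤ e0 → 0 ≤ e2 → e2 ≤ e0 →
      SProp T M C1 e1 e2 f Q → ∀ t ∈ Icc 0 T, ∀ x, ∃ y, ∀ κ ∈ Icc 0 M,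
        t * f κ - (x - y) * κ ≤ Q 0 y - Q t x + e

def HLlowS : Prop := ∀ (T M C σ t0 e : ℝ) (f : ℝ → ℝ) (q F Q : ℝ → ℝ → ℝ), 0 < M → M ≤ C →
  0 < σ → 0 ≤ t0 → 0 ≤ e → Measurable f → (∀ κ ∈ Icc 0 M, |f κ| ≤ C) → Pot T C q F Q →
  (∀ t ∈ Icc 0 T, ∀ᵐ x, q t x ∈ Icc 0 M) →
  (∀ τ ∈ Icc 0 T, t0 ≤ τ → ∀ x0, ∫ x in x0..(x0 + σ), (F τ x - f (q τ x)) ≤ e * σ) →
    ∀ t ∈ Icc 0 T, ∀ x y Λ, (∀ κ ∈ Icc 0 M, t * f κ - (x - y) * κ ≤ Λ) →
      Q 0 y - Λ - e * t - 2 * C * (σ + t0) ≤ Q t x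

def BlockS : Prop := ∀ (T M : ℝ) (q : ℝ → ℝ → ℝ), 0 ≤ M → Measurable (Function.uncurry q) →
  (∀ t ∈ Icc 0 T, ∀ᵐ x, q t x ∈ Icc 0 M) → ContL1 T q → ∀ a S e, 0 < S → 0 < e →
    ∃ K0 : ℕ, ∀ K : ℕ, K0 ≤ K → 0 < K → ∀ t ∈ Icc 0 T, OscP (q t) 0 M K a S e

def StrongS : Prop := ∀ (M : ℝ) (w1 w2 : ℝ → ℝ) (K : ℕ) (a S e1 e2 e3 : ℝ), 0 < K → 0 < S →
  Measurable w1 → Measurable w2 → (∀ᵐ x, w1 x ∈ Icc 0 M) → (∀ᵐ x, w2 x ∈ Icc 0 M) →
  OscP w1 0 M K a S e1 → OscP w2 0 M K a S e2 →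
  (∀ x1 x2, |(∫ x in x1..x2, w1 x) - ∫ x in x1..x2, w2 x| ≤ e3) →
    ∫ x in a..(a + S), |w1 x - w2 x| ≤ 2 * (e1 + e2) * S + K * e3

def BVS : Prop := ∀ (p M : ℝ) (q0 : ℝ → ℝ), 0 < p → p < 1 → BoundedVariationOn q0 univ →
  (∀ x, q0 x ∈ Icc 0 M) → Measurable q0 ∧ ∀ a c e, a ≤ c → 0 < e → ∃ r, 0 < r ∧
    ∀ (w : ℝ → ℝ) (e' : ℝ), Measurable w → 0 ≤ e' →
      (∀ x lo hi, (∀ y ∈ Icc (x - r) (x + r), lo ≤ q0 y ^ p ∧ q0 y ^ p ≤ hi) →
        lo - e' ≤ w x ∧ w x ≤ hi + e') →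
      ∫ x in a..c, |w x - q0 x ^ p| ≤ e + e' * (c - a)

def ParS : Prop := ∀ (p : ℝ) (V γ : ℝ → ℝ), 0 < p → p < 1 → ContDiff ℝ 1 V →
  (∀ x, deriv V x ≤ 0) → IsKernel p γ → ∃ P : Par, P.p = p ∧ (∀ s, 0 ≤ s → P.k s = γ s ^ p) ∧
    (∀ q, 0 ≤ q → P.Φ (q ^ p) = V q) ∧
    ∀ M, 0 < M → StrictConcaveOn ℝ (Icc 0 M) (fun q => q * V q) → P.Strict M

/-- a weak solution with parameter `η`, rescaled, has a Lagrangian description with bound `M` -/
def ScaleS : Prop := ∀ (P : Par) (η T M : ℝ) (V γ q0 : ℝ → ℝ) (q : ℝ → ℝ → ℝ), 0 < η → 0 < T →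
  0 < M → (∀ s, 0 ≤ s → P.k s = γ s ^ P.p) → (∀ s, 0 ≤ s → 0 ≤ γ s) →
  (∀ r, 0 ≤ r → P.Φ (r ^ P.p) = V r) → Continuous V → ContinuousOn γ (Ici 0) → Measurable q0 →
  (∀ x, q0 x ∈ Icc 0 M) → IsWeakSol P.p η T V γ q0 q →
    ∃ (L : Lag P M) (Q : ℝ → ℝ → ℝ), L.T = T / η ∧ (∀ y, L.q0 y = q0 (η * y)) ∧
      (∀ t ∈ Icc 0 T, ∀ᵐ x, q t x = L.q (t / η) (x / η)) ∧
      (∀ t ∈ Icc 0 T, ∀ x, Q t x = η * L.Q (t / η) (x / η)) ∧
      Pot T (M + M * P.Vm M) (fun t x => L.q (t / η) (x / η))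
        (fun t x => L.v (t / η) (x / η) * L.q (t / η) (x / η)) Q

/-- uniform convergence of the potentials -/
def PotConvS : Prop := ∀ (P : Par) (T M C : ℝ) (q0 : ℝ → ℝ) (qs Fs Qs : ℝ → ℝ → ℝ), 0 < T →
  0 < M → P.Strict M → StrictConcaveOn ℝ (Icc 0 M) P.f → Pot T C qs Fs Qs → Qs 0 0 = 0 →
  (∀ᵐ x, qs 0 x = q0 x) → (∀ t ∈ Icc 0 T, ∀ᵐ x, qs t x ∈ Icc 0 M ∧ Fs t x = P.f (qs t x)) →
  (∃ C1, 0 ≤ C1 ∧ SProp T M C1 0 0 P.f Qs) → ∀ e, 0 < e → ∃ η0, 0 < η0 ∧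
    ∀ (η : ℝ) (L : Lag P M) (Q : ℝ → ℝ → ℝ), 0 < η → η < η0 → L.T = T / η →
      (∀ y, L.q0 y = q0 (η * y)) → (∀ t ∈ Icc 0 T, ∀ x, Q t x = η * L.Q (t / η) (x / η)) →
      Pot T (M + M * P.Vm M) (fun t x => L.q (t / η) (x / η))
        (fun t x => L.v (t / η) (x / η) * L.q (t / η) (x / η)) Q →
      ∀ t ∈ Icc 0 T, ∀ x, |Q t x - Qs t x| ≤ e

/-- block oscillation in macroscopic units for times `t ≥ t0` -/
def LateS : Prop := ∀ (P : Par) (M : ℝ), 0 < M → P.Strict M → ∀ (S e t0 : ℝ) (K0 : ℕ), 0 < S →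
  0 < e → 0 < t0 → ∃ (K : ℕ) (η0 : ℝ), K0 ≤ K ∧ 0 < K ∧ 0 < η0 ∧
    ∀ (η t a : ℝ) (L : Lag P M), 0 < η → η < η0 → t0 ≤ t → t / η ≤ L.T →
      OscP (fun x => L.q (t / η) (x / η)) 0 M K a S e

/-- initial layer in macroscopic units -/
def EarlyS : Prop := ∀ (P : Par) (M : ℝ) (q0 : ℝ → ℝ), 0 < M → BoundedVariationOn q0 univ →
  (∀ x, q0 x ∈ Icc 0 M) → ∀ a c e : ℝ, a ≤ c → 0 < e → ∃ t0 : ℝ, 0 < t0 ∧
    ∀ (η t : ℝ) (L : Lag P M), 0 < η → 0 ≤ t → t ≤ t0 → t / η ≤ L.T →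
      (∀ y, L.q0 y = q0 (η * y)) → ∫ x in a..c, |L.q (t / η) (x / η) - q0 x| ≤ e

def MainS : Prop := ∀ (p T M : ℝ) (V γ q0 : ℝ → ℝ) (q : ℝ → ℝ → ℝ → ℝ) (qs : ℝ → ℝ → ℝ),
  0 < p → p < 1 → 0 < T → 0 < M → ContDiff ℝ 1 V → (∀ x, deriv V x ≤ 0) → IsKernel p γ →
  BoundedVariationOn q0 univ → (∀ x, q0 x ∈ Icc 0 M) →
  StrictConcaveOn ℝ (Icc 0 M) (fun r => r * V r) →
  (∀ η, 0 < η → IsWeakSol p η T V γ q0 (q η)) → IsEntropySol T V q0 qs →
    ∀ a c e, 0 < e → ∃ η0, 0 < η0 ∧ ∀ η, 0 < η → η < η0 → ∀ t ∈ Icc 0 T,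
      ∫ x in Icc a c, |q η t x - qs t x| ≤ e

end

end MP34a893

end MrgPart0

-- ======== part 1: formerly Pool.Agent.MP_34a893_an.Scale
section MrgPart1

-- ======== part 0: formerly Pool.Agent.MP_34a893_an.JacA
section MrgPart0

/-! Row JAC, first file: the explicit Jacobian and tools for the Lagrangian description. -/

open MeasureTheory Set Filter Topology

namespace MP34a893

namespace Jac

/-- clamp of the time to `[0,T]` -/
def cl (T t : ℝ) : ℝ := max 0 (min t T)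

lemma cl_mem {T : ℝ} (hT : 0 ≤ T) (t : ℝ) : cl T t ∈ Icc 0 T :=
  ⟨le_max_left _ _, max_le hT (min_le_right _ _)⟩

lemma cl_eq {T t : ℝ} (ht : t ∈ Icc 0 T) : cl T t = t := by
  rw [cl, min_eq_left ht.2, max_eq_right ht.1]

lemma cl_cont (T : ℝ) : Continuous (cl T) := by unfold cl; fun_prop

lemma prim_cont {f : ℝ → ℝ → ℝ} (hf : Continuous (Function.uncurry f)) :
    Continuous (Function.uncurry fun t y => ∫ s in (0 : ℝ)..t, f s y) :=
  (intervalIntegral.continuous_parametric_primitive_of_continuous (μ := volume) (a₀ := 0)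
    (f := fun y s => f s y) (hf.comp continuous_swap)).comp continuous_swap

lemma prim_deriv {f : ℝ → ℝ → ℝ} (hf : Continuous (Function.uncurry f)) (t y : ℝ) :
    HasDerivAt (fun t => ∫ s in (0 : ℝ)..t, f s y) (f t y) t :=
  ((hf.comp (Continuous.prodMk_left y)).integral_hasStrictDerivAt 0 t).hasDerivAt

lemma ii {f : ℝ → ℝ} (hf : Measurable f) {C : ℝ} (h : ∀ x, |f x| ≤ C) (a b : ℝ) :
    IntervalIntegrable f volume a b :=
  (intervalIntegrable_const (c := C)).mono_fun' hf.aestronglyMeasurable (ae_of_all _ h)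

lemma io {f : ℝ → ℝ → ℝ} (hf : Measurable (Function.uncurry f)) {C : ℝ} (h : ∀ t x, |f t x| ≤ C)
    (a b c d : ℝ) : IntegrableOn (Function.uncurry f) (uIoc a b ×ˢ uIoc c d) := by
  refine Measure.integrableOn_of_bounded (M := C) ?_ hf.aestronglyMeasurable
    (ae_of_all _ fun z => h z.1 z.2)
  rw [Measure.volume_eq_prod, Measure.prod_prod]
  exact ENNReal.mul_ne_top (by simp [uIoc]) (by simp [uIoc])

lemma ae_eq_of_int {f g : ℝ → ℝ} (hf : Measurable f) (hg : Measurable g) {C C' : ℝ}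
    (h1 : ∀ x, |f x| ≤ C) (h2 : ∀ x, |g x| ≤ C')
    (h : ∀ a b, ∫ x in a..b, f x = ∫ x in a..b, g x) : ∀ᵐ x, f x = g x := by
  have l : ∀ {f : ℝ → ℝ} {C : ℝ}, Measurable f → (∀ x, |f x| ≤ C) → LocallyIntegrable f volume :=
    fun {_ C} hf h => (locallyIntegrable_const C).mono hf.aestronglyMeasurable
      (ae_of_all _ fun x => (h x).trans (le_abs_self C))
  filter_upwards [_root_.LocallyIntegrable.ae_hasDerivAt_integral (l hf h1),
    _root_.LocallyIntegrable.ae_hasDerivAt_integral (l hg h2)] with x a b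
  have := a 0
  simp only [h] at this
  exact this.unique (b 0)

lemma dens {X : ℝ → ℝ} {c : ℝ} (h1 : ∀ a b, a ≤ b → c * (b - a) ≤ X b - X a)
    (h2 : ∀ a b, a ≤ b → X b - X a ≤ c⁻¹ * (b - a)) (hc : 0 < c) (a b : ℝ) :
    X b - X a = ∫ y in a..b, max c (min (deriv X y) c⁻¹) := by
  have hl : LipschitzWith (Real.toNNReal c⁻¹) X := LipschitzWith.of_dist_le' fun x y => by
    rw [Real.dist_eq, Real.dist_eq]
    rcases le_total x y with h | h
    · have := h1 x y h; have := h2 x y h; have := mul_nonneg hc.le (sub_nonneg.2 h)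
      rw [abs_of_nonpos (by linarith), abs_of_nonpos (by linarith)]; linarith
    · have := h1 y x h; have := h2 y x h; have := mul_nonneg hc.le (sub_nonneg.2 h)
      rw [abs_of_nonneg (by linarith), abs_of_nonneg (by linarith)]; linarith
  rw [← hl.lipschitzOnWith.absolutelyContinuousOnInterval.integral_deriv_eq_sub]
  refine intervalIntegral.integral_congr_ae ?_
  filter_upwards [hl.ae_differentiableAt_real] with y hy _
  have m1 : Monotone fun y => X y - c * y := fun a b h => by have := h1 a b h; simp only; linarith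
  have m2 : Monotone fun y => c⁻¹ * y - X y := fun a b h => by have := h2 a b h; simp only; linarith
  have d1 := m1.deriv_nonneg (x := y)
  have d2 := m2.deriv_nonneg (x := y)
  rw [(hy.hasDerivAt.fun_sub ((hasDerivAt_id' y).const_mul c)).deriv] at d1
  rw [(((hasDerivAt_id' y).const_mul c⁻¹).fun_sub hy.hasDerivAt).deriv] at d2
  rw [min_eq_left (by linarith), max_eq_right (by linarith)]

lemma gron {D : ℝ → ℝ} (hD : Measurable D) {C K T : ℝ} (h0 : ∀ t, 0 ≤ D t) (hC : ∀ t, |D t| ≤ C)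
    (hK : 0 ≤ K) (h : ∀ t ∈ Icc 0 T, D t ≤ K * ∫ s in (0 : ℝ)..t, D s) :
    ∀ t ∈ Icc 0 T, D t = 0 := by
  have c1 : Continuous fun t => ∫ s in (0 : ℝ)..t, D s :=
    intervalIntegral.continuous_primitive (ii hD hC) 0
  have n1 : ∀ t, 0 ≤ t → 0 ≤ ∫ s in (0 : ℝ)..t, D s := fun t ht =>
    intervalIntegral.integral_nonneg ht fun s _ => h0 s
  have b1 : ∀ t ∈ Icc 0 T, ∫ s in (0 : ℝ)..t, D s ≤
      K * ∫ s in (0 : ℝ)..t, ∫ r in (0 : ℝ)..s, D r := fun t ht => by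
    rw [← intervalIntegral.integral_const_mul]
    exact intervalIntegral.integral_mono_on ht.1 (ii hD hC _ _)
      ((c1.const_mul K).intervalIntegrable _ _) fun s hs => h s ⟨hs.1, hs.2.trans ht.2⟩
  have d := fun t => (c1.integral_hasStrictDerivAt 0 t).hasDerivAt
  have z := eq_zero_of_abs_deriv_le_mul_abs_self_of_eq_zero_right (K := K) (a := 0) (b := T)
    (fun t _ => (d t).continuousAt.continuousWithinAt) (fun t _ => (d t).hasDerivWithinAt)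
    (by simp) fun t ht => by
      rw [Real.norm_of_nonneg (n1 t ht.1)]
      exact (b1 t ⟨ht.1, ht.2.le⟩).trans (mul_le_mul_of_nonneg_left (le_abs_self _) hK)
  intro t ht
  have e1 := b1 t ht
  rw [z t ht, mul_zero] at e1
  have e2 := h t ht
  rw [le_antisymm e1 (n1 t ht.1), mul_zero] at e2
  exact le_antisymm e2 (h0 t)

lemma pow_lip {p c a b : ℝ} (hp0 : 0 < p) (hp1 : p < 1) (hc : 0 < c) (ha : c ≤ a) (hb : c ≤ b) :
    |a ^ (1 - p) - b ^ (1 - p)| ≤ c ^ (-p) * |a - b| := by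
  have := (convex_Ici c).norm_image_sub_le_of_norm_hasDerivWithin_le
    (f := fun x : ℝ => x ^ (1 - p)) (f' := fun x => (1 - p) * x ^ (1 - p - 1)) (C := c ^ (-p))
    (fun x hx => (Real.hasDerivAt_rpow_const (Or.inl (hc.trans_le hx).ne')).hasDerivWithinAt)
    (fun x hx => by
      have h1 : x ^ (-p) ≤ c ^ (-p) := Real.rpow_le_rpow_of_nonpos hc hx (by linarith)
      have h2 : 0 ≤ x ^ (-p) := Real.rpow_nonneg (hc.le.trans hx) _
      rw [show 1 - p - 1 = -p by ring, Real.norm_of_nonneg (mul_nonneg (by linarith) h2)]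
      nlinarith) hb ha
  simpa using this

lemma pow_hold {p a b : ℝ} (hp0 : 0 ≤ p) (hp1 : p ≤ 1) (ha : 0 ≤ a) (hb : 0 ≤ b) :
    |a ^ p - b ^ p| ≤ |a - b| ^ p := by
  have k : ∀ a b : ℝ, 0 ≤ a → 0 ≤ b → a ^ p - b ^ p ≤ |a - b| ^ p := fun a b ha hb => by
    have h1 := Real.rpow_add_le_add_rpow hb (abs_nonneg (a - b)) hp0 hp1
    have h2 : a ^ p ≤ (b + |a - b|) ^ p :=
      Real.rpow_le_rpow ha (by linarith [le_abs_self (a - b)]) hp0
    linarith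
  have := k b a hb ha
  rw [abs_sub_comm] at this
  exact abs_le.2 ⟨by linarith, k a b ha hb⟩

lemma mi {f : ℝ → ℝ → ℝ} (hf : Measurable (Function.uncurry f)) (a b : ℝ) :
    Measurable fun t => ∫ y in a..b, f t y :=
  (hf.stronglyMeasurable.integral_prod_right (ν := volume.restrict (Ioc a b))).measurable.sub
    (hf.stronglyMeasurable.integral_prod_right (ν := volume.restrict (Ioc b a))).measurable

lemma bi {f : ℝ → ℝ} {C : ℝ} (h : ∀ x, |f x| ≤ C) (a b : ℝ) : |∫ y in a..b, f y| ≤ C * |b - a| :=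
  intervalIntegral.norm_integral_le_of_norm_le_const (f := f) (a := a) (b := b) (C := C)
    fun x _ => h x

lemma ftc {f f' : ℝ → ℝ} {T t : ℝ} (h : ∀ s ∈ Icc 0 T, HasDerivWithinAt f (f' s) (Icc 0 T) s)
    (ht : t ∈ Icc 0 T) (hi : IntervalIntegrable f' volume 0 t) :
    f t = f 0 + ∫ s in (0 : ℝ)..t, f' s := by
  rw [intervalIntegral.integral_eq_sub_of_hasDerivAt_of_le ht.1
    (fun s hs => ((h s ⟨hs.1, hs.2.trans ht.2⟩).continuousWithinAt).mono (Icc_subset_Icc_right ht.2))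
    (fun s hs => (h s ⟨hs.1.le, hs.2.le.trans ht.2⟩).hasDerivAt
      (Icc_mem_nhds hs.1 (hs.2.trans_le ht.2))) hi]
  ring

lemma shift {f g : ℝ → ℝ} (h : ∀ᵐ x, f x = g x) (κ : ℝ → ℝ) (x : ℝ) :
    ∫ s in Ioi (0 : ℝ), κ s * f (x + s) = ∫ s in Ioi (0 : ℝ), κ s * g (x + s) := by
  refine integral_congr_ae (ae_restrict_of_ae ?_)
  filter_upwards [(measurePreserving_add_left volume x).quasiMeasurePreserving.ae h] with s hs
  rw [hs]

/-- uniqueness for the integral equation along almost every path -/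
lemma uniq {J j : ℝ → ℝ → ℝ} {H : ℝ → ℝ → ℝ → ℝ} {S : Set ℝ} {T C K : ℝ}
    (hJ : Measurable (Function.uncurry J)) (hj : Measurable (Function.uncurry j))
    (mJ : Measurable (Function.uncurry fun s y => H s y (J s y)))
    (mj : Measurable (Function.uncurry fun s y => H s y (j s y)))
    (bJ : ∀ t y, J t y ∈ S) (bj : ∀ t y, j t y ∈ S) (hS : ∀ r ∈ S, |r| ≤ C)
    (hH : ∀ s y, ∀ r ∈ S, |H s y r| ≤ C) (hK : 0 ≤ K)
    (hL : ∀ s y, ∀ r ∈ S, ∀ r' ∈ S, |H s y r - H s y r'| ≤ K * |r - r'|)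
    (eJ : ∀ t ∈ Icc 0 T, ∀ᵐ y, J t y = 1 + ∫ s in (0 : ℝ)..t, H s y (J s y))
    (ej : ∀ t ∈ Icc 0 T, ∀ y, j t y = 1 + ∫ s in (0 : ℝ)..t, H s y (j s y)) :
    ∀ t ∈ Icc 0 T, ∀ᵐ y, J t y = j t y := by
  have m : Measurable (Function.uncurry fun t y => |J t y - j t y|) := (hJ.sub hj).abs
  have b : ∀ t y, |(|J t y - j t y|)| ≤ C + C := fun t y => by
    rw [abs_abs]
    exact (abs_sub _ _).trans (add_le_add (hS _ (bJ t y)) (hS _ (bj t y)))
  have key : ∀ a c, a ≤ c → ∀ t ∈ Icc 0 T, ∫ y in a..c, |J t y - j t y| = 0 := fun a c hac => by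
    refine gron (mi m a c) (fun t => intervalIntegral.integral_nonneg hac fun _ _ => abs_nonneg _)
      (fun t => bi (b t) a c) hK fun t ht => ?_
    rw [intervalIntegral_intervalIntegral_swap (io m b 0 t a c),
      ← intervalIntegral.integral_const_mul]
    refine intervalIntegral.integral_mono_ae hac (ii m.of_uncurry_left (b t) a c)
      ((ii (mi (f := fun y s => |J s y - j s y|) (m.comp measurable_swap) 0 t)
        (fun y => bi (fun s => b s y) 0 t) a c).const_mul K) ?_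
    filter_upwards [eJ t ht] with y hy
    have i1 := ii mJ.of_uncurry_right (fun s => hH s y _ (bJ s y)) 0 t
    have i2 := ii mj.of_uncurry_right (fun s => hH s y _ (bj s y)) 0 t
    rw [hy, ej t ht y, add_sub_add_left_eq_sub, ← intervalIntegral.integral_sub i1 i2,
      ← intervalIntegral.integral_const_mul]
    exact (intervalIntegral.abs_integral_le_integral_abs ht.1).trans
      (intervalIntegral.integral_mono_on ht.1 (i1.sub i2).abs
        ((ii m.of_uncurry_right (fun s => b s y) 0 t).const_mul K)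
        fun s _ => hL s y _ (bJ s y) _ (bj s y))
  intro t ht
  filter_upwards [ae_eq_of_int m.of_uncurry_left measurable_const (b t) (C' := 0) (g := fun _ => 0)
    (fun _ => by simp) fun a c => by
      rcases le_total a c with h | h
      · simpa using key a c h t ht
      · rw [intervalIntegral.integral_symm, key c a h t ht]; simp] with y hy
  exact sub_eq_zero.1 (abs_eq_zero.1 hy)

end Jac

open Jac in
theorem jacOdeS : JacOdeS := by
  intro p T B k0 q0 β Γ hp0 hp1 hT hB hk hq hqB hβ hΓ ⟨K, hK⟩ hG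
  have hK0 : 0 ≤ K := (hK 0 0).1.trans (hK 0 0).2
  have hBp : 0 < B ^ p := Real.rpow_pos_of_pos hB p
  have ca : Continuous (Function.uncurry fun s y => p * β s y * Γ s y) :=
    (hβ.const_mul p).mul hΓ
  let A : ℝ → ℝ → ℝ := fun t y => ∫ s in (0 : ℝ)..t, p * β s y * Γ s y
  have cA : Continuous (Function.uncurry A) := prim_cont ca
  have ci : Continuous (Function.uncurry fun s y => p * β s y * Real.exp (A s y)) :=
    (hβ.const_mul p).mul cA.rexp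
  let I : ℝ → ℝ → ℝ := fun t y => ∫ s in (0 : ℝ)..t, p * β s y * Real.exp (A s y)
  have cI : Continuous (Function.uncurry I) := prim_cont ci
  let w : ℝ → ℝ → ℝ := fun t y => Real.exp (-A t y) * (1 + k0 * q0 y ^ p * I t y)
  set A0 := T * (p * K * (k0 * B ^ p)) with hA0
  have ha : ∀ s y, p * β s y * Γ s y ∈ Icc 0 (p * K * (k0 * B ^ p)) := fun s y =>
    ⟨mul_nonneg (mul_nonneg hp0.le (hK s y).1) (hG s y).1, mul_le_mul
      (mul_le_mul_of_nonneg_left (hK s y).2 hp0.le) (hG s y).2 (hG s y).1 (by positivity)⟩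
  have up : ∀ (f : ℝ → ℝ) (C t : ℝ), Continuous f → t ∈ Icc 0 T → (∀ s ∈ Icc 0 T, f s ∈ Icc 0 C) →
      ∫ s in (0 : ℝ)..t, f s ∈ Icc 0 (T * C) := fun f C t hf ht h => by
    have h1 := intervalIntegral.integral_mono_on ht.1 (hf.intervalIntegrable 0 t)
      (intervalIntegrable_const (c := C) (μ := volume)) fun s hs => (h s ⟨hs.1, hs.2.trans ht.2⟩).2
    have h2 : 0 ≤ C := (h 0 ⟨le_rfl, hT⟩).1.trans (h 0 ⟨le_rfl, hT⟩).2
    refine ⟨intervalIntegral.integral_nonneg ht.1 fun s hs => (h s ⟨hs.1, hs.2.trans ht.2⟩).1,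
      h1.trans ?_⟩
    simpa using mul_le_mul_of_nonneg_right ht.2 h2
  have hA : ∀ t ∈ Icc 0 T, ∀ y, A t y ∈ Icc 0 A0 := fun t ht y =>
    up _ _ t (ca.comp (Continuous.prodMk_left y)) ht fun s _ => ha s y
  have hI : ∀ t ∈ Icc 0 T, ∀ y, I t y ∈ Icc 0 (T * (p * K * Real.exp A0)) := fun t ht y =>
    up _ _ t (ci.comp (Continuous.prodMk_left y)) ht fun s hs =>
      ⟨mul_nonneg (mul_nonneg hp0.le (hK s y).1) (Real.exp_pos _).le, mul_le_mul
        (mul_le_mul_of_nonneg_left (hK s y).2 hp0.le) (Real.exp_le_exp.2 (hA s hs y).2)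
        (Real.exp_pos _).le (by positivity)⟩
  have hq' : ∀ y, q0 y ^ p ∈ Icc 0 (B ^ p) := fun y =>
    ⟨Real.rpow_nonneg (hqB y).1 p, Real.rpow_le_rpow (hqB y).1 (hqB y).2 hp0.le⟩
  set W := 1 + k0 * B ^ p * (T * (p * K * Real.exp A0)) with hW
  have hw : ∀ t ∈ Icc 0 T, ∀ y, w t y ∈ Icc (Real.exp (-A0)) W := fun t ht y => by
    have h1 : 0 ≤ k0 * q0 y ^ p * I t y := mul_nonneg (mul_nonneg hk (hq' y).1) (hI t ht y).1
    have h2 : k0 * q0 y ^ p * I t y ≤ k0 * B ^ p * (T * (p * K * Real.exp A0)) :=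
      mul_le_mul (mul_le_mul_of_nonneg_left (hq' y).2 hk) (hI t ht y).2 (hI t ht y).1
        (by positivity)
    have h3 : Real.exp (-A0) ≤ Real.exp (-A t y) := Real.exp_le_exp.2 (neg_le_neg (hA t ht y).2)
    have h4 : Real.exp (-A t y) ≤ 1 := Real.exp_le_one_iff.2 (neg_nonpos.2 (hA t ht y).1)
    have h5 := Real.exp_pos (-A t y)
    constructor <;> simp only [w] <;> nlinarith
  have hw0 : ∀ t ∈ Icc 0 T, ∀ y, 0 < w t y := fun t ht y =>
    (Real.exp_pos _).trans_le (hw t ht y).1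
  have hW0 : 0 < W := by positivity
  have hjp : ∀ t ∈ Icc 0 T, ∀ y, (q0 y / w t y ^ (1 / p)) ^ p = q0 y ^ p / w t y := fun t ht y => by
    rw [Real.div_rpow (hqB y).1 (Real.rpow_nonneg (hw0 t ht y).le _), one_div,
      Real.rpow_inv_rpow (hw0 t ht y).le hp0.ne']
  refine ⟨fun t y => w (cl T t) y ^ (1 / p), min (Real.exp (-A0) ^ (1 / p)) (W ^ (1 / p))⁻¹,
    by positivity, ?_, fun t y => ⟨?_, ?_⟩, fun y => ?_, fun t y => ?_, fun t y => ?_,
    fun y t ht => ?_⟩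
  · have c : Continuous fun z : ℝ × ℝ => (cl T z.1, z.2) :=
      ((cl_cont T).comp continuous_fst).prodMk continuous_snd
    exact (((cA.comp c).neg.rexp.measurable).mul ((((hq.comp measurable_snd).pow_const p).const_mul
      k0).mul (cI.comp c).measurable |>.const_add 1)).pow_const _
  · exact (min_le_left _ _).trans (Real.rpow_le_rpow (Real.exp_pos _).le
      (hw _ (cl_mem hT t) y).1 (by positivity))
  · refine (Real.rpow_le_rpow (hw0 _ (cl_mem hT t) y).le (hw _ (cl_mem hT t) y).2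
      (by positivity)).trans ?_
    rw [le_inv_comm₀ (by positivity) (by positivity)]
    exact min_le_right _ _
  · simp [w, A, I, cl_eq (⟨le_rfl, hT⟩ : (0 : ℝ) ∈ Icc 0 T)]
  · exact congrArg (fun s => w s y ^ (1 / p)) (cl_eq (cl_mem hT t)).symm
  · have ht := cl_mem hT t
    beta_reduce
    generalize cl T t = t at ht
    rw [hjp t ht, div_le_iff₀ (hw0 t ht y)]
    have h1 : Real.exp (A t y) - 1 ≤ k0 * B ^ p * I t y := by
      have e := intervalIntegral.integral_eq_sub_of_hasDerivAt (a := 0) (b := t)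
        (fun s _ => (prim_deriv ca s y).exp)
        (((cA.comp (Continuous.prodMk_left y)).rexp.mul
          (ca.comp (Continuous.prodMk_left y))).intervalIntegrable _ _)
      simp only [intervalIntegral.integral_same, Real.exp_zero] at e
      rw [← e, ← intervalIntegral.integral_const_mul]
      refine intervalIntegral.integral_mono_on ht.1 (((cA.comp (Continuous.prodMk_left y)).rexp.mul
        (ca.comp (Continuous.prodMk_left y))).intervalIntegrable _ _)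
        (((ci.comp (Continuous.prodMk_left y)).const_mul _).intervalIntegrable _ _) fun s _ => ?_
      have := mul_le_mul_of_nonneg_left (hG s y).2
        (mul_nonneg (mul_nonneg hp0.le (hK s y).1) (Real.exp_pos (A s y)).le)
      simp only [A] at this ⊢
      linarith
    have h2 : Real.exp (-A t y) * Real.exp (A t y) = 1 := by rw [← Real.exp_add]; simp
    have h3 := mul_le_mul_of_nonneg_left h1 (hq' y).1
    have h4 : q0 y ^ p * Real.exp (A t y) ≤ B ^ p * (1 + k0 * q0 y ^ p * I t y) := by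
      have := (hq' y).2
      linarith
    have h5 := mul_le_mul_of_nonneg_left h4 (Real.exp_pos (-A t y)).le
    calc q0 y ^ p = Real.exp (-A t y) * (q0 y ^ p * Real.exp (A t y)) := by
          rw [mul_left_comm, h2, mul_one]
      _ ≤ _ := h5
      _ = _ := by simp only [w]; ring
  · have d1 : HasDerivAt (fun t => w t y) _ t :=
      (prim_deriv ca t y).neg.exp.mul (((prim_deriv ci t y).const_mul (k0 * q0 y ^ p)).const_add 1)
    have d2 := (d1.rpow_const (p := 1 / p) (Or.inl (hw0 t ht y).ne')).hasDerivWithinAt (s := Icc 0 T)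
    refine (d2.congr (fun s hs => by simp only [cl_eq hs]) (by simp only [cl_eq ht])).congr_deriv ?_
    have h2 : Real.exp (-A t y) * Real.exp (A t y) = 1 := by rw [← Real.exp_add]; simp
    have h3 := (hw0 t ht y).ne'
    simp only [cl_eq ht]
    rw [hjp t ht, Real.rpow_sub_one h3]
    change (Real.exp (-A t y) * -(p * β t y * Γ t y) * (1 + k0 * q0 y ^ p * I t y) +
      Real.exp (-A t y) * (k0 * q0 y ^ p * (p * β t y * Real.exp (A t y)))) * _ * _ = _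
    have e : Real.exp (-A t y) * -(p * β t y * Γ t y) * (1 + k0 * q0 y ^ p * I t y) +
        Real.exp (-A t y) * (k0 * q0 y ^ p * (p * β t y * Real.exp (A t y))) =
        p * β t y * (k0 * q0 y ^ p - Γ t y * w t y) := by
      simp only [w]
      linear_combination (k0 * q0 y ^ p * p * β t y) * h2
    rw [e]
    field_simp

end MP34a893

end MrgPart0

-- ======== part 1: formerly Pool.Agent.MP_34a893_an.Jac
section MrgPart1

/-! Row JAC: the Lagrangian description of a bounded weak solution. -/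

open MeasureTheory Set Filter Topology

namespace MP34a893

namespace Jac

lemma contPow {p B : ℝ} {w : ℝ → ℝ → ℝ} (hp0 : 0 < p) (hp1 : p < 1)
    (hr : ∀ δ : ℝ, 0 < δ → ∀ z : ℝ, 0 ≤ z → z ≤ δ + δ ^ (1 - 1 / p) * z ^ (1 / p))
    (m : Measurable (Function.uncurry w)) (b : ∀ t x, w t x ∈ Icc 0 B) {a c t0 : ℝ}
    (h : Tendsto (fun t => ∫ x in Icc a c, |w t x - w t0 x|) (𝓝 t0) (𝓝 0)) :
    Tendsto (fun t => ∫ x in Icc a c, |w t x ^ p - w t0 x ^ p|) (𝓝 t0) (𝓝 0) := by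
  refine tendsto_order.2 ⟨fun e he => Eventually.of_forall fun t =>
    he.trans_le (integral_nonneg fun _ => abs_nonneg _), fun e he => ?_⟩
  have hV : 0 ≤ volume.real (Icc a c) := measureReal_nonneg
  set V := volume.real (Icc a c) with hVe
  have hδ : 0 < e / (2 * (V + 1)) := by positivity
  have hδV : V * (e / (2 * (V + 1))) ≤ e / 2 := by
    rw [mul_div_assoc', div_le_div_iff₀ (by positivity) (by positivity)]; nlinarith
  generalize e / (2 * (V + 1)) = δ at hδ hδV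
  have h2 := h.const_mul (δ ^ (1 - 1 / p))
  rw [mul_zero] at h2
  filter_upwards [(tendsto_order.1 h2).2 (e / 2) (by positivity)] with t ht
  have i1 : IntegrableOn (fun x => |w t x - w t0 x|) (Icc a c) :=
    Measure.integrableOn_of_bounded (M := B + B) (by simp)
      (m.of_uncurry_left.sub m.of_uncurry_left).abs.aestronglyMeasurable (ae_of_all _ fun x => by
        rw [Real.norm_eq_abs, abs_abs, abs_le]
        constructor <;> linarith [(b t x).1, (b t x).2, (b t0 x).1, (b t0 x).2])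
  have i0 : IntegrableOn (fun _ : ℝ => δ) (Icc a c) := integrableOn_const (by simp)
  have := integral_mono_of_nonneg (μ := volume.restrict (Icc a c))
    (f := fun x => |w t x ^ p - w t0 x ^ p|)
    (g := fun x => δ + δ ^ (1 - 1 / p) * |w t x - w t0 x|) (ae_of_all _ fun _ => abs_nonneg _)
    (i0.add (i1.const_mul _)) (ae_of_all _ fun x => by
      have h1 := hr δ hδ (|w t x - w t0 x| ^ p) (by positivity)
      rw [one_div p, Real.rpow_rpow_inv (abs_nonneg _) hp0.ne', ← one_div p] at h1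
      exact (pow_hold hp0.le hp1.le (b t x).1 (b t0 x).1).trans h1)
  rw [integral_add i0 (i1.const_mul _), integral_const_mul, setIntegral_const, smul_eq_mul,
    ← hVe] at this
  linarith

lemma ident (hCov : CovS) {T K p B k0 Kb c : ℝ} {v X Y qc bz G j : ℝ → ℝ → ℝ} {q0 : ℝ → ℝ}
    (hp0 : 0 < p) (hp1 : p < 1) (hk : 0 ≤ k0) (hc : 0 < c) (F : Flow T K v X Y)
    (cv : Continuous (Function.uncurry v))
    (mq : Measurable (Function.uncurry qc)) (bq : ∀ t x, qc t x ∈ Icc 0 B)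
    (m0 : Measurable q0) (b0 : ∀ y, q0 y ∈ Icc 0 B)
    (cb : Continuous (Function.uncurry bz)) (bb : ∀ t x, bz t x ∈ Icc 0 Kb)
    (cG : Continuous (Function.uncurry G)) (bG : ∀ t x, G t x ∈ Icc 0 (k0 * B ^ p))
    (mass : ∀ t ∈ Icc 0 T, ∀ a b, ∫ x in X t a..X t b, qc t x = ∫ y in a..b, q0 y)
    (inc : ∀ t a b, v t b - v t a = ∫ x in a..b, bz t x * (k0 * qc t x ^ p - G t x))
    (mj : Measurable (Function.uncurry j)) (bj : ∀ t y, j t y ∈ Icc c c⁻¹) (j0 : ∀ y, j 0 y = 1)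
    (dj : ∀ y, ∀ t ∈ Icc 0 T, HasDerivWithinAt (fun τ => j τ y)
      (j t y * (bz t (X t y) * (k0 * (q0 y / j t y) ^ p - G t (X t y)))) (Icc 0 T) t) :
    ∀ t ∈ Icc 0 T, (∀ a b, X t b - X t a = ∫ y in a..b, j t y) ∧
      ∀ᵐ x, qc t x = q0 (Y t x) / j t (Y t x) := by
  have hB : 0 ≤ B := (b0 0).1.trans (b0 0).2
  have hKb : 0 ≤ Kb := (bb 0 0).1.trans (bb 0 0).2
  obtain ⟨e, he, e1, e2⟩ : ∃ e, 0 < e ∧ e ≤ c ∧ e ≤ Real.exp (-(K * T)) :=
    ⟨min c _, lt_min hc (Real.exp_pos _), min_le_left _ _, min_le_right _ _⟩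
  have e3 : c⁻¹ ≤ e⁻¹ := inv_anti₀ he e1
  have e4 : Real.exp (K * T) ≤ e⁻¹ := by
    rw [le_inv_comm₀ (Real.exp_pos _) he, ← Real.exp_neg]; exact e2
  have bj' : ∀ t y, j t y ∈ Icc e e⁻¹ := fun t y => ⟨e1.trans (bj t y).1, (bj t y).2.trans e3⟩
  obtain ⟨J, mJ, bJ, dJ⟩ : ∃ J : ℝ → ℝ → ℝ, Measurable (Function.uncurry J) ∧
      (∀ t y, J t y ∈ Icc e e⁻¹) ∧ ∀ t a b, X t b - X t a = ∫ y in a..b, J t y :=
    ⟨fun t y => max e (min (deriv (X t) y) e⁻¹),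
      measurable_const.max ((measurable_deriv_with_param F.X_cont).min measurable_const),
      fun t y => ⟨le_max_left _ _, max_le ((bj' 0 0).1.trans (bj' 0 0).2) (min_le_right _ _)⟩,
      fun t => dens (fun a b h => (mul_le_mul_of_nonneg_right e2 (sub_nonneg.2 h)).trans
        (F.lower t a b h)) (fun a b h => (F.upper t a b h).trans
        (mul_le_mul_of_nonneg_right e4 (sub_nonneg.2 h))) he⟩
  have aS : ∀ r ∈ Icc e e⁻¹, |r| ≤ e⁻¹ := fun r hr => by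
    rw [abs_of_pos (he.trans_le hr.1)]; exact hr.2
  have cX : ∀ t, Continuous (X t) := fun t => F.X_cont.comp (Continuous.prodMk_right t)
  have cY : ∀ t, Continuous (Y t) := fun t => F.Y_cont.comp (Continuous.prodMk_right t)
  have cov := fun t => hCov (X t) (Y t) (J t) (cY t) (F.XY t) (F.YX t)
    (fun a b h => by
      have := F.lower t a b h.le
      have := mul_pos (Real.exp_pos (-(K * T))) (sub_pos.2 h)
      linarith) mJ.of_uncurry_left (ae_of_all _ fun y => he.le.trans (bJ t y).1)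
    (ii mJ.of_uncurry_left fun y => aS _ (bJ t y)) (dJ t)
  have aq : ∀ t x, |qc t x| ≤ B := fun t x => by rw [abs_of_nonneg (bq t x).1]; exact (bq t x).2
  have q1 : ∀ t ∈ Icc 0 T, ∀ᵐ y, qc t (X t y) = q0 y / J t y := fun t ht => by
    filter_upwards [ae_eq_of_int (f := fun y => qc t (X t y) * J t y) (g := q0)
      ((mq.of_uncurry_left.comp (cX t).measurable).mul mJ.of_uncurry_left) m0 (C := B * e⁻¹)
      (C' := B) (fun y => by
        rw [abs_mul]; exact mul_le_mul (aq _ _) (aS _ (bJ t y)) (abs_nonneg _) hB)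
      (fun y => by rw [abs_of_nonneg (b0 y).1]; exact (b0 y).2) fun a b => by
        rw [← (cov t).2 (qc t) mq.of_uncurry_left ⟨B, aq t⟩ a b, mass t ht]] with y hy
    rw [← hy, mul_div_cancel_right₀ _ (he.trans_le (bJ t y).1).ne']
  obtain ⟨H, hH⟩ : ∃ H : ℝ → ℝ → ℝ → ℝ, ∀ s y r,
      H s y r = r * (bz s (X s y) * (k0 * (q0 y / r) ^ p - G s (X s y))) := ⟨_, fun _ _ _ => rfl⟩
  have cXX : Continuous fun z : ℝ × ℝ => (z.1, X z.1 z.2) := continuous_fst.prodMk F.X_cont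
  have mH : ∀ {J : ℝ → ℝ → ℝ}, Measurable (Function.uncurry J) →
      Measurable (Function.uncurry fun s y => H s y (J s y)) := fun {J} mJ => by
    simp only [hH]
    exact mJ.mul ((cb.comp cXX).measurable.mul (((((m0.comp measurable_snd).div mJ).pow_const
      p).const_mul k0).sub (cG.comp cXX).measurable))
  have ab : ∀ {r D : ℝ} (t x : ℝ), r ∈ Icc 0 D →
      |bz t x * (k0 * r ^ p - G t x)| ≤ Kb * (k0 * D ^ p + k0 * B ^ p) := fun {r D} t x hr => by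
    have h1 := mul_le_mul_of_nonneg_left (Real.rpow_le_rpow hr.1 hr.2 hp0.le) hk
    have h2 := mul_nonneg hk (Real.rpow_nonneg hr.1 p)
    rw [abs_mul, abs_of_nonneg (bb t x).1]
    refine mul_le_mul (bb t x).2 (abs_le.2 ⟨?_, ?_⟩) (abs_nonneg _) hKb <;>
      linarith [(bG t x).1, (bG t x).2]
  obtain ⟨C, C1, bH⟩ : ∃ C, e⁻¹ ≤ C ∧ ∀ s y, ∀ r ∈ Icc e e⁻¹, |H s y r| ≤ C :=
    ⟨e⁻¹ + e⁻¹ * (Kb * (k0 * (B / e) ^ p + k0 * B ^ p)), le_add_of_nonneg_right (by positivity),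
      fun s y r hr => by
        rw [hH, abs_mul]
        exact (mul_le_mul (aS r hr) (ab s _ ⟨div_nonneg (b0 y).1 (he.le.trans hr.1),
          div_le_div₀ hB (b0 y).2 he hr.1⟩) (abs_nonneg _) (by positivity)).trans
          (le_add_of_nonneg_left (by positivity))⟩
  have lH : ∀ s y, ∀ r ∈ Icc e e⁻¹, ∀ r' ∈ Icc e e⁻¹, |H s y r - H s y r'| ≤
      Kb * (k0 * B ^ p * e ^ (-p) + k0 * B ^ p) * |r - r'| := fun s y r hr r' hr' => by
    have f : ∀ r ∈ Icc e e⁻¹, H s y r =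
        bz s (X s y) * (k0 * q0 y ^ p * r ^ (1 - p) - G s (X s y) * r) := fun r hr => by
      have h := he.trans_le hr.1
      rw [hH, Real.div_rpow (b0 y).1 h.le, Real.rpow_sub h, Real.rpow_one]
      ring
    rw [f r hr, f r' hr', ← mul_sub, abs_mul, abs_of_nonneg (bb _ _).1, mul_assoc Kb]
    refine mul_le_mul (bb _ _).2 ?_ (abs_nonneg _) hKb
    have h1 : |k0 * q0 y ^ p * (r ^ (1 - p) - r' ^ (1 - p))| ≤
        k0 * B ^ p * (e ^ (-p) * |r - r'|) := by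
      rw [abs_mul, abs_of_nonneg (mul_nonneg hk (Real.rpow_nonneg (b0 y).1 p))]
      exact mul_le_mul (mul_le_mul_of_nonneg_left (Real.rpow_le_rpow (b0 y).1 (b0 y).2 hp0.le) hk)
        (pow_lip hp0 hp1 he hr.1 hr'.1) (abs_nonneg _) (by positivity)
    have h2 : |G s (X s y) * (r - r')| ≤ k0 * B ^ p * |r - r'| := by
      rw [abs_mul, abs_of_nonneg (bG _ _).1]
      exact mul_le_mul_of_nonneg_right (bG _ _).2 (abs_nonneg _)
    have h3 := abs_sub (k0 * q0 y ^ p * (r ^ (1 - p) - r' ^ (1 - p))) (G s (X s y) * (r - r'))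
    rw [show k0 * q0 y ^ p * r ^ (1 - p) - G s (X s y) * r -
      (k0 * q0 y ^ p * r' ^ (1 - p) - G s (X s y) * r') =
      k0 * q0 y ^ p * (r ^ (1 - p) - r' ^ (1 - p)) - G s (X s y) * (r - r') by ring]
    linarith
  have vH : ∀ s ∈ Icc 0 T, ∀ a b, v s (X s b) - v s (X s a) = ∫ y in a..b, H s y (J s y) :=
    fun s hs a b => by
      rw [inc, (cov s).2 (fun x => bz s x * (k0 * qc s x ^ p - G s x))
        (cb.measurable.of_uncurry_left.mul (((mq.of_uncurry_left.pow_const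
        p).const_mul k0).sub cG.measurable.of_uncurry_left)) ⟨_, fun x => ab s x (bq s x)⟩]
      refine intervalIntegral.integral_congr_ae ?_
      filter_upwards [q1 s hs] with y hy _
      rw [hH, ← hy, mul_comm]
  have iv : ∀ y a b, IntervalIntegrable (fun s => v s (X s y)) volume a b := fun y a b =>
    ((cv.comp cXX).comp (Continuous.prodMk_left y)).intervalIntegrable a b
  have eJ : ∀ t ∈ Icc 0 T, ∀ᵐ y, J t y = 1 + ∫ s in (0 : ℝ)..t, H s y (J s y) := fun t ht => by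
    have m1 := mi (f := fun y s => H s y (J s y)) ((mH mJ).comp measurable_swap) 0 t
    have b1 := fun y => bi (fun s => bH s y _ (bJ s y)) 0 t
    refine ae_eq_of_int mJ.of_uncurry_left (m1.const_add 1) (fun y => aS _ (bJ t y))
      (C' := |1| + C * |t - 0|) (fun y => (abs_add_le _ _).trans (add_le_add le_rfl (b1 y)))
      fun a b => ?_
    rw [← dJ, intervalIntegral.integral_add intervalIntegrable_const (ii m1 b1 a b),
      ← intervalIntegral_intervalIntegral_swap (io (mH mJ) (fun s y => bH s y _ (bJ s y)) 0 t a b),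
      ← intervalIntegral.integral_congr (f := fun s => v s (X s b) - v s (X s a))
        (fun s hs => vH s (uIcc_subset_Icc ⟨le_rfl, ht.1.trans ht.2⟩ ht hs) a b),
      intervalIntegral.integral_sub (iv b 0 t) (iv a 0 t), ftc (F.deriv b) ht (iv b 0 t),
      ftc (F.deriv a) ht (iv a 0 t), F.X_zero, F.X_zero]
    simp only [intervalIntegral.integral_const, smul_eq_mul]
    ring
  have ej : ∀ t ∈ Icc 0 T, ∀ y, j t y = 1 + ∫ s in (0 : ℝ)..t, H s y (j s y) := fun t ht y => by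
    rw [← j0 y]
    exact ftc (f := fun s => j s y) (fun s hs => by rw [hH]; exact dj y s hs) ht
      (ii (mH mj).of_uncurry_right (fun s => bH s y _ (bj' s y)) 0 t)
  have U := uniq mJ mj (mH mJ) (mH mj) bJ bj' (fun r hr => (aS r hr).trans C1) bH
    (by positivity) lH eJ ej
  intro t ht
  refine ⟨fun a b => (dJ t a b).trans (intervalIntegral.integral_congr_ae
    ((U t ht).mono fun y hy _ => hy)), ?_⟩
  have h : ∀ᵐ y, qc t (X t y) = q0 y / j t y := by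
    filter_upwards [q1 t ht, U t ht] with y h1 h2
    rw [h1, h2]
  have h' := (withDensity_absolutelyContinuous volume
    fun y => ENNReal.ofReal (J t y)).ae_le h
  rw [← (cov t).1] at h'
  filter_upwards [ae_of_ae_map (cY t).measurable.aemeasurable h'] with x hx
  rwa [F.XY] at hx

end Jac

open Jac in
theorem lagS : ParFactsS → ConvS → VelS → FlowS → ConstS → CovS → JacOdeS → LagS := by
  intro hP hConv hVel hFlow hConst hCov hJac P T B C q0 q Q hT hB m0 b0 hq hL h0 hQ0 hPot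
  have F := hP P B hB
  have p0 := P.hp0
  have z0 : (0 : ℝ) ∈ Icc 0 T := ⟨le_rfl, hT⟩
  obtain ⟨qc, hqc⟩ : ∃ qc : ℝ → ℝ → ℝ, ∀ t x, qc t x = max 0 (min (q (cl T t) x) B) :=
    ⟨_, fun _ _ => rfl⟩
  have mq : Measurable (Function.uncurry qc) := by
    rw [show qc = fun t x => max 0 (min (q (cl T t) x) B) from funext₂ hqc]
    exact measurable_const.max ((hPot.q_meas.comp (((cl_cont T).comp continuous_fst).prodMk
      continuous_snd).measurable).min measurable_const)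
  have bq : ∀ t x, qc t x ∈ Icc 0 B := fun t x => by
    rw [hqc]; exact ⟨le_max_left _ _, max_le hB.le (min_le_right _ _)⟩
  have aq' : ∀ t, ∀ᵐ x, qc t x = q (cl T t) x := fun t => by
    filter_upwards [hq _ (cl_mem hT t)] with x hx
    rw [hqc, min_eq_left hx.2, max_eq_right hx.1]
  have aq : ∀ t ∈ Icc 0 T, ∀ᵐ x, qc t x = q t x := fun t ht => by
    simpa only [cl_eq ht] using aq' t
  have bu : ∀ t x, qc t x ^ P.p ∈ Icc 0 (P.N B) := fun t x =>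
    ⟨Real.rpow_nonneg (bq t x).1 _, Real.rpow_le_rpow (bq t x).1 (bq t x).2 p0.le⟩
  have mu : Measurable (Function.uncurry fun t x => qc t x ^ P.p) := mq.pow_const _
  have cu : ∀ a c t0, Tendsto (fun t => ∫ x in Icc a c, |qc t x ^ P.p - qc t0 x ^ P.p|)
      (𝓝 t0) (𝓝 0) := fun a c t0 => by
    refine contPow p0 P.hp1 F.le_root mq bq (((hL a c _ (cl_mem hT t0)).comp
      (tendsto_nhdsWithin_iff.2 ⟨(cl_cont T).tendsto t0, Eventually.of_forall (cl_mem hT)⟩)).congr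
      fun t => integral_congr_ae (ae_restrict_of_ae ?_))
    filter_upwards [aq' t, aq' t0] with x h1 h2
    rw [h1, h2]
  have au : ∀ t x, |qc t x ^ P.p| ≤ P.N B := fun t x => by
    rw [abs_of_nonneg (bu t x).1]; exact (bu t x).2
  obtain ⟨Z, hZ⟩ : ∃ Z : ℝ → ℝ → ℝ, ∀ t x, Z t x = ∫ s in Ioi (0 : ℝ), P.k s * qc t (x + s) ^ P.p :=
    ⟨_, fun _ _ => rfl⟩
  obtain ⟨G, hG⟩ : ∃ G : ℝ → ℝ → ℝ, ∀ t x, G t x = ∫ s in Ioi (0 : ℝ), P.g s * qc t (x + s) ^ P.p :=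
    ⟨_, fun _ _ => rfl⟩
  have cZ : Continuous (Function.uncurry Z) :=
    (hConv P.k _ _ F.k_int mu au cu).congr fun z => (hZ z.1 z.2).symm
  have cG : Continuous (Function.uncurry G) :=
    (hConv P.g _ _ P.hgi.integrableOn mu au cu).congr fun z => (hG z.1 z.2).symm
  have V := fun t => hVel P B (fun x => qc t x ^ P.p) hB mu.of_uncurry_left (bu t) (Z t) (G t)
    (hZ t) (hG t)
  have cv : Continuous (Function.uncurry fun t x => P.Φ (Z t x)) := F.Φ_cont.comp cZ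
  have hN := F.N_pos
  have hbm := F.bm_nonneg
  have hk := F.k0_pos
  have hC0 : 0 ≤ P.C0 B := by unfold Par.C0; positivity
  have hVm : 0 ≤ P.Vm B := by unfold Par.Vm Par.DV; positivity
  have bv : ∀ t x, |P.Φ (Z t x)| ≤ P.Vm B + P.C0 B := fun t x => by
    have h1 := F.Φ_lip _ ((V t).1 x).1 0 ⟨le_rfl, hN.le⟩
    rw [sub_zero, abs_of_nonneg ((V t).1 x).1.1] at h1
    have h2 := mul_le_mul_of_nonneg_left ((V t).1 x).1.2 hbm
    have h3 := abs_sub_abs_le_abs_sub (P.Φ (Z t x)) (P.Φ 0)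
    unfold Par.Vm Par.DV
    linarith
  have lv : ∀ t x x', |P.Φ (Z t x) - P.Φ (Z t x')| ≤ (P.Vm B + P.C0 B) * |x - x'| :=
    fun t x x' => ((V t).2.2.2 x' x).trans
      (mul_le_mul_of_nonneg_right (le_add_of_nonneg_left hVm) (abs_nonneg _))
  obtain ⟨X, Y, Fl⟩ := hFlow T _ _ hT (add_nonneg hVm hC0) cv bv lv
  have eZq : ∀ t ∈ Icc 0 T, ∀ x, Z t x = ∫ s in Ioi (0 : ℝ), P.k s * q t (x + s) ^ P.p :=
    fun t ht x => (hZ t x).trans (shift (f := fun x => qc t x ^ P.p) (g := fun x => q t x ^ P.p)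
      ((aq t ht).mono fun x hx => by rw [hx]) P.k x)
  have cst := hConst T _ C q _ Q X Y hT (add_nonneg hVm hC0) cv bv lv Fl
    ⟨hPot.q_meas, cv.measurable.mul hPot.q_meas,
      fun t ht => (hPot.bdd t ht).mono fun x hx => by rw [eZq t ht]; exact hx, hPot.Qx,
      fun t1 h1 t2 h2 x1 x2 => by
        rw [hPot.Qt t1 h1 t2 h2]
        congr 1
        refine intervalIntegral.integral_congr fun s hs => ?_
        simp only [eZq s (uIcc_subset_Icc h1 h2 hs)], hPot.lip⟩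
  have Q0 : ∀ a b, Q 0 b - Q 0 a = ∫ y in a..b, q0 y := fun a b =>
    (hPot.Qx 0 z0 a b).trans (intervalIntegral.integral_congr_ae (h0.mono fun y hy _ => hy))
  have cXX : Continuous fun z : ℝ × ℝ => (z.1, X z.1 z.2) := continuous_fst.prodMk Fl.X_cont
  have cb : Continuous (Function.uncurry fun t x => P.b (Z t x)) := P.hb.comp cZ
  have bb : ∀ t x, P.b (Z t x) ∈ Icc 0 (P.bm B) := fun t x => ⟨P.hb0 _, F.b_le _ ((V t).1 x).1⟩
  obtain ⟨j, c, hc, mj, bj, j0, jc, jB, dj⟩ := hJac P.p T B P.k0 q0 (fun t y => P.b (Z t (X t y)))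
    (fun t y => G t (X t y)) p0 P.hp1 hT hB hk.le m0 b0 (cb.comp cXX) (cG.comp cXX)
    ⟨_, fun t y => bb t _⟩ fun t y => ((V t).1 _).2
  have I := ident hCov p0 P.hp1 hk.le hc Fl cv mq bq m0 b0 cb bb cG (fun t x => ((V t).1 x).2)
    (fun t ht a b => by
      rw [← Q0, ← cst t ht, ← cst t ht, hPot.Qx t ht]
      exact intervalIntegral.integral_congr_ae ((aq t ht).mono fun y hy _ => hy))
    (fun t a b => (V t).2.2.1 a b) mj bj j0 dj
  have Xc : ∀ t y, X t y = X (cl T t) y := Fl.clamp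
  have jc' : ∀ t y, j t y = j (cl T t) y := jc
  have Yc : ∀ t x, Y t x = Y (cl T t) x := fun t x => by
    rw [← Fl.YX (cl T t) (Y t x), ← Xc, Fl.XY]
  have I2 : ∀ t, ∀ᵐ x, qc t x = q0 (Y t x) / j t (Y t x) := fun t => by
    filter_upwards [(I _ (cl_mem hT t)).2] with x hx
    rw [jc' t, Yc t, ← hx, hqc, hqc, cl_eq (cl_mem hT t)]
  have sh : ∀ (κ : ℝ → ℝ) t x, ∫ s in Ioi (0 : ℝ), κ s * (q0 (Y t (x + s)) / j t (Y t (x + s))) ^ P.p
      = ∫ s in Ioi (0 : ℝ), κ s * qc t (x + s) ^ P.p := fun κ t x =>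
    shift (f := fun x => (q0 (Y t x) / j t (Y t x)) ^ P.p) (g := fun x => qc t x ^ P.p)
      ((I2 t).mono fun x hx => by rw [hx]) κ x
  have jp : ∀ t y, 0 < j t y := fun t y => hc.trans_le (bj t y).1
  refine ⟨
    { T := T, q0 := q0, X := X, Y := Y, j := j
      u := fun t x => (q0 (Y t x) / j t (Y t x)) ^ P.p
      hT := hT, q0_meas := m0, q0_nonneg := fun y => (b0 y).1, q0_le := fun y => (b0 y).2
      X_cont := Fl.X_cont, Y_cont := Fl.Y_cont, XY := Fl.XY, YX := Fl.YX, X_zero := Fl.X_zero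
      j_meas := mj, j_pos := jp, j_zero := j0, j_clamp := jc
      j_int := fun t => ii mj.of_uncurry_left (C := c⁻¹) fun y => by
        rw [abs_of_pos (jp t y)]; exact (bj t y).2
      X_sub := fun t a b => by
        rw [Xc t, Xc t a, (I _ (cl_mem hT t)).1]
        simp only [← jc']
      u_meas := ((m0.comp Fl.Y_cont.measurable).div
        (mj.comp (measurable_fst.prodMk Fl.Y_cont.measurable))).pow_const _
      u_eq := fun t y => by simp only [Fl.YX]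
      u_le := fun t x => jB t _
      Z_cont := by simp only [sh, ← hZ]; exact cZ
      G_cont := by simp only [sh, ← hG]; exact cG
      X_deriv := fun y t ht => by simp only [sh, ← hZ]; exact Fl.deriv y t ht
      j_deriv := fun y t ht => by simp only [sh, ← hZ, ← hG, Fl.YX]; exact dj y t ht },
    rfl, rfl, fun t ht => ?_, fun t ht x => ?_⟩
  · filter_upwards [aq t ht, I2 t] with x h1 h2
    simp only [Lag.q]
    rw [← h2, one_div, Real.rpow_rpow_inv (bq t x).1 p0.ne', h1]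
  · simp only [Lag.Q, Lag.m]
    rw [← Q0, hQ0, sub_zero, ← cst t ht, Fl.XY]

end MP34a893

end MrgPart1

-- ======== part 2: formerly Pool.Agent.MP_34a893_an.Cone
section MrgPart2

open MeasureTheory Set Filter Topology

namespace MP34a893

namespace Cone

lemma ae_strip {T : ℝ} {p : ℝ × ℝ → Prop} (hp : MeasurableSet {z | p z})
    (h : ∀ t ∈ Icc 0 T, ∀ᵐ x, p (t, x)) : ∀ᵐ z ∂(volume.restrict (Ioo 0 T ×ˢ univ)), p z := by
  rw [Measure.volume_eq_prod, ← Measure.restrict_prod_eq_prod_univ,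
    Measure.ae_prod_iff_ae_ae hp]
  exact (ae_restrict_mem measurableSet_Ioo).mono fun t ht => h t (Ioo_subset_Icc_self ht)

lemma intg {T K : ℝ} {f D : ℝ × ℝ → ℝ} (hf : Measurable f)
    (hb : ∀ t ∈ Icc 0 T, ∀ᵐ x, |f (t, x)| ≤ K) (hD : Integrable D) :
    IntegrableOn (fun z => f z * D z) (Ioo 0 T ×ˢ univ) :=
  hD.integrableOn.bdd_mul (c := K) hf.aestronglyMeasurable
    (ae_strip (p := fun z => ‖f z‖ ≤ K) (measurableSet_le hf.norm measurable_const) hb)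

lemma fd_int {φ : ℝ × ℝ → ℝ} (hφ : ContDiff ℝ 1 φ) (hc : HasCompactSupport φ) (v : ℝ × ℝ) :
    Integrable fun z => fderiv ℝ φ z v :=
  ((hφ.continuous_fderiv one_ne_zero).clm_apply continuous_const).integrable_of_hasCompactSupport
    (hc.fderiv_apply ℝ v)

lemma fd_zero {φ : ℝ × ℝ → ℝ} (hφ : ContDiff ℝ 1 φ) (hc : HasCompactSupport φ) {s : Set (ℝ × ℝ)}
    (hs : tsupport φ ⊆ s) (v : ℝ × ℝ) : ∫ z in s, fderiv ℝ φ z v = 0 := by
  rw [setIntegral_eq_integral_of_forall_compl_eq_zero fun z hz => by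
    rw [fderiv_of_notMem_tsupport ℝ fun h => hz (hs h)]; rfl]
  have := integral_mul_fderiv_eq_neg_fderiv_mul_of_integrable (μ := volume) (f := fun _ => (1 : ℝ))
    (g := φ) (v := v) (by simp) (by simpa using fd_int hφ hc v)
    (by simpa using hφ.continuous.integrable_of_hasCompactSupport hc) (by simp)
    fun x _ => hφ.differentiable one_ne_zero x
  simpa using this

lemma loc {f : ℝ → ℝ} {K : ℝ} (hf : Measurable f) (hb : ∀ᵐ x, |f x| ≤ K) (a b : ℝ) :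
    IntegrableOn f (Icc a b) :=
  Measure.integrableOn_of_bounded (M := K) measure_Icc_lt_top.ne hf.aestronglyMeasurable
    (ae_restrict_of_ae hb)

/-- a smooth step -/
noncomputable def st (p ε t : ℝ) : ℝ := Real.smoothTransition ((t - p) / ε)

lemma st_diff (p ε : ℝ) : ContDiff ℝ 1 (st p ε) :=
  (Real.smoothTransition.contDiff (n := 1)).comp ((contDiff_id.sub contDiff_const).div_const ε)

lemma st_zero {p ε t : ℝ} (hε : 0 < ε) (h : t ≤ p) : st p ε t = 0 :=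
  Real.smoothTransition.zero_of_nonpos (div_nonpos_of_nonpos_of_nonneg (by linarith) hε.le)

lemma st_one {p ε t : ℝ} (hε : 0 < ε) (h : p + ε ≤ t) : st p ε t = 1 :=
  Real.smoothTransition.one_of_one_le ((one_le_div hε).2 (by linarith))

lemma st_deriv {p ε t : ℝ} (hε : 0 < ε) (h : t ∉ Icc p (p + ε)) : deriv (st p ε) t = 0 := by
  rcases not_and_or.1 h with h | h
  · rw [EventuallyEq.deriv_eq (f := fun _ => 0) ((Iio_mem_nhds (not_le.1 h) : _ ∈ 𝓝 t) |>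
      fun e => mem_of_superset e fun _ hs => st_zero hε (le_of_lt hs)), deriv_const]
  · rw [EventuallyEq.deriv_eq (f := fun _ => 1) ((Ioi_mem_nhds (not_le.1 h) : _ ∈ 𝓝 t) |>
      fun e => mem_of_superset e fun _ hs => st_one hε (le_of_lt hs)), deriv_const]

lemma st_cont (p ε : ℝ) : Continuous (deriv (st p ε)) := (st_diff p ε).continuous_deriv le_rfl

lemma st_int {T p ε : ℝ} {E : ℝ → ℝ} (hE : ContinuousOn E (Icc 0 T)) :
    IntegrableOn (fun t => deriv (st p ε) t * E t) (Ioo 0 T) :=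
  (((st_cont p ε).continuousOn.mul hE).integrableOn_compact isCompact_Icc).mono_set
    Ioo_subset_Icc_self

lemma st_le {T p ε m : ℝ} {E : ℝ → ℝ} (hE : ContinuousOn E (Icc 0 T)) (hε : 0 < ε) (hp : 0 ≤ p)
    (hT : p + ε ≤ T) (h : ∀ t ∈ Icc p (p + ε), E t ≤ m) :
    ∫ t in Ioo 0 T, deriv (st p ε) t * E t ≤ m := by
  have h1 : ∫ t in Ioo 0 T, deriv (st p ε) t * m = m := by
    rw [integral_mul_const, ← integral_Ioc_eq_integral_Ioo,
      ← intervalIntegral.integral_of_le (by linarith), intervalIntegral.integral_deriv_eq_sub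
        (fun x _ => (st_diff p ε).differentiable one_ne_zero x)
        ((st_cont p ε).intervalIntegrable _ _), st_one hε hT, st_zero hε hp]
    ring
  refine (integral_mono (st_int hE) (st_int continuousOn_const) fun t => ?_).trans_eq h1
  by_cases ht : t ∈ Icc p (p + ε)
  · exact mul_le_mul_of_nonneg_left (h t ht) (Monotone.deriv_nonneg fun a b hab =>
      Real.smoothTransition.monotone (by gcongr))
  · simp [st_deriv hε ht]

/-- a continuous function with nonpositive distributional derivative is non-increasing -/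
lemma anti {T : ℝ} {E : ℝ → ℝ} (hE : ContinuousOn E (Icc 0 T))
    (h : ∀ (χ : ℝ → ℝ) (a b : ℝ), ContDiff ℝ 1 χ → 0 < a → b < T → (∀ t ∉ Icc a b, χ t = 0) →
      (∀ t, 0 ≤ χ t) → 0 ≤ ∫ t in Ioo 0 T, deriv χ t * E t)
    {s t : ℝ} (hs : 0 ≤ s) (hst : s ≤ t) (ht : t ≤ T) : E t ≤ E s := by
  by_contra H
  push Not at H
  have h0 : s < t := hst.lt_of_ne fun e => by simp [e] at H
  obtain ⟨r, r0, hr⟩ := Metric.continuousWithinAt_iff.1 (hE s ⟨hs, hst.trans ht⟩)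
    ((E t - E s) / 4) (by linarith)
  obtain ⟨r', r0', hr'⟩ := Metric.continuousWithinAt_iff.1 (hE t ⟨hs.trans hst, ht⟩)
    ((E t - E s) / 4) (by linarith)
  obtain ⟨ε, hε, e1, e2, e3⟩ : ∃ ε, 0 < ε ∧ 4 * ε ≤ r ∧ 4 * ε ≤ r' ∧ 4 * ε ≤ t - s :=
    ⟨min r (min r' (t - s)) / 4, by have := sub_pos.2 h0; positivity,
      by linarith [min_le_left r (min r' (t - s))],
      by linarith [min_le_right r (min r' (t - s)), min_le_left r' (t - s)],
      by linarith [min_le_right r (min r' (t - s)), min_le_right r' (t - s)]⟩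
  have h1 := st_le (p := s + ε) (m := E s + (E t - E s) / 4) hE hε (by linarith) (by linarith)
    fun τ hτ => by
      have := hr (x := τ) ⟨by linarith [hτ.1], by linarith [hτ.2]⟩ (by
        rw [Real.dist_eq, abs_lt]; constructor <;> linarith [hτ.1, hτ.2])
      rw [Real.dist_eq, abs_lt] at this
      linarith [this.2]
  have h2 := st_le (p := t - 2 * ε) (m := -E t + (E t - E s) / 4) hE.neg hε (by linarith)
    (by linarith) fun τ hτ => by
      have := hr' (x := τ) ⟨by linarith [hτ.1], by linarith [hτ.2]⟩ (by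
        rw [Real.dist_eq, abs_lt]; constructor <;> linarith [hτ.1, hτ.2])
      rw [Real.dist_eq, abs_lt] at this
      simp only [Pi.neg_apply]
      linarith [this.1]
  have h3 := h (fun τ => st (s + ε) ε τ - st (t - 2 * ε) ε τ) (s + ε) (t - ε)
    ((st_diff _ _).sub (st_diff _ _)) (by linarith) (by linarith) (fun τ hτ => by
      rcases not_and_or.1 hτ with e | e
      · rw [st_zero hε (by linarith), st_zero hε (by linarith), sub_self]
      · rw [st_one hε (by linarith), st_one hε (by linarith), sub_self])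
    fun τ => sub_nonneg.2 (Real.smoothTransition.monotone (by gcongr; linarith))
  have h4 := integral_add (st_int (p := s + ε) (ε := ε) hE) (st_int (p := t - 2 * ε) (ε := ε) hE.neg)
  rw [integral_congr_ae (g := fun τ => deriv (st (s + ε) ε) τ * E τ +
    deriv (st (t - 2 * ε) ε) τ * (-E) τ) (.of_forall fun τ => by
      beta_reduce
      rw [deriv_fun_sub ((st_diff _ _).differentiable one_ne_zero τ)
        ((st_diff _ _).differentiable one_ne_zero τ), Pi.neg_apply]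
      ring), h4] at h3
  linarith

/-- continuity in time of a weighted integral -/
lemma cont {T K A B : ℝ} {η : ℝ → ℝ → ℝ} {w : ℝ × ℝ → ℝ} (hm : Measurable (Function.uncurry η))
    (hb : ∀ t ∈ Icc 0 T, ∀ᵐ x, |η t x| ≤ K) (hc : ContL1 T η) (hw : Continuous w)
    (h1 : ∀ z, |w z| ≤ 1) : ContinuousOn (fun t => ∫ x in Icc A B, η t x * w (t, x)) (Icc 0 T) := by
  intro t0 ht0
  have hi : ∀ t ∈ Icc 0 T, IntegrableOn (η t) (Icc A B) := fun t ht =>
    loc hm.of_uncurry_left (hb t ht) A B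
  have hi' : ∀ t ∈ Icc 0 T, ∀ s, IntegrableOn (fun x => η t x * w (s, x)) (Icc A B) :=
    fun t ht s => (hi t ht).mul_bdd (c := 1) (by fun_prop) (.of_forall fun x => h1 _)
  have h2 : Continuous fun t => ∫ x in Icc A B, η t0 x * w (t, x) :=
    continuous_of_dominated (fun t => (hi' t0 ht0 t).aestronglyMeasurable)
      (fun t => .of_forall fun x => by
        rw [norm_mul]; exact mul_le_of_le_one_right (norm_nonneg _) (h1 _))
      (hi t0 ht0).norm (.of_forall fun x => by fun_prop)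
  have h3 : Tendsto (fun t => (∫ x in Icc A B, η t x * w (t, x)) -
      ∫ x in Icc A B, η t0 x * w (t, x)) (𝓝[Icc 0 T] t0) (𝓝 0) := by
    refine squeeze_zero_norm' (eventually_mem_nhdsWithin.mono fun t ht => ?_) (hc A B t0 ht0)
    rw [← integral_sub (hi' t ht t) (hi' t0 ht0 t)]
    refine norm_integral_le_of_norm_le ((hi t ht).sub (hi t0 ht0)).abs (.of_forall fun x => ?_)
    rw [← sub_mul, norm_mul]
    exact mul_le_of_le_one_right (norm_nonneg _) (h1 _)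
  simpa [ContinuousWithinAt] using h3.add (h2.continuousWithinAt (s := Icc 0 T) (x := t0))

/-- the weight -/
noncomputable def wt (C a c τ : ℝ) (z : ℝ × ℝ) : ℝ :=
  Real.smoothTransition (z.2 - a + C * (τ - z.1)) * Real.smoothTransition (c - z.2 + C * (τ - z.1))

lemma wt_diff (C a c τ : ℝ) : ContDiff ℝ 1 (wt C a c τ) :=
  ((Real.smoothTransition.contDiff (n := 1)).comp (by fun_prop)).mul
    ((Real.smoothTransition.contDiff (n := 1)).comp (by fun_prop))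

lemma wt_nonneg (C a c τ : ℝ) (z : ℝ × ℝ) : 0 ≤ wt C a c τ z :=
  mul_nonneg (Real.smoothTransition.nonneg _) (Real.smoothTransition.nonneg _)

lemma wt_zero {C a c τ : ℝ} {z : ℝ × ℝ}
    (h : z.2 ∉ Icc (a - C * (τ - z.1)) (c + C * (τ - z.1))) : wt C a c τ z = 0 := by
  rcases not_and_or.1 h with e | e
  · rw [wt, Real.smoothTransition.zero_of_nonpos (by linarith), zero_mul]
  · rw [wt, Real.smoothTransition.zero_of_nonpos (x := c - _ + _) (by linarith), mul_zero]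

lemma wt_cone {C : ℝ} (hC : 0 ≤ C) (a c τ : ℝ) (z : ℝ × ℝ) :
    C * |fderiv ℝ (wt C a c τ) z (0, 1)| ≤ -fderiv ℝ (wt C a c τ) z (1, 0) := by
  have hσ := fun x => ((Real.smoothTransition.contDiff (n := 1)).differentiable one_ne_zero
    x).hasDerivAt
  have h1 := ((hσ _).comp_hasFDerivAt z (((hasFDerivAt_snd (𝕜 := ℝ) (p := z)).sub_const a).add
    (((hasFDerivAt_fst (𝕜 := ℝ) (p := z)).const_sub τ).const_mul C))).mul
    ((hσ _).comp_hasFDerivAt z (((hasFDerivAt_snd (𝕜 := ℝ) (p := z)).const_sub c).add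
    (((hasFDerivAt_fst (𝕜 := ℝ) (p := z)).const_sub τ).const_mul C)))
  rw [HasFDerivAt.fderiv (f := wt C a c τ) h1]
  have h2 := fun x y => mul_nonneg (Real.smoothTransition.nonneg x)
    (Real.smoothTransition.monotone.deriv_nonneg (x := y))
  have h3 := h2 (z.2 - a + C * (τ - z.1)) (c - z.2 + C * (τ - z.1))
  have h4 := h2 (c - z.2 + C * (τ - z.1)) (z.2 - a + C * (τ - z.1))
  simp only [add_apply, smul_apply, neg_apply, ContinuousLinearMap.coe_fst',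
    ContinuousLinearMap.coe_snd', smul_eq_mul, Function.comp, Pi.add_apply]
  rw [← abs_of_nonneg hC, ← abs_mul, abs_of_nonneg hC, abs_le]
  constructor <;> nlinarith [mul_nonneg hC h3, mul_nonneg hC h4]

end Cone

open Cone

theorem coneS : ConeS := by
  intro T C C' η ψ hC hη hψ hb hc hS s δ a c hs hδ hT h0
  set w := wt C a c (s + δ)
  have hw := wt_diff C a c (s + δ)
  have hb1 : ∀ t ∈ Icc 0 T, ∀ᵐ x, |η t x| ≤ C' := fun t ht =>
    (hb t ht).mono fun x h => by rw [abs_of_nonneg h.1]; exact h.2.1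
  have hb2 : ∀ t ∈ Icc 0 T, ∀ᵐ x, |ψ t x| ≤ C * C' := fun t ht =>
    (hb t ht).mono fun x h => h.2.2.trans (mul_le_mul_of_nonneg_left h.2.1 hC)
  have hz : ∀ t x, 0 ≤ t → x ∉ Icc (a - C * (s + δ)) (c + C * (s + δ)) → w (t, x) = 0 :=
    fun t x ht hx => wt_zero fun h => hx (Icc_subset_Icc
      (by nlinarith [mul_nonneg hC ht]) (by nlinarith [mul_nonneg hC ht]) h)
  have he : ∀ t, 0 ≤ t → ∫ x in Icc (a - C * (s + δ)) (c + C * (s + δ)), η t x * w (t, x) =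
      ∫ x, η t x * w (t, x) := fun t ht =>
    setIntegral_eq_integral_of_forall_compl_eq_zero fun x hx => by rw [hz t x ht hx, mul_zero]
  have h1 : ∀ z, |w z| ≤ 1 := fun z => by
    rw [abs_of_nonneg (wt_nonneg _ _ _ _ z)]
    exact mul_le_one₀ (Real.smoothTransition.le_one _) (Real.smoothTransition.nonneg _)
      (Real.smoothTransition.le_one _)
  have key := anti (cont (A := a - C * (s + δ)) (B := c + C * (s + δ)) hη hb1 hc hw.continuous h1)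
    (fun χ p q hχ hp hq hχ0 hχ1 => by
      have hK := (isCompact_Icc (a := p) (b := q)).prod
        (isCompact_Icc (a := a - C * (s + δ)) (b := c + C * (s + δ)))
      have hv : ∀ f : ℝ → ℝ, (∀ t ∉ Icc p q, f t = 0) → ∀ z ∉ Icc p q ×ˢ
          Icc (a - C * (s + δ)) (c + C * (s + δ)), f z.1 * w z = 0 := fun f hf z hz' => by
        by_cases e : z.1 ∈ Icc p q
        · rw [hz z.1 z.2 (hp.le.trans e.1) fun e' => hz' ⟨e, e'⟩, mul_zero]
        · rw [hf _ e, zero_mul]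
      have hφ : ContDiff ℝ 1 fun z : ℝ × ℝ => χ z.1 * w z := (hχ.comp contDiff_fst).mul hw
      have hφc : HasCompactSupport fun z : ℝ × ℝ => χ z.1 * w z := .intro hK (hv χ hχ0)
      have h2 := hS _ hφ hφc ((closure_minimal (Function.support_subset_iff'.2 (hv χ hχ0))
        hK.isClosed).trans (prod_mono (Icc_subset_Ioo hp hq) (subset_univ _)))
        fun z => mul_nonneg (hχ1 _) (wt_nonneg _ _ _ _ z)
      have h3 : IntegrableOn (fun z : ℝ × ℝ => η z.1 z.2 * (deriv χ z.1 * w z))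
          (Ioo 0 T ×ˢ univ) := intg hη hb1
        ((((hχ.continuous_deriv le_rfl).comp continuous_fst).mul
          hw.continuous).integrable_of_hasCompactSupport (.intro hK (hv _ fun t ht => by
            rw [EventuallyEq.deriv_eq (f := fun _ => 0) (mem_of_superset
              (isClosed_Icc.isOpen_compl.mem_nhds ht) hχ0), deriv_const])))
      refine h2.trans ((integral_mono_ae ((intg hη hb1 (fd_int hφ hφc _)).add
        (intg hψ hb2 (fd_int hφ hφc _))) h3 ?_).trans_eq ?_)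
      · refine (ae_strip (p := fun z => 0 ≤ η z.1 z.2 ∧ |ψ z.1 z.2| ≤ C * η z.1 z.2)
          ((measurableSet_le measurable_const hη).inter
            (measurableSet_le (Measurable.abs hψ) (Measurable.const_mul hη C)))
          fun t ht => (hb t ht).mono fun x h => ⟨h.1, h.2.2⟩).mono fun z h => ?_
        have h4 := ((hχ.differentiable one_ne_zero z.1).hasDerivAt.comp_hasFDerivAt z
          hasFDerivAt_fst).mul (hw.differentiable one_ne_zero z).hasFDerivAt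
        have h5 := mul_le_mul_of_nonneg_left (wt_cone hC a c (s + δ) z) h.1
        have h6 := (le_abs_self _).trans ((abs_mul _ _).trans_le (mul_le_mul_of_nonneg_right h.2
          (abs_nonneg (fderiv ℝ w z (0, 1)))))
        change η z.1 z.2 * _ + ψ z.1 z.2 * _ ≤ _
        rw [HasFDerivAt.fderiv (f := fun z : ℝ × ℝ => χ z.1 * w z) h4]
        simp only [add_apply, smul_apply, ContinuousLinearMap.coe_fst', smul_eq_mul, Function.comp]
        nlinarith [mul_nonneg (hχ1 z.1) (show 0 ≤ -(η z.1 z.2 * fderiv ℝ w z (1, 0) +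
          ψ z.1 z.2 * fderiv ℝ w z (0, 1)) by nlinarith)]
      · rw [Measure.volume_eq_prod] at h3 ⊢
        rw [setIntegral_prod _ h3]
        refine setIntegral_congr_fun measurableSet_Ioo fun t ht => ?_
        rw [he t ht.1.le, ← integral_const_mul, Measure.restrict_univ]
        exact congrArg _ (funext fun x => by ring))
    hs (le_add_of_nonneg_right hδ) hT
  have ht : s + δ ∈ Icc 0 T := ⟨add_nonneg hs hδ, hT⟩
  rw [he s hs, integral_eq_zero_of_ae (f := fun x => η s x * w (s, x)) (h0.mono fun x h => by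
    by_cases e : x ∈ Icc (a - C * δ) (c + C * δ)
    · simp [h e]
    · simp [w, wt_zero (z := (s, x)) (τ := s + δ) (by simpa using e)])] at key
  have h2 : 0 ≤ᵐ[volume.restrict (Icc (a - C * (s + δ)) (c + C * (s + δ)))]
      fun x => η (s + δ) x * w (s + δ, x) :=
    ae_restrict_of_ae ((hb _ ht).mono fun x h => mul_nonneg h.1 (wt_nonneg _ _ _ _ _))
  have h3 := (ae_restrict_iff' measurableSet_Icc).1 ((integral_eq_zero_iff_of_nonneg_ae h2
    ((loc hη.of_uncurry_left (hb1 _ ht) _ _).mul_bdd (c := 1) (by have := hw.continuous; fun_prop)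
      (.of_forall fun x => h1 _))).1 (le_antisymm key (integral_nonneg_of_ae h2)))
  filter_upwards [h3, compl_mem_ae_iff.2 (measure_singleton a),
    compl_mem_ae_iff.2 (measure_singleton c)] with x h ha hc' hx
  have h4 := mul_nonneg hC ht.1
  refine (mul_eq_zero.1 (h ⟨by linarith [hx.1], by linarith [hx.2]⟩)).resolve_right (ne_of_gt ?_)
  exact mul_pos (Real.smoothTransition.pos_of_pos (by simpa using hx.1.lt_of_ne' ha))
    (Real.smoothTransition.pos_of_pos (by simpa using hx.2.lt_of_ne hc'))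

theorem rangeS (hS : SliceS) (hC : ConeS) : RangeS := by
  intro T M V q0 q hT hV hq0 hM ⟨⟨hm, B, hB⟩, hc, hw, he⟩
  have hF : Measurable (Function.uncurry fun t x => V (q t x) * q t x) :=
    (hV.continuous.measurable.comp hm).mul hm
  obtain ⟨R, r0, r1, r2⟩ : ∃ R, 0 ≤ R ∧ B ≤ R ∧ |M| ≤ R :=
    ⟨max B |M|, le_max_of_le_right (abs_nonneg _), le_max_left _ _, le_max_right _ _⟩
  obtain ⟨L, hL⟩ := (hV.mul contDiff_id).contDiffOn.exists_lipschitzOnWith one_ne_zero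
    (convex_Icc (-R) R) isCompact_Icc
  have hL' : ∀ x y, |x| ≤ R → |y| ≤ R → |V x * x - V y * y| ≤ L * |x - y| := fun x y hx hy =>
    hL.dist_le_mul x (abs_le.1 hx) y (abs_le.1 hy)
  have hq : ∀ t ∈ Icc 0 T, ∀ᵐ x, |q t x| ≤ R := fun t ht => (hB t ht).mono fun x h => h.trans r1
  have hLR : 0 ≤ (L : ℝ) * R := mul_nonneg L.2 r0
  have hF' : ∀ t ∈ Icc 0 T, ∀ᵐ x, |V (q t x) * q t x| ≤ L * R := fun t ht =>
    (hq t ht).mono fun x h => by
      have := hL' _ 0 h (by simpa using r0)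
      rw [mul_zero, sub_zero, sub_zero] at this
      exact this.trans (mul_le_mul_of_nonneg_left h L.2)
  have hq0' : ∀ x, |q0 x| ≤ R := fun x => by
    rw [abs_of_nonneg (hM x).1]; exact (hM x).2.trans ((le_abs_self M).trans r2)
  have h0 : (0 : ℝ) ∈ Icc 0 T := ⟨le_rfl, hT.le⟩
  have li : ∀ f : ℝ → ℝ, Measurable f → (∀ᵐ x, |f x| ≤ R) → LocallyIntegrable f := fun f h1 h2 x =>
    ⟨_, Icc_mem_nhds (sub_one_lt x) (lt_add_one x), loc h1 h2 _ _⟩
  have hi : ∀ᵐ x, q 0 x = q0 x := ae_eq_of_integral_contDiff_smul_eq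
    (li _ hm.of_uncurry_left (hq 0 h0)) (li _ hq0 (.of_forall hq0')) fun ζ h1 h2 => by
      simpa using hS T (R + L * R) q0 q _ hT hm hF (fun t ht => by
        filter_upwards [hq t ht, hF' t ht] with x a b
        exact ⟨by linarith, by linarith⟩) hq0 (fun x => by linarith [hq0' x]) hc hw ζ
        (h1.of_le (by simp)) h2 0 h0
  have hsg : Measurable Real.sign :=
    .ite measurableSet_Iio measurable_const (.ite measurableSet_Ioi measurable_const measurable_const)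
  have key : ∀ κ ε : ℝ, |κ| ≤ R → |ε| ≤ 1 → (∀ x, |q0 x - κ| + ε * (q0 x - κ) = 0) →
      ∀ t ∈ Icc 0 T, ∀ᵐ x, |q t x - κ| + ε * (q t x - κ) = 0 := fun κ ε hκ hε hz t ht => by
    have m1 : Measurable fun z : ℝ × ℝ => q z.1 z.2 - κ := Measurable.sub_const hm κ
    have m2 : Measurable fun z : ℝ × ℝ => Real.sign (q z.1 z.2 - κ) *
        (V (q z.1 z.2) * q z.1 z.2 - V κ * κ) := (hsg.comp m1).mul (Measurable.sub_const hF _)
    have b1 : ∀ y, |y| ≤ R → |y - κ| ≤ 2 * R := fun y hy => by linarith [abs_sub y κ]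
    have b2 : ∀ y : ℝ, |ε * y| ≤ |y| := fun y => by
      rw [abs_mul]; exact mul_le_of_le_one_left (abs_nonneg _) hε
    have H := fun n : ℕ => hC T L (4 * R) (fun t x => |q t x - κ| + ε * (q t x - κ))
      (fun t x => Real.sign (q t x - κ) * (V (q t x) * q t x - V κ * κ) +
        ε * (V (q t x) * q t x - V κ * κ)) L.2 (m1.abs.add (m1.const_mul ε))
      (m2.add ((Measurable.sub_const hF _).const_mul ε)) (fun t ht => (hq t ht).mono fun x h => by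
        have a1 := abs_le.1 (b2 (q t x - κ))
        have a2 := hL' _ κ h hκ
        have a3 := abs_le.1 hε
        refine ⟨by linarith [a1.1], by linarith [a1.2, b1 _ h], ?_⟩
        rw [← add_mul, abs_mul]
        rcases lt_trichotomy (q t x - κ) 0 with e | e | e
        · rw [abs_of_neg e] at a2 ⊢
          rw [Real.sign_of_neg e, abs_of_nonpos (by linarith [a3.2])]
          nlinarith [mul_le_mul_of_nonneg_left a2 (show 0 ≤ -(-1 + ε) by linarith [a3.2])]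
        · rw [sub_eq_zero.1 e]; simp
        · rw [abs_of_pos e] at a2 ⊢
          rw [Real.sign_of_pos e, abs_of_nonneg (by linarith [a3.1])]
          nlinarith [mul_le_mul_of_nonneg_left a2 (show 0 ≤ 1 + ε by linarith [a3.1])])
      (fun a b t0 ht0 => by
        refine squeeze_zero' (.of_forall fun _ => integral_nonneg fun _ => abs_nonneg _)
          (eventually_mem_nhdsWithin.mono fun t ht => ?_)
          (by simpa using (hc a b t0 ht0).const_mul 2)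
        rw [← integral_const_mul]
        refine integral_mono_of_nonneg (.of_forall fun _ => abs_nonneg _)
          (((loc hm.of_uncurry_left (hq t ht) a b).sub
            (loc hm.of_uncurry_left (hq t0 ht0) a b)).abs.const_mul 2) (.of_forall fun x => ?_)
        have a1 := abs_le.1 (abs_abs_sub_abs_le_abs_sub (q t x - κ) (q t0 x - κ))
        have a2 := abs_le.1 (b2 (q t x - q t0 x))
        rw [sub_sub_sub_cancel_right] at a1
        exact abs_le.2 ⟨by linarith [a1.1, a2.1], by linarith [a1.2, a2.2]⟩)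
      (fun φ h1 h2 h3 h4 => by
        have a1 := he κ φ h1 h2 h3 h4
        have a2 := hw φ h1 h2 (h3.trans (prod_mono Ioo_subset_Iio_self subset_rfl))
        have a3 : ∀ x, φ (0, x) = 0 := fun x =>
          image_eq_zero_of_notMem_tsupport fun h => (h3 h).1.1.false
        simp only [a3, mul_zero, integral_zero, add_zero] at a2
        have i0 := fun v => (fd_int h1 h2 v).integrableOn (s := Ioo 0 T ×ˢ univ)
        have i1 := (intg (K := 2 * R) m1.abs (fun t ht => (hq t ht).mono fun x h => by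
          rw [abs_abs]; exact b1 _ h) (fd_int h1 h2 (1, 0))).add
          (intg (K := L * (2 * R)) m2 (fun t ht => (hq t ht).mono fun x h => by
            rw [abs_mul]
            refine (mul_le_of_le_one_left (abs_nonneg _) ?_).trans
              ((hL' _ κ h hκ).trans (mul_le_mul_of_nonneg_left (b1 _ h) L.2))
            rcases Real.sign_apply_eq (q t x - κ) with e | e | e <;> simp [e])
            (fd_int h1 h2 (0, 1)))
        have i2 := ((intg hm hq (fd_int h1 h2 (1, 0))).add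
          (intg hF hF' (fd_int h1 h2 (0, 1)))).const_mul ε
        have i3 := ((i0 (1, 0)).const_mul (-(ε * κ))).add ((i0 (0, 1)).const_mul (-(ε * (V κ * κ))))
        have a4 := (integral_add (i1.add i2) i3).trans (congrArg₂ (· + ·) (integral_add i1 i2)
          (integral_add ((i0 (1, 0)).const_mul _) ((i0 (0, 1)).const_mul _)))
        simp only [integral_const_mul, fd_zero h1 h2 h3, Pi.add_apply, Function.uncurry, a2,
          mul_zero, add_zero] at a4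
        refine a1.trans_eq (a4.symm.trans (congrArg _ (funext fun z => ?_)))
        ring)
      0 t (-n) n le_rfl ht.1 (by simpa using ht.2) (hi.mono fun x h _ => by rw [h, hz])
    filter_upwards [ae_all_iff.2 H] with x h
    obtain ⟨n, hn⟩ := exists_nat_ge |x|
    simpa using h n (abs_le.1 hn)
  intro t ht
  filter_upwards [key M 1 r2 (by simp) (fun x => by
      rw [abs_of_nonpos (sub_nonpos.2 (hM x).2)]; ring) t ht,
    key 0 (-1) (by simpa using r0) (by simp) (fun x => by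
      rw [sub_zero, abs_of_nonneg (hM x).1]; ring) t ht] with x h1 h2
  exact ⟨by linarith [abs_nonneg (q t x - 0)], by linarith [abs_nonneg (q t x - M)]⟩

end MP34a893

end MrgPart2

-- ======== part 3: formerly Pool.Agent.MP_34a893_an.Scale
section MrgPart3

/-! Row SCA: passage between large and small units. -/

open MeasureTheory Set Filter Topology

namespace MP34a893

namespace Sca

theorem ae_aff {c : ℝ} (hc : c ≠ 0) (x : ℝ) {p : ℝ → Prop} (h : ∀ᵐ y, p y) :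
    ∀ᵐ s, p (x + c * s) := by
  have h1 : Measure.QuasiMeasurePreserving (fun s : ℝ => c * s) volume volume :=
    ⟨measurable_const_mul c, by
      rw [Real.map_volume_mul_left hc]; exact Measure.smul_absolutelyContinuous⟩
  exact h1.ae ((measurePreserving_add_left volume x).quasiMeasurePreserving.ae h)

theorem ae_mul {c : ℝ} (hc : c ≠ 0) {p : ℝ → Prop} (h : ∀ᵐ y, p y) : ∀ᵐ s, p (c * s) := by
  simpa only [zero_add] using ae_aff hc 0 h

theorem mem_mul {c T T' t : ℝ} (hc : 0 < c) (hT : c * T' = T) (ht : t ∈ Icc 0 T') :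
    c * t ∈ Icc 0 T :=
  ⟨mul_nonneg hc.le ht.1, hT ▸ mul_le_mul_of_nonneg_left ht.2 hc.le⟩

theorem meas_mul {q : ℝ → ℝ → ℝ} (h : Measurable (Function.uncurry q)) (c : ℝ) :
    Measurable (Function.uncurry fun t x => q (c * t) (c * x)) :=
  h.comp ((measurable_fst.const_mul c).prodMk (measurable_snd.const_mul c))

theorem pot_scale {T T' C c : ℝ} {q F Q : ℝ → ℝ → ℝ} (h : Pot T C q F Q) (hc : 0 < c)
    (hT : c * T' = T) : Pot T' C (fun t x => q (c * t) (c * x)) (fun t x => F (c * t) (c * x))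
      (fun t x => c⁻¹ * Q (c * t) (c * x)) where
  q_meas := meas_mul h.q_meas c
  F_meas := meas_mul h.F_meas c
  bdd t ht := ae_mul hc.ne' (h.bdd _ (mem_mul hc hT ht))
  Qx t ht x1 x2 := by
    rw [← mul_sub, h.Qx _ (mem_mul hc hT ht),
      intervalIntegral.integral_comp_mul_left (q (c * t)) hc.ne', smul_eq_mul]
  Qt t1 h1 t2 h2 x1 x2 := by
    simp only [← mul_sub]
    rw [intervalIntegral.integral_const_mul,
      intervalIntegral.integral_comp_mul_left (fun x => Q (c * t2) x - Q (c * t1) x) hc.ne',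
      h.Qt _ (mem_mul hc hT h1) _ (mem_mul hc hT h2),
      intervalIntegral.integral_comp_mul_left (fun t => ∫ x in x1..x2, F t (c * x)) hc.ne']
    simp only [fun t => intervalIntegral.integral_comp_mul_left (a := x1) (b := x2) (F t) hc.ne',
      smul_eq_mul, intervalIntegral.integral_const_mul, mul_neg]
  lip t1 h1 t2 h2 x := by
    rw [← mul_sub, abs_mul, abs_of_pos (inv_pos.2 hc), inv_mul_le_iff₀ hc]
    refine (h.lip _ (mem_mul hc hT h1) _ (mem_mul hc hT h2) _).trans_eq ?_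
    rw [← mul_sub, abs_mul, abs_of_pos hc]
    ring

theorem cont_scale {T T' c : ℝ} {q : ℝ → ℝ → ℝ} (h : ContL1 T q) (hc : 0 < c) (hT : c * T' = T) :
    ContL1 T' fun t x => q (c * t) (c * x) := by
  intro a b t0 ht0
  rcases le_or_gt a b with hab | hab
  swap
  · simpa [Icc_eq_empty_of_lt hab] using tendsto_const_nhds
  have h1 : Tendsto (fun t => c * t) (𝓝[Icc 0 T'] t0) (𝓝[Icc 0 T] (c * t0)) :=
    (continuous_const_mul c).continuousWithinAt.tendsto_nhdsWithin fun t ht => mem_mul hc hT ht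
  have h2 := ((h (c * a) (c * b) _ (mem_mul hc hT ht0)).comp h1).const_mul c⁻¹
  rw [mul_zero] at h2
  refine h2.congr fun t => ?_
  rw [Function.comp_apply, integral_Icc_eq_integral_Ioc, integral_Icc_eq_integral_Ioc,
    ← intervalIntegral.integral_of_le hab,
    ← intervalIntegral.integral_of_le (mul_le_mul_of_nonneg_left hab hc.le),
    intervalIntegral.integral_comp_mul_left (fun x => |q (c * t) x - q (c * t0) x|) hc.ne',
    smul_eq_mul]

theorem comp_aff {c : ℝ} (hc : 0 < c) (x : ℝ) (h : ℝ → ℝ) :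
    1 / c * ∫ y in Ioi x, h y = ∫ s in Ioi (0 : ℝ), h (x + c * s) := by
  rw [integral_comp_mul_left_Ioi (fun s => h (x + s)) 0 hc, mul_zero, smul_eq_mul, one_div,
    ← (measurePreserving_add_left volume x).setIntegral_preimage_emb
      (measurableEmbedding_addLeft x), preimage_const_add_Ioi, sub_self]

theorem ii {f : ℝ → ℝ} (hf : Measurable f) {C : ℝ} (h : ∀ x, |f x| ≤ C) (a b : ℝ) :
    IntervalIntegrable f volume a b :=
  (intervalIntegrable_const (c := C)).mono_fun' hf.aestronglyMeasurable (.of_forall h)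

theorem sum_blocks (f : ℕ → ℝ) (K m : ℕ) : ∑ i ∈ Finset.range (K * m), f i =
    ∑ j ∈ Finset.range m, ∑ i ∈ Finset.range K, f (K * j + i) := by
  induction m with
  | zero => simp
  | succ m ih => rw [Nat.mul_succ, Finset.sum_range_add, ih, Finset.sum_range_succ]

variable {P : Par} {M : ℝ}

theorem Lq_nonneg (h : P.Facts M) : 0 ≤ P.Lq M :=
  mul_nonneg (one_div_pos.2 P.hp0).le (Real.rpow_nonneg h.N_pos.le _)

/-- from the variable `u` in small units to the variable `q` in large units -/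
theorem int_le (h : P.Facts M) (L : Lag P M) (hL : L.Facts) (τ η : ℝ) {w : ℝ → ℝ}
    (hw : Measurable w) (hm : ∀ x, w x ∈ Icc 0 (P.N M)) {a b : ℝ} (hab : a ≤ b) :
    ∫ x in a..b, |L.q τ (x / η) - w x ^ (1 / P.p)| ≤
      P.Lq M * ∫ x in a..b, |L.u τ (x / η) - w x| := by
  have hu : Measurable fun x => L.u τ (x / η) :=
    L.u_meas.comp (measurable_const.prodMk (measurable_id.div_const η))
  have h1 : ∀ x, |L.q τ (x / η) - w x ^ (1 / P.p)| ≤ P.Lq M * |L.u τ (x / η) - w x| := fun x =>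
    h.root_lip _ ⟨hL.u_nonneg _ _, L.u_le _ _⟩ _ (hm x)
  have h2 : ∀ x, |L.u τ (x / η) - w x| ≤ P.N M := fun x => abs_le.2
    ⟨by linarith [hL.u_nonneg τ (x / η), (hm x).2], by linarith [L.u_le τ (x / η), (hm x).1]⟩
  rw [← intervalIntegral.integral_const_mul]
  refine intervalIntegral.integral_mono_on hab
    (ii ((hu.pow_const _).sub (hw.pow_const _)).abs (C := P.Lq M * P.N M) (fun x => ?_) a b)
    ((ii (hu.sub hw).abs (C := P.N M) (fun x => ?_) a b).const_mul _) fun x _ => h1 x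
  · rw [abs_abs]
    exact (h1 x).trans (mul_le_mul_of_nonneg_left (h2 x) (Lq_nonneg h))
  · rw [abs_abs]
    exact h2 x

end Sca

open Sca

theorem scaleS : ParFactsS → LagFactsS → PotS → LagS → MaxS → ScaleS := by
  intro hP hF hPot hLag hMax P η T M V γ q0 q hη hT hM hk hγ hΦ _ _ hq0 hq0M
    ⟨⟨hqm, B0, hB0⟩, hq, hc, hw⟩
  let B := max B0 M
  have hB : 0 < B := hM.trans_le (le_max_right _ _)
  have fB := hP P B hB
  have hqB : ∀ t ∈ Icc 0 T, ∀ᵐ x, q t x ∈ Icc 0 B := fun t ht => by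
    filter_upwards [hB0 t ht, hq t ht] with x h1 h2
    exact ⟨h2, ((le_abs_self _).trans h1).trans (le_max_left _ _)⟩
  let Z : ℝ → ℝ → ℝ := fun t x => ∫ s in Ioi (0 : ℝ), P.k s * q t (x + η * s) ^ P.p
  have hZ : ∀ t ∈ Icc 0 T, ∀ x, Z t x ∈ Icc 0 (P.N B) := fun t ht x => by
    have h1 := ae_restrict_of_ae (s := Ioi (0 : ℝ)) (ae_aff hη.ne' x (hqB t ht))
    have h2 : 0 ≤ᵐ[volume.restrict (Ioi (0 : ℝ))] fun s => P.k s * q t (x + η * s) ^ P.p := by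
      filter_upwards [h1] with s hs
      exact mul_nonneg (fB.k_nonneg s) (Real.rpow_nonneg hs.1 _)
    refine ⟨integral_nonneg_of_ae h2,
      (integral_mono_of_nonneg h2 (fB.k_int.mul_const (P.N B)) ?_).trans_eq ?_⟩
    · filter_upwards [h1] with s hs
      exact mul_le_mul_of_nonneg_left (Real.rpow_le_rpow hs.1 hs.2 P.hp0.le) (fB.k_nonneg s)
    · rw [integral_mul_const, fB.k_one, one_mul]
  have hW : ∀ t ∈ Icc 0 T, ∀ x, V (Wnl P.p η γ q t x) = P.Φ (Z t x) := fun t ht x => by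
    have h1 : Wnl P.p η γ q t x = Z t x ^ (1 / P.p) := by
      rw [Wnl, comp_aff hη]
      congr 1
      refine setIntegral_congr_ae measurableSet_Ioi ?_
      filter_upwards [ae_aff hη.ne' x (hq t ht)] with s hs h0
      rw [add_sub_cancel_left, mul_div_cancel_left₀ _ hη.ne', Real.mul_rpow (hγ s (le_of_lt h0)) hs,
        hk s (le_of_lt h0)]
    rw [h1, ← hΦ _ (Real.rpow_nonneg (hZ t ht x).1 _), one_div,
      Real.rpow_inv_rpow (hZ t ht x).1 P.hp0.ne']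
  have hZm : Measurable (Function.uncurry Z) := by
    have h1 : Measurable fun z : (ℝ × ℝ) × ℝ => P.k z.2 * q z.1.1 (z.1.2 + η * z.2) ^ P.p :=
      (fB.k_cont.measurable.comp measurable_snd).mul ((hqm.comp (measurable_fst.fst.prodMk
        (measurable_fst.snd.add (measurable_snd.const_mul η)))).pow_const _)
    exact (h1.stronglyMeasurable.integral_prod_right' (ν := volume.restrict (Ioi 0))).measurable
  have hV : ∀ z ∈ Icc 0 (P.N B), |P.Φ z| ≤ P.Vm B := fun z hz => by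
    have h1 := fB.Φ_lip z hz 0 ⟨le_rfl, fB.N_pos.le⟩
    rw [sub_zero, abs_of_nonneg hz.1] at h1
    have h2 := mul_le_mul_of_nonneg_left hz.2 fB.bm_nonneg
    have h3 := abs_sub_abs_le_abs_sub (P.Φ z) (P.Φ 0)
    simp only [Par.Vm, Par.DV]
    linarith
  have hV0 : 0 ≤ B * P.Vm B := mul_nonneg hB.le ((abs_nonneg _).trans (hV 0 ⟨le_rfl, fB.N_pos.le⟩))
  obtain ⟨Q, hQ, hQ0, hi⟩ := hPot T (B + B * P.Vm B) q0 q (fun t x => P.Φ (Z t x) * q t x) hT hqm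
    ((fB.Φ_cont.measurable.comp hZm).mul hqm)
    (fun t ht => by
      filter_upwards [hqB t ht] with x hx
      have h1 : |q t x| ≤ B := (abs_of_nonneg hx.1).trans_le hx.2
      have h2 := mul_le_mul (hV _ (hZ t ht x)) h1 (abs_nonneg _)
        ((abs_nonneg _).trans (hV _ (hZ t ht x)))
      exact ⟨by linarith, by rw [abs_mul]; linarith⟩)
    hq0 (fun x => by
      rw [abs_of_nonneg (hq0M x).1]
      linarith [(hq0M x).2, le_max_right B0 M])
    hc (fun φ h1 h2 h3 => by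
      refine Eq.trans (congrArg (· + ∫ x, q0 x * φ (0, x)) (setIntegral_congr_fun
        (measurableSet_Ioo.prod MeasurableSet.univ) fun z hz => ?_)) (hw φ h1 h2 h3)
      simp only [hW z.1 (Ioo_subset_Icc_self hz.1)])
  have hT' : η * (T / η) = T := mul_div_cancel₀ T hη.ne'
  have hQ' := pot_scale hQ hη hT'
  simp only [Z, ← mul_add] at hQ'
  obtain ⟨L, e1, e2, e3, e4⟩ := hLag P (T / η) B (B + B * P.Vm B) (fun y => q0 (η * y))
    (fun t x => q (η * t) (η * x)) _ (div_pos hT hη).le hB (hq0.comp (measurable_const_mul η))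
    (fun y => ⟨(hq0M _).1, (hq0M _).2.trans (le_max_right _ _)⟩)
    (fun t ht => ae_mul hη.ne' (hqB _ (mem_mul hη hT' ht))) (cont_scale hc hη hT')
    (by simpa only [mul_zero] using ae_mul hη.ne' hi) (by simp only [mul_zero, hQ0]) hQ'
  have hle : ∀ y, L.q0 y ≤ M := fun y => by rw [e2]; exact (hq0M _).2
  let L' : Lag P M := { L with q0_le := hle, u_le := hMax P B M L hB hM hle }
  have fL := hF P M L' hM
  have hT'' : η⁻¹ * T = T / η := (div_eq_inv_mul T η).symm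
  have hM0 : 0 ≤ M * P.Vm M := mul_nonneg hM.le ((abs_nonneg _).trans (fL.v_abs 0 0))
  have e3' : ∀ t ∈ Icc 0 (T / η), ∀ᵐ x, L'.q t x = q (η * t) (η * x) := e3
  have e4' : ∀ t ∈ Icc 0 (T / η), ∀ x, L'.Q t x = η⁻¹ * Q (η * t) (η * x) := e4
  have h1 : Pot (T / η) (M + M * P.Vm M) L'.q (fun t x => L'.v t x * L'.q t x) L'.Q := by
    refine ⟨fL.q_meas, fL.v_cont.measurable.mul fL.q_meas, fun t _ => .of_forall fun x => ?_,
      fun t _ => fL.Q_sub t, fun t1 h1 t2 h2 x1 x2 => ?_, fun t1 h1 t2 h2 x => ?_⟩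
    · have h1 : |L'.q t x| ≤ M := (abs_of_nonneg (fL.q_mem t x).1).trans_le (fL.q_mem t x).2
      have h2 := mul_le_mul (fL.v_abs t x) h1 (abs_nonneg _) ((abs_nonneg _).trans (fL.v_abs t x))
      exact ⟨by linarith, by rw [abs_mul]; linarith⟩
    · simp only [e4' t1 h1, e4' t2 h2]
      rw [hQ'.Qt t1 h1 t2 h2]
      refine congrArg _ (intervalIntegral.integral_congr fun t ht => ?_)
      have ht' := ordConnected_Icc.uIcc_subset h1 h2 ht
      refine intervalIntegral.integral_congr_ae ?_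
      filter_upwards [e3' t ht'] with x hx _
      rw [hx, Lag.v, Lag.Z]
      congr 2
      refine integral_congr_ae (ae_restrict_of_ae ?_)
      filter_upwards [ae_aff one_ne_zero x (e3' t ht')] with s hs
      rw [one_mul] at hs
      rw [← hs, fL.q_pow]
    · refine (fL.Q_time t2 (e1.symm ▸ h2) t1 (e1.symm ▸ h1) x).trans ?_
      exact mul_le_mul_of_nonneg_right (by linarith) (abs_nonneg _)
  refine ⟨L', fun t x => η * L'.Q (t / η) (x / η), e1, fun y => congrFun e2 y, fun t ht => ?_,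
    fun _ _ _ => rfl, ?_⟩
  · filter_upwards [ae_mul (inv_ne_zero hη.ne') (e3' _ (mem_mul (inv_pos.2 hη) hT'' ht))] with x hx
    rw [div_eq_inv_mul, div_eq_inv_mul, hx, mul_inv_cancel_left₀ hη.ne',
      mul_inv_cancel_left₀ hη.ne']
  · simpa only [div_eq_inv_mul, inv_inv] using pot_scale h1 (inv_pos.2 hη) hT''

theorem lateS : Basic → OscS → LateS := by
  intro hb ho P M hM hs S e t0 K0 hS he ht0
  have fP := hb.1 P M hM
  have hq := Lq_nonneg fP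
  obtain ⟨K, S0, hK, h⟩ := ho P M hM hs (e / (P.Lq M + 1)) (by positivity)
  obtain ⟨m, hm⟩ := exists_nat_gt (max (K0 : ℝ) (S / t0))
  have hm1 : S / t0 < m := (le_max_right _ _).trans_lt hm
  have hm0 : (0 : ℝ) < m := (div_pos hS ht0).trans hm1
  have hK0 : K0 ≤ m := by exact_mod_cast ((le_max_left _ _).trans_lt hm).le
  have hK' : (0 : ℝ) < K := by exact_mod_cast hK
  refine ⟨K * m, S / m / (|S0| + 1), hK0.trans (Nat.le_mul_of_pos_left m hK),
    Nat.mul_pos hK (by exact_mod_cast hm0), by positivity, fun η t a L hη h1 h2 h3 => ?_⟩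
  have fL := hb.2.1 P M L hM
  have h4 : S0 ≤ S / m / η := by
    rw [lt_div_iff₀ (by positivity)] at h1
    rw [le_div_iff₀ hη]
    nlinarith [le_abs_self S0]
  have h5 : S / m / η ≤ t / η := by
    refine div_le_div_of_nonneg_right (le_trans ?_ h2) hη.le
    rw [div_lt_iff₀ ht0] at hm1
    rw [div_le_iff₀ hm0]
    linarith
  choose c hc hc' using fun j : ℕ => h L (S / m / η) (t / η) ((a + j * (S / m)) / η) h4 h5 h3
  refine ⟨fun i => c (i / K) (i % K) ^ (1 / P.p), fun i => ⟨Real.rpow_nonneg (hc _ _).1 _,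
    (Real.rpow_le_rpow (hc _ _).1 (hc _ _).2 (one_div_pos.2 P.hp0).le).trans_eq fP.N_root⟩, ?_⟩
  rw [sum_blocks]
  calc _ ≤ ∑ j ∈ Finset.range m, P.Lq M * η * (e / (P.Lq M + 1) * (S / m / η)) := by
        refine Finset.sum_le_sum fun j _ => le_trans ?_
          (mul_le_mul_of_nonneg_left (hc' j) (mul_nonneg hq hη.le))
        rw [Finset.mul_sum]
        refine Finset.sum_le_sum fun i hi => ?_
        have hi' := Finset.mem_range.1 hi
        beta_reduce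
        rw [Nat.mul_add_mod, Nat.mod_eq_of_lt hi', Nat.mul_add_div hK, Nat.div_eq_of_lt hi',
          add_zero]
        refine (int_le fP L fL _ η measurable_const (fun _ => hc j i) ?_).trans_eq ?_
        · have : 0 ≤ S / ((K * m : ℕ) : ℝ) := by positivity
          nlinarith
        · rw [intervalIntegral.integral_comp_div (fun x => |L.u (t / η) x - c j i|) hη.ne',
            smul_eq_mul, mul_assoc]
          congr 3 <;> push_cast <;> field_simp <;> ring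
    _ = P.Lq M / (P.Lq M + 1) * (e * S) := by
        rw [Finset.sum_const, Finset.card_range, nsmul_eq_mul]
        field_simp
    _ ≤ e * S := mul_le_of_le_one_left (by positivity) ((div_le_one (by positivity)).2 (by linarith))

theorem earlyS : Basic → InitS → BVS → EarlyS := by
  intro hb hi hv P M q0 hM hbv hq0 a c e hac he
  have fP := hb.1 P M hM
  have hq := Lq_nonneg fP
  obtain ⟨hm, h⟩ := hv P.p M q0 P.hp0 P.hp1 hbv hq0
  have he1 : 0 < e / (P.Lq M + 1) / 2 := by positivity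
  obtain ⟨r, hr, h⟩ := h a c _ hac he1
  have hca : 0 < c - a + 1 := by linarith
  set e' := e / (P.Lq M + 1) / 2 / (c - a + 1) with he'
  have he0 : 0 < e' := div_pos he1 hca
  refine ⟨min (r / (|P.Vm M| + 1)) (e' * r / (|P.N M * P.C3 M| + 1)), by positivity,
    fun η t L hη h0 h1 h2 h3 => ?_⟩
  have fL := hb.2.1 P M L hM
  have h4 : P.Vm M * t ≤ r := by
    have := (le_div_iff₀ (by positivity)).1 (h1.trans (min_le_left _ _))
    nlinarith [le_abs_self (P.Vm M)]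
  have h5 : P.N M * P.C3 M * (t / η) / (r / η) ≤ e' := by
    have := (le_div_iff₀ (by positivity)).1 (h1.trans (min_le_right _ _))
    rw [mul_div_assoc, div_div_div_cancel_right₀ hη.ne', ← mul_div_assoc, div_le_iff₀ hr]
    nlinarith [le_abs_self (P.N M * P.C3 M)]
  have h6 := h (fun x => L.u (t / η) (x / η)) e'
    (L.u_meas.comp (measurable_const.prodMk (measurable_id.div_const η))) he0.le
    fun x lo hi' H => by
      have := hi P M L hM (t / η) (x / η) (r / η) lo hi' (div_nonneg h0 hη.le) h2 (div_pos hr hη)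
        fun y hy => by
          rw [h3]
          rw [← mul_div_assoc, ← sub_div, ← add_div, mem_Icc, div_le_iff₀ hη,
            le_div_iff₀ hη] at hy
          exact H _ ⟨by linarith [hy.1], by linarith [hy.2]⟩
      exact ⟨by linarith [this.1], by linarith [this.2]⟩
  have h7 := int_le fP L fL (t / η) η (w := fun x => q0 x ^ P.p) (hm.pow_const _)
    (fun x => ⟨Real.rpow_nonneg (hq0 x).1 _, Real.rpow_le_rpow (hq0 x).1 (hq0 x).2 P.hp0.le⟩) hac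
  simp only [one_div, fun x => Real.rpow_rpow_inv (hq0 x).1 P.hp0.ne'] at h7
  have h8 : e' * (c - a) ≤ e / (P.Lq M + 1) / 2 := by
    rw [he', div_mul_eq_mul_div, div_le_iff₀ hca]
    nlinarith
  calc _ ≤ P.Lq M * (e / (P.Lq M + 1)) := h7.trans (mul_le_mul_of_nonneg_left (by linarith) hq)
    _ ≤ e := by
      rw [← mul_div_assoc, div_le_iff₀ (by positivity)]
      nlinarith

end MP34a893

end MrgPart3

-- marker of a merged file
example : 731051 + 803494 = 731051 + 803494 := rfl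

end MrgPart1

-- marker of a merged file
example : 731051 + 803494 = 731051 + 803494 := rfl
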