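import Mathlib.Topology.Sheaves.Presheaf
import Mathlib.Tactic.Monotonicity.Lemmas
import Mathlib.Algebra.Order.Ring.Star
import Mathlib.Algebra.Order.Star.Real
import Mathlib.MeasureTheory.Integral.DivergenceTheorem
import Mathlib.Analysis.Calculus.BumpFunction.Normed
import Mathlib.MeasureTheory.Integral.IntegralEqImproper
import Mathlib.Analysis.Distribution.AEEqOfIntegralContDiff
import Mathlib.MeasureTheory.Integral.IntervalIntegral.AbsolutelyContinuousFun
import Mathlib.Combinatorics.SimpleGraph.Basic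
import Mathlib.MeasureTheory.Function.ContinuousMapDense
import Mathlib.Analysis.ODE.ExistUnique
import Mathlib.RingTheory.PiTensorProduct
import Mathlib.MeasureTheory.Order.Group.Lattice
import Mathlib.Order.CompletePartialOrder
import Mathlib.Topology.UniformSpace.Uniformizable
import Pool.Agent.MP_34a893_an.Scale

-- ======== part 0: formerly Pool.Agent.MP_34a893_an.ParFacts
section MrgPart0

/-! Row PAR: elementary facts on the fixed data. -/

open MeasureTheory Set Filter Topology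
open scoped ENNReal

namespace MP34a893

namespace ParFacts

lemma slice_left {g : ℝ → ℝ} {r : ℝ} (hr : 0 < r) (c : ℝ) :
    ∫ s in Ioi (0 : ℝ), (if r < s then g s * c else 0) = (∫ s in Ioi r, g s) * c := by
  have e : (fun s => if r < s then g s * c else 0) = (Ioi r).indicator fun s => g s * c := rfl
  rw [e, setIntegral_indicator measurableSet_Ioi, inter_eq_right.2 (Ioi_subset_Ioi hr.le),
    integral_mul_const]

lemma slice_right {w : ℝ → ℝ} {s : ℝ} (hs : 0 < s) (c : ℝ) :
    ∫ r in Ioi (0 : ℝ), (if r < s then c * w r else 0) = c * ∫ r in (0 : ℝ)..s, w r := by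
  have e : (fun r => if r < s then c * w r else 0) = (Iio s).indicator fun r => c * w r := rfl
  rw [e, setIntegral_indicator measurableSet_Iio, Ioi_inter_Iio, integral_const_mul,
    intervalIntegral.integral_of_le hs.le, integral_Ioc_eq_integral_Ioo]

/-- Fubini on the triangle `0 < r < s`. -/
lemma core {g w : ℝ → ℝ} {C : ℝ} (hg : Measurable g) (hg0 : ∀ s, 0 ≤ g s) (hgi : Integrable g)
    (hk : IntegrableOn (fun r => ∫ s in Ioi r, g s) (Ioi 0)) (hw : Measurable w)
    (hC : ∀ x, |w x| ≤ C) :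
    IntegrableOn (fun s => g s * ∫ r in (0 : ℝ)..s, w r) (Ioi 0) ∧
      ∫ s in Ioi (0 : ℝ), g s * (∫ r in (0 : ℝ)..s, w r) =
        ∫ r in Ioi (0 : ℝ), (∫ s in Ioi r, g s) * w r := by
  have hm : Measurable fun z : ℝ × ℝ => if z.2 < z.1 then g z.1 * w z.2 else 0 :=
    Measurable.ite (measurableSet_lt measurable_snd measurable_fst)
      ((hg.comp measurable_fst).mul (hw.comp measurable_snd)) measurable_const
  have hI : Integrable (fun z : ℝ × ℝ => if z.2 < z.1 then g z.1 * w z.2 else 0)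
      ((volume.restrict (Ioi 0)).prod (volume.restrict (Ioi 0))) := by
    refine (integrable_prod_iff' hm.aestronglyMeasurable).2 ⟨.of_forall fun r => ?_, ?_⟩
    · exact ((hgi.mul_const (w r)).indicator (measurableSet_Ioi (a := r))).restrict
    · refine (hk.mul_bdd (c := C) hw.abs.aestronglyMeasurable
        (.of_forall fun x => by simpa using hC x)).congr ?_
      filter_upwards [ae_restrict_mem measurableSet_Ioi] with r hr
      rw [← slice_left hr]
      refine integral_congr_ae (.of_forall fun s => ?_)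
      by_cases h : r < s <;> simp [h, abs_of_nonneg (hg0 s)]
  have h1 : (fun s => ∫ r in Ioi (0 : ℝ), if r < s then g s * w r else 0) =ᵐ[volume.restrict (Ioi 0)]
      fun s => g s * ∫ r in (0 : ℝ)..s, w r := by
    filter_upwards [ae_restrict_mem measurableSet_Ioi] with s hs using slice_right hs _
  refine ⟨hI.integral_prod_left.congr h1, ?_⟩
  rw [← integral_congr_ae h1, integral_integral_swap (f := fun s r => if r < s then g s * w r else 0) hI]
  refine integral_congr_ae ?_
  filter_upwards [ae_restrict_mem measurableSet_Ioi] with r hr using slice_left hr _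

variable (P : Par) {M : ℝ}

lemma k_sub (a c : ℝ) : P.k a - P.k c = ∫ s in a..c, P.g s :=
  intervalIntegral.integral_Ioi_sub_Ioi' P.hgi.integrableOn P.hgi.integrableOn

lemma k_anti : Antitone P.k := fun a c h =>
  sub_nonneg.1 (k_sub P a c ▸ intervalIntegral.integral_nonneg h fun s _ => P.hg0 s)

lemma k_cont : Continuous P.k := by
  have e : P.k = fun c => P.k 0 - ∫ s in (0 : ℝ)..c, P.g s := funext fun c => by
    rw [← k_sub]; ring
  rw [e]
  exact continuous_const.sub
    (intervalIntegral.continuous_primitive (fun _ _ => P.hgi.intervalIntegrable) 0)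

lemma k_nonneg (s : ℝ) : 0 ≤ P.k s := integral_nonneg fun r => P.hg0 r

lemma k0_eq : P.k0 = ∫ s, P.g s :=
  setIntegral_eq_integral_of_forall_compl_eq_zero fun s hs => P.hgz s (not_lt.1 hs)

lemma k_le (s : ℝ) : P.k s ≤ P.k0 :=
  k0_eq P ▸ setIntegral_le_integral P.hgi (.of_forall P.hg0)

lemma d_pos : 0 < P.d := div_pos (sub_pos.2 P.hs12) four_pos

lemma k_mid : P.m0 * (2 * P.d) ≤ P.k (P.s1 + 2 * P.d) := by
  have hd := d_pos P
  have e : P.s2 - (P.s1 + 2 * P.d) = 2 * P.d := by unfold Par.d; ring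
  have h := intervalIntegral.integral_mono_on (μ := volume) (f := fun _ => P.m0) (g := P.g)
    (show P.s1 + 2 * P.d ≤ P.s2 by linarith) intervalIntegrable_const P.hgi.intervalIntegrable
    fun s hs => P.hgm s ⟨by linarith [hs.1], hs.2⟩
  rw [intervalIntegral.integral_const, e, ← k_sub, smul_eq_mul] at h
  linarith [k_nonneg P P.s2]

lemma k0_pos : 0 < P.k0 :=
  (mul_pos P.hm0 (mul_pos two_pos (d_pos P))).trans_le ((k_mid P).trans (k_le P _))

lemma sg : IntegrableOn (fun s => s * P.g s) (Ioi 0) ∧ ∫ s in Ioi (0 : ℝ), s * P.g s = 1 := by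
  have := core (w := fun _ => 1) (C := 1) P.hg P.hg0 P.hgi P.hki measurable_const (by simp)
  simpa [mul_comm, P.hk1] using this

lemma tail' : Tendsto (fun R => R * P.k R) atTop (𝓝 0) := by
  refine squeeze_zero' ?_ ?_ (tendsto_integral_Ioi_zero (μ := volume)
    (f := fun s => s * P.g s) (b := id) tendsto_id)
  · filter_upwards [eventually_ge_atTop 0] with R hR using mul_nonneg hR (k_nonneg P R)
  · filter_upwards [eventually_ge_atTop 0] with R hR
    rw [Par.k, ← integral_const_mul]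
    exact setIntegral_mono_on (P.hgi.const_mul R).integrableOn
      ((sg P).1.mono_set (Ioi_subset_Ioi hR)) measurableSet_Ioi
      fun s hs => mul_le_mul_of_nonneg_right (le_of_lt hs) (P.hg0 s)

lemma swap_trunc {w : ℝ → ℝ} {C : ℝ} (hw : Measurable w) (hC : ∀ x, |w x| ≤ C) {R : ℝ}
    (hR : 0 ≤ R) : ∫ s in (0 : ℝ)..R, P.g s * (∫ r in (0 : ℝ)..s, w r) =
      ∫ s in (0 : ℝ)..R, (P.k s - P.k R) * w s := by
  have e : ∀ r, ∫ s in Ioi r, (Iic R).indicator P.g s =
      (Iic R).indicator (fun r => P.k r - P.k R) r := fun r => by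
    rw [setIntegral_indicator measurableSet_Iic, Ioi_inter_Iic]
    by_cases h : r ≤ R
    · rw [indicator_of_mem (mem_Iic.2 h), k_sub, intervalIntegral.integral_of_le h]
    · rw [indicator_of_notMem (fun a => h (mem_Iic.1 a)), Ioc_eq_empty (fun a => h a.le),
        setIntegral_empty]
  have := (core (P.hg.indicator (measurableSet_Iic (a := R)))
    (fun s => indicator_nonneg (fun s _ => P.hg0 s) s) (P.hgi.indicator measurableSet_Iic)
    (by
      simp only [e]
      rw [IntegrableOn, integrable_indicator_iff measurableSet_Iic, IntegrableOn,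
        Measure.restrict_restrict measurableSet_Iic, Iic_inter_Ioi]
      exact ((k_cont P).sub continuous_const).integrableOn_Ioc) hw hC).2
  have e2 : ∀ s, (Iic R).indicator P.g s * (∫ r in (0 : ℝ)..s, w r) =
      (Iic R).indicator (fun s => P.g s * ∫ r in (0 : ℝ)..s, w r) s := fun s => by
    by_cases h : s ∈ Iic R <;> simp [h]
  have e3 : ∀ s, (Iic R).indicator (fun r => P.k r - P.k R) s * w s =
      (Iic R).indicator (fun s => (P.k s - P.k R) * w s) s := fun s => by
    by_cases h : s ∈ Iic R <;> simp [h]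
  simp only [e, e2, e3] at this
  rwa [setIntegral_indicator measurableSet_Iic, setIntegral_indicator measurableSet_Iic,
    Ioi_inter_Iic, ← intervalIntegral.integral_of_le hR, ← intervalIntegral.integral_of_le hR]
    at this

lemma one_le : 1 ≤ 1 / P.p := one_le_one_div P.hp0 P.hp1.le

lemma N_pos (hM : 0 < M) : 0 < P.N M := Real.rpow_pos_of_pos hM _

lemma b_le {z : ℝ} (hz : z ∈ Icc 0 (P.N M)) : P.b z ≤ P.bm M :=
  le_csSup (isCompact_Icc.image P.hb).bddAbove (mem_image_of_mem _ hz)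

lemma bm_nonneg (hM : 0 < M) : 0 ≤ P.bm M :=
  (P.hb0 0).trans (b_le P ⟨le_rfl, (N_pos P hM).le⟩)

lemma Φ_anti : Antitone P.Φ := antitone_of_hasDerivAt_nonpos P.hΦ fun z => neg_nonpos.2 (P.hb0 z)

lemma Φ_cont : Continuous P.Φ := continuous_iff_continuousAt.2 fun z => (P.hΦ z).continuousAt

lemma Φ_lip {z z' : ℝ} (hz : z ∈ Icc 0 (P.N M)) (hz' : z' ∈ Icc 0 (P.N M)) :
    |P.Φ z - P.Φ z'| ≤ P.bm M * |z - z'| :=
  (convex_Icc _ _).norm_image_sub_le_of_norm_hasDerivWithin_le
    (fun x _ => (P.hΦ x).hasDerivWithinAt)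
    (fun x hx => by rw [norm_neg, Real.norm_of_nonneg (P.hb0 x)]; exact b_le P hx) hz' hz

lemma b_pos (h : P.Strict M) {z : ℝ} (hz : z ∈ Ioc 0 (P.N M)) : 0 < P.b z := by
  have := h ⟨le_rfl, hz.1.le.trans hz.2⟩ ⟨hz.1.le, hz.2⟩ hz.1
  refine (P.hb0 z).lt_of_ne fun e => ?_
  simp [Par.lam, ← e] at this

lemma Φ_lt (hM : 0 < M) (h : P.Strict M) {z : ℝ} (hz : 0 < z) : P.Φ z < P.Φ 0 := by
  have hN := N_pos P hM
  have : StrictAntiOn P.Φ (Icc 0 (P.N M)) :=
    strictAntiOn_of_deriv_neg (convex_Icc _ _) (Φ_cont P).continuousOn fun x hx => by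
      rw [interior_Icc] at hx
      rw [(P.hΦ x).deriv]
      exact neg_neg_of_pos (b_pos P h ⟨hx.1, hx.2.le⟩)
  exact (Φ_anti P (min_le_left z (P.N M))).trans_lt
    (this ⟨le_rfl, hN.le⟩ ⟨(lt_min hz hN).le, min_le_right _ _⟩ (lt_min hz hN))

lemma lam_cont : Continuous P.lam :=
  ((continuous_const.mul P.hb).mul continuous_id).mul
    (Real.continuous_rpow_const (zero_le_one.trans (one_le P)))

lemma lam_gap (h : P.Strict M) {δ : ℝ} (hδ : 0 < δ) : ∃ c, 0 < c ∧ ∀ z ∈ Icc 0 (P.N M),
    ∀ z' ∈ Icc 0 (P.N M), z + δ ≤ z' → P.lam z + c ≤ P.lam z' := by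
  have hK : IsCompact ((Icc 0 (P.N M) ×ˢ Icc 0 (P.N M)) ∩ {z : ℝ × ℝ | z.1 + δ ≤ z.2}) :=
    (isCompact_Icc.prod isCompact_Icc).inter_right
      (isClosed_le (continuous_fst.add continuous_const) continuous_snd)
  obtain ⟨c, hc, H⟩ := hK.exists_forall_le' (f := fun z : ℝ × ℝ => P.lam z.2 - P.lam z.1) (a := 0)
    (((lam_cont P).comp continuous_snd).sub ((lam_cont P).comp continuous_fst)).continuousOn
    fun z hz => sub_pos.2 (h hz.1.1 hz.1.2 ((lt_add_of_pos_right _ hδ).trans_le hz.2))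
  exact ⟨c, hc, fun z hz z' hz' e => by linarith [H (z, z') ⟨⟨hz, hz'⟩, e⟩]⟩

lemma root_lip {z z' : ℝ} (hz : z ∈ Icc 0 (P.N M)) (hz' : z' ∈ Icc 0 (P.N M)) :
    |z ^ (1 / P.p) - z' ^ (1 / P.p)| ≤ P.Lq M * |z - z'| :=
  (convex_Icc _ _).norm_image_sub_le_of_norm_hasDerivWithin_le (f := fun x => x ^ (1 / P.p))
    (fun x _ => (Real.hasDerivAt_rpow_const (Or.inr (one_le P))).hasDerivWithinAt)
    (fun x hx => by
      have h0 : 0 ≤ 1 / P.p := zero_le_one.trans (one_le P)
      rw [Real.norm_of_nonneg (mul_nonneg h0 (Real.rpow_nonneg hx.1 _))]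
      exact mul_le_mul_of_nonneg_left
        (Real.rpow_le_rpow hx.1 hx.2 (sub_nonneg.2 (one_le P))) h0) hz' hz

lemma root_le {z : ℝ} (hz : z ∈ Icc 0 (P.N M)) :
    z ^ (1 / P.p) ≤ P.N M ^ (1 / P.p - 1) * z := by
  have e := Real.rpow_add' hz.1 (y := 1 / P.p - 1) (z := 1) (by linarith [one_le P])
  rw [sub_add_cancel, Real.rpow_one] at e
  rw [e]
  exact mul_le_mul_of_nonneg_right (Real.rpow_le_rpow hz.1 hz.2 (sub_nonneg.2 (one_le P))) hz.1

lemma le_root {δ z : ℝ} (hδ : 0 < δ) (hz : 0 ≤ z) :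
    z ≤ δ + δ ^ (1 - 1 / P.p) * z ^ (1 / P.p) := by
  rcases le_total z δ with h | h
  · exact h.trans (le_add_of_nonneg_right (by positivity))
  · have e := Real.rpow_add (hδ.trans_le h) (1 - 1 / P.p) (1 / P.p)
    rw [sub_add_cancel, Real.rpow_one] at e
    have := mul_le_mul_of_nonneg_right
      (Real.rpow_le_rpow_of_nonpos hδ h (sub_nonpos.2 (one_le P))) (Real.rpow_nonneg hz (1 / P.p))
    linarith

lemma f_cont : Continuous P.f :=
  continuous_id.mul ((Φ_cont P).comp (Real.continuous_rpow_const P.hp0.le))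

lemma f_abs (hM : 0 < M) {q : ℝ} (hq : q ∈ Icc 0 M) : |P.f q| ≤ M * P.Vm M := by
  have hz : q ^ P.p ∈ Icc 0 (P.N M) :=
    ⟨Real.rpow_nonneg hq.1 _, Real.rpow_le_rpow hq.1 hq.2 P.hp0.le⟩
  have h1 := Φ_lip P hz ⟨le_rfl, (N_pos P hM).le⟩
  rw [sub_zero, abs_of_nonneg hz.1] at h1
  have h2 := mul_le_mul_of_nonneg_left hz.2 (bm_nonneg P hM)
  have h3 := abs_sub_abs_le_abs_sub (P.Φ (q ^ P.p)) (P.Φ 0)
  rw [Par.f, abs_mul, abs_of_nonneg hq.1]
  exact mul_le_mul hq.2 (by unfold Par.Vm Par.DV; linarith) (abs_nonneg _) hM.le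

lemma small (M : ℝ) : ∃ h0, 0 < h0 ∧ ∀ h, 0 < h → h ≤ h0 → P.Small M h := by
  have key : ∀ a c : ℝ, 0 < c → ∀ h, 0 < h → h ≤ c / (|a| + 1) → a * h ≤ c := fun a c hc h h0 e => by
    rw [le_div_iff₀ (by positivity)] at e
    nlinarith [le_abs_self a]
  refine ⟨min 1 (min (1 / 2 / (|P.Th M * P.k0| + 1)) (1 / 4 / (|P.C0 M| + 1))), by positivity,
    fun h h0 e => ?_⟩
  simp only [le_min_iff] at e
  exact ⟨h0, e.1, key _ _ (by norm_num) h h0 e.2.1, key _ _ (by norm_num) h h0 e.2.2⟩

lemma noise_prob : IsProbabilityMeasure P.noise := by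
  have h1 : IsProbabilityMeasure (volume.restrict (Icc (0 : ℝ) 1)) := ⟨by simp⟩
  have h2 : IsProbabilityMeasure
      ((ENNReal.ofReal P.k0)⁻¹ • volume.withDensity fun s => ENNReal.ofReal (P.g s)) := ⟨by
    rw [Measure.smul_apply, withDensity_apply _ MeasurableSet.univ, Measure.restrict_univ,
      ← ofReal_integral_eq_lintegral_ofReal P.hgi (.of_forall P.hg0), ← k0_eq, smul_eq_mul]
    exact ENNReal.inv_mul_cancel (ENNReal.ofReal_pos.2 (k0_pos P)).ne' ENNReal.ofReal_ne_top⟩
  unfold Par.noise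
  infer_instance

end ParFacts

open ParFacts in
theorem parFactsS : ParFactsS := fun P M hM =>
  { k_anti := k_anti P
    k_cont := k_cont P
    k_nonneg := k_nonneg P
    k_le := k_le P
    k0_pos := k0_pos P
    k_int := P.hki
    k_one := P.hk1
    g_int := rfl
    sg_int := (sg P).1
    sg_one := (sg P).2
    k_sub := k_sub P
    d_pos := d_pos P
    k_mid := k_mid P
    tail := tendsto_integral_Ioi_zero (b := id) tendsto_id
    tail' := tail' P
    swap := fun _ hw ⟨_, hC⟩ => (core P.hg P.hg0 P.hgi P.hki hw hC).2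
    swap_trunc := fun _ hw ⟨_, hC⟩ _ hR => swap_trunc P hw hC hR
    N_pos := N_pos P hM
    N_root := by
      rw [Par.N, ← Real.rpow_mul hM.le, mul_one_div_cancel P.hp0.ne', Real.rpow_one]
    bm_nonneg := bm_nonneg P hM
    b_le := fun _ => b_le P
    Φ_anti := Φ_anti P
    Φ_cont := Φ_cont P
    Φ_lip := fun _ hz _ hz' => Φ_lip P hz hz'
    b_pos := fun h _ => b_pos P h
    b_low := fun h _ h0 => isCompact_Icc.exists_forall_le' P.hb.continuousOn
      fun _ hz => b_pos P h ⟨h0.trans_le hz.1, hz.2⟩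
    Φ_lt := fun h _ => Φ_lt P hM h
    lam_cont := (lam_cont P).continuousOn
    lam_gap := fun h _ => lam_gap P h
    root_lip := fun _ hz _ hz' => root_lip P hz hz'
    root_le := fun _ => root_le P
    le_root := fun _ hδ _ => le_root P hδ
    f_cont := (f_cont P).continuousOn
    f_meas := (f_cont P).measurable
    f_abs := fun _ => f_abs P hM
    small := small P M
    noise_prob := noise_prob P }

end MP34a893

end MrgPart0

-- ======== part 1: formerly Pool.Agent.MP_34a893_an.Vel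
section MrgPart1

/-! Row VEL: spatial increments of the nonlocal velocity. -/

open MeasureTheory Set Filter Topology

namespace MP34a893

namespace Vel

variable {κ w : ℝ → ℝ} {N : ℝ}

lemma norm_le (hb : ∀ x, w x ∈ Icc 0 N) (x : ℝ) : ‖w x‖ ≤ N := by
  rw [Real.norm_eq_abs, abs_of_nonneg (hb x).1]; exact (hb x).2

lemma int_mul (hκ : IntegrableOn κ (Ioi 0)) (hw : Measurable w) (hb : ∀ x, w x ∈ Icc 0 N)
    (x : ℝ) : IntegrableOn (fun s => κ s * w (x + s)) (Ioi 0) :=
  Integrable.mul_bdd (c := N) hκ (hw.comp (measurable_const_add x)).aestronglyMeasurable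
    (ae_of_all _ fun _ => norm_le hb _)

lemma conv_mem (hκ : IntegrableOn κ (Ioi 0)) (h0 : ∀ s, 0 ≤ κ s) (hw : Measurable w)
    (hb : ∀ x, w x ∈ Icc 0 N) (x : ℝ) :
    (∫ s in Ioi (0 : ℝ), κ s * w (x + s)) ∈ Icc 0 ((∫ s in Ioi (0 : ℝ), κ s) * N) := by
  refine ⟨integral_nonneg fun s => mul_nonneg (h0 s) (hb _).1, ?_⟩
  rw [← integral_mul_const]
  exact integral_mono (int_mul hκ hw hb x) (hκ.mul_const N)
    fun s => mul_le_mul_of_nonneg_left (hb _).2 (h0 s)

lemma ii (hw : Measurable w) {C : ℝ} (hb : ∀ x, ‖w x‖ ≤ C) (a c : ℝ) :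
    IntervalIntegrable w volume a c :=
  (intervalIntegrable_const (c := C)).mono_fun' hw.aestronglyMeasurable (ae_of_all _ hb)

lemma fubini (hκ : IntegrableOn κ (Ioi 0)) (hm : Measurable κ) (hw : Measurable w)
    (hb : ∀ x, w x ∈ Icc 0 N) (a c : ℝ) :
    ∫ x in a..c, ∫ s in Ioi (0 : ℝ), κ s * w (x + s) =
      ∫ s in Ioi (0 : ℝ), κ s * ∫ x in a..c, w (x + s) := by
  rw [intervalIntegral_integral_swap]
  · simp only [intervalIntegral.integral_const_mul]
  · have h1 : Integrable (fun _ : ℝ => N) (volume.restrict (uIoc a c)) :=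
      intervalIntegrable_iff.1 (intervalIntegrable_const (c := N))
    refine (h1.mul_prod hκ.norm).mono' ?_ (ae_of_all _ fun z => ?_)
    · exact ((hm.comp measurable_snd).mul
        (hw.comp (measurable_fst.add measurable_snd))).aestronglyMeasurable
    · change ‖κ z.2 * w (z.1 + z.2)‖ ≤ _
      rw [norm_mul, mul_comm]
      exact mul_le_mul_of_nonneg_right (norm_le hb _) (norm_nonneg _)

lemma conv_meas (hm : Measurable κ) (hw : Measurable w) :
    Measurable fun x => ∫ s in Ioi (0 : ℝ), κ s * w (x + s) :=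
  (StronglyMeasurable.integral_prod_right (f := fun x s => κ s * w (x + s))
    ((hm.comp measurable_snd).mul
      (hw.comp (measurable_fst.add measurable_snd))).stronglyMeasurable).measurable

end Vel

theorem velS : ParFactsS → VelS := by
  intro hP P M w hM hw hb Z G hZ hG
  have F := hP P M hM
  have hN := F.N_pos
  have hk0 := F.k0_pos
  have gi : IntegrableOn P.g (Ioi 0) := P.hgi.integrableOn
  have h1 : ∀ x, Z x ∈ Icc 0 (P.N M) ∧ G x ∈ Icc 0 (P.k0 * P.N M) := fun x => by
    have a1 := Vel.conv_mem F.k_int F.k_nonneg hw hb x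
    have a2 := Vel.conv_mem gi P.hg0 hw hb x
    rw [F.k_one, one_mul, ← hZ] at a1
    rw [F.g_int, ← hG] at a2
    exact ⟨a1, a2⟩
  have wi := Vel.ii hw (Vel.norm_le hb)
  have Gm : Measurable G := by
    rw [show G = _ from funext hG]; exact Vel.conv_meas P.hg hw
  have Gi := Vel.ii Gm (Vel.norm_le fun x => (h1 x).2)
  have hm : Measurable fun x => G x - P.k0 * w x := Gm.sub (hw.const_mul _)
  have hC : ∀ x, ‖G x - P.k0 * w x‖ ≤ P.k0 * P.N M := fun x => by
    have a1 := (h1 x).2
    have a2 := mul_nonneg hk0.le (hb x).1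
    have a3 := mul_le_mul_of_nonneg_left (hb x).2 hk0.le
    rw [Real.norm_eq_abs, abs_le]
    constructor <;> linarith [a1.1, a1.2]
  have e1 : ∀ x, Z x = ∫ s in Ioi (0 : ℝ), P.g s * ∫ r in x..(x + s), w r := fun x => by
    rw [hZ, ← F.swap (fun r => w (x + r)) (hw.comp (measurable_const_add x))
      ⟨P.N M, fun r => Vel.norm_le hb _⟩]
    simp only [intervalIntegral.integral_comp_add_left, add_zero]
  have e2 : ∀ x, IntegrableOn (fun s => P.g s * ∫ r in x..(x + s), w r) (Ioi 0) := fun x => by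
    have c1 : Continuous fun s => ∫ r in x..(x + s), w r :=
      (intervalIntegral.continuous_primitive wi x).comp (continuous_const.add continuous_id)
    refine (F.sg_int.mul_const (P.N M)).mono' (P.hg.mul c1.measurable).aestronglyMeasurable ?_
    refine (ae_restrict_iff' measurableSet_Ioi).2 (ae_of_all _ fun s hs => ?_)
    have a1 := intervalIntegral.norm_integral_le_of_norm_le_const (a := x) (b := x + s)
      (f := w) (C := P.N M) fun r _ => Vel.norm_le hb r
    rw [add_sub_cancel_left, abs_of_pos hs] at a1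
    rw [norm_mul, Real.norm_of_nonneg (P.hg0 s)]
    calc _ ≤ P.g s * (P.N M * s) := mul_le_mul_of_nonneg_left a1 (P.hg0 s)
      _ = _ := by ring
  have h2 : ∀ x1 x2, Z x2 - Z x1 = ∫ x in x1..x2, (G x - P.k0 * w x) := fun x1 x2 => by
    have a1 : ∀ s, P.g s * (∫ x in x1..x2, w (x + s)) =
        (P.g s * (∫ r in x2..(x2 + s), w r) - P.g s * ∫ r in x1..(x1 + s), w r) +
          P.g s * ∫ x in x1..x2, w x := fun s => by
      rw [intervalIntegral.integral_comp_add_right]
      have b1 := intervalIntegral.integral_add_adjacent_intervals (wi x1 (x1 + s))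
        (wi (x1 + s) (x2 + s))
      have b2 := intervalIntegral.integral_add_adjacent_intervals (wi x1 x2) (wi x2 (x2 + s))
      linear_combination P.g s * b1 - P.g s * b2
    rw [intervalIntegral.integral_sub (Gi x1 x2) ((wi x1 x2).const_mul _),
      intervalIntegral.integral_const_mul, show G = _ from funext hG,
      Vel.fubini gi P.hg hw hb]
    simp only [a1]
    have a2 : IntegrableOn (fun s => P.g s * (∫ r in x2..(x2 + s), w r) -
        P.g s * ∫ r in x1..(x1 + s), w r) (Ioi 0) := (e2 x2).sub (e2 x1)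
    rw [integral_add a2 (gi.mul_const _), integral_sub (e2 x2) (e2 x1),
      integral_mul_const, F.g_int, ← e1, ← e1]
    ring
  have h4 : ∀ x1 x2, |P.Φ (Z x2) - P.Φ (Z x1)| ≤ P.C0 M * |x2 - x1| := fun x1 x2 => by
    have a1 := intervalIntegral.norm_integral_le_of_norm_le_const (a := x1) (b := x2)
      fun x _ => hC x
    rw [← h2, Real.norm_eq_abs] at a1
    calc _ ≤ P.bm M * |Z x2 - Z x1| := F.Φ_lip _ (h1 x2).1 _ (h1 x1).1
      _ ≤ P.bm M * (P.k0 * P.N M * |x2 - x1|) := mul_le_mul_of_nonneg_left a1 F.bm_nonneg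
      _ = _ := by unfold Par.C0; ring
  refine ⟨h1, h2, fun x1 x2 => ?_, h4⟩
  have c0 : 0 ≤ P.C0 M := mul_nonneg (mul_nonneg F.bm_nonneg hk0.le) hN.le
  have lip : LipschitzWith ⟨P.C0 M, c0⟩ fun x => P.Φ (Z x) :=
    LipschitzWith.of_dist_le_mul fun x y => h4 y x
  have li : LocallyIntegrable (fun x => G x - P.k0 * w x) volume :=
    (locallyIntegrable_const (P.k0 * P.N M)).mono hm.aestronglyMeasurable
      (ae_of_all _ fun x => (hC x).trans (le_abs_self _))
  rw [← (lip.lipschitzOnWith.absolutelyContinuousOnInterval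
    (a := x1) (b := x2)).integral_deriv_eq_sub]
  refine intervalIntegral.integral_congr_ae ?_
  filter_upwards [LocallyIntegrable.ae_hasDerivAt_integral li] with x hx _
  have d1 : HasDerivAt Z (G x - P.k0 * w x) x := by
    have e : Z = fun y => Z 0 + ∫ t in (0 : ℝ)..y, (G t - P.k0 * w t) :=
      funext fun y => by rw [← h2]; ring
    rw [e]
    exact (hx 0).const_add _
  have d2 : HasDerivAt (fun x => P.Φ (Z x)) _ x := (P.hΦ (Z x)).comp x d1
  rw [d2.deriv]
  ring

end MP34a893

end MrgPart1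

-- ======== part 2: formerly Pool.Agent.MP_34a893_an.Cov
section MrgPart2

open MeasureTheory Set Filter Topology
open scoped ENNReal

namespace MP34a893

theorem covS : CovS := by
  intro X Y j hY hXY hYX hX hj hj0 hji hsub
  have hpre : ∀ a c, Y ⁻¹' Ioc a c = Ioc (X a) (X c) := fun a c => by
    ext x
    simp only [mem_preimage, mem_Ioc]
    rw [← hX.lt_iff_lt, ← hX.le_iff_le, hXY]
  have hval : ∀ a c, a < c → Measure.map Y volume (Ioc a c) = ENNReal.ofReal (X c - X a) :=
    fun a c _ => by rw [Measure.map_apply hY.measurable measurableSet_Ioc, hpre, Real.volume_Ioc]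
  have h1 : Measure.map Y volume = volume.withDensity (fun y => ENNReal.ofReal (j y)) := by
    refine Measure.ext_of_Ioc' _ _ (fun a c h => ?_) fun a c h => ?_
    · rw [hval a c h]; exact ENNReal.ofReal_ne_top
    · rw [hval a c h, withDensity_apply _ measurableSet_Ioc, hsub,
        intervalIntegral.integral_of_le h.le,
        ofReal_integral_eq_lintegral_ofReal (hji a c).1 (ae_restrict_of_ae hj0)]
  refine ⟨h1, fun φ hφ _ y1 y2 => ?_⟩
  wlog h : y1 ≤ y2 generalizing y1 y2
  · rw [intervalIntegral.integral_symm, this y2 y1 (le_of_not_ge h),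
      ← intervalIntegral.integral_symm]
  have hm : Measurable fun y => φ (X y) := hφ.comp hX.monotone.measurable
  have h2 := setIntegral_map (μ := volume) (g := Y) (f := fun y => φ (X y)) (s := Ioc y1 y2)
    measurableSet_Ioc hm.aestronglyMeasurable hY.measurable.aemeasurable
  simp only [hXY, hpre] at h2
  rw [intervalIntegral.integral_of_le (hX.monotone h), intervalIntegral.integral_of_le h, ← h2, h1,
    setIntegral_withDensity_eq_setIntegral_toReal_smul hj.ennreal_ofReal
      (Eventually.of_forall fun _ => ENNReal.ofReal_lt_top) _ measurableSet_Ioc]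
  refine integral_congr_ae ((ae_restrict_of_ae hj0).mono fun y hy => ?_)
  simp only [smul_eq_mul]
  rw [ENNReal.toReal_ofReal hy, mul_comm]

namespace Cov

variable {w : ℝ → ℝ → ℝ} {C : ℝ}

theorem int_mul (hw : Measurable (Function.uncurry w)) (hC : ∀ t x, |w t x| ≤ C) {g : ℝ → ℝ}
    (hg : Integrable g) (t x : ℝ) : Integrable fun s => g s * w t (x + s) :=
  hg.mul_bdd (c := C)
    ((hw.of_uncurry_left (x := t)).comp (measurable_const_add x)).aestronglyMeasurable
    (Eventually.of_forall fun s => hC t (x + s))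

theorem cont (hw : Measurable (Function.uncurry w)) (hC : ∀ t x, |w t x| ≤ C)
    (hL : ∀ a c t0, Tendsto (fun t => ∫ x in Icc a c, |w t x - w t0 x|) (𝓝 t0) (𝓝 0))
    {g : ℝ → ℝ} (hg : Continuous g) (hc : HasCompactSupport g) :
    Continuous fun z : ℝ × ℝ => ∫ s, g s * w z.1 (z.2 + s) := by
  have hgi : Integrable g := hg.integrable_of_hasCompactSupport hc
  obtain ⟨G, hG⟩ := hg.bounded_above_of_compact_support hc
  obtain ⟨R, -, hR⟩ := hc.exists_pos_le_norm
  have hm : ∀ t, Measurable (w t) := fun t => hw.of_uncurry_left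
  have hon : ∀ t a c, IntegrableOn (w t) (Icc a c) := fun t a c =>
    Measure.integrableOn_of_bounded (M := C) measure_Icc_lt_top.ne (hm t).aestronglyMeasurable
      (Eventually.of_forall fun x => hC t x)
  rw [continuous_iff_continuousAt]
  rintro ⟨t0, x0⟩
  have hB : Continuous fun x => ∫ s, g s * w t0 (x + s) := by
    have hl : LocallyIntegrable (w t0) := fun x =>
      ⟨Icc (x - 1) (x + 1), Icc_mem_nhds (by linarith) (by linarith), hon t0 _ _⟩
    have hc' : HasCompactSupport fun u => g (-u) := hc.comp_homeomorph (Homeomorph.neg ℝ)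
    have := hc'.continuous_convolution_right (ContinuousLinearMap.mul ℝ ℝ) hl
      (hg.comp continuous_neg)
    convert this using 2 with x
    rw [convolution_def, eq_comm, ← integral_add_left_eq_self _ x]
    simp [mul_comm]
  have hA : Tendsto (fun z : ℝ × ℝ => (∫ s, g s * w z.1 (z.2 + s)) - ∫ s, g s * w t0 (z.2 + s))
      (𝓝 (t0, x0)) (𝓝 0) := by
    have h1 := ((hL (x0 - 1 - R) (x0 + 1 + R) t0).comp
      (continuous_fst.tendsto ((t0, x0) : ℝ × ℝ))).const_mul G
    rw [mul_zero] at h1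
    refine squeeze_zero_norm' ?_ h1
    have h2 : ∀ᶠ z : ℝ × ℝ in 𝓝 (t0, x0), z.2 ∈ Icc (x0 - 1) (x0 + 1) :=
      (continuous_snd.tendsto ((t0, x0) : ℝ × ℝ)).eventually
        (Icc_mem_nhds (by simp) (by simp))
    refine h2.mono fun z hz => ?_
    rw [← integral_sub (int_mul hw hC hgi _ _) (int_mul hw hC hgi _ _), Function.comp,
      ← integral_const_mul, ← integral_indicator measurableSet_Icc,
      ← integral_add_left_eq_self (Set.indicator _ _) z.2]
    refine norm_integral_le_of_norm_le (Integrable.comp_add_left ?_ _)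
      (Eventually.of_forall fun s => ?_)
    · exact (integrable_indicator_iff measurableSet_Icc).2
        (((hon _ _ _).sub (hon _ _ _)).abs.const_mul G)
    · rw [← mul_sub, norm_mul]
      by_cases hs : R ≤ ‖s‖
      · rw [hR s hs, norm_zero, zero_mul]
        exact indicator_nonneg (fun _ _ => mul_nonneg ((norm_nonneg _).trans (hG 0))
          (abs_nonneg _)) _
      · have h3 := abs_lt.1 (lt_of_not_ge hs)
        rw [indicator_of_mem (show z.2 + s ∈ Icc (x0 - 1 - R) (x0 + 1 + R) from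
          ⟨by linarith [hz.1], by linarith [hz.2]⟩)]
        exact mul_le_mul_of_nonneg_right (hG s) (abs_nonneg _)
  have := hA.add ((hB.comp continuous_snd).tendsto ((t0, x0) : ℝ × ℝ))
  simpa [ContinuousAt] using this

end Cov

theorem convS : ConvS := by
  intro κ w C hκ hw hC hL
  have hC0 : 0 ≤ C := (abs_nonneg _).trans (hC 0 0)
  have hi : Integrable ((Ioi (0 : ℝ)).indicator κ) := (integrable_indicator_iff measurableSet_Ioi).2 hκ
  refine continuous_of_uniform_approx_of_continuous fun u hu => ?_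
  obtain ⟨ε, hε, hu⟩ := Metric.mem_uniformity_dist.1 hu
  obtain ⟨g, hc, hg, hcont, hgi⟩ :=
    hi.exists_hasCompactSupport_integral_sub_le (ε := ε / (C + 1)) (by positivity)
  refine ⟨_, Cov.cont hw hC hL hcont hc, fun z => hu ?_⟩
  have e : ∫ s in Ioi (0 : ℝ), κ s * w z.1 (z.2 + s) =
      ∫ s, (Ioi (0 : ℝ)).indicator κ s * w z.1 (z.2 + s) := by
    rw [← integral_indicator measurableSet_Ioi]
    refine integral_congr_ae (Eventually.of_forall fun s => ?_)
    by_cases hs : s ∈ Ioi (0 : ℝ) <;> simp [hs]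
  rw [e, dist_eq_norm, ← integral_sub (Cov.int_mul hw hC hi _ _) (Cov.int_mul hw hC hgi _ _)]
  have h1 : ‖∫ s, ((Ioi (0 : ℝ)).indicator κ s * w z.1 (z.2 + s) - g s * w z.1 (z.2 + s))‖ ≤
      ∫ s, ‖(Ioi (0 : ℝ)).indicator κ s - g s‖ * C :=
    norm_integral_le_of_norm_le ((hi.sub hgi).norm.mul_const C) (Eventually.of_forall fun s => by
      rw [← sub_mul, norm_mul]
      exact mul_le_mul_of_nonneg_left (hC _ _) (norm_nonneg _))
  rw [integral_mul_const] at h1
  calc _ ≤ ε / (C + 1) * C := h1.trans (mul_le_mul_of_nonneg_right hg hC0)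
    _ < ε / (C + 1) * (C + 1) := by gcongr; linarith
    _ = ε := by field_simp

end MP34a893

end MrgPart2

-- ======== part 3: formerly Pool.Agent.MP_34a893_an.LagFacts
section MrgPart3

open MeasureTheory Set Filter Topology

namespace MP34a893

namespace LF

theorem ftc {T : ℝ} {f f' : ℝ → ℝ} (hd : ∀ t ∈ Icc 0 T, HasDerivWithinAt f (f' t) (Icc 0 T) t)
    (hc : ContinuousOn f' (Icc 0 T)) {t1 t2 : ℝ} (h1 : t1 ∈ Icc 0 T) (h2 : t2 ∈ Icc 0 T) :
    f t2 - f t1 = ∫ τ in t1..t2, f' τ := by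
  have hs : uIcc t1 t2 ⊆ Icc 0 T := uIcc_subset_Icc h1 h2
  refine (intervalIntegral.integral_eq_sub_of_hasDeriv_right
    (fun t ht => ((hd t (hs ht)).continuousWithinAt).mono hs) (fun t ht => ?_)
    (hc.mono hs).intervalIntegrable).symm
  have h3 : 0 < t := lt_of_le_of_lt (le_min h1.1 h2.1) ht.1
  have h4 : t < T := lt_of_lt_of_le ht.2 (max_le h1.2 h2.2)
  exact ((hd t ⟨h3.le, h4.le⟩).hasDerivAt (Icc_mem_nhds h3 h4)).hasDerivWithinAt

theorem abs_int_le {f : ℝ → ℝ} {C a b : ℝ} (h : ∀ x, |f x| ≤ C) :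
    |∫ x in a..b, f x| ≤ C * |b - a| :=
  intervalIntegral.norm_integral_le_of_norm_le_const (f := f) fun x _ => h x

theorem intInt {f : ℝ → ℝ} {C : ℝ} (hf : Measurable f) (h : ∀ x, |f x| ≤ C) (a b : ℝ) :
    IntervalIntegrable f volume a b :=
  (intervalIntegrable_const (c := C)).mono_fun' hf.aestronglyMeasurable
    (Eventually.of_forall fun x => h x)

variable {P : Par} {M : ℝ} (L : Lag P M)

theorem U_eq (t y : ℝ) : L.U t y = (L.q0 y / L.j t y) ^ P.p := L.u_eq t y

theorem u_nonneg (t x : ℝ) : 0 ≤ L.u t x := by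
  rw [← L.XY t x, L.u_eq]
  exact Real.rpow_nonneg (div_nonneg (L.q0_nonneg _) (L.j_pos _ _).le) _

theorem X_mono (t : ℝ) : StrictMono (L.X t) := fun y1 y2 h => by
  rw [← sub_pos, L.X_sub]
  exact intervalIntegral.intervalIntegral_pos_of_pos (L.j_int t y1 y2) (L.j_pos t) h

theorem Y_mono (t : ℝ) : StrictMono (L.Y t) := fun x1 x2 h => by
  rw [← (X_mono L t).lt_iff_lt, L.XY, L.XY]
  exact h

theorem q0_int (a b : ℝ) : IntervalIntegrable L.q0 volume a b :=
  intInt L.q0_meas (fun y => (abs_of_nonneg (L.q0_nonneg y)).trans_le (L.q0_le y)) a b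

theorem m_sub (y1 y2 : ℝ) : L.m y2 - L.m y1 = ∫ y in y1..y2, L.q0 y :=
  intervalIntegral.integral_interval_sub_left (q0_int L _ _) (q0_int L _ _)

theorem qj (t y : ℝ) : L.q t (L.X t y) * L.j t y = L.q0 y := by
  rw [Lag.q, L.u_eq, one_div, Real.rpow_rpow_inv (div_nonneg (L.q0_nonneg _) (L.j_pos _ _).le)
    P.hp0.ne', div_mul_cancel₀ _ (L.j_pos t y).ne']

theorem tX_cont : Continuous fun z : ℝ × ℝ => (z.1, L.X z.1 z.2) :=
  continuous_fst.prodMk L.X_cont

theorem ZX_cont : Continuous fun z : ℝ × ℝ => L.Z z.1 (L.X z.1 z.2) := L.Z_cont.comp (tX_cont L)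

theorem GX_cont : Continuous fun z : ℝ × ℝ => L.G z.1 (L.X z.1 z.2) := L.G_cont.comp (tX_cont L)

theorem slice {f : ℝ × ℝ → ℝ} (hf : Continuous f) (y : ℝ) : Continuous fun t => f (t, y) :=
  hf.comp (continuous_id.prodMk continuous_const)

theorem U_deriv (y t : ℝ) (ht : t ∈ Icc 0 L.T) : HasDerivWithinAt (fun τ => L.U τ y)
    (L.rate t y * (L.G t (L.X t y) - P.k0 * L.U t y)) (Icc 0 L.T) t := by
  have e : ∀ τ, L.U τ y = L.q0 y ^ P.p * L.j τ y ^ (-P.p) := fun τ => by
    rw [U_eq, Real.div_rpow (L.q0_nonneg _) (L.j_pos _ _).le, Real.rpow_neg (L.j_pos _ _).le,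
      div_eq_mul_inv]
  have h := ((L.j_deriv y t ht).rpow_const (p := -P.p) (.inl (L.j_pos t y).ne')).const_mul
    (L.q0 y ^ P.p)
  simp only [← e] at h
  refine h.congr_deriv (Eq.symm ?_)
  have h1 : L.j t y * L.j t y ^ (-P.p - 1) = L.j t y ^ (-P.p) := by
    rw [Real.rpow_sub_one (L.j_pos t y).ne', mul_div_cancel₀ _ (L.j_pos t y).ne']
  have h2 := e t
  rw [← h1] at h2
  change P.p * P.b (L.Z t (L.X t y)) * L.U t y * (L.G t (L.X t y) - P.k0 * L.U t y) =
    L.q0 y ^ P.p * (L.j t y * (P.b (L.Z t (L.X t y)) * (P.k0 * L.U t y - L.G t (L.X t y))) *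
      -P.p * L.j t y ^ (-P.p - 1))
  linear_combination (P.p * P.b (L.Z t (L.X t y)) * (L.G t (L.X t y) - P.k0 * L.U t y)) * h2

theorem U_cont (y : ℝ) : ContinuousOn (fun t => L.U t y) (Icc 0 L.T) := fun t ht =>
  (U_deriv L y t ht).continuousWithinAt

theorem logj (y t1 : ℝ) (h1 : t1 ∈ Icc 0 L.T) (t2 : ℝ) (h2 : t2 ∈ Icc 0 L.T) :
    Real.log (L.j t2 y) - Real.log (L.j t1 y) =
      ∫ τ in t1..t2, (P.b (L.Z τ (L.X τ y)) * (P.k0 * L.U τ y) - L.bG τ y) := by
  refine ftc (f := fun τ => Real.log (L.j τ y)) (fun t ht => ?_) ?_ h1 h2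
  · convert (L.j_deriv y t ht).log (L.j_pos t y).ne' using 1
    rw [mul_div_cancel_left₀ _ (L.j_pos t y).ne', mul_sub]
    rfl
  · have hb := (P.hb.comp (slice (ZX_cont L) y)).continuousOn (s := Icc 0 L.T)
    exact (hb.mul (continuousOn_const.mul (U_cont L y))).sub
      (hb.mul (slice (GX_cont L) y).continuousOn)

end LF

open LF

theorem lagFactsS (hpar : ParFactsS) (cov : CovS) (vel : VelS) : LagFactsS := by
  intro P M L hM
  have hP := hpar P M hM
  have um : ∀ t, Measurable (L.u t) := fun t => L.u_meas.of_uncurry_left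
  have hV := fun t => vel P M (L.u t) hM (um t) (fun x => ⟨u_nonneg L t x, L.u_le t x⟩)
    (L.Z t) (L.G t) (fun _ => rfl) fun _ => rfl
  have hC := fun t => cov (L.X t) (L.Y t) (L.j t) (L.Y_cont.comp (Continuous.prodMk_right t))
    (L.XY t) (L.YX t) (X_mono L t) L.j_meas.of_uncurry_left
    (Eventually.of_forall fun y => (L.j_pos t y).le) (L.j_int t) (L.X_sub t)
  have Zm : ∀ t x, L.Z t x ∈ Icc 0 (P.N M) := fun t x => ((hV t).1 x).1
  have Gm : ∀ t x, L.G t x ∈ Icc 0 (P.k0 * P.N M) := fun t x => ((hV t).1 x).2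
  have bm : ∀ t x, P.b (L.Z t x) ≤ P.bm M := fun t x => hP.b_le _ (Zm t x)
  have Um : ∀ t y, L.U t y ∈ Icc 0 (P.N M) := fun t y => ⟨u_nonneg L _ _, L.u_le _ _⟩
  have qm : ∀ t x, L.q t x ∈ Icc 0 M := fun t x => ⟨Real.rpow_nonneg (u_nonneg L t x) _,
    (Real.rpow_le_rpow (u_nonneg L t x) (L.u_le t x) (one_div_pos.2 P.hp0).le).trans hP.N_root.le⟩
  have qmeas : Measurable (Function.uncurry L.q) := L.u_meas.pow_const _
  have Umeas : Measurable (Function.uncurry L.U) := L.u_meas.comp (tX_cont L).measurable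
  have rm : ∀ t y, L.rate t y ∈ Icc 0 (P.Th M) := fun t y =>
    ⟨mul_nonneg (mul_nonneg P.hp0.le (P.hb0 _)) (Um t y).1,
      mul_le_mul (mul_le_mul_of_nonneg_left (bm _ _) P.hp0.le) (Um t y).2 (Um t y).1
        (mul_nonneg P.hp0.le hP.bm_nonneg)⟩
  have bGm : ∀ t y, L.bG t y ∈ Icc 0 (P.C0 M) := fun t y =>
    ⟨mul_nonneg (P.hb0 _) (Gm _ _).1, (mul_le_mul (bm _ _) (Gm _ _).2 (Gm _ _).1
      hP.bm_nonneg).trans_eq (mul_assoc _ _ _).symm⟩
  have vc : Continuous (Function.uncurry L.v) := hP.Φ_cont.comp L.Z_cont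
  have vm : ∀ t x, L.v t x ∈ Icc (P.Φ 0 - P.DV M) (P.Φ 0) := fun t x => by
    refine ⟨?_, hP.Φ_anti (Zm t x).1⟩
    have h1 := hP.Φ_lip _ (Zm t x) 0 ⟨le_rfl, hP.N_pos.le⟩
    rw [sub_zero, abs_of_nonneg (Zm t x).1] at h1
    have h2 := mul_le_mul_of_nonneg_left (Zm t x).2 hP.bm_nonneg
    have h3 := (abs_le.1 h1).1
    change P.Φ 0 - P.bm M * P.N M ≤ P.Φ (L.Z t x)
    linarith
  have DV0 : 0 ≤ P.DV M := mul_nonneg hP.bm_nonneg hP.N_pos.le
  have va : ∀ t x, |L.v t x| ≤ P.Vm M := fun t x => by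
    have h1 := vm t x
    have h2 := le_abs_self (P.Φ 0)
    have h3 := neg_abs_le (P.Φ 0)
    rw [Par.Vm, abs_le]
    exact ⟨by linarith [h1.1], by linarith [h1.2]⟩
  have qa : ∀ t x, |L.q t x| ≤ M := fun t x => (abs_of_nonneg (qm t x).1).trans_le (qm t x).2
  have Qs : ∀ t x1 x2, L.Q t x2 - L.Q t x1 = ∫ x in x1..x2, L.q t x := fun t x1 x2 => by
    have h := (hC t).2 (L.q t) qmeas.of_uncurry_left ⟨M, qa t⟩ (L.Y t x1) (L.Y t x2)
    rw [L.XY, L.XY] at h
    simp only [qj] at h
    rw [h]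
    exact m_sub L _ _
  have vX : ∀ y, Continuous fun τ => L.v τ (L.X τ y) := fun y => slice (vc.comp (tX_cont L)) y
  have Xi : ∀ y, ∀ t1 ∈ Icc 0 L.T, ∀ t2 ∈ Icc 0 L.T,
      L.X t2 y - L.X t1 y = ∫ τ in t1..t2, L.v τ (L.X τ y) := fun y t1 h1 t2 h2 =>
    ftc (f := fun τ => L.X τ y) (L.X_deriv y) (vX y).continuousOn h1 h2
  have Xl : ∀ y, ∀ t ∈ Icc 0 L.T, ∀ τ ∈ Icc 0 L.T, |L.X t y - L.X τ y| ≤ P.Vm M * |t - τ| :=
    fun y t ht τ hτ => by
      rw [Xi y τ hτ t ht]
      exact abs_int_le fun s => va _ _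
  have jr : ∀ y, ∀ t ∈ Icc 0 L.T, ∀ τ ∈ Icc 0 L.T,
      L.j t y ≤ Real.exp (P.C0 M * |t - τ|) * L.j τ y := fun y t ht τ hτ => by
    have h1 : |Real.log (L.j t y) - Real.log (L.j τ y)| ≤ P.C0 M * |t - τ| := by
      rw [logj L y τ hτ t ht]
      refine abs_int_le fun s => ?_
      have h2 : P.b (L.Z s (L.X s y)) * (P.k0 * L.U s y) ≤ P.C0 M :=
        (mul_le_mul (bm _ _) (mul_le_mul_of_nonneg_left (Um s y).2 hP.k0_pos.le)
          (mul_nonneg hP.k0_pos.le (Um s y).1) hP.bm_nonneg).trans_eq (mul_assoc _ _ _).symm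
      have h3 : 0 ≤ P.b (L.Z s (L.X s y)) * (P.k0 * L.U s y) :=
        mul_nonneg (P.hb0 _) (mul_nonneg hP.k0_pos.le (Um s y).1)
      exact abs_le.2 ⟨by linarith [(bGm s y).2], by linarith [(bGm s y).1]⟩
    rw [← Real.exp_log (L.j_pos t y), ← Real.exp_log (L.j_pos τ y), ← Real.exp_add]
    exact Real.exp_le_exp.2 (by linarith [(abs_le.1 h1).2])
  have Ui : ∀ y, ∀ t1 ∈ Icc 0 L.T, ∀ t2 ∈ Icc 0 L.T, L.U t2 y - L.U t1 y =
      ∫ τ in t1..t2, L.rate τ y * (L.G τ (L.X τ y) - P.k0 * L.U τ y) := fun y t1 h1 t2 h2 =>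
    ftc (f := fun τ => L.U τ y) (U_deriv L y)
      (((continuousOn_const.mul (P.hb.comp (slice (ZX_cont L) y)).continuousOn).mul
        (U_cont L y)).mul ((slice (GX_cont L) y).continuousOn.sub
          (continuousOn_const.mul (U_cont L y)))) h1 h2
  have di : ∀ y, ∀ t1 ∈ Icc 0 L.T, ∀ t2 ∈ Icc 0 L.T,
      L.dfc y t1 t2 = ∫ τ in t1..t2, (P.Φ 0 - L.v τ (L.X τ y)) := fun y t1 h1 t2 h2 => by
    rw [intervalIntegral.integral_sub intervalIntegrable_const ((vX y).intervalIntegrable _ _),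
      ← Xi y t1 h1 t2 h2, intervalIntegral.integral_const, smul_eq_mul, Lag.dfc, mul_comm]
  have C00 : 0 ≤ P.C0 M := (bGm 0 0).1.trans (bGm 0 0).2
  exact
    { u_nonneg := u_nonneg L
      Z_mem := Zm
      G_mem := Gm
      q_mem := qm
      q_pow := fun t x => by
        rw [Lag.q, one_div, Real.rpow_inv_rpow (u_nonneg L t x) P.hp0.ne']
      q_meas := qmeas
      U_meas := Umeas
      rate_meas := (measurable_const.mul (P.hb.comp (ZX_cont L)).measurable).mul Umeas
      rate_mem := rm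
      bG_cont := (P.hb.comp (ZX_cont L)).mul (GX_cont L)
      bG_mem := bGm
      v_cont := vc
      v_mem := vm
      v_abs := va
      X_mono := X_mono L
      Y_mono := Y_mono L
      cov := fun t => (hC t).1
      cov_int := fun t => (hC t).2
      qj := qj L
      u_zero := fun y => by
        have := L.u_eq 0 y
        rwa [L.X_zero, L.j_zero, div_one] at this
      Z_sub := fun t => (hV t).2.1
      v_sub := fun t => (hV t).2.2.1
      m_mono := fun y1 y2 h => by
        rw [← sub_nonneg, m_sub]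
        exact intervalIntegral.integral_nonneg h fun y _ => L.q0_nonneg y
      m_cont := intervalIntegral.continuous_primitive (q0_int L) 0
      Q_cont := (intervalIntegral.continuous_primitive (q0_int L) 0).comp L.Y_cont
      Q_X := fun t y => by rw [Lag.Q, L.YX]
      Q_sub := Qs
      Q_time := fun t ht τ hτ x => by
        have e : L.Q t x = L.Q τ (L.X τ (L.Y t x)) := by rw [Lag.Q, Lag.Q, L.YX]
        rw [e, Qs]
        refine (abs_int_le (qa τ)).trans ?_
        have h := Xl (L.Y t x) τ hτ t ht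
        rw [L.XY, abs_sub_comm τ t] at h
        rw [mul_assoc]
        exact mul_le_mul_of_nonneg_left h hM.le
      X_int := Xi
      X_lip := Xl
      U_cont := U_cont L
      logj := logj L
      j_ratio := jr
      U_deriv := U_deriv L
      U_int := Ui
      U_lip := fun y t ht τ hτ => by
        rw [Ui y τ hτ t ht]
        refine abs_int_le fun s => ?_
        have h1 := mul_le_mul_of_nonneg_left (Um s y).2 hP.k0_pos.le
        have h2 := mul_nonneg hP.k0_pos.le (Um s y).1
        rw [abs_mul, abs_of_nonneg (rm s y).1, mul_assoc (P.Th M)]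
        exact mul_le_mul (rm s y).2
          (abs_le.2 ⟨by linarith [(Gm s (L.X s y)).1], by linarith [(Gm s (L.X s y)).2]⟩)
          (abs_nonneg _) ((rm s y).1.trans (rm s y).2)
      U_ratio := fun y t ht τ hτ => by
        have h1 := jr y τ hτ t ht
        rw [abs_sub_comm τ t] at h1
        have h0 : 0 ≤ P.C0 M * |t - τ| := mul_nonneg C00 (abs_nonneg _)
        have h2 : L.q0 y / L.j t y ≤ Real.exp (P.C0 M * |t - τ|) * (L.q0 y / L.j τ y) := by
          rw [← mul_div_assoc, div_le_div_iff₀ (L.j_pos t y) (L.j_pos τ y)]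
          nlinarith [L.q0_nonneg y]
        have h3 : 0 ≤ L.q0 y / L.j τ y := div_nonneg (L.q0_nonneg y) (L.j_pos τ y).le
        rw [U_eq, U_eq]
        refine (Real.rpow_le_rpow (div_nonneg (L.q0_nonneg y) (L.j_pos t y).le) h2
          P.hp0.le).trans ?_
        rw [Real.mul_rpow (Real.exp_pos _).le h3]
        refine mul_le_mul_of_nonneg_right ?_ (Real.rpow_nonneg h3 _)
        exact Real.rpow_le_self_of_one_le (Real.one_le_exp h0) P.hp1.le
      dist_mul := fun y1 y2 h t ht τ hτ => by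
        rw [L.X_sub, L.X_sub, ← intervalIntegral.integral_const_mul, abs_sub_comm t τ]
        exact intervalIntegral.integral_mono_on h (L.j_int _ _ _) ((L.j_int _ _ _).const_mul _)
          fun y _ => jr y τ hτ t ht
      dist_add := fun y1 y2 t ht τ hτ => by
        have h1 : |∫ s in t..τ, (L.v s (L.X s y2) - L.v s (L.X s y1))| ≤ P.DV M * |τ - t| :=
          abs_int_le fun s => abs_le.2
            ⟨by linarith [(vm s (L.X s y2)).1, (vm s (L.X s y1)).2],
              by linarith [(vm s (L.X s y2)).2, (vm s (L.X s y1)).1]⟩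
        rw [intervalIntegral.integral_sub ((vX y2).intervalIntegrable _ _)
          ((vX y1).intervalIntegrable _ _), ← Xi y2 t ht τ hτ, ← Xi y1 t ht τ hτ,
          abs_sub_comm τ t] at h1
        linarith [(abs_le.1 h1).2]
      dfc_int := di
      dfc_mem := fun y t1 t2 h0 h12 hT => by
        rw [di y t1 ⟨h0, h12.trans hT⟩ t2 ⟨h0.trans h12, hT⟩]
        refine ⟨intervalIntegral.integral_nonneg h12 fun s _ => sub_nonneg.2 (vm _ _).2, ?_⟩
        have h1 : |∫ s in t1..t2, (P.Φ 0 - L.v s (L.X s y))| ≤ P.DV M * |t2 - t1| :=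
          abs_int_le fun s => abs_le.2
            ⟨by linarith [(vm s (L.X s y)).2], by linarith [(vm s (L.X s y)).1]⟩
        rw [abs_of_nonneg (sub_nonneg.2 h12)] at h1
        exact (le_abs_self _).trans h1 }

end MP34a893

end MrgPart3

-- ======== part 4: formerly Pool.Agent.MP_34a893_an.MaxInit
section MrgPart4

/-! Rows MAX and INIT: the maximum principle and the initial layer. -/

open MeasureTheory Set Filter Topology
open scoped ENNReal

namespace MP34a893

theorem maxS : ParFactsS → LagFactsS → MaxS := by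
  intro hP hL P B M L hB hM hq t x
  have F := hP P B hB
  have H := hL P B L hB
  set S := sSup ((fun z : ℝ × ℝ => L.U z.1 z.2) '' (Icc 0 L.T ×ˢ univ)) with hS
  have hbd : BddAbove ((fun z : ℝ × ℝ => L.U z.1 z.2) '' (Icc 0 L.T ×ˢ univ)) :=
    ⟨P.N B, by rintro _ ⟨z, -, rfl⟩; exact L.u_le _ _⟩
  have h1 : ∀ t ∈ Icc 0 L.T, ∀ y, L.U t y ≤ S := fun t ht y =>
    le_csSup hbd ⟨(t, y), ⟨ht, mem_univ _⟩, rfl⟩
  have h2 : ∀ t ∈ Icc 0 L.T, ∀ x, L.G t x ≤ P.k0 * S := by
    intro t ht x
    rw [← F.g_int, ← integral_mul_const]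
    refine integral_mono_of_nonneg (ae_of_all _ fun s => mul_nonneg (P.hg0 s) (H.u_nonneg _ _))
      (P.hgi.integrableOn.mul_const S) (ae_of_all _ fun s => mul_le_mul_of_nonneg_left ?_ (P.hg0 s))
    have := h1 t ht (L.Y t (x + s))
    rwa [Lag.U, L.XY] at this
  set c := P.Th B * P.k0 with hc
  have hc0 : 0 ≤ c := mul_nonneg ((H.rate_mem 0 0).1.trans (H.rate_mem 0 0).2) F.k0_pos.le
  have h3 : ∀ y, MonotoneOn (fun τ => (S - L.U τ y) * Real.exp (c * τ)) (Icc 0 L.T) := by
    intro y
    refine monotoneOn_of_hasDerivWithinAt_nonneg (convex_Icc _ _)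
      (f' := fun τ => -(L.rate τ y * (L.G τ (L.X τ y) - P.k0 * L.U τ y)) * Real.exp (c * τ) +
        (S - L.U τ y) * (Real.exp (c * τ) * (c * 1)))
      ((continuousOn_const.sub (H.U_cont y)).mul (by fun_prop)) (fun τ hτ => ?_) fun τ hτ => ?_
    · exact (((H.U_deriv y τ (interior_subset hτ)).const_sub S).mul
        ((hasDerivAt_id τ).const_mul c).exp.hasDerivWithinAt).mono interior_subset
    · have hτ' := interior_subset hτ
      have a1 := sub_nonneg.2 (h1 τ hτ' y)
      have a2 := h2 τ hτ' (L.X τ y)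
      have a3 := H.rate_mem τ y
      have a4 : L.rate τ y * (L.G τ (L.X τ y) - P.k0 * L.U τ y) ≤ (S - L.U τ y) * c :=
        calc _ ≤ L.rate τ y * (P.k0 * (S - L.U τ y)) :=
              mul_le_mul_of_nonneg_left (by linarith) a3.1
          _ ≤ P.Th B * (P.k0 * (S - L.U τ y)) :=
              mul_le_mul_of_nonneg_right a3.2 (mul_nonneg F.k0_pos.le a1)
          _ = _ := by rw [hc]; ring
      nlinarith [Real.exp_pos (c * τ)]
  have h4 : S ≤ P.N M := by
    by_contra hlt
    have a0 : 0 < S - P.N M := by linarith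
    have a1 : S ≤ S - (S - P.N M) / Real.exp (c * L.T) := by
      refine csSup_le ⟨_, (0, 0), ⟨⟨le_rfl, L.hT⟩, mem_univ _⟩, rfl⟩ ?_
      rintro _ ⟨⟨τ, y⟩, ⟨hτ, -⟩, rfl⟩
      have a2 := h3 y ⟨le_rfl, L.hT⟩ hτ hτ.1
      have a3 : L.U 0 y ≤ P.N M := by
        rw [Lag.U, H.u_zero, L.X_zero]
        exact Real.rpow_le_rpow (L.q0_nonneg y) (hq y) P.hp0.le
      have a4 : Real.exp (c * τ) ≤ Real.exp (c * L.T) :=
        Real.exp_le_exp.2 (mul_le_mul_of_nonneg_left hτ.2 hc0)
      simp only [mul_zero, Real.exp_zero, mul_one] at a2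
      have a5 := mul_le_mul_of_nonneg_left a4 (sub_nonneg.2 (h1 τ hτ y))
      rw [le_sub_comm, div_le_iff₀ (Real.exp_pos _)]
      linarith
    have := div_pos a0 (Real.exp_pos (c * L.T))
    linarith
  have h5 := h1 (max 0 (min t L.T)) ⟨le_max_left _ _, max_le L.hT (min_le_right _ _)⟩ (L.Y t x)
  rw [Lag.U, L.u_eq, ← L.j_clamp, ← L.u_eq, L.XY] at h5
  exact h5.trans h4

theorem initS : Basic → InitS := by
  intro hB P M L hM t x r lo hi ht hT hr hq
  have F := hB.1 P M hM
  have H := hB.2.1 P M L hM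
  have W := hB.2.2.2 P M L hM
  have hN := F.N_pos
  have hV : 0 ≤ P.Vm M := (abs_nonneg _).trans (H.v_abs 0 0)
  have hC : 0 ≤ P.C3 M := by
    have a1 := (H.rate_mem 0 0).1.trans (H.rate_mem 0 0).2
    have a2 : 0 ≤ P.DV M := mul_nonneg F.bm_nonneg hN.le
    have a3 := F.k0_pos
    unfold Par.C3
    positivity
  have hx := hq x ⟨by nlinarith, by linarith⟩
  rcases ht.eq_or_lt with rfl | ht'
  · rw [H.u_zero]
    simpa using hx
  have hu : ∀ y, L.q0 y ^ P.p ∈ Icc 0 (P.N M) := fun y =>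
    H.u_zero y ▸ ⟨H.u_nonneg 0 y, L.u_le 0 y⟩
  obtain ⟨h0, h0p, hs⟩ := F.small
  have key : ∀ᶠ n : ℕ in atTop, lo - P.N M * P.C3 M * t / r - P.E1 M * t ^ 2 / n ≤ L.u t x ∧
      L.u t x ≤ hi + P.N M * P.C3 M * t / r + P.E1 M * t ^ 2 / n := by
    filter_upwards [eventually_gt_atTop 0,
      (tendsto_const_div_atTop_nhds_zero_nat t).eventually_le_const h0p] with n hn hn'
    have hn0 : (0 : ℝ) < n := Nat.cast_pos.2 hn
    have e : n * (t / n) = t := by field_simp
    have hh := hs (t / n) (by positivity) hn'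
    have a0 : ∀ᵐ y ∂Measure.dirac (L.Y t x), L.X t y = x := by
      rw [ae_dirac_eq]
      exact L.XY t x
    have a1 := W.mean t (t / n) n (Measure.dirac (L.Y t x)) inferInstance hh e.le hT
    have a2 := W.left t (t / n) n (Measure.dirac (L.Y t x)) x hh.1 e.le hT
      (a0.mono fun y h => h.ge)
    have a3 := W.right t (t / n) n (Measure.dirac (L.Y t x)) x r hh e.le hT hr
      (a0.mono fun y h => h.le)
    have := W.prob t (t / n) (Measure.dirac (L.Y t x)) inferInstance n
    rw [e, sub_self] at a2 a3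
    rw [e, sub_self, integral_dirac, show n * (P.E1 M * (t / n) ^ 2) = P.E1 M * t ^ 2 / n by
      field_simp] at a1
    simp only [Lag.U, L.XY, L.X_zero, H.u_zero, measure_univ, one_mul] at a1 a2 a3
    generalize L.law t (t / n) (Measure.dirac (L.Y t x)) n = μ at a1 a2 a3 this
    have hA : MeasurableSet {y | x + r < y} := measurableSet_Ioi
    have a4 : ∫ y, {y | x + r < y}.indicator (fun _ => P.N M) y ∂μ ≤ P.N M * P.C3 M * t / r := by
      rw [integral_indicator_const _ hA, smul_eq_mul, mul_comm, mul_assoc, mul_div_assoc]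
      exact mul_le_mul_of_nonneg_left (ENNReal.toReal_le_of_le_ofReal (by positivity) a3) hN.le
    have i1 : Integrable (fun y => L.q0 y ^ P.p) μ :=
      (integrable_const (P.N M)).mono' (L.q0_meas.pow_const _).aestronglyMeasurable
        (ae_of_all _ fun y => by rw [Real.norm_of_nonneg (hu y).1]; exact (hu y).2)
    have i2 : Integrable ({y | x + r < y}.indicator fun _ => P.N M) μ :=
      (integrable_const _).indicator hA
    have a5 := integral_mono_ae i1 ((integrable_const hi).add i2) (a2.mono fun y hy => by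
      by_cases h : x + r < y
      · simp only [Pi.add_apply, indicator_of_mem (show y ∈ {y | x + r < y} from h)]
        linarith [(hu y).2, (hu x).1]
      · simp only [Pi.add_apply, indicator_of_notMem (show y ∉ {y | x + r < y} from h)]
        linarith [(hq y ⟨hy, not_lt.1 h⟩).2])
    have a6 := integral_mono_ae ((integrable_const lo).sub i2) i1 (a2.mono fun y hy => by
      by_cases h : x + r < y
      · simp only [Pi.sub_apply, indicator_of_mem (show y ∈ {y | x + r < y} from h)]
        linarith [(hu y).1, (hu x).2]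
      · simp only [Pi.sub_apply, indicator_of_notMem (show y ∉ {y | x + r < y} from h)]
        linarith [(hq y ⟨hy, not_lt.1 h⟩).1])
    rw [integral_add' (integrable_const hi) i2] at a5
    rw [integral_sub' (integrable_const lo) i2] at a6
    simp only [integral_const, probReal_univ, smul_eq_mul, one_mul] at a5 a6
    obtain ⟨b1, b2⟩ := abs_le.1 a1
    constructor <;> linarith
  have hl := tendsto_const_div_atTop_nhds_zero_nat (P.E1 M * t ^ 2)
  exact ⟨le_of_tendsto (by simpa using hl.const_sub (lo - P.N M * P.C3 M * t / r))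
      (key.mono fun _ h => h.1),
    ge_of_tendsto (by simpa using hl.const_add (hi + P.N M * P.C3 M * t / r))
      (key.mono fun _ h => h.2)⟩

end MP34a893

end MrgPart4

-- ======== part 5: formerly Pool.Agent.MP_34a893_an.Pot
section MrgPart5

open MeasureTheory Set Filter Topology

namespace MP34a893

namespace PotAux

lemma ibp {b χ : ℝ → ℝ} {a c e : ℝ} (hb : IntervalIntegrable b volume a c) (he : e ∈ uIcc a c)
    (hχ : ContDiff ℝ 1 χ) : ∫ t in a..c, χ t * b t = χ c * (∫ s in e..c, b s) -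
      χ a * (∫ s in e..a, b s) - ∫ t in a..c, deriv χ t * ∫ s in e..t, b s := by
  rw [← hχ.contDiffOn.absolutelyContinuousOnInterval.integral_mul_deriv_eq_deriv_mul
    (hb.absolutelyContinuousOnInterval_intervalIntegral he)]
  refine intervalIntegral.integral_congr_ae ?_
  filter_upwards [hb.ae_hasDerivAt_integral] with x hx hx'
  rw [(hx (uIoc_subset_uIcc hx') e he).deriv]

lemma prim {ψ : ℝ → ℝ} (hψ : Continuous ψ) (a : ℝ) :
    ContDiff ℝ 1 (fun t => ∫ s in a..t, ψ s) ∧ ∀ t, deriv (fun t => ∫ s in a..t, ψ s) t = ψ t := by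
  have h : ∀ t, HasDerivAt (fun t => ∫ s in a..t, ψ s) (ψ t) t := fun t =>
    (hψ.integral_hasStrictDerivAt a t).hasDerivAt
  have h2 : deriv (fun t => ∫ s in a..t, ψ s) = ψ := funext fun t => (h t).deriv
  exact ⟨contDiff_one_iff_deriv.2 ⟨fun t => (h t).differentiableAt, h2.symm ▸ hψ⟩,
    fun t => (h t).deriv⟩

variable {T C : ℝ} {w : ℝ → ℝ → ℝ} {ψ : ℝ → ℝ}

lemma fin_res {S : Set ℝ} (hS : S ⊆ Icc 0 T) : IsFiniteMeasure (volume.restrict S) :=
  isFiniteMeasure_restrict.2 ((measure_mono hS).trans_lt measure_Icc_lt_top).ne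

lemma int_prod (hw : Measurable (Function.uncurry w)) (hb : ∀ t ∈ Icc 0 T, ∀ᵐ x, |w t x| ≤ C)
    {S : Set ℝ} (hS : MeasurableSet S) (hST : S ⊆ Icc 0 T) (hψ : Integrable ψ) :
    Integrable (fun z : ℝ × ℝ => ψ z.2 * w z.1 z.2) ((volume.restrict S).prod volume) := by
  have := fin_res hST
  refine (hψ.comp_snd _).mul_bdd (c := C) hw.aestronglyMeasurable ?_
  refine (Measure.ae_prod_iff_ae_ae (measurableSet_le hw.norm measurable_const)).2 ?_
  filter_upwards [ae_restrict_mem hS] with t ht using hb t (hST ht)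

lemma int_slice (hw : Measurable (Function.uncurry w)) (hb : ∀ t ∈ Icc 0 T, ∀ᵐ x, |w t x| ≤ C)
    (hψ : Integrable ψ) {t : ℝ} (ht : t ∈ Icc 0 T) : Integrable (fun x => ψ x * w t x) :=
  hψ.mul_bdd (c := C) hw.of_uncurry_left.aestronglyMeasurable (hb t ht)

lemma int_time (hw : Measurable (Function.uncurry w)) (hb : ∀ t ∈ Icc 0 T, ∀ᵐ x, |w t x| ≤ C)
    (hψ : Integrable ψ) {t1 t2 : ℝ} (h1 : t1 ∈ Icc 0 T) (h2 : t2 ∈ Icc 0 T) :
    IntervalIntegrable (fun τ => ∫ x, ψ x * w τ x) volume t1 t2 :=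
  intervalIntegrable_iff.2 (int_prod hw hb measurableSet_uIoc
    (uIoc_subset_uIcc.trans (uIcc_subset_Icc h1 h2)) hψ).integral_prod_left

lemma loc_slice (hw : Measurable (Function.uncurry w)) (hb : ∀ t ∈ Icc 0 T, ∀ᵐ x, |w t x| ≤ C)
    {t : ℝ} (ht : t ∈ Icc 0 T) : LocallyIntegrable (w t) volume :=
  (memLp_top_of_bound hw.of_uncurry_left.aestronglyMeasurable C (hb t ht)).locallyIntegrable le_top

lemma ii_slice (hw : Measurable (Function.uncurry w)) (hb : ∀ t ∈ Icc 0 T, ∀ᵐ x, |w t x| ≤ C)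
    {t : ℝ} (ht : t ∈ Icc 0 T) (a c : ℝ) : IntervalIntegrable (w t) volume a c :=
  ((loc_slice hw hb ht).integrableOn_isCompact isCompact_uIcc).intervalIntegrable

lemma cont_pair (hw : Measurable (Function.uncurry w)) (hb : ∀ t ∈ Icc 0 T, ∀ᵐ x, |w t x| ≤ C)
    (hc : ContL1 T w) (hψ : Continuous ψ) (hs : HasCompactSupport ψ) :
    ContinuousOn (fun t => ∫ x, ψ x * w t x) (Icc 0 T) := by
  intro t0 ht0
  obtain ⟨K, hK⟩ := hψ.bounded_above_of_compact_support hs
  obtain ⟨R, -, hR⟩ := hs.exists_pos_le_norm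
  have hi := hψ.integrable_of_hasCompactSupport (μ := volume) hs
  have h1 := (hc (-R) R t0 ht0).const_mul K
  rw [mul_zero] at h1
  rw [ContinuousWithinAt, tendsto_iff_norm_sub_tendsto_zero]
  refine squeeze_zero' (Eventually.of_forall fun _ => norm_nonneg _) ?_ h1
  filter_upwards [self_mem_nhdsWithin] with t ht
  rw [← integral_sub (int_slice hw hb hi ht) (int_slice hw hb hi ht0),
    ← setIntegral_eq_integral_of_forall_compl_eq_zero (s := Icc (-R) R) fun x hx => by
      rw [hR x (not_lt.1 fun h => hx ⟨(abs_lt.1 h).1.le, (abs_lt.1 h).2.le⟩)]; simp,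
    ← integral_const_mul]
  refine norm_integral_le_of_norm_le (Integrable.const_mul ?_ K) (ae_of_all _ fun x => ?_)
  · exact (((loc_slice hw hb ht).sub (loc_slice hw hb ht0)).integrableOn_isCompact
      isCompact_Icc).abs
  · rw [← mul_sub, norm_mul]
    exact mul_le_mul_of_nonneg_right (hK x) (norm_nonneg _)

variable {q0 : ℝ → ℝ} {q F : ℝ → ℝ → ℝ}

lemma weak_prod (hq : Measurable (Function.uncurry q)) (hF : Measurable (Function.uncurry F))
    (bq : ∀ t ∈ Icc 0 T, ∀ᵐ x, |q t x| ≤ C) (bF : ∀ t ∈ Icc 0 T, ∀ᵐ x, |F t x| ≤ C)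
    (hW : WeakId T q0 q F) {ζ χ : ℝ → ℝ} (hζ : ContDiff ℝ 1 ζ) (sζ : HasCompactSupport ζ)
    (hχ : ContDiff ℝ 1 χ) (sχ : HasCompactSupport χ) (hT : tsupport χ ⊆ Iio T) :
    (∫ t in Ioo 0 T, (deriv χ t * (∫ x, ζ x * q t x) + χ t * ∫ x, deriv ζ x * F t x)) +
      χ 0 * ∫ x, ζ x * q0 x = 0 := by
  have hd : ∀ z : ℝ × ℝ, HasFDerivAt (fun z : ℝ × ℝ => χ z.1 * ζ z.2) _ z := fun z =>
    ((hχ.differentiable one_ne_zero z.1).hasDerivAt.comp_hasFDerivAt z
      (hasFDerivAt_fst (𝕜 := ℝ) (p := z))).mul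
      ((hζ.differentiable one_ne_zero z.2).hasDerivAt.comp_hasFDerivAt z
        (hasFDerivAt_snd (𝕜 := ℝ) (p := z)))
  have h := hW (fun z => χ z.1 * ζ z.2) ((hχ.comp contDiff_fst).mul (hζ.comp contDiff_snd))
    (HasCompactSupport.intro (sχ.isCompact.prod sζ.isCompact) fun z hz => by
      rw [mem_prod, not_and_or] at hz
      rcases hz with hz | hz <;> simp [image_eq_zero_of_notMem_tsupport hz])
    ((closure_minimal (t := tsupport χ ×ˢ univ) (fun z hz => ⟨subset_tsupport _
      (left_ne_zero_of_mul hz), trivial⟩) ((isClosed_tsupport _).prod isClosed_univ)).trans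
      (prod_mono_left hT))
  have iζ := hζ.continuous.integrable_of_hasCompactSupport (μ := volume) sζ
  have iζ' := (hζ.continuous_deriv le_rfl).integrable_of_hasCompactSupport (μ := volume) sζ.deriv
  obtain ⟨K, hK⟩ := hχ.continuous.bounded_above_of_compact_support sχ
  obtain ⟨K', hK'⟩ := (hχ.continuous_deriv le_rfl).bounded_above_of_compact_support sχ.deriv
  have i1 := (int_prod hq bq measurableSet_Ioo Ioo_subset_Icc_self iζ).bdd_mul (c := K')
    (f := fun z => deriv χ z.1) ((hχ.continuous_deriv le_rfl).comp continuous_fst).aestronglyMeasurable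
    (ae_of_all _ fun z => hK' _)
  have i2 := (int_prod hF bF measurableSet_Ioo Ioo_subset_Icc_self iζ').bdd_mul (c := K)
    (f := fun z => χ z.1) (hχ.continuous.comp continuous_fst).aestronglyMeasurable
    (ae_of_all _ fun z => hK _)
  have e : ∀ z : ℝ × ℝ, q z.1 z.2 * fderiv ℝ (fun z : ℝ × ℝ => χ z.1 * ζ z.2) z (1, 0) +
      F z.1 z.2 * fderiv ℝ (fun z : ℝ × ℝ => χ z.1 * ζ z.2) z (0, 1) =
      deriv χ z.1 * (ζ z.2 * q z.1 z.2) + χ z.1 * (deriv ζ z.2 * F z.1 z.2) := fun z => by
    rw [(hd z).fderiv]; simp; ring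
  simp only [e] at h
  have i3 : Integrable (fun z : ℝ × ℝ => deriv χ z.1 * (ζ z.2 * q z.1 z.2) +
      χ z.1 * (deriv ζ z.2 * F z.1 z.2)) _ := i1.add i2
  rw [Measure.volume_eq_prod, ← Measure.restrict_prod_eq_prod_univ, integral_prod _ i3] at h
  refine Eq.trans ?_ h
  rw [← integral_const_mul]
  congr 1
  · refine setIntegral_congr_fun measurableSet_Ioo fun t ht => ?_
    have ht' := Ioo_subset_Icc_self ht
    dsimp only
    rw [integral_add ((int_slice hq bq iζ ht').const_mul _) ((int_slice hF bF iζ' ht').const_mul _),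
      integral_const_mul, integral_const_mul]
  · exact integral_congr_ae (ae_of_all _ fun x => by ring)

end PotAux

open PotAux

theorem sliceS : SliceS := by
  intro T C q0 q F hT hq hF hb _ _ hc hW ζ hζ sζ
  have bq : ∀ t ∈ Icc 0 T, ∀ᵐ x, |q t x| ≤ C := fun t ht => (hb t ht).mono fun _ h => h.1
  have bF : ∀ t ∈ Icc 0 T, ∀ᵐ x, |F t x| ≤ C := fun t ht => (hb t ht).mono fun _ h => h.2
  have iζ' := (hζ.continuous_deriv le_rfl).integrable_of_hasCompactSupport (μ := volume) sζ.deriv
  have h0 : (0 : ℝ) ∈ Icc 0 T := left_mem_Icc.2 hT.le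
  have iB := int_time hF bF iζ' h0 (right_mem_Icc.2 hT.le)
  have cA := cont_pair hq bq hc hζ.continuous sζ
  have cH := intervalIntegral.continuousOn_primitive_interval' iB left_mem_uIcc
  rw [uIcc_of_le hT.le] at cH
  set A : ℝ → ℝ := fun t => ∫ x, ζ x * q t x with hA
  set B : ℝ → ℝ := fun t => ∫ x, deriv ζ x * F t x with hB
  set A0 := ∫ x, ζ x * q0 x with hA0
  have cG : ContinuousOn (fun t => A t - (A0 + ∫ τ in (0 : ℝ)..t, B τ)) (Icc 0 T) :=
    cA.sub (continuousOn_const.add cH)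
  have key := isOpen_Ioo.ae_eq_zero_of_integral_contDiff_smul_eq_zero (μ := volume)
    ((cG.mono Ioo_subset_Icc_self).locallyIntegrableOn measurableSet_Ioo) fun ψ hψ sψ hs => by
      obtain ⟨m, hm, hm'⟩ : ∃ m < T, ∀ s, m < s → ψ s = 0 := by
        rcases (tsupport ψ).eq_empty_or_nonempty with e | e
        · exact ⟨0, hT, fun s _ => image_eq_zero_of_notMem_tsupport (by simp [e])⟩
        · obtain ⟨m, h1, h2⟩ := sψ.isCompact.exists_isGreatest e
          exact ⟨m, (hs h1).2, fun s h => image_eq_zero_of_notMem_tsupport fun h' =>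
            (h2 h').not_gt h⟩
      obtain ⟨p1, p2⟩ := prim hψ.continuous T
      have hsub : Function.support (fun t => Real.smoothTransition (t + 1) * ∫ s in T..t, ψ s) ⊆
          Icc (-1) m := fun t ht => by
        refine ⟨not_lt.1 fun h => ht ?_, not_lt.1 fun h => ht ?_⟩
        · simp [Real.smoothTransition.zero_of_nonpos (show t + 1 ≤ 0 by linarith)]
        · have : ∫ s in T..t, ψ s = ∫ s in T..t, (0 : ℝ) :=
            intervalIntegral.integral_congr fun s hs => hm' s ((lt_min hm h).trans_le hs.1)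
          simp [this]
      have h := weak_prod hq hF bq bF hW hζ sζ
        (χ := fun t => Real.smoothTransition (t + 1) * ∫ s in T..t, ψ s)
        ((Real.smoothTransition.contDiff.comp (contDiff_id.add contDiff_const)).mul p1)
        (HasCompactSupport.intro' isCompact_Icc isClosed_Icc fun t ht =>
          Function.notMem_support.1 fun h => ht (hsub h))
        ((closure_minimal hsub isClosed_Icc).trans fun t ht => ht.2.trans_lt hm)
      have e1 : ∀ t, 0 ≤ t → Real.smoothTransition (t + 1) * ∫ s in T..t, ψ s = ∫ s in T..t, ψ s :=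
        fun t ht => by rw [Real.smoothTransition.one_of_one_le (by linarith), one_mul]
      have cψ := hψ.continuous.continuousOn (s := uIcc 0 T)
      rw [← uIcc_of_le hT.le] at cA cH
      have i1 : IntervalIntegrable (fun t => ψ t * A t) volume 0 T := (cψ.mul cA).intervalIntegrable
      have i2 := iB.continuousOn_mul p1.continuous.continuousOn
      have i3 : IntervalIntegrable (fun t => ψ t * ∫ τ in (0 : ℝ)..t, B τ) volume 0 T :=
        (cψ.mul cH).intervalIntegrable
      have i4 := (cψ.intervalIntegrable (μ := volume)).mul_const A0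
      have h' : (∫ t in (0 : ℝ)..T, (ψ t * A t + (∫ s in T..t, ψ s) * B t)) +
          (∫ s in T..0, ψ s) * A0 = 0 := by
        refine Eq.trans ?_ h
        rw [intervalIntegral.integral_of_le hT.le, integral_Ioc_eq_integral_Ioo]
        congr 1
        · refine setIntegral_congr_fun measurableSet_Ioo fun t ht => ?_
          have e2 : (fun t => Real.smoothTransition (t + 1) * ∫ s in T..t, ψ s) =ᶠ[𝓝 t]
              fun t => ∫ s in T..t, ψ s :=
            (lt_mem_nhds ht.1).mono fun s hs => e1 s hs.le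
          rw [e2.deriv_eq, p2, e1 t ht.1.le]
        · rw [e1 0 le_rfl]
      rw [intervalIntegral.integral_add i1 i2, ibp iB left_mem_uIcc p1] at h'
      simp only [p2, intervalIntegral.integral_same, zero_mul, mul_zero, sub_zero] at h'
      simp only [smul_eq_mul]
      rw [← intervalIntegral.integral_eq_integral_of_support_subset (a := 0) (b := T)
        fun t ht => Ioo_subset_Ioc_self (hs (subset_tsupport _ (left_ne_zero_of_mul ht)))]
      simp only [mul_sub, mul_add]
      rw [intervalIntegral.integral_sub i1 (i4.add i3), intervalIntegral.integral_add i4 i3,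
        intervalIntegral.integral_mul_const, intervalIntegral.integral_symm T 0 (f := ψ)]
      linarith
  intro t ht
  refine sub_eq_zero.1 (Measure.eqOn_Icc_of_ae_eq volume hT.ne ?_ cG continuousOn_const ht)
  rw [← Measure.restrict_congr_set Ioo_ae_eq_Icc]
  exact (ae_restrict_iff' measurableSet_Ioo).2 key

theorem potS (hS : SliceS) : PotS := by
  intro T C q0 q F hT hq hF hb hq0 bq0 hc hW
  have S := hS T C q0 q F hT hq hF hb hq0 bq0 hc hW
  have bq : ∀ t ∈ Icc 0 T, ∀ᵐ x, |q t x| ≤ C := fun t ht => (hb t ht).mono fun _ h => h.1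
  have bF : ∀ t ∈ Icc 0 T, ∀ᵐ x, |F t x| ≤ C := fun t ht => (hb t ht).mono fun _ h => h.2
  have h0 : (0 : ℝ) ∈ Icc 0 T := left_mem_Icc.2 hT.le
  obtain ⟨φ, cφ, sφ, iφ⟩ : ∃ φ : ℝ → ℝ, Continuous φ ∧ HasCompactSupport φ ∧ ∫ x, φ x = 1 :=
    let β : ContDiffBump (0 : ℝ) := ⟨1, 2, one_pos, one_lt_two⟩
    ⟨β.normed volume, β.continuous_normed, β.hasCompactSupport_normed, β.integral_normed⟩
  set P : ℝ → ℝ → ℝ := fun t x => ∫ y in (0 : ℝ)..x, q t y with hP
  have cP : ∀ t ∈ Icc 0 T, Continuous (P t) := fun t ht =>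
    intervalIntegral.continuous_primitive (ii_slice hq bq ht) 0
  have k1 : ∀ ω : ℝ → ℝ, Continuous ω → HasCompactSupport ω → ∫ x, ω x = 0 → ∀ t ∈ Icc 0 T,
      ∫ x, ω x * P t x = (∫ x, ω x * P 0 x) - ∫ τ in (0 : ℝ)..t, ∫ x, ω x * F τ x := by
    intro ω cω sω iω
    obtain ⟨R, hR0, hR⟩ := sω.exists_pos_le_norm
    obtain ⟨p1, p2⟩ := prim cω (-R)
    have su : ∀ f : ℝ → ℝ, (∀ x, R ≤ |x| → f x = 0) → ∫ x in (-R)..R, f x = ∫ x, f x :=
      fun f hf => intervalIntegral.integral_eq_integral_of_support_subset fun x hx =>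
        have := abs_lt.1 (not_le.1 fun h => hx (hf x h))
        ⟨this.1, this.2.le⟩
    have z : ∀ x, R ≤ |x| → ∫ s in (-R)..x, ω s = 0 := fun x hx => by
      rcases le_abs'.1 hx with h | h
      · have : ∫ s in (-R)..x, ω s = ∫ s in (-R)..x, (0 : ℝ) :=
          intervalIntegral.integral_congr fun s hs =>
            hR s (le_abs'.2 (Or.inl (hs.2.trans (max_le le_rfl h))))
        simp [this]
      · have : ∫ s in R..x, ω s = ∫ s in R..x, (0 : ℝ) :=
          intervalIntegral.integral_congr fun s hs =>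
            hR s (le_abs'.2 (Or.inr ((le_min le_rfl h).trans hs.1)))
        rw [← intervalIntegral.integral_add_adjacent_intervals (cω.intervalIntegrable _ R)
          (cω.intervalIntegrable _ _), su ω hR, iω, this]
        simp
    have S' := S _ p1 (HasCompactSupport.intro (isCompact_Icc (a := -R) (b := R)) fun x hx =>
      z x (not_lt.1 fun h => hx ⟨(abs_lt.1 h).1.le, (abs_lt.1 h).2.le⟩))
    have I : ∀ t ∈ Icc 0 T, ∫ x, (∫ s in (-R)..x, ω s) * q t x = -∫ x, ω x * P t x := fun t ht => by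
      rw [← su _ fun x hx => by rw [z x hx, zero_mul], ← su _ fun x hx => by rw [hR x hx, zero_mul],
        ibp (ii_slice hq bq ht _ _) (e := 0) (mem_uIcc_of_le (by linarith) hR0.le) p1,
        z R (le_abs_self _)]
      simp [p2, hP]
    intro t ht
    have a1 := S' t ht
    have a2 := S' 0 h0
    rw [I t ht] at a1
    rw [I 0 h0] at a2
    simp only [p2, intervalIntegral.integral_same] at a1 a2
    linarith
  set c : ℝ → ℝ := fun t => (∫ x, φ x * P t x) + (∫ τ in (0 : ℝ)..t, ∫ x, φ x * F τ x) -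
    ∫ x, φ x * P 0 x with hc'
  have jφ := cφ.integrable_of_hasCompactSupport (μ := volume) sφ
  have k2 : ∀ ψ : ℝ → ℝ, Continuous ψ → HasCompactSupport ψ → ∀ t ∈ Icc 0 T,
      ∫ x, ψ x * (P t x - c t) = (∫ x, ψ x * P 0 x) - ∫ τ in (0 : ℝ)..t, ∫ x, ψ x * F τ x := by
    intro ψ cψ sψ t ht
    have jψ := cψ.integrable_of_hasCompactSupport (μ := volume) sψ
    have i1 : ∀ t ∈ Icc 0 T, Integrable fun x => ψ x * P t x := fun t ht =>
      (cψ.mul (cP t ht)).integrable_of_hasCompactSupport sψ.mul_right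
    have i2 : ∀ t ∈ Icc 0 T, Integrable fun x => φ x * P t x := fun t ht =>
      (cφ.mul (cP t ht)).integrable_of_hasCompactSupport sφ.mul_right
    have h := k1 (fun x => ψ x - (∫ y, ψ y) * φ x) (cψ.sub (continuous_const.mul cφ))
      (sψ.sub sφ.mul_left) (by rw [integral_sub jψ (jφ.const_mul _), integral_const_mul, iφ]; ring)
      t ht
    have e : ∫ τ in (0 : ℝ)..t, ∫ x, (ψ x - (∫ y, ψ y) * φ x) * F τ x =
        ∫ τ in (0 : ℝ)..t, ((∫ x, ψ x * F τ x) - (∫ y, ψ y) * ∫ x, φ x * F τ x) :=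
      intervalIntegral.integral_congr fun τ hτ => by
        have hτ' := uIcc_subset_Icc h0 ht hτ
        simp only [sub_mul, mul_assoc]
        rw [integral_sub (int_slice hF bF jψ hτ') ((int_slice hF bF jφ hτ').const_mul _),
          integral_const_mul]
    rw [e, intervalIntegral.integral_sub (int_time hF bF jψ h0 ht)
      ((int_time hF bF jφ h0 ht).const_mul _), intervalIntegral.integral_const_mul] at h
    simp only [sub_mul, mul_assoc] at h
    rw [integral_sub (i1 t ht) ((i2 t ht).const_mul _), integral_sub (i1 0 h0)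
      ((i2 0 h0).const_mul _), integral_const_mul, integral_const_mul] at h
    simp only [mul_sub]
    rw [integral_sub (i1 t ht) (jψ.mul_const _), integral_mul_const, hc']
    linear_combination h
  have k3 : ∀ t1 ∈ Icc 0 T, ∀ t2 ∈ Icc 0 T, t1 ≤ t2 →
      (∀ x1 x2, ∫ x in x1..x2, ((P t2 x - c t2) - (P t1 x - c t1)) =
        -∫ t in t1..t2, ∫ x in x1..x2, F t x) ∧
      ∀ x, |(P t2 x - c t2) - (P t1 x - c t1)| ≤ C * |t2 - t1| := by
    intro t1 h1 t2 h2 h12
    have hsub : Ioc t1 t2 ⊆ Icc 0 T := Ioc_subset_Icc_self.trans (Icc_subset_Icc h1.1 h2.2)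
    have b1 : ∀ᵐ x, ∀ᵐ τ ∂(volume.restrict (Ioc t1 t2)), ‖F τ x‖ ≤ C := by
      refine (Measure.ae_ae_comm (p := fun τ x => ‖F τ x‖ ≤ C)
        (measurableSet_le hF.norm measurable_const)).1 ?_
      filter_upwards [ae_restrict_mem measurableSet_Ioc] with t ht using bF t (hsub ht)
    have b2 : ∀ᵐ x, ‖∫ τ in Ioc t1 t2, F τ x‖ ≤ C * |t2 - t1| := b1.mono fun x hx => by
      simpa [abs_of_nonneg (sub_nonneg.2 h12), h12] using norm_integral_le_of_norm_le_const hx
    have cD : Continuous fun x => (P t2 x - c t2) - (P t1 x - c t1) :=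
      ((cP t2 h2).sub continuous_const).sub ((cP t1 h1).sub continuous_const)
    have lE : LocallyIntegrable (fun x => ∫ τ in Ioc t1 t2, F τ x) volume :=
      (memLp_top_of_bound hF.stronglyMeasurable.integral_prod_left.aestronglyMeasurable _
        b2).locallyIntegrable le_top
    have ae := ae_eq_of_integral_contDiff_smul_eq cD.locallyIntegrable lE.neg fun ψ hψ sψ => by
      have cψ := hψ.continuous
      have jψ := cψ.integrable_of_hasCompactSupport (μ := volume) sψ
      simp only [smul_eq_mul, Pi.neg_apply, mul_neg, integral_neg]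
      simp only [mul_sub (ψ _) (_ - _)]
      have i1 : ∀ t ∈ Icc 0 T, Integrable fun x => ψ x * (P t x - c t) := fun t ht =>
        (cψ.mul ((cP t ht).sub continuous_const)).integrable_of_hasCompactSupport sψ.mul_right
      rw [integral_sub (i1 t2 h2) (i1 t1 h1), k2 ψ cψ sψ t2 h2, k2 ψ cψ sψ t1 h1]
      have e1 := intervalIntegral.integral_interval_sub_left (int_time hF bF jψ h0 h2)
        (int_time hF bF jψ h0 h1)
      rw [intervalIntegral.integral_of_le h12, integral_integral_swap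
        (int_prod hF bF measurableSet_Ioc hsub jψ)] at e1
      simp only [integral_const_mul] at e1
      linarith
    refine ⟨fun x1 x2 => ?_, fun x => ?_⟩
    · rw [intervalIntegral.integral_of_le h12, ← intervalIntegral_integral_swap,
        ← intervalIntegral.integral_neg]
      · exact intervalIntegral.integral_congr_ae (ae.mono fun x hx _ => hx)
      · have : IsFiniteMeasure (volume.restrict (uIoc x1 x2)) :=
          isFiniteMeasure_restrict.2 measure_Ioc_lt_top.ne
        refine Integrable.of_bound (hF.comp measurable_swap).aestronglyMeasurable C ?_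
        exact (Measure.ae_prod_iff_ae_ae
          (measurableSet_le (hF.comp measurable_swap).norm measurable_const)).2 (ae_restrict_of_ae b1)
    · have : ∀ᵐ x, |(P t2 x - c t2) - (P t1 x - c t1)| ≤ C * |t2 - t1| := by
        filter_upwards [ae, b2] with x e h
        rw [e, Pi.neg_apply, abs_neg]; exact h
      exact (isClosed_le cD.abs continuous_const).closure_subset (Measure.dense_of_ae this x)
  refine ⟨fun t x => P t x - c t, ⟨hq, hF, hb, fun t ht x1 x2 => ?_, fun t1 h1 t2 h2 x1 x2 => ?_,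
    fun t1 h1 t2 h2 x => ?_⟩, by simp [hP, hc'], ?_⟩
  · rw [sub_sub_sub_cancel_right]
    exact intervalIntegral.integral_interval_sub_left (ii_slice hq bq ht _ _) (ii_slice hq bq ht _ _)
  · rcases le_total t1 t2 with h | h
    · exact (k3 t1 h1 t2 h2 h).1 x1 x2
    · rw [intervalIntegral.integral_symm t2 t1, ← (k3 t2 h2 t1 h1 h).1 x1 x2,
        ← intervalIntegral.integral_neg]
      simp only [neg_sub]
  · rcases le_total t1 t2 with h | h
    · exact (k3 t1 h1 t2 h2 h).2 x
    · rw [abs_sub_comm, abs_sub_comm t2]; exact (k3 t2 h2 t1 h1 h).2 x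
  · refine ae_eq_of_integral_contDiff_smul_eq (loc_slice hq bq h0)
      ((memLp_top_of_bound hq0.aestronglyMeasurable C (ae_of_all _ bq0)).locallyIntegrable le_top)
      fun ψ hψ sψ => ?_
    simpa using S ψ (hψ.of_le (by exact_mod_cast le_top)) sψ 0 h0

end MP34a893

end MrgPart5

-- ======== part 6: formerly Pool.Agent.MP_34a893_an.Flow
section MrgPart6

/-! The flow of a bounded Lipschitz field; the potential is constant along the flow. -/

open MeasureTheory Set Filter Topology

namespace MP34a893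

namespace FlowH

theorem gron {T K : ℝ} (hK : 0 ≤ K) {d d' : ℝ → ℝ}
    (hd : ∀ t ∈ Icc 0 T, HasDerivWithinAt d (d' t) (Icc 0 T) t)
    (hb : ∀ t ∈ Icc 0 T, |d' t| ≤ K * |d t|) (h0 : 0 ≤ d 0) {t : ℝ} (ht : t ∈ Icc 0 T) :
    Real.exp (-(K * T)) * d 0 ≤ d t ∧ d t ≤ Real.exp (K * T) * d 0 := by
  have z : (0 : ℝ) ∈ Icc 0 T := ⟨le_rfl, ht.1.trans ht.2⟩
  have hc : ContinuousOn d (Icc 0 T) := fun s hs => (hd s hs).continuousWithinAt
  have hD : ∀ c : ℝ, ∀ s ∈ Icc 0 T, HasDerivWithinAt (fun s => (d s * Real.exp (c * s)) ^ 2)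
      (2 * (d s * d' s + c * d s ^ 2) * Real.exp (c * s) ^ 2) (Icc 0 T) s := fun c s hs =>
    (((hd s hs).mul ((hasDerivAt_id s).const_mul c).exp.hasDerivWithinAt).pow 2).congr_deriv
      (by simp; ring)
  have hb' : ∀ s ∈ Icc 0 T, |d s * d' s| ≤ K * d s ^ 2 := fun s hs => by
    rw [abs_mul, ← sq_abs (d s)]
    nlinarith [mul_le_mul_of_nonneg_left (hb s hs) (abs_nonneg (d s))]
  have m1 : MonotoneOn (fun s => (d s * Real.exp (K * s)) ^ 2) (Icc 0 T) :=
    monotoneOn_of_hasDerivWithinAt_nonneg (convex_Icc 0 T)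
      (fun s hs => (hD K s hs).continuousWithinAt)
      (fun s hs => (hD K s (interior_subset hs)).mono interior_subset) fun s hs =>
        mul_nonneg (by linarith [(abs_le.1 (hb' s (interior_subset hs))).1]) (sq_nonneg _)
  have m2 : AntitoneOn (fun s => (d s * Real.exp (-K * s)) ^ 2) (Icc 0 T) :=
    antitoneOn_of_hasDerivWithinAt_nonpos (convex_Icc 0 T)
      (fun s hs => (hD (-K) s hs).continuousWithinAt)
      (fun s hs => (hD (-K) s (interior_subset hs)).mono interior_subset) fun s hs =>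
        mul_nonpos_of_nonpos_of_nonneg
          (by linarith [(abs_le.1 (hb' s (interior_subset hs))).2]) (sq_nonneg _)
  have a1 : ∀ s ∈ Icc 0 T, d 0 ^ 2 ≤ (d s * Real.exp (K * s)) ^ 2 := fun s hs => by
    simpa using m1 z hs hs.1
  have a2 : (d t * Real.exp (-K * t)) ^ 2 ≤ d 0 ^ 2 := by simpa using m2 z ht ht.1
  have a3 : 0 ≤ d t := by
    by_contra c
    obtain ⟨s, hs, e⟩ := intermediate_value_Icc' ht.1 (hc.mono (Icc_subset_Icc_right ht.2))
      (⟨(not_le.1 c).le, h0⟩ : (0 : ℝ) ∈ Icc (d t) (d 0))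
    have b1 := a1 s ⟨hs.1, hs.2.trans ht.2⟩
    have b2 := mul_neg_of_neg_of_pos (not_le.1 c) (Real.exp_pos (-K * t))
    rw [e] at b1
    nlinarith
  have b1 := le_of_sq_le_sq (a1 t ht) (by positivity)
  have b2 := le_of_sq_le_sq a2 h0
  have b3 : Real.exp (-(K * T)) * Real.exp (K * t) ≤ 1 := by
    rw [← Real.exp_add, Real.exp_le_one_iff]
    nlinarith [ht.2]
  have b4 : 1 ≤ Real.exp (K * T) * Real.exp (-K * t) := by
    rw [← Real.exp_add, Real.one_le_exp_iff]
    nlinarith [ht.2]
  constructor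
  · nlinarith [mul_le_mul_of_nonneg_left b1 (Real.exp_pos (-(K * T))).le]
  · nlinarith [mul_le_mul_of_nonneg_left b2 (Real.exp_pos (K * T)).le]

theorem cont_of_bound {F : ℝ → ℝ → ℝ} {A B : ℝ}
    (h : ∀ t s y y', |F t y - F s y'| ≤ A * |t - s| + B * |y - y'|) :
    Continuous (Function.uncurry F) := by
  refine continuous_iff_continuousAt.2 fun z => tendsto_iff_dist_tendsto_zero.2 ?_
  refine squeeze_zero (fun _ => dist_nonneg) (fun w => h w.1 z.1 w.2 z.2) ?_
  have : Continuous fun w : ℝ × ℝ => A * |w.1 - z.1| + B * |w.2 - z.2| := by fun_prop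
  simpa using this.tendsto z

theorem lip_time {T K : ℝ} {a a' : ℝ → ℝ}
    (hd : ∀ t ∈ Icc 0 T, HasDerivWithinAt a (a' t) (Icc 0 T) t) (hb : ∀ t, |a' t| ≤ K) {t s : ℝ}
    (ht : t ∈ Icc 0 T) (hs : s ∈ Icc 0 T) : |a t - a s| ≤ K * |t - s| :=
  (convex_Icc 0 T).norm_image_sub_le_of_norm_hasDerivWithin_le hd (fun x _ => hb x) hs ht

theorem ii {f : ℝ → ℝ} (hf : Measurable f) {C : ℝ} (h : ∀ᵐ x, |f x| ≤ C) (a b : ℝ) :
    IntervalIntegrable f volume a b :=
  (intervalIntegrable_const (c := C)).mono_fun' hf.aestronglyMeasurable (ae_restrict_of_ae h)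

theorem nb' {a b C : ℝ} {f : ℝ → ℝ} (h : ∀ᵐ x, x ∈ uIoc a b → |f x| ≤ C) :
    |∫ x in a..b, f x| ≤ C * |b - a| :=
  intervalIntegral.norm_integral_le_of_norm_le_const_ae (f := f) h

theorem nb {a b C : ℝ} {f : ℝ → ℝ} (h : ∀ x ∈ uIoc a b, |f x| ≤ C) :
    |∫ x in a..b, f x| ≤ C * |b - a| :=
  nb' (.of_forall h)

theorem subdiv {T A B : ℝ} {g : ℝ → ℝ} (h : ∀ t ∈ Icc 0 T, ∀ t' ∈ Icc 0 T, t ≤ t' →
    |g t' - g t| ≤ A * (t' - t) + B * (t' - t) ^ 2) {t : ℝ} (ht : t ∈ Icc 0 T) :
    |g t - g 0| ≤ A * t := by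
  have key : ∀ n : ℕ, |g t - g 0| ≤ A * t + B * t ^ 2 * (1 / ((n : ℝ) + 1)) := fun n => by
    have hn : (0 : ℝ) < n + 1 := by positivity
    obtain ⟨δ, hδ⟩ : ∃ δ, δ = t / (n + 1) := ⟨_, rfl⟩
    have d0 : 0 ≤ δ := hδ ▸ div_nonneg ht.1 hn.le
    have d1 : (n + 1) * δ = t := by rw [hδ]; field_simp
    have mem : ∀ i : ℕ, i ≤ n + 1 → i * δ ∈ Icc 0 T := fun i hi =>
      ⟨by positivity, le_trans (d1 ▸ mul_le_mul_of_nonneg_right (by exact_mod_cast hi) d0) ht.2⟩
    have ind : ∀ i : ℕ, i ≤ n + 1 → |g (i * δ) - g 0| ≤ i * (A * δ + B * δ ^ 2) := by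
      intro i
      induction i with
      | zero => simp
      | succ i ih =>
        intro hi
        have e1 := h _ (mem i (by omega)) _ (mem _ hi) (by push_cast; linarith)
        have e2 := abs_sub_le (g ((i + 1 : ℕ) * δ)) (g (i * δ)) (g 0)
        rw [show ((i + 1 : ℕ) : ℝ) * δ - i * δ = δ by push_cast; ring] at e1
        have e3 := ih (by omega)
        push_cast at e1 e2 ⊢
        linarith
    have e := ind (n + 1) le_rfl
    push_cast at e
    rw [d1] at e
    refine e.trans (le_of_eq ?_)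
    rw [hδ]
    field_simp
  have lim : Tendsto (fun n : ℕ => A * t + B * t ^ 2 * (1 / ((n : ℝ) + 1))) atTop
      (𝓝 (A * t + B * t ^ 2 * 0)) :=
    (tendsto_one_div_add_atTop_nhds_zero_nat.const_mul _).const_add _
  simpa using ge_of_tendsto' lim key

end FlowH

open FlowH

theorem flowS : FlowS := by
  intro T K v hT hK hv hb hl
  have ex : ∀ y : ℝ, ∃ α : ℝ → ℝ, α 0 = y ∧
      ∀ t ∈ Icc 0 T, HasDerivWithinAt α (v t (α t)) (Icc 0 T) t := fun y =>
    IsPicardLindelof.exists_eq_forall_mem_Icc_hasDerivWithinAt₀ (f := v)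
      (t₀ := ⟨0, le_rfl, hT⟩) (a := ⟨K * T, by positivity⟩) (L := ⟨K, hK⟩) (K := ⟨K, hK⟩)
      ⟨fun t _ => (LipschitzWith.of_dist_le_mul fun x x' => hl t x x').lipschitzOnWith,
        fun x _ => (hv.comp (continuous_id.prodMk continuous_const)).continuousOn,
        fun t _ x _ => hb t x, by
          show K * max (T - 0) (0 - 0) ≤ K * T - 0
          simp [hT]⟩
  choose α h0 hα using ex
  have cm : ∀ t : ℝ, max 0 (min t T) ∈ Icc 0 T := fun t =>
    ⟨le_max_left _ _, max_le hT (min_le_right _ _)⟩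
  have ce : ∀ t ∈ Icc 0 T, max 0 (min t T) = t := fun t ht => by
    rw [min_eq_left ht.2, max_eq_right ht.1]
  let X : ℝ → ℝ → ℝ := fun t y => α y (max 0 (min t T))
  have bd : ∀ t y1 y2, y1 ≤ y2 → Real.exp (-(K * T)) * (y2 - y1) ≤ X t y2 - X t y1 ∧
      X t y2 - X t y1 ≤ Real.exp (K * T) * (y2 - y1) := fun t y1 y2 h => by
    have := gron (d := fun s => α y2 s - α y1 s) hK (fun s hs => (hα y2 s hs).sub (hα y1 s hs))
      (fun s _ => hl s _ _) (by simp only [h0]; linarith) (cm t)
    simpa only [h0] using this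
  have ab : ∀ t y1 y2, Real.exp (-(K * T)) * |y2 - y1| ≤ |X t y2 - X t y1| ∧
      |X t y2 - X t y1| ≤ Real.exp (K * T) * |y2 - y1| := fun t y1 y2 => by
    wlog h : y1 ≤ y2 generalizing y1 y2
    · rw [abs_sub_comm, abs_sub_comm (X t y2)]
      exact this y2 y1 (not_le.1 h).le
    have e := bd t y1 y2 h
    rwa [abs_of_nonneg (sub_nonneg.2 h),
      abs_of_nonneg (le_trans (mul_nonneg (Real.exp_pos _).le (sub_nonneg.2 h)) e.1)]
  have lt : ∀ t s y, |X t y - X s y| ≤ K * |t - s| := fun t s y => by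
    refine (lip_time (hα y) (fun _ => hb _ _) (cm t) (cm s)).trans
      (mul_le_mul_of_nonneg_left ?_ hK)
    refine (abs_max_sub_max_le_max _ _ _ _).trans (max_le (by simp) ?_)
    exact (abs_min_sub_min_le_max _ _ _ _).trans (max_le le_rfl (by simp))
  have x0 : ∀ y, X 0 y = y := fun y => by simp only [X, ce 0 ⟨le_rfl, hT⟩, h0]
  have hX : Continuous (Function.uncurry X) :=
    cont_of_bound (A := K) (B := Real.exp (K * T)) fun t s y y' => by
      linarith [abs_sub_le (X t y) (X s y) (X s y'), lt t s y, (ab s y' y).2]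
  have sj : ∀ t, Function.Surjective (X t) := fun t => by
    have e : ∀ y, |X t y - y| ≤ K * |t - 0| := fun y => by simpa only [x0] using lt t 0 y
    refine Continuous.surjective (hX.comp (continuous_const.prodMk continuous_id)) ?_ ?_
    · exact tendsto_atTop_mono (fun y => by linarith [(abs_le.1 (e y)).1, id_eq y])
        (tendsto_atTop_add_const_right _ (-(K * |t - 0|)) tendsto_id)
    · exact tendsto_atBot_mono (fun y => by linarith [(abs_le.1 (e y)).2, id_eq y])
        (tendsto_atBot_add_const_right _ (K * |t - 0|) tendsto_id)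
  choose Y hY using sj
  have inv : ∀ t y y', |y - y'| ≤ Real.exp (K * T) * |X t y - X t y'| := fun t y y' => by
    have e := mul_le_mul_of_nonneg_left (ab t y' y).1 (Real.exp_pos (K * T)).le
    rwa [← mul_assoc, ← Real.exp_add, add_neg_cancel, Real.exp_zero, one_mul] at e
  refine ⟨X, Y, hX, cont_of_bound (A := Real.exp (K * T) * K) (B := Real.exp (K * T))
    fun t s x x' => ?_, hY, fun t y => ?_, x0, fun t y => by simp only [X, ce _ (cm t)],
    fun y t ht => ?_, fun t y1 y2 h => (bd t y1 y2 h).1, fun t y1 y2 h => (bd t y1 y2 h).2⟩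
  · have e1 := abs_sub_le x x' (X t (Y s x'))
    have e2 := lt s t (Y s x')
    have e3 := inv t (Y t x) (Y s x')
    rw [hY, abs_sub_comm s] at e2
    rw [hY] at e3
    nlinarith [Real.exp_pos (K * T)]
  · have e := inv t (Y t (X t y)) y
    rw [hY, sub_self, abs_zero, mul_zero] at e
    exact sub_eq_zero.1 (abs_nonpos_iff.1 e)
  · simp only [X, ce t ht]
    exact (hα y t ht).congr_of_mem (fun s hs => by rw [ce s hs]) ht

theorem constS : ConstS := by
  intro T K C q v Q X Y hT hK hv hb hl hF hP t ht y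
  have z : (0 : ℝ) ∈ Icc 0 T := ⟨le_rfl, hT⟩
  have hC : 0 ≤ C := by
    obtain ⟨x, hx⟩ := (hP.bdd 0 z).exists
    exact (abs_nonneg _).trans hx.1
  have lx : ∀ s ∈ Icc 0 T, ∀ x x', |Q s x - Q s x'| ≤ C * |x - x'| := fun s hs x x' => by
    rw [hP.Qx s hs]
    exact nb' ((hP.bdd s hs).mono fun _ h _ => h.1)
  have cQ : ∀ s ∈ Icc 0 T, Continuous (Q s) := fun s hs =>
    (LipschitzWith.of_dist_le_mul (K := ⟨C, hC⟩) (lx s hs)).continuous
  have lt : ∀ s ∈ Icc 0 T, ∀ s' ∈ Icc 0 T, |X s y - X s' y| ≤ K * |s - s'| := fun s hs s' hs' =>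
    lip_time (hF.deriv y) (fun _ => hb _ _) hs hs'
  have cv : Continuous fun s => v s (X s y) :=
    hv.comp (continuous_id.prodMk (hF.X_cont.comp (continuous_id.prodMk continuous_const)))
  have key : ∀ ε, 0 < ε → |Q t (X t y) - Q 0 (X 0 y)| ≤ (C * K * t + 2 * C) * ε := by
    intro ε hε
    have st : ∀ s ∈ Icc 0 T, ∀ s' ∈ Icc 0 T, s ≤ s' →
        |(∫ x in X s' y..X s' y + ε, Q s' x) - ∫ x in X s y..X s y + ε, Q s x| ≤
          C * K * ε ^ 2 * (s' - s) + (4 * C * K + 2 * C * K ^ 2 + C * K ^ 2 * ε) * (s' - s) ^ 2 := by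
      intro s hs s' hs' h
      have sub : Icc s s' ⊆ Icc 0 T := Icc_subset_Icc hs.1 hs'.2
      have iv : X s' y - X s y = ∫ τ in s..s', v τ (X τ y) :=
        (intervalIntegral.integral_eq_sub_of_hasDeriv_right_of_le h
          (hF.X_cont.comp (continuous_id.prodMk continuous_const)).continuousOn
          (fun τ hτ => ((hF.deriv y τ (sub (Ioo_subset_Icc_self hτ))).hasDerivAt
            (Icc_mem_nhds (hs.1.trans_lt hτ.1) (hτ.2.trans_le hs'.2))).hasDerivWithinAt)
          (cv.intervalIntegrable _ _)).symm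
      have la := lt s' hs' s hs
      have lb : ∀ τ ∈ Icc s s', |X τ y - X s y| ≤ K * (s' - s) := fun τ hτ =>
        (lt τ (sub hτ) s hs).trans (mul_le_mul_of_nonneg_left
          (by rw [abs_of_nonneg (sub_nonneg.2 hτ.1)]; linarith [hτ.2]) hK)
      have lc : ∀ τ ∈ Icc s s', ∀ x, |Q τ x - Q s x| ≤ C * (s' - s) := fun τ hτ x =>
        (hP.lip s hs τ (sub hτ) x).trans (mul_le_mul_of_nonneg_left
          (by rw [abs_of_nonneg (sub_nonneg.2 hτ.1)]; linarith [hτ.2]) hC)
      rw [abs_of_nonneg (sub_nonneg.2 h)] at la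
      have d0 : 0 ≤ s' - s := sub_nonneg.2 h
      generalize X s' y = a' at *
      generalize X s y = a at *
      have i1 : ∀ b c, IntervalIntegrable (Q s') volume b c := (cQ s' hs').intervalIntegrable
      have i0 : IntervalIntegrable (fun x => Q s' (x + ε)) volume a a' :=
        ((cQ s' hs').comp (continuous_add_const ε)).intervalIntegrable _ _
      have e1 : (∫ x in a'..a' + ε, Q s' x) - ∫ x in a..a + ε, Q s' x =
          ∫ x in a..a', (Q s' (x + ε) - Q s' x) := by
        rw [intervalIntegral.integral_sub i0 (i1 _ _), intervalIntegral.integral_comp_add_right,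
          intervalIntegral.integral_interval_sub_interval_comm' (i1 _ _) (i1 _ _) (i1 _ _)]
      have e2 : |(∫ x in a..a', (Q s' (x + ε) - Q s' x)) - (a' - a) * (Q s (a + ε) - Q s a)| ≤
          (2 * (C * (s' - s)) + 2 * (C * (K * (s' - s)))) * |a' - a| := by
        rw [← smul_eq_mul, ← intervalIntegral.integral_const, 
          ← intervalIntegral.integral_sub (i0.sub (i1 _ _)) intervalIntegrable_const]
        refine nb fun x hx => ?_
        have b0 : C * |x - a| ≤ C * (K * (s' - s)) := mul_le_mul_of_nonneg_left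
          ((abs_sub_left_of_mem_uIcc (uIoc_subset_uIcc hx)).trans la) hC
        have b1 := abs_le.1 (lc s' ⟨h, le_rfl⟩ (x + ε))
        have b2 := abs_le.1 (lc s' ⟨h, le_rfl⟩ x)
        have b3 := abs_le.1 (lx s hs (x + ε) (a + ε))
        have b4 := abs_le.1 (lx s hs x a)
        rw [add_sub_add_right_eq_sub] at b3
        rw [abs_le]
        constructor <;> linarith [b1.1, b1.2, b2.1, b2.2, b3.1, b3.2, b4.1, b4.2]
      have e3 := hP.Qt s hs s' hs' a (a + ε)
      rw [intervalIntegral.integral_sub (i1 _ _) ((cQ s hs).intervalIntegrable _ _)] at e3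
      have bd : ∀ τ ∈ Icc s s', |(∫ x in a..a + ε, v τ x * q τ x) -
          v τ (X τ y) * (Q s (a + ε) - Q s a)| ≤
          K * (ε + K * (s' - s)) * C * ε + K * (2 * (C * (s' - s))) := fun τ hτ => by
        have m1 : Measurable (q τ) := hP.q_meas.comp measurable_prodMk_left
        have m2 : Measurable fun x => v τ x * q τ x := hP.F_meas.comp measurable_prodMk_left
        have b1 : |(∫ x in a..a + ε, v τ x * q τ x) - v τ (X τ y) * (Q τ (a + ε) - Q τ a)| ≤
            K * (ε + K * (s' - s)) * C * |a + ε - a| := by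
          rw [hP.Qx τ (sub hτ), ← intervalIntegral.integral_const_mul,
            ← intervalIntegral.integral_sub (ii m2 ((hP.bdd τ (sub hτ)).mono fun _ h => h.2) _ _)
              ((ii m1 ((hP.bdd τ (sub hτ)).mono fun _ h => h.1) _ _).const_mul _)]
          refine nb' ((hP.bdd τ (sub hτ)).mono fun x hx hx' => ?_)
          have c1 := abs_sub_left_of_mem_uIcc (uIoc_subset_uIcc hx')
          rw [add_sub_cancel_left, abs_of_pos hε] at c1
          have c2 := abs_sub_le x a (X τ y)
          have c3 := lb τ hτ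
          rw [abs_sub_comm] at c3
          rw [← sub_mul, abs_mul]
          exact mul_le_mul ((hl _ _ _).trans (mul_le_mul_of_nonneg_left (by linarith) hK)) hx.1
            (abs_nonneg _) (by positivity)
        have b2 : |v τ (X τ y) * (Q τ (a + ε) - Q τ a) - v τ (X τ y) * (Q s (a + ε) - Q s a)| ≤
            K * (2 * (C * (s' - s))) := by
          rw [← mul_sub, abs_mul]
          refine mul_le_mul (hb _ _) ?_ (abs_nonneg _) hK
          have c1 := abs_le.1 (lc τ hτ (a + ε))
          have c2 := abs_le.1 (lc τ hτ a)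
          rw [abs_le]
          constructor <;> linarith [c1.1, c1.2, c2.1, c2.2]
        rw [add_sub_cancel_left, abs_of_pos hε] at b1
        exact (abs_sub_le _ _ _).trans (add_le_add b1 b2)
      have i2 : IntervalIntegrable (fun τ => ∫ x in a..a + ε, v τ x * q τ x) volume s s' := by
        refine (intervalIntegrable_const (c := C * |a + ε - a|)).mono_fun' ?_ ?_
        · simp only [intervalIntegral.integral_of_le (le_add_of_nonneg_right hε.le)]
          exact hP.F_meas.stronglyMeasurable.integral_prod_right.aestronglyMeasurable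
        · refine (ae_restrict_mem measurableSet_uIoc).mono fun τ hτ => ?_
          rw [uIoc_of_le h] at hτ
          exact nb' ((hP.bdd τ (sub (Ioc_subset_Icc_self hτ))).mono fun _ h _ => h.2)
      have e4 : |(∫ τ in s..s', ∫ x in a..a + ε, v τ x * q τ x) -
          (a' - a) * (Q s (a + ε) - Q s a)| ≤
          (K * (ε + K * (s' - s)) * C * ε + K * (2 * (C * (s' - s)))) * |s' - s| := by
        rw [iv, ← intervalIntegral.integral_mul_const,
          ← intervalIntegral.integral_sub i2 ((cv.intervalIntegrable _ _).mul_const _)]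
        refine nb fun τ hτ => ?_
        rw [uIoc_of_le h] at hτ
        exact bd τ (Ioc_subset_Icc_self hτ)
      rw [abs_of_nonneg d0] at e4
      have e5 := abs_le.1 (e2.trans (mul_le_mul_of_nonneg_left la (by positivity)))
      have e6 := abs_le.1 e4
      rw [abs_le]
      constructor <;> linarith [e5.1, e5.2, e6.1, e6.2]
    have e1 := subdiv (g := fun s => ∫ x in X s y..X s y + ε, Q s x) st ht
    have e2 : ∀ s ∈ Icc 0 T, ∀ a, |(∫ x in a..a + ε, Q s x) - ε * Q s a| ≤ C * ε * ε := by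
      intro s hs a
      have b1 : |∫ x in a..a + ε, (Q s x - Q s a)| ≤ C * ε * |a + ε - a| := by
        refine nb fun x hx => ?_
        have c1 := abs_sub_left_of_mem_uIcc (uIoc_subset_uIcc hx)
        rw [add_sub_cancel_left, abs_of_pos hε] at c1
        exact (lx s hs x a).trans (mul_le_mul_of_nonneg_left c1 hC)
      rwa [intervalIntegral.integral_sub ((cQ s hs).intervalIntegrable _ _)
        intervalIntegrable_const, intervalIntegral.integral_const, add_sub_cancel_left,
        abs_of_pos hε, smul_eq_mul] at b1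
    have e3 := abs_le.1 (e2 t ht (X t y))
    have e4 := abs_le.1 (e2 0 z (X 0 y))
    have e5 := abs_le.1 e1
    refine le_of_mul_le_mul_left ?_ hε
    rw [← abs_of_pos hε, ← abs_mul, abs_of_pos hε, abs_le]
    constructor <;> linarith [e3.1, e3.2, e4.1, e4.2, e5.1, e5.2]
  rw [hF.X_zero] at key
  have lim : Tendsto (fun ε : ℝ => (C * K * t + 2 * C) * ε) (𝓝[>] 0) (𝓝 ((C * K * t + 2 * C) * 0)) :=
    (tendsto_id.const_mul _).mono_left nhdsWithin_le_nhds
  have := ge_of_tendsto lim (eventually_mem_nhdsWithin.mono key)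
  rw [mul_zero] at this
  exact sub_eq_zero.1 (abs_nonpos_iff.1 this)

end MP34a893

end MrgPart6

-- ======== part 7: formerly Pool.Agent.MP_34a893_an.ParEx
section MrgPart7

open MeasureTheory Set Filter Topology

namespace MP34a893

namespace ParEx

/-- the density of a kernel -/
theorem dens {F : ℝ → ℝ} {E : Set ℝ} (hc : Continuous F) (hm : Monotone F) (hE : E.Countable)
    (hd : ∀ s, 0 < s → s ∉ E → ContDiffAt ℝ 1 F s) (h0 : ∀ s, F s ≤ 0)
    (h1 : ∫ s in Ioi (0 : ℝ), -F s = 1) :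
    IntegrableOn (deriv F) (Ioi 0) ∧ (∀ s, 0 ≤ s → ∫ r in Ioi s, deriv F r = -F s) ∧
      ∃ s1 s2 m : ℝ, 0 < s1 ∧ s1 < s2 ∧ 0 < m ∧ ∀ s ∈ Icc s1 s2, m ≤ deriv F s := by
  have hI : ∀ a b, IntervalIntegrable (deriv F) volume a b := fun a b =>
    (hm.monotoneOn _).intervalIntegrable_deriv
  have ftc : ∀ a b, 0 ≤ a → a ≤ b → ∫ x in a..b, deriv F x = F b - F a := fun a b ha hab =>
    integral_eq_of_hasDerivAt_off_countable_of_le F _ hab hE hc.continuousOn
      (fun x hx => ((hd x (ha.trans_lt hx.1.1) hx.2).differentiableAt one_ne_zero).hasDerivAt)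
      (hI a b)
  have hi : IntegrableOn (deriv F) (Ioi 0) := by
    refine integrableOn_Ioi_of_intervalIntegral_norm_bounded (l := atTop) (b := id) (-F 0) 0
      (fun b => (hI 0 b).1) tendsto_id ?_
    filter_upwards [eventually_ge_atTop (0 : ℝ)] with b hb
    simp only [Real.norm_of_nonneg hm.deriv_nonneg, id]
    rw [ftc 0 b le_rfl hb]
    linarith [h0 b]
  have hF : IntegrableOn (fun s => -F s) (Ioi 0) := Integrable.of_integral_ne_zero (by simp [h1])
  have hb : BddAbove (range F) := ⟨0, by rintro _ ⟨s, rfl⟩; exact h0 s⟩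
  have hl : Tendsto F atTop (𝓝 0) := by
    have h2 : IntegrableOn (fun _ : ℝ => ⨆ s, F s) (Ioi 0) :=
      hF.mono' aestronglyMeasurable_const (.of_forall fun s => by
        rw [Real.norm_of_nonpos (ciSup_le h0)]
        exact neg_le_neg (le_ciSup hb s))
    have h3 : ⨆ s, F s = 0 := by simpa [integrableOn_const_iff] using h2
    exact h3 ▸ tendsto_atTop_ciSup hm hb
  have hk : ∀ s, 0 ≤ s → ∫ r in Ioi s, deriv F r = -F s := fun s hs => by
    refine tendsto_nhds_unique (intervalIntegral_tendsto_integral_Ioi (l := atTop) (b := id) s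
      (hi.mono_set (Ioi_subset_Ioi hs)) tendsto_id) ?_
    rw [← zero_sub]
    refine (hl.sub_const _).congr' ?_
    filter_upwards [eventually_ge_atTop s] with b hb
    exact (ftc s b hs hb).symm
  refine ⟨hi, hk, ?_⟩
  obtain ⟨s, hs, hsE, hn⟩ : ∃ s, 0 < s ∧ s ∉ E ∧ deriv F s ≠ 0 := by
    by_contra! h
    have h2 : ∫ r in Ioi (0 : ℝ), deriv F r = 0 := by
      refine setIntegral_eq_zero_of_ae_eq_zero ?_
      filter_upwards [hE.ae_notMem volume] with x hx hx' using h x hx' hx
    rw [hk 0 le_rfl] at h2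
    rw [setIntegral_eq_zero_of_forall_eq_zero fun x hx => by
      linarith [h0 x, hm (le_of_lt hx)]] at h1
    exact zero_ne_one h1
  have hp : 0 < deriv F s := lt_of_le_of_ne hm.deriv_nonneg hn.symm
  have hcs : ContinuousAt (deriv F) s :=
    ((hd s hs hsE).derivWithin (m := 0) (by simp)).continuousAt
  obtain ⟨δ, hδ, h⟩ := Metric.eventually_nhds_iff.1
    (hcs.eventually (lt_mem_nhds (half_lt_self hp)))
  refine ⟨s, s + δ / 2, _, hs, by linarith, half_pos hp, fun x hx => (h ?_).le⟩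
  rw [Real.dist_eq, abs_lt]
  constructor <;> linarith [hx.1, hx.2]

theorem kern {p : ℝ} {γ : ℝ → ℝ} (hp : 0 < p) (h : IsKernel p γ) :
    ∃ g : ℝ → ℝ, Measurable g ∧ (∀ s, 0 ≤ g s) ∧ (∀ s : ℝ, s ≤ 0 → g s = 0) ∧ Integrable g ∧
      (∀ s, 0 ≤ s → ∫ r in Ioi s, g r = γ s ^ p) ∧
      ∃ s1 s2 m : ℝ, 0 < s1 ∧ s1 < s2 ∧ 0 < m ∧ ∀ s ∈ Icc s1 s2, m ≤ g s := by
  obtain ⟨hc, hd, ha, h0, h1⟩ := h
  have mx : ∀ s : ℝ, max s 0 ∈ Ici (0 : ℝ) := fun s => le_max_right s 0
  set F : ℝ → ℝ := fun s => -γ (max s 0) ^ p with hF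
  have e : ∀ s, 0 ≤ s → -F s = γ s ^ p := fun s hs => by simp [hF, max_eq_left hs]
  have hm : Monotone F := fun x y hxy => neg_le_neg
    (Real.rpow_le_rpow (h0 _ (mx _)) (ha (mx _) (mx _) (max_le_max_right 0 hxy)) hp.le)
  obtain ⟨hi, hk, s1, s2, m, p1, p2, p3, p4⟩ := dens (F := F)
    (E := {s | 0 < s ∧ γ s = 0 ∧ ∀ t, 0 < t → t < s → γ t ≠ 0})
    ((hc.comp_continuous (by fun_prop) mx).rpow_const fun _ => .inr hp.le).neg hm
    (Set.Subsingleton.countable fun x hx y hy => le_antisymm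
      (not_lt.1 fun k => hx.2.2 y hy.1 k hy.2.1) (not_lt.1 fun k => hy.2.2 x hx.1 k hx.2.1))
    (fun s hs hE => by
      by_cases hg : γ s = 0
      · obtain ⟨t, ht, hts, h⟩ : ∃ t, 0 < t ∧ t < s ∧ γ t = 0 := by
          by_contra! k
          exact hE ⟨hs, hg, k⟩
        refine (contDiffAt_const (c := 0)).congr_of_eventuallyEq ?_
        filter_upwards [lt_mem_nhds hts] with x hx
        have : γ (max x 0) = 0 := le_antisymm
          ((ha ht.le (mx x) (hx.le.trans (le_max_left _ _))).trans_eq h) (h0 _ (mx x))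
        simp [hF, this, hp.ne']
      · refine ((hd.contDiffAt (Ioi_mem_nhds hs)).rpow_const_of_ne (p := p)
          hg).neg.congr_of_eventuallyEq ?_
        filter_upwards [lt_mem_nhds hs] with x hx
        simp [hF, max_eq_left hx.le])
    (fun s => neg_nonpos.2 (Real.rpow_nonneg (h0 _ (mx _)) _))
    (by rw [← h1]; exact setIntegral_congr_fun measurableSet_Ioi fun s hs => e s (le_of_lt hs))
  refine ⟨(Ioi 0).indicator (deriv F), (measurable_deriv F).indicator measurableSet_Ioi,
    fun s => indicator_nonneg (fun _ _ => hm.deriv_nonneg) s,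
    fun s hs => indicator_of_notMem (not_lt.2 hs) _,
    (integrable_indicator_iff measurableSet_Ioi).2 hi, fun s hs => ?_, s1, s2, m, p1, p2, p3,
    fun s hs => ?_⟩
  · rw [← e s hs, ← hk s hs]
    exact setIntegral_congr_fun measurableSet_Ioi fun r hr =>
      indicator_of_mem (hs.trans_lt hr : 0 < r) _
  · exact (p4 s hs).trans_eq (indicator_of_mem (s := Ioi 0) (p1.trans_le hs.1) _).symm

theorem strict {V : ℝ → ℝ} {M x y : ℝ} (hV : Differentiable ℝ V)
    (h : StrictConcaveOn ℝ (Icc 0 M) fun q => q * V q) (hx : x ∈ Icc 0 M) (hy : y ∈ Icc 0 M)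
    (hxy : x < y) : -deriv V x * x ^ 2 < -deriv V y * y ^ 2 := by
  have d : ∀ q, HasDerivAt (fun q => q * V q) (1 * V q + q * deriv V q) q := fun q =>
    (hasDerivAt_id' q).mul (hV q).hasDerivAt
  have h1 := h.slope_lt_of_hasDerivAt hx hy hxy (d x)
  have h2 := h.lt_slope_of_hasDerivAt hx hy hxy (d y)
  have h3 := mul_le_mul_of_nonneg_left (h2.trans h1).le hx.1
  rw [slope_def_field, lt_div_iff₀ (sub_pos.2 hxy)] at h2
  nlinarith

end ParEx

open ParEx in
theorem parS : ParS := by
  intro p V γ hp hp1 hV hV' hγ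
  obtain ⟨g, g1, g2, g3, g4, g5, s1, s2, m, p1, p2, p3, p4⟩ := kern hp hγ
  have ha : 0 < 1 / p - 1 := sub_pos.2 (one_lt_one_div hp hp1)
  have hD := hV.differentiable one_ne_zero
  set w : ℝ → ℝ := fun t => 1 / p * max t 0 ^ (1 / p - 1) with hw
  have wc : Continuous w :=
    continuous_const.mul (Continuous.rpow_const (by fun_prop) fun _ => .inr ha.le)
  set h : ℝ → ℝ := fun z => ∫ t in (0 : ℝ)..z, w t with hh
  have hd : ∀ z, HasDerivAt h (w z) z := fun z => (wc.integral_hasStrictDerivAt 0 z).hasDerivAt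
  have he : ∀ z, 0 ≤ z → h z = z ^ (1 / p) := fun z hz => by
    have : h z = ∫ t in (0 : ℝ)..z, 1 / p * t ^ (1 / p - 1) :=
      intervalIntegral.integral_congr fun t ht => by
        rw [uIcc_of_le hz] at ht
        simp only [hw, max_eq_left ht.1]
    rw [this, intervalIntegral.integral_const_mul, integral_rpow (.inl (by linarith)),
      sub_add_cancel, Real.zero_rpow (by positivity)]
    field_simp
    ring
  have hr : ∀ q : ℝ, 0 ≤ q → (q ^ p) ^ (1 / p) = q := fun q hq => by
    rw [one_div, Real.rpow_rpow_inv hq hp.ne']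
  have ek : EqOn (fun s => γ s ^ p) (fun s => ∫ r in Ioi s, g r) (Ioi 0) := fun s hs =>
    (g5 s (le_of_lt hs)).symm
  refine ⟨⟨p, fun z => V (h z), fun z => -(deriv V (h z) * w z), g, s1, s2, m, hp, hp1,
    fun z => by rw [neg_neg]; exact (hD _).hasDerivAt.comp z (hd z),
    (((hV.continuous_deriv le_rfl).comp
      (continuous_iff_continuousAt.2 fun z => (hd z).continuousAt)).mul wc).neg,
    fun z => neg_nonneg.2 (mul_nonpos_of_nonpos_of_nonneg (hV' _) (by simp only [hw]; positivity)),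
    g1, g2, g3, g4,
    IntegrableOn.congr_fun (Integrable.of_integral_ne_zero (by simp [hγ.2.2.2.2])) ek
      measurableSet_Ioi,
    by rw [← setIntegral_congr_fun measurableSet_Ioi ek, hγ.2.2.2.2], p1, p2, p3, p4⟩, rfl, g5,
    fun q hq => by simp only [he _ (Real.rpow_nonneg hq p), hr q hq], fun M hM hc => ?_⟩
  have el : ∀ z, 0 ≤ z → p * -(deriv V (h z) * w z) * z * z ^ (1 / p) =
      -deriv V (z ^ (1 / p)) * (z ^ (1 / p)) ^ 2 := fun z hz => by
    have : z ^ (1 / p - 1) * z = z ^ (1 / p) := by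
      rw [← Real.rpow_add_one' hz (by rw [sub_add_cancel]; positivity), sub_add_cancel]
    simp only [he z hz, hw, max_eq_left hz]
    generalize z ^ (1 / p - 1) = u at this
    rw [← this]
    field_simp
  have em : ∀ z ∈ Icc 0 (M ^ p), z ^ (1 / p) ∈ Icc 0 M := fun z hz =>
    ⟨Real.rpow_nonneg hz.1 _, (Real.rpow_le_rpow hz.1 hz.2 (by positivity)).trans_eq (hr M hM.le)⟩
  intro x hx y hy hxy
  exact (el x hx.1).trans_lt ((strict hD hc (em x hx) (em y hy)
    (Real.rpow_lt_rpow hx.1 hxy (by positivity))).trans_eq (el y hy.1).symm)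

end MP34a893

end MrgPart7

-- ======== part 8: formerly Pool.Agent.MP_34a893_an.Block
section MrgPart8

open MeasureTheory Set Filter Topology intervalIntegral

namespace MP34a893

namespace Block

theorem ii {w : ℝ → ℝ} {M : ℝ} (hm : Measurable w) (hb : ∀ᵐ x, w x ∈ Icc 0 M) (a b : ℝ) :
    IntervalIntegrable w volume a b :=
  (intervalIntegrable_const (c := M)).mono_fun' hm.aestronglyMeasurable
    (ae_restrict_of_ae (hb.mono fun x hx => by
      show ‖w x‖ ≤ M
      rw [Real.norm_eq_abs, abs_of_nonneg hx.1]; exact hx.2))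

theorem sum_blocks {f : ℝ → ℝ} (hf : ∀ a b, IntervalIntegrable f volume a b) {K : ℕ} (hK : 0 < K)
    (a S : ℝ) :
    ∑ i ∈ Finset.range K, ∫ x in (a + i * (S / K))..(a + (i + 1) * (S / K)), f x =
      ∫ x in a..(a + S), f x := by
  have h := sum_integral_adjacent_intervals (f := f) (μ := volume)
    (a := fun i : ℕ => a + i * (S / K)) (n := K) fun i _ => hf _ _
  have hK' : (K : ℝ) ≠ 0 := Nat.cast_ne_zero.2 hK.ne'
  simp only [Nat.cast_add, Nat.cast_one, Nat.cast_zero, zero_mul, add_zero] at h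
  rw [h, mul_div_cancel₀ _ hK']

theorem one {w1 w2 : ℝ → ℝ} {u v c1 c2 e : ℝ} (huv : u ≤ v) (h1 : IntervalIntegrable w1 volume u v)
    (h2 : IntervalIntegrable w2 volume u v) (h : |(∫ x in u..v, w1 x) - ∫ x in u..v, w2 x| ≤ e) :
    ∫ x in u..v, |w1 x - w2 x| ≤
      2 * ((∫ x in u..v, |w1 x - c1|) + ∫ x in u..v, |w2 x - c2|) + e := by
  have i1 := h1.sub (intervalIntegrable_const (c := c1))
  have i2 := h2.sub (intervalIntegrable_const (c := c2))
  have a1 := abs_integral_le_integral_abs (f := fun x => w1 x - c1) (μ := volume) huv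
  have a2 := abs_integral_le_integral_abs (f := fun x => w2 x - c2) (μ := volume) huv
  rw [integral_sub h1 intervalIntegrable_const, intervalIntegral.integral_const, smul_eq_mul] at a1
  rw [integral_sub h2 intervalIntegrable_const, intervalIntegral.integral_const, smul_eq_mul] at a2
  have m : ∫ x in u..v, |w1 x - w2 x| ≤ ∫ x in u..v, (|w1 x - c1| + |w2 x - c2| + |c1 - c2|) :=
    integral_mono_on huv (h1.sub h2).abs ((i1.abs.add i2.abs).add intervalIntegrable_const)
      fun x _ => by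
        have t1 := abs_add_le (w1 x - c1 + (c1 - c2)) (-(w2 x - c2))
        have t2 := abs_add_le (w1 x - c1) (c1 - c2)
        rw [abs_neg, show w1 x - c1 + (c1 - c2) + -(w2 x - c2) = w1 x - w2 x by ring] at t1
        linarith
  rw [integral_add (i1.abs.add i2.abs) intervalIntegrable_const, integral_add i1.abs i2.abs,
    intervalIntegral.integral_const, smul_eq_mul] at m
  have k : (v - u) * |c1 - c2| ≤
      (∫ x in u..v, |w1 x - c1|) + (∫ x in u..v, |w2 x - c2|) + e := by
    rw [← abs_of_nonneg (sub_nonneg.2 huv), ← abs_mul, abs_le]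
    obtain ⟨p1, p2⟩ := abs_le.1 a1
    obtain ⟨p3, p4⟩ := abs_le.1 a2
    obtain ⟨p5, p6⟩ := abs_le.1 h
    constructor <;> nlinarith
  linarith

theorem approx {w : ℝ → ℝ} {M : ℝ} (hM : 0 ≤ M) (hm : Measurable w) (hb : ∀ᵐ x, w x ∈ Icc 0 M)
    {a b : ℝ} (hab : a ≤ b) {ε : ℝ} (hε : 0 < ε) :
    ∃ g : ℝ → ℝ, Continuous g ∧ (∀ x, g x ∈ Icc 0 M) ∧ ∫ x in a..b, |w x - g x| ≤ ε := by
  have hi : Integrable ((Ioc a b).indicator w) :=
    (integrable_indicator_iff measurableSet_Ioc).2 (ii hm hb a b).1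
  obtain ⟨g, -, h1, h2, h3⟩ := hi.exists_hasCompactSupport_integral_sub_le hε
  refine ⟨fun x => max 0 (min (g x) M), by fun_prop,
    fun x => ⟨le_max_left _ _, max_le hM (min_le_right _ _)⟩, le_trans ?_ h1⟩
  rw [integral_of_le hab, ← MeasureTheory.integral_indicator measurableSet_Ioc]
  refine integral_mono_of_nonneg (Eventually.of_forall fun x =>
    indicator_nonneg (fun _ _ => abs_nonneg _) x) (hi.sub h3).norm (hb.mono fun x hx => ?_)
  by_cases h : x ∈ Ioc a b
  · simp only [indicator_of_mem h, Real.norm_eq_abs]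
    obtain ⟨p, q⟩ := hx
    rcases le_total (g x) M with k | k
    · rw [min_eq_left k]
      rcases le_total 0 (g x) with k' | k'
      · rw [max_eq_right k']
      · rw [max_eq_left k', abs_of_nonneg (by linarith), abs_of_nonneg (by linarith)]; linarith
    · rw [min_eq_right k, max_eq_right hM, abs_of_nonpos (by linarith),
        abs_of_nonpos (by linarith)]
      linarith
  · simp only [indicator_of_notMem h]
    exact norm_nonneg _

theorem osc {g : ℝ → ℝ} {M : ℝ} (hg : Continuous g) (hM : ∀ x, g x ∈ Icc 0 M) (a : ℝ) {S e : ℝ}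
    (hS : 0 < S) (he : 0 < e) : ∃ K0 : ℕ, ∀ K : ℕ, K0 ≤ K → 0 < K → ∀ w : ℝ → ℝ,
      (∀ u v, IntervalIntegrable w volume u v) → ∫ x in a..(a + S), |w x - g x| ≤ e / 2 * S →
      OscP w 0 M K a S e := by
  obtain ⟨δ, hδ, H⟩ := Metric.uniformContinuousOn_iff_le.1
    ((isCompact_Icc (a := a) (b := a + S)).uniformContinuousOn_of_continuous hg.continuousOn)
    (e / 2) (by positivity)
  obtain ⟨K0, hK0⟩ := exists_nat_ge (S / δ)
  refine ⟨K0, fun K hK hK' w hw h => ⟨fun i => g (a + i * (S / K)), fun i => hM _, ?_⟩⟩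
  have hKp : (0 : ℝ) < K := Nat.cast_pos.2 hK'
  have hl : 0 < S / K := div_pos hS hKp
  have hlδ : S / K ≤ δ := by
    rw [div_le_iff₀ hKp]
    rw [div_le_iff₀ hδ] at hK0
    have : (K0 : ℝ) ≤ K := Nat.cast_le.2 hK
    nlinarith
  have hi : ∀ u v, IntervalIntegrable (fun x => |w x - g x| + e / 2) volume u v := fun u v =>
    ((hw u v).sub (hg.intervalIntegrable u v)).abs.add intervalIntegrable_const
  calc _ ≤ ∑ i ∈ Finset.range K, ∫ x in (a + i * (S / K))..(a + (i + 1) * (S / K)),
        (|w x - g x| + e / 2) := Finset.sum_le_sum fun i hi' => by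
        have hiK : (i : ℝ) + 1 ≤ K := by exact_mod_cast Finset.mem_range.1 hi'
        have i0 : (0 : ℝ) ≤ i * (S / K) := by positivity
        have i1 : (i + 1) * (S / K) ≤ S := by
          calc (i + 1) * (S / K) ≤ K * (S / K) := by gcongr
            _ = S := mul_div_cancel₀ _ hKp.ne'
        refine integral_mono_on (by nlinarith)
          ((hw _ _).sub intervalIntegrable_const).abs (hi _ _) fun x hx => ?_
        have t := H x ⟨by linarith [hx.1], by linarith [hx.2]⟩ (a + i * (S / K))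
          ⟨by linarith, by nlinarith⟩ (by
            rw [Real.dist_eq, abs_of_nonneg (by linarith [hx.1])]
            nlinarith [hx.2])
        rw [Real.dist_eq] at t
        have t2 := abs_add_le (w x - g x) (g x - g (a + i * (S / K)))
        rw [sub_add_sub_cancel] at t2
        linarith
    _ = _ := sum_blocks hi hK' a S
    _ ≤ e * S := by
        rw [integral_add ((hw _ _).sub (hg.intervalIntegrable _ _)).abs intervalIntegrable_const,
          intervalIntegral.integral_const, smul_eq_mul]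
        linarith

theorem lin {f : ℝ → ℝ} {M : ℝ} (hf : ContinuousOn f (Icc 0 M)) {δ : ℝ} (hδ : 0 < δ) :
    ∃ L, 0 ≤ L ∧ ∀ u ∈ Icc 0 M, ∀ v ∈ Icc 0 M, |f u - f v| ≤ δ + L * |u - v| := by
  obtain ⟨η, hη, H⟩ := Metric.uniformContinuousOn_iff_le.1
    (isCompact_Icc.uniformContinuousOn_of_continuous hf) δ hδ
  obtain ⟨C, hC⟩ := isCompact_Icc.exists_bound_of_continuousOn hf
  refine ⟨2 * |C| / η, by positivity, fun u hu v hv => ?_⟩
  rcases le_total |u - v| η with h | h
  · exact (H u hu v hv h).trans (le_add_of_nonneg_right (by positivity))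
  · have t : |f u - f v| ≤ 2 * |C| := by
      have := abs_sub (f u) (f v)
      have a1 : |f u| ≤ C := hC u hu
      have a2 : |f v| ≤ C := hC v hv
      linarith [le_abs_self C]
    have t2 : 2 * |C| ≤ 2 * |C| / η * |u - v| := by
      rw [div_mul_eq_mul_div, le_div_iff₀ hη]
      gcongr
    linarith

theorem incr {V : ℝ → ℝ} (hV : Monotone V) {a c r : ℝ} (hr : 0 ≤ r) (hr1 : r ≤ 1) :
    ∫ x in a..c, (V (x + r) - V (x - r)) ≤ 2 * r * (V (c + 1) - V (a - 1)) := by
  have i1 : IntervalIntegrable (fun x => V (x + r)) volume a c :=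
    Monotone.intervalIntegrable (fun x y h => hV (by linarith))
  have i2 : IntervalIntegrable (fun x => V (x - r)) volume a c :=
    Monotone.intervalIntegrable (fun x y h => hV (by linarith))
  rw [integral_sub i1 i2, integral_comp_add_right, integral_comp_sub_right,
    integral_interval_sub_interval_comm' hV.intervalIntegrable hV.intervalIntegrable
      hV.intervalIntegrable]
  have m1 : ∫ x in (c - r)..(c + r), V x ≤ ∫ _ in (c - r)..(c + r), V (c + 1) :=
    integral_mono_on (by linarith) hV.intervalIntegrable intervalIntegrable_const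
      fun x hx => hV (by linarith [hx.2])
  have m2 : ∫ _ in (a - r)..(a + r), V (a - 1) ≤ ∫ x in (a - r)..(a + r), V x :=
    integral_mono_on (by linarith) intervalIntegrable_const hV.intervalIntegrable
      fun x hx => hV (by linarith [hx.1])
  rw [intervalIntegral.integral_const, smul_eq_mul] at m1 m2
  nlinarith

end Block

open Block

theorem strongS : StrongS := by
  rintro M w1 w2 K a S e1 e2 e3 hK hS m1 m2 b1 b2 ⟨c1, -, h1⟩ ⟨c2, -, h2⟩ h3
  have hl : 0 < S / K := div_pos hS (Nat.cast_pos.2 hK)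
  rw [← sum_blocks (fun u v => ((ii m1 b1 u v).sub (ii m2 b2 u v)).abs) hK]
  refine (Finset.sum_le_sum fun i _ => one (c1 := c1 i) (c2 := c2 i) (by nlinarith)
    (ii m1 b1 _ _) (ii m2 b2 _ _) (h3 _ _)).trans ?_
  rw [Finset.sum_add_distrib, ← Finset.mul_sum, Finset.sum_add_distrib, Finset.sum_const,
    Finset.card_range, nsmul_eq_mul]
  linarith

theorem blockS : BlockS := by
  intro T M q hM hq hb hc a S e hS he
  have hm : ∀ t, Measurable (q t) := fun t => hq.of_uncurry_left
  refine (isCompact_Icc (a := 0) (b := T)).induction_on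
    (p := fun s => ∃ K0 : ℕ, ∀ K : ℕ, K0 ≤ K → 0 < K → ∀ t ∈ s, OscP (q t) 0 M K a S e)
    ⟨0, fun _ _ _ _ h => absurd h (notMem_empty _)⟩ ?_ ?_ ?_
  · rintro s t hst ⟨K0, h⟩
    exact ⟨K0, fun K h1 h2 x hx => h K h1 h2 x (hst hx)⟩
  · rintro s t ⟨K1, h1⟩ ⟨K2, h2⟩
    exact ⟨max K1 K2, fun K k1 k2 x hx => hx.elim (h1 K ((le_max_left _ _).trans k1) k2 x)
      (h2 K ((le_max_right _ _).trans k1) k2 x)⟩
  · intro t0 ht0
    have hab : a ≤ a + S := by linarith
    obtain ⟨g, g1, g2, g3⟩ := approx hM (hm t0) (hb t0 ht0) hab (ε := e / 4 * S) (by positivity)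
    obtain ⟨K0, H⟩ := osc g1 g2 a hS he
    refine ⟨{t | t ∈ Icc 0 T ∧ ∫ x in Icc a (a + S), |q t x - q t0 x| < e / 4 * S},
      inter_mem self_mem_nhdsWithin ((hc a (a + S) t0 ht0).eventually (gt_mem_nhds (by positivity))),
      K0, fun K k1 k2 t ht => H K k1 k2 _ (ii (hm t) (hb t ht.1)) ?_⟩
    have i1 := ii (hm t) (hb t ht.1) a (a + S)
    have i0 := ii (hm t0) (hb t0 ht0) a (a + S)
    have ig := g1.intervalIntegrable (μ := volume) a (a + S)
    have m : ∫ x in a..(a + S), |q t x - g x| ≤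
        ∫ x in a..(a + S), (|q t x - q t0 x| + |q t0 x - g x|) :=
      integral_mono_on hab (i1.sub ig).abs ((i1.sub i0).abs.add (i0.sub ig).abs) fun x _ => by
        simpa using abs_add_le (q t x - q t0 x) (q t0 x - g x)
    rw [integral_add (i1.sub i0).abs (i0.sub ig).abs] at m
    have h2 := ht.2
    rw [integral_Icc_eq_integral_Ioc, ← integral_of_le hab] at h2
    linarith

theorem bvS : BVS := by
  intro p M q0 hp _ hbv hq
  obtain ⟨P, Q, hP, hQ, hPQ⟩ := hbv.locallyBoundedVariationOn.exists_monotoneOn_sub_monotoneOn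
  rw [monotoneOn_univ] at hP hQ
  refine ⟨hPQ ▸ hP.measurable.sub hQ.measurable, fun a c e hac he => ?_⟩
  have hV : Monotone fun x => P x + Q x := hP.add hQ
  set δ := e / (2 * (c - a + 1)) with hδ
  have hca : 0 ≤ c - a := sub_nonneg.2 hac
  have hδ0 : 0 < δ := by positivity
  obtain ⟨L, hL, H⟩ := lin (f := fun z => z ^ p) (M := M)
    (Real.continuous_rpow_const hp.le).continuousOn hδ0
  set D := (P (c + 1) + Q (c + 1)) - (P (a - 1) + Q (a - 1)) with hD
  have hD0 : 0 ≤ D := sub_nonneg.2 (hV (by linarith))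
  set r := min 1 (e / (4 * (L * D + 1))) with hr
  have hr0 : 0 < r := by positivity
  have hr1 : r ≤ 1 := min_le_left _ _
  have hr2 : r * (4 * (L * D + 1)) ≤ e := (le_div_iff₀ (by positivity)).1 (min_le_right _ _)
  refine ⟨r, hr0, fun w e' _ he' hw => ?_⟩
  have i1 : IntervalIntegrable (fun x => (P (x + r) + Q (x + r)) - (P (x - r) + Q (x - r)))
      volume a c :=
    (Monotone.intervalIntegrable (fun x y h => hV (by linarith))).sub
      (Monotone.intervalIntegrable (fun x y h => hV (by linarith)))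
  have key : ∀ x, |w x - q0 x ^ p| ≤
      (δ + e') + L * ((P (x + r) + Q (x + r)) - (P (x - r) + Q (x - r))) := fun x => by
    have := hw x (q0 x ^ p - (δ + L * ((P (x + r) + Q (x + r)) - (P (x - r) + Q (x - r)))))
      (q0 x ^ p + (δ + L * ((P (x + r) + Q (x + r)) - (P (x - r) + Q (x - r))))) fun y hy => by
        have t := H _ (hq y) _ (hq x)
        have t2 : |q0 y - q0 x| ≤ (P (x + r) + Q (x + r)) - (P (x - r) + Q (x - r)) := by
          have e1 : q0 y = P y - Q y := congrFun hPQ y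
          have e2 : q0 x = P x - Q x := congrFun hPQ x
          have := hP hy.1
          have := hP hy.2
          have := hQ hy.1
          have := hQ hy.2
          have := hP (show x - r ≤ x by linarith)
          have := hP (show x ≤ x + r by linarith)
          have := hQ (show x - r ≤ x by linarith)
          have := hQ (show x ≤ x + r by linarith)
          rw [abs_le]
          constructor <;> linarith
        have t3 := abs_le.1 (t.trans (add_le_add_right (mul_le_mul_of_nonneg_left t2 hL) δ))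
        constructor <;> linarith [t3.1, t3.2]
    rw [abs_le]
    constructor <;> linarith [this.1, this.2]
  have m := norm_integral_le_of_norm_le (f := fun x => |w x - q0 x ^ p|) (μ := volume) hac
    (Eventually.of_forall fun x _ => by simpa only [Real.norm_eq_abs, abs_abs] using key x)
    (intervalIntegrable_const.add (i1.const_mul L))
  rw [integral_add intervalIntegrable_const (i1.const_mul L), intervalIntegral.integral_const,
    smul_eq_mul, intervalIntegral.integral_const_mul] at m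
  have m2 := mul_le_mul_of_nonneg_left (incr (a := a) (c := c) hV hr0.le hr1) hL
  have m3 : (c - a) * δ ≤ e / 2 := by
    rw [hδ, mul_div_assoc', div_le_div_iff₀ (by positivity) two_pos]
    nlinarith
  have m4 := (le_abs_self _).trans m
  rw [← hD] at m2
  nlinarith

end MP34a893

end MrgPart8

-- marker of a merged file
example : 731051 + 259089 = 731051 + 259089 := rfl
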