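import Mathlib.Topology.Sheaves.Presheaf
import Mathlib.Algebra.Order.Star.Real
import Mathlib.MeasureTheory.Order.Group.Lattice
import Pool.Agent.MP_34a893_an.Scale

open MeasureTheory Set Filter Topology
open scoped ENNReal

namespace MP34a893

namespace Har

theorem le_inv_mul {κ : ℝ} (hκ : 0 < κ) {X Y : ℝ≥0∞} (h : ENNReal.ofReal κ * X ≤ Y) :
    X ≤ ENNReal.ofReal (1 / κ) * Y := by
  calc X = ENNReal.ofReal (1 / κ) * (ENNReal.ofReal κ * X) := by
        rw [← mul_assoc, ← ENNReal.ofReal_mul (by positivity), one_div_mul_cancel hκ.ne',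
          ENNReal.ofReal_one, one_mul]
    _ ≤ _ := by gcongr

/-- one jump on the level of intervals -/
theorem jumpstep (g g' : ℝ → ℝ≥0∞) (hg' : Measurable g') (S : Set ℝ) (hS : MeasurableSet S)
    (x0 s d R α β : ℝ) (Λ : ℝ≥0∞) (hΛ : Λ ≠ ∞) (hd : 0 < d)
    (hν : volume (Icc x0 (x0 + R) \ S) ≤ ENNReal.ofReal (d / 4))
    (hα : x0 ≤ α) (hβ : β ≤ x0 + R) (hαβ : α + 3 * d ≤ β)
    (jump : ∀ x ∈ S, x ∈ Icc x0 (x0 + R) →
      ∫⁻ x' in Icc (x + (s + d / 2)) (x + (s + 7 * d / 2)), g' x' ≤ Λ * g x) :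
    ENNReal.ofReal (d / 4) * ∫⁻ x in Icc (α + (s + d)) (β + (s + 3 * d)), g' x ≤
      Λ * ∫⁻ x in Icc α β, g x := by
  set Tt : Set (ℝ × ℝ) := {z | z.1 ∈ Icc α β ∩ S ∧ z.1 + (s + d / 2) ≤ z.2 ∧
    z.2 ≤ z.1 + (s + 7 * d / 2)} with hTt
  have hT : MeasurableSet Tt := by
    refine (measurable_fst (measurableSet_Icc.inter hS)).inter (MeasurableSet.inter ?_ ?_)
    · exact measurableSet_le (measurable_fst.add_const _) measurable_snd
    · exact measurableSet_le measurable_snd (measurable_fst.add_const _)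
  have hm : Measurable (Tt.indicator (fun z : ℝ × ℝ => g' z.2)) :=
    (hg'.comp measurable_snd).indicator hT
  have hsw : ∫⁻ x, ∫⁻ x', Tt.indicator (fun z : ℝ × ℝ => g' z.2) (x, x') =
      ∫⁻ x', ∫⁻ x, Tt.indicator (fun z : ℝ × ℝ => g' z.2) (x, x') :=
    lintegral_lintegral_swap (f := fun x x' => Tt.indicator (fun z : ℝ × ℝ => g' z.2) (x, x'))
      hm.aemeasurable
  calc ENNReal.ofReal (d / 4) * ∫⁻ x in Icc (α + (s + d)) (β + (s + 3 * d)), g' x
      = ∫⁻ x', (Icc (α + (s + d)) (β + (s + 3 * d))).indicator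
          (fun x' => ENNReal.ofReal (d / 4) * g' x') x' := by
        rw [lintegral_indicator measurableSet_Icc, lintegral_const_mul _ hg']
    _ ≤ ∫⁻ x', ∫⁻ x, Tt.indicator (fun z : ℝ × ℝ => g' z.2) (x, x') := by
        refine lintegral_mono fun x' => ?_
        by_cases hx : x' ∈ Icc (α + (s + d)) (β + (s + 3 * d))
        · rw [indicator_of_mem hx]
          set J : Set ℝ := Icc (max α (x' - (s + 7 * d / 2))) (min β (x' - (s + d / 2))) with hJ
          have hJ1 : ENNReal.ofReal (d / 2) ≤ volume J := by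
            rw [hJ, Real.volume_Icc]
            refine ENNReal.ofReal_le_ofReal ?_
            obtain ⟨h1, h2⟩ := hx
            rcases le_total α (x' - (s + 7 * d / 2)) with h3 | h3 <;>
              rcases le_total β (x' - (s + d / 2)) with h4 | h4 <;>
              simp only [max_eq_left, max_eq_right, min_eq_left, min_eq_right, h3, h4] <;> linarith
          have hJ2 : volume J ≤ volume (J ∩ S) + ENNReal.ofReal (d / 4) := by
            calc volume J ≤ volume ((J ∩ S) ∪ (Icc x0 (x0 + R) \ S)) := by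
                  refine measure_mono fun x hx' => ?_
                  by_cases hxS : x ∈ S
                  · exact Or.inl ⟨hx', hxS⟩
                  · refine Or.inr ⟨⟨?_, ?_⟩, hxS⟩
                    · exact hα.trans ((le_max_left _ _).trans hx'.1)
                    · exact (hx'.2.trans (min_le_left _ _)).trans hβ
              _ ≤ volume (J ∩ S) + volume (Icc x0 (x0 + R) \ S) := measure_union_le _ _
              _ ≤ _ := by gcongr
          have hJ3 : ENNReal.ofReal (d / 4) ≤ volume (J ∩ S) := by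
            have h5 : ENNReal.ofReal (d / 4) + ENNReal.ofReal (d / 4) ≤
                volume (J ∩ S) + ENNReal.ofReal (d / 4) := by
              rw [← ENNReal.ofReal_add (by positivity) (by positivity)]
              have : d / 4 + d / 4 = d / 2 := by ring
              rw [this]
              exact hJ1.trans hJ2
            exact ENNReal.le_of_add_le_add_right ENNReal.ofReal_ne_top h5
          calc ENNReal.ofReal (d / 4) * g' x' ≤ g' x' * volume (J ∩ S) := by
                rw [mul_comm]; gcongr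
            _ = ∫⁻ x, (J ∩ S).indicator (fun _ => g' x') x := by
                rw [lintegral_indicator (measurableSet_Icc.inter hS), setLIntegral_const]
            _ ≤ _ := by
                refine lintegral_mono fun x => ?_
                by_cases hxJ : x ∈ J ∩ S
                · have hmem : (x, x') ∈ Tt := by
                    obtain ⟨⟨h1, h2⟩, h3⟩ := hxJ
                    have h4 := (le_max_left _ _).trans h1
                    have h5 := (le_max_right _ _).trans h1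
                    have h6 := h2.trans (min_le_left _ _)
                    have h7 := h2.trans (min_le_right _ _)
                    exact ⟨⟨⟨h4, h6⟩, h3⟩, by simp only; linarith, by simp only; linarith⟩
                  rw [indicator_of_mem hxJ, indicator_of_mem hmem]
                · rw [indicator_of_notMem hxJ]; exact zero_le
        · rw [indicator_of_notMem hx]; exact zero_le
    _ = ∫⁻ x, ∫⁻ x', Tt.indicator (fun z : ℝ × ℝ => g' z.2) (x, x') := hsw.symm
    _ ≤ ∫⁻ x, (Icc α β).indicator (fun x => Λ * g x) x := by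
        refine lintegral_mono fun x => ?_
        by_cases hx : x ∈ Icc α β ∩ S
        · rw [indicator_of_mem hx.1]
          refine le_trans ?_ (jump x hx.2 ⟨hα.trans hx.1.1, hx.1.2.trans hβ⟩)
          rw [← lintegral_indicator measurableSet_Icc]
          refine lintegral_mono fun x' => ?_
          by_cases hx' : (x, x') ∈ Tt
          · rw [indicator_of_mem hx', indicator_of_mem (show x' ∈ Icc _ _ from hx'.2)]
          · rw [indicator_of_notMem hx']; exact zero_le
        · have : ∀ x', Tt.indicator (fun z : ℝ × ℝ => g' z.2) (x, x') = 0 := fun x' =>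
            indicator_of_notMem (fun h => hx h.1) _
          simp only [this, lintegral_const, zero_mul, zero_le]
    _ = Λ * ∫⁻ x in Icc α β, g x := by
        rw [lintegral_indicator measurableSet_Icc, lintegral_const_mul' _ _ hΛ]

/-- the chain of intervals -/
theorem chain (g : ℕ → ℝ → ℝ≥0∞) (hg : ∀ i, Measurable (g i)) (S : Set ℝ) (hS : MeasurableSet S)
    (x0 s d R Λ : ℝ) (i0 K : ℕ) (hd : 0 < d) (hs : 0 < s) (hΛ : 0 ≤ Λ) (hi0 : s ≤ 2 * d * i0)
    (hν : volume (Icc x0 (x0 + R) \ S) ≤ ENNReal.ofReal (d / 4))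
    (hR : s + 7 * d / 2 + K * (s + 3 * d) ≤ R)
    (stay : ∀ i < K, ∀ x, g (i + 1) x ≤ ENNReal.ofReal Λ * g i x)
    (jump : ∀ i < K, ∀ x ∈ S, x ∈ Icc x0 (x0 + R) →
      ∫⁻ x' in Icc (x + (s + d / 2)) (x + (s + 7 * d / 2)), g (i + 1) x' ≤
        ENNReal.ofReal Λ * g i x) :
    ∀ i ≤ K, ∫⁻ x in Icc (x0 + (s + d / 2 + (min i i0 : ℕ) * (s + d)))
        (x0 + (s + 7 * d / 2 + i * (s + 3 * d))), g i x ≤
      ENNReal.ofReal ((Λ + 1 / (d / 4) * Λ) ^ i) *
        ∫⁻ x in Icc (x0 + (s + d / 2)) (x0 + (s + 7 * d / 2)), g 0 x := by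
  intro i
  induction i with
  | zero => intro _; simp
  | succ i ih =>
    intro hi
    have hiK : i < K := hi
    have ih' := ih hiK.le
    set α := x0 + (s + d / 2 + (min i i0 : ℕ) * (s + d)) with hα
    set β := x0 + (s + 7 * d / 2 + i * (s + 3 * d)) with hβ
    have hmi : ((min i i0 : ℕ) : ℝ) ≤ i := by exact_mod_cast min_le_left i i0
    have hm0 : (0 : ℝ) ≤ ((min i i0 : ℕ) : ℝ) := Nat.cast_nonneg _
    have hi0' : (0 : ℝ) ≤ i := Nat.cast_nonneg _
    have hiK' : (i : ℝ) ≤ K := by exact_mod_cast hiK.le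
    have h1 : x0 ≤ α := by
      have : 0 ≤ ((min i i0 : ℕ) : ℝ) * (s + d) := by positivity
      rw [hα]; linarith
    have h2 : β ≤ x0 + R := by
      have : (i : ℝ) * (s + 3 * d) ≤ K * (s + 3 * d) := by gcongr
      rw [hβ]; linarith
    have h3 : α + 3 * d ≤ β := by
      have : ((min i i0 : ℕ) : ℝ) * (s + d) ≤ i * (s + 3 * d) := by gcongr; linarith
      rw [hα, hβ]; linarith
    have hj := le_inv_mul (by positivity : 0 < d / 4)
      (jumpstep (g i) (g (i + 1)) (hg _) S hS x0 s d R α β (ENNReal.ofReal Λ)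
        ENNReal.ofReal_ne_top hd hν h1 h2 h3 (jump i hiK))
    have hst : ∫⁻ x in Icc α β, g (i + 1) x ≤ ENNReal.ofReal Λ * ∫⁻ x in Icc α β, g i x := by
      rw [← lintegral_const_mul _ (hg i)]
      exact lintegral_mono fun x => stay i hiK x
    have hsub : Icc (x0 + (s + d / 2 + (min (i + 1) i0 : ℕ) * (s + d)))
        (x0 + (s + 7 * d / 2 + (i + 1 : ℕ) * (s + 3 * d))) ⊆
        Icc α β ∪ Icc (α + (s + d)) (β + (s + 3 * d)) := by
      intro x hx
      obtain ⟨hx1, hx2⟩ := hx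
      have hx2' : x ≤ β + (s + 3 * d) := by
        rw [hβ]; push_cast at hx2; linarith
      rcases lt_or_ge i i0 with h | h
      · right
        refine ⟨?_, hx2'⟩
        have e1 : min (i + 1) i0 = i + 1 := min_eq_left h
        have e2 : min i i0 = i := min_eq_left h.le
        rw [e1] at hx1
        rw [hα, e2]; push_cast at hx1; linarith
      · have e1 : min (i + 1) i0 = i0 := min_eq_right (h.trans (Nat.le_succ i))
        have e2 : min i i0 = i0 := min_eq_right h
        rw [e1] at hx1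
        have hx1' : α ≤ x := by rw [hα, e2]; exact hx1
        by_cases hxb : x ≤ β
        · exact Or.inl ⟨hx1', hxb⟩
        · right
          refine ⟨?_, hx2'⟩
          have h4 : (i0 : ℝ) ≤ i := by exact_mod_cast h
          have h5 : (i0 : ℝ) * (s + 3 * d) ≤ i * (s + 3 * d) := by gcongr
          have h6 : α + (s + d) ≤ β := by rw [hα, hβ, e2]; nlinarith
          linarith [not_le.mp hxb]
    calc _ ≤ ∫⁻ x in Icc α β ∪ Icc (α + (s + d)) (β + (s + 3 * d)), g (i + 1) x :=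
          lintegral_mono_set hsub
      _ ≤ (∫⁻ x in Icc α β, g (i + 1) x) +
            ∫⁻ x in Icc (α + (s + d)) (β + (s + 3 * d)), g (i + 1) x := lintegral_union_le _ _ _
      _ ≤ ENNReal.ofReal Λ * (∫⁻ x in Icc α β, g i x) +
            ENNReal.ofReal (1 / (d / 4)) * (ENNReal.ofReal Λ * ∫⁻ x in Icc α β, g i x) :=
          add_le_add hst hj
      _ = ENNReal.ofReal (Λ + 1 / (d / 4) * Λ) * ∫⁻ x in Icc α β, g i x := by
          rw [ENNReal.ofReal_add hΛ (by positivity), ENNReal.ofReal_mul (by positivity)]; ring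
      _ ≤ ENNReal.ofReal (Λ + 1 / (d / 4) * Λ) * (ENNReal.ofReal ((Λ + 1 / (d / 4) * Λ) ^ i) *
            ∫⁻ x in Icc (x0 + (s + d / 2)) (x0 + (s + 7 * d / 2)), g 0 x) := by gcongr
      _ = _ := by
          rw [← mul_assoc, ← ENNReal.ofReal_mul (by positivity), pow_succ']

theorem pow_low {x c : ℝ} (m : ℕ) (hx0 : 0 ≤ x) (hx : x ≤ 1 / 2) (hc : m * x ≤ c) :
    ENNReal.ofReal (Real.exp (-2 * c)) ≤ ENNReal.ofReal (1 - x) ^ m := by
  rw [← ENNReal.ofReal_pow (by linarith)]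
  refine ENNReal.ofReal_le_ofReal ?_
  have h1 : Real.exp (-2 * x) ≤ 1 - x := by
    have h2 : 1 + 2 * x ≤ Real.exp (2 * x) := by linarith [Real.add_one_le_exp (2 * x)]
    have h3 : Real.exp (-2 * x) * Real.exp (2 * x) = 1 := by rw [← Real.exp_add]; simp
    have h4 : 0 < Real.exp (-2 * x) := Real.exp_pos _
    have h5 : Real.exp (-2 * x) * (1 + 2 * x) ≤ 1 :=
      (mul_le_mul_of_nonneg_left h2 h4.le).trans h3.le
    have h6 : 1 ≤ (1 - x) * (1 + 2 * x) := by nlinarith
    by_contra h7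
    have h8 : (1 - x) * (1 + 2 * x) < Real.exp (-2 * x) * (1 + 2 * x) :=
      mul_lt_mul_of_pos_right (not_le.mp h7) (by linarith)
    linarith
  calc Real.exp (-2 * c) ≤ Real.exp (m * (-2 * x)) := Real.exp_le_exp.mpr (by nlinarith)
    _ = Real.exp (-2 * x) ^ m := Real.exp_nat_mul _ _
    _ ≤ (1 - x) ^ m := by gcongr

variable {P : Par} {M : ℝ} (L : Lag P M)

/-- jump term -/
noncomputable def Jm (τ y : ℝ) (F : ℝ → ℝ≥0∞) : ℝ≥0∞ :=
  ENNReal.ofReal (L.rate τ y) * ∫⁻ s in Ioi (0 : ℝ), ENNReal.ofReal (P.g s) * F (L.jmp τ y s)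

theorem Jm_mono (τ y : ℝ) (F F' : ℝ → ℝ≥0∞) (a : ℝ≥0∞) (ha : a ≠ ∞) (h : ∀ x, a * F x ≤ F' x) :
    a * Jm L τ y F ≤ Jm L τ y F' := by
  unfold Jm
  rw [mul_left_comm, ← lintegral_const_mul' _ _ ha]
  refine mul_le_mul_right (lintegral_mono fun s => ?_) _
  rw [mul_left_comm]
  exact mul_le_mul_right (h _) _

theorem one (hP : P.Facts M) (hF : L.Facts) (hS : L.Step) (t h y B : ℝ) (hh : P.Small M h)
    (φ : ℝ → ℝ) (hφ : Measurable φ) (hB : ∀ x, φ x ∈ Icc 0 B) :
    ENNReal.ofReal (1 - P.Th M * P.k0 * h) * ENNReal.ofReal (φ y) +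
      ∫⁻ τ in Ioc (t - h) t, Jm L τ y (fun x => ENNReal.ofReal (φ x)) ≤
        ENNReal.ofReal (L.Pop t h φ y) := by
  have := hP.noise_prob
  have hm : Measurable (fun ξ => φ (L.step t h y ξ)) :=
    hφ.comp ((hS.step_meas t h).comp (measurable_const.prodMk measurable_id))
  have hi : Integrable (fun ξ => φ (L.step t h y ξ)) P.noise :=
    Integrable.of_bound hm.aestronglyMeasurable B (ae_of_all _ fun ξ => by
      rw [Real.norm_eq_abs, abs_of_nonneg (hB _).1]; exact (hB _).2)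
  unfold Lag.Pop
  rw [ofReal_integral_eq_lintegral_ofReal hi (ae_of_all _ fun ξ => (hB _).1),
    hS.lint t h hh y (fun x => ENNReal.ofReal (φ x)) hφ.ennreal_ofReal]
  have hr : ∫ τ in (t - h)..t, L.rate τ y ≤ P.Th M * h := by
    have h1 := intervalIntegral.norm_integral_le_of_norm_le_const (a := t - h) (b := t)
      (C := P.Th M) (f := fun τ => L.rate τ y) (fun τ _ => by
        rw [Real.norm_eq_abs, abs_of_nonneg (hF.rate_mem τ y).1]; exact (hF.rate_mem τ y).2)
    have h2 : |t - (t - h)| = h := by rw [sub_sub_cancel, abs_of_pos hh.1]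
    rw [h2, Real.norm_eq_abs] at h1
    exact (le_abs_self _).trans h1
  have hk := hP.k0_pos
  refine add_le_add (mul_le_mul_left (ENNReal.ofReal_le_ofReal ?_) _) le_rfl
  nlinarith

/-- value function with `k` steps left -/
noncomputable def Fk (h te : ℝ) (ψ : ℝ → ℝ) (k : ℕ) (y : ℝ) : ℝ≥0∞ :=
  ENNReal.ofReal (L.Pit h k (te + k * h) ψ y)

theorem Fk_meas (hS : L.Step) (h te : ℝ) (ψ : ℝ → ℝ) (hψ : Measurable ψ) (k : ℕ) :
    Measurable (Fk L h te ψ k) := (hS.Pit_meas h k _ ψ hψ).ennreal_ofReal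

theorem Fk_succ (hP : P.Facts M) (hF : L.Facts) (hS : L.Step) (h te B : ℝ) (hh : P.Small M h)
    (ψ : ℝ → ℝ) (hψ : Measurable ψ) (hB : ∀ x, ψ x ∈ Icc 0 B) (k : ℕ) (y : ℝ) :
    ENNReal.ofReal (1 - P.Th M * P.k0 * h) * Fk L h te ψ k y +
      ∫⁻ τ in Ioc (te + k * h) (te + (k + 1 : ℕ) * h), Jm L τ y (Fk L h te ψ k) ≤
        Fk L h te ψ (k + 1) y := by
  have e : te + (k + 1 : ℕ) * h - h = te + k * h := by push_cast; ring
  have h1 := one L hP hF hS (te + (k + 1 : ℕ) * h) h y B hh (L.Pit h k (te + k * h) ψ)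
    (hS.Pit_meas h k _ ψ hψ) (hS.Pit_mem h k _ 0 B ψ hψ hB)
  rw [e] at h1
  refine h1.trans (le_of_eq ?_)
  unfold Fk
  rw [Lag.Pit, e]

theorem Fk_stay (hP : P.Facts M) (hF : L.Facts) (hS : L.Step) (h te B : ℝ) (hh : P.Small M h)
    (ψ : ℝ → ℝ) (hψ : Measurable ψ) (hB : ∀ x, ψ x ∈ Icc 0 B) (k m : ℕ) (y : ℝ) :
    ENNReal.ofReal (1 - P.Th M * P.k0 * h) ^ m * Fk L h te ψ k y ≤ Fk L h te ψ (k + m) y := by
  induction m with
  | zero => simp
  | succ m ih =>
    calc _ = ENNReal.ofReal (1 - P.Th M * P.k0 * h) *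
          (ENNReal.ofReal (1 - P.Th M * P.k0 * h) ^ m * Fk L h te ψ k y) := by ring
      _ ≤ ENNReal.ofReal (1 - P.Th M * P.k0 * h) * Fk L h te ψ (k + m) y := by gcongr
      _ ≤ _ := le_self_add.trans (Fk_succ L hP hF hS h te B hh ψ hψ hB (k + m) y)

theorem Fk_win (hP : P.Facts M) (hF : L.Facts) (hS : L.Step) (h te B : ℝ) (hh : P.Small M h)
    (ψ : ℝ → ℝ) (hψ : Measurable ψ) (hB : ∀ x, ψ x ∈ Icc 0 B) (k m : ℕ) (y : ℝ) :
    ENNReal.ofReal (1 - P.Th M * P.k0 * h) ^ m *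
      ∫⁻ τ in Ioc (te + k * h) (te + (k + m : ℕ) * h), Jm L τ y (Fk L h te ψ k) ≤
        Fk L h te ψ (k + m) y := by
  have hTh : 0 ≤ P.Th M := (hF.rate_mem 0 0).1.trans (hF.rate_mem 0 0).2
  have hk := hP.k0_pos
  have hh0 := hh.1
  have ha1 : ENNReal.ofReal (1 - P.Th M * P.k0 * h) ≤ 1 := by
    refine ENNReal.ofReal_le_one.mpr ?_
    have : 0 ≤ P.Th M * P.k0 * h := by positivity
    linarith
  set a := ENNReal.ofReal (1 - P.Th M * P.k0 * h) with ha
  have hat : ∀ m : ℕ, a ^ m ≠ ∞ := fun m => ENNReal.pow_ne_top ENNReal.ofReal_ne_top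
  induction m with
  | zero => simp
  | succ m ih =>
    have hsub : Ioc (te + k * h) (te + (k + (m + 1) : ℕ) * h) ⊆
        Ioc (te + k * h) (te + (k + m : ℕ) * h) ∪
          Ioc (te + (k + m : ℕ) * h) (te + (k + m + 1 : ℕ) * h) := Ioc_subset_Ioc_union_Ioc
    have h2 : a ^ m * ∫⁻ τ in Ioc (te + (k + m : ℕ) * h) (te + (k + m + 1 : ℕ) * h),
        Jm L τ y (Fk L h te ψ k) ≤ ∫⁻ τ in Ioc (te + (k + m : ℕ) * h) (te + (k + m + 1 : ℕ) * h),
          Jm L τ y (Fk L h te ψ (k + m)) := by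
      rw [← lintegral_const_mul' _ _ (hat m)]
      exact lintegral_mono fun τ => Jm_mono L τ y _ _ _ (hat m)
        (Fk_stay L hP hF hS h te B hh ψ hψ hB k m)
    calc _ ≤ a ^ (m + 1) * ((∫⁻ τ in Ioc (te + k * h) (te + (k + m : ℕ) * h),
            Jm L τ y (Fk L h te ψ k)) +
            ∫⁻ τ in Ioc (te + (k + m : ℕ) * h) (te + (k + m + 1 : ℕ) * h),
              Jm L τ y (Fk L h te ψ k)) := by
          gcongr
          exact (lintegral_mono_set hsub).trans (lintegral_union_le _ _ _)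
      _ = a * (a ^ m * ∫⁻ τ in Ioc (te + k * h) (te + (k + m : ℕ) * h),
            Jm L τ y (Fk L h te ψ k)) +
            a * (a ^ m * ∫⁻ τ in Ioc (te + (k + m : ℕ) * h) (te + (k + m + 1 : ℕ) * h),
              Jm L τ y (Fk L h te ψ k)) := by ring
      _ ≤ a * Fk L h te ψ (k + m) y +
            1 * ∫⁻ τ in Ioc (te + (k + m : ℕ) * h) (te + (k + m + 1 : ℕ) * h),
              Jm L τ y (Fk L h te ψ (k + m)) := by gcongr
      _ ≤ _ := by
          rw [one_mul]
          exact Fk_succ L hP hF hS h te B hh ψ hψ hB (k + m) y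

/-- the jump integral in the coordinates of the final time -/
theorem geo (hF : L.Facts) (te τ y : ℝ) (hte : te ∈ Icc 0 L.T)
    (hτ : τ ∈ Icc 0 L.T) (h1 : |te - τ| ≤ 1) (h2 : P.DV M * |te - τ| ≤ P.d / 2)
    (F : ℝ → ℝ≥0∞) (hFm : Measurable F) :
    ENNReal.ofReal (P.m0 * Real.exp (-P.C0 M)) *
      ∫⁻ x in Icc (L.X te y + (P.s1 + P.d / 2)) (L.X te y + (P.s1 + 7 * P.d / 2)), F (L.Y te x) ≤
        ∫⁻ s in Ioi (0 : ℝ), ENNReal.ofReal (P.g s) * F (L.jmp τ y s) := by
  have hC0 : 0 ≤ P.C0 M := (hF.bG_mem 0 0).1.trans (hF.bG_mem 0 0).2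
  have hXm : ∀ t, Measurable (L.X t) := fun t =>
    (L.X_cont.comp (continuous_const.prodMk continuous_id)).measurable
  have hYm : ∀ t, Measurable (L.Y t) := fun t =>
    (L.Y_cont.comp (continuous_const.prodMk continuous_id)).measurable
  have hjm : ∀ t, Measurable (fun y => ENNReal.ofReal (L.j t y)) := fun t =>
    (L.j_meas.comp (measurable_const.prodMk measurable_id)).ennreal_ofReal
  set A : Set ℝ := L.X te ⁻¹'
    Icc (L.X te y + (P.s1 + P.d / 2)) (L.X te y + (P.s1 + 7 * P.d / 2)) with hA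
  have hAm : MeasurableSet A := hXm te measurableSet_Icc
  have hH : Measurable (A.indicator F) := hFm.indicator hAm
  have hcov : ∀ t, ∫⁻ x, A.indicator F (L.Y t x) =
      ∫⁻ y', ENNReal.ofReal (L.j t y') * A.indicator F y' := fun t => by
    rw [← lintegral_map hH (hYm t), hF.cov t, lintegral_withDensity_eq_lintegral_mul _ (hjm t) hH]
    rfl
  have e1 : ∫⁻ x in Icc (L.X te y + (P.s1 + P.d / 2)) (L.X te y + (P.s1 + 7 * P.d / 2)),
      F (L.Y te x) = ∫⁻ x, A.indicator F (L.Y te x) := by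
    rw [← lintegral_indicator measurableSet_Icc]
    refine lintegral_congr fun x => ?_
    by_cases hx : x ∈ Icc (L.X te y + (P.s1 + P.d / 2)) (L.X te y + (P.s1 + 7 * P.d / 2))
    · rw [indicator_of_mem hx, indicator_of_mem]
      rw [hA, mem_preimage, L.XY]; exact hx
    · rw [indicator_of_notMem hx, indicator_of_notMem]
      rw [hA, mem_preimage, L.XY]; exact hx
  have e2 : ENNReal.ofReal (Real.exp (-P.C0 M)) * ∫⁻ x, A.indicator F (L.Y te x) ≤
      ∫⁻ x, A.indicator F (L.Y τ x) := by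
    rw [hcov, hcov, ← lintegral_const_mul' _ _ ENNReal.ofReal_ne_top]
    refine lintegral_mono fun y' => ?_
    rw [← mul_assoc, ← ENNReal.ofReal_mul (Real.exp_pos _).le]
    gcongr
    have h3 := hF.j_ratio y' te hte τ hτ
    have h4 : Real.exp (P.C0 M * |te - τ|) ≤ Real.exp (P.C0 M) :=
      Real.exp_le_exp.mpr (by nlinarith)
    have h5 := L.j_pos τ y'
    have h6 : Real.exp (-P.C0 M) * Real.exp (P.C0 M) = 1 := by rw [← Real.exp_add]; simp
    have h7 : L.j te y' ≤ Real.exp (P.C0 M) * L.j τ y' := h3.trans (by gcongr)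
    calc Real.exp (-P.C0 M) * L.j te y' ≤ Real.exp (-P.C0 M) * (Real.exp (P.C0 M) * L.j τ y') := by
          gcongr
      _ = L.j τ y' := by rw [← mul_assoc, h6, one_mul]
  have e3 : ∫⁻ x, A.indicator F (L.Y τ x) = ∫⁻ s, A.indicator F (L.Y τ (L.X τ y + s)) :=
    (lintegral_add_left_eq_self (fun x => A.indicator F (L.Y τ x)) (L.X τ y)).symm
  rw [e1, ENNReal.ofReal_mul P.hm0.le, mul_assoc]
  calc _ ≤ ENNReal.ofReal P.m0 * ∫⁻ s, A.indicator F (L.Y τ (L.X τ y + s)) := by
        rw [← e3]; gcongr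
    _ = ∫⁻ s, ENNReal.ofReal P.m0 * A.indicator F (L.Y τ (L.X τ y + s)) :=
        (lintegral_const_mul' _ _ ENNReal.ofReal_ne_top).symm
    _ ≤ ∫⁻ s, (Ioi (0 : ℝ)).indicator
          (fun s => ENNReal.ofReal (P.g s) * F (L.jmp τ y s)) s := by
        refine lintegral_mono fun s => ?_
        by_cases hs : L.Y τ (L.X τ y + s) ∈ A
        · have h3 := hF.dist_add y (L.Y τ (L.X τ y + s)) te hte τ hτ
          have h4 := hF.dist_add (L.Y τ (L.X τ y + s)) y te hte τ hτ
          rw [L.XY] at h3 h4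
          obtain ⟨h5, h6⟩ := hs
          have hd : P.s2 = P.s1 + 4 * P.d := by unfold Par.d; ring
          have h7 : s ∈ Icc P.s1 P.s2 := ⟨by linarith, by linarith⟩
          have h8 : s ∈ Ioi (0 : ℝ) := P.hs1.trans_le h7.1
          rw [indicator_of_mem h8, indicator_of_mem (show L.Y τ (L.X τ y + s) ∈ A from ⟨h5, h6⟩)]
          unfold Lag.jmp
          gcongr
          exact P.hgm s h7
        · rw [indicator_of_notMem hs, mul_zero]; exact zero_le
    _ = _ := lintegral_indicator measurableSet_Ioi _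

theorem final (w : ℝ → ℝ) (hw : Measurable w) (B x0 D R e : ℝ) (hB : ∀ x, |w x| ≤ B)
    (hD : 0 < D) (hDR : D ≤ R) (he : 0 < e)
    (h : ∫⁻ x in Icc (x0 + D) (x0 + R), ENNReal.ofReal (w x ^ 2) ≤
      ENNReal.ofReal (e / (2 * R) * (e / 2))) : ∫ s in D..R, |w (x0 + s)| ≤ e := by
  have hR : 0 < R := hD.trans_le hDR
  set θ := e / (2 * R) with hθ
  have hθ0 : 0 < θ := by positivity
  have hle : x0 + D ≤ x0 + R := by linarith
  rw [intervalIntegral.integral_comp_add_left (fun x => |w x|) x0]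
  have hi2 : IntegrableOn (fun x => w x ^ 2) (Icc (x0 + D) (x0 + R)) := by
    refine Measure.integrableOn_of_bounded (M := B ^ 2) measure_Icc_lt_top.ne
      (hw.pow_const 2).aestronglyMeasurable (ae_of_all _ fun x => ?_)
    rw [Real.norm_eq_abs, abs_pow]
    exact pow_le_pow_left₀ (abs_nonneg _) (hB x) 2
  have hi1 : IntegrableOn (fun x => |w x|) (Icc (x0 + D) (x0 + R)) := by
    refine Measure.integrableOn_of_bounded (M := B) measure_Icc_lt_top.ne
      hw.abs.aestronglyMeasurable (ae_of_all _ fun x => ?_)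
    rw [Real.norm_eq_abs, abs_abs]
    exact hB x
  have h2 : ∫ x in (x0 + D)..(x0 + R), w x ^ 2 ≤ θ * (e / 2) := by
    rw [intervalIntegral.integral_of_le hle, ← integral_Icc_eq_integral_Ioc]
    rw [← ofReal_integral_eq_lintegral_ofReal hi2 (ae_of_all _ fun x => sq_nonneg _)] at h
    exact (ENNReal.ofReal_le_ofReal_iff (by positivity)).mp h
  have j2 : IntervalIntegrable (fun x => w x ^ 2) volume (x0 + D) (x0 + R) :=
    (intervalIntegrable_iff_integrableOn_Icc_of_le hle).mpr hi2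
  have j1 : IntervalIntegrable (fun x => |w x|) volume (x0 + D) (x0 + R) :=
    (intervalIntegrable_iff_integrableOn_Icc_of_le hle).mpr hi1
  calc ∫ x in (x0 + D)..(x0 + R), |w x|
      ≤ ∫ x in (x0 + D)..(x0 + R), (θ + θ⁻¹ * w x ^ 2) := by
        refine intervalIntegral.integral_mono_on hle j1
          (intervalIntegrable_const.add (j2.const_mul _)) fun x _ => ?_
        have h3 : θ * |w x| ≤ θ * (θ + θ⁻¹ * w x ^ 2) := by
          have h4 : θ * (θ + θ⁻¹ * w x ^ 2) = θ ^ 2 + |w x| ^ 2 := by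
            rw [sq_abs]; field_simp
          rw [h4]
          nlinarith [sq_nonneg (θ - |w x|), abs_nonneg (w x)]
        exact le_of_mul_le_mul_left h3 hθ0
    _ = (R - D) * θ + θ⁻¹ * ∫ x in (x0 + D)..(x0 + R), w x ^ 2 := by
        rw [intervalIntegral.integral_add intervalIntegrable_const (j2.const_mul _),
          intervalIntegral.integral_const, intervalIntegral.integral_const_mul, smul_eq_mul]
        ring
    _ ≤ R * θ + θ⁻¹ * (θ * (e / 2)) := by gcongr; linarith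
    _ = e := by rw [hθ]; field_simp; ring

end Har

open Har in
theorem harS : Basic → NVZS → HarS := by
  intro hB hZ P M hM hSt
  have hP := hB.1 P M hM
  have hd := hP.d_pos
  have hs := P.hs1
  obtain ⟨i0, hi0⟩ := exists_nat_ge (P.s1 / (2 * P.d))
  have hi0' : P.s1 ≤ 2 * P.d * i0 := by
    rw [div_le_iff₀ (by positivity)] at hi0; linarith
  refine ⟨P.s1 + P.d / 2 + i0 * (P.s1 + P.d), by positivity, ?_⟩
  intro ε1 T0 R' e hε hT0 hR' he
  obtain ⟨RZ, νZ, hRZ, hνZ, hNVZ⟩ := hZ P M hM ε1 hε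
  obtain ⟨b0, hb0, hb⟩ := hP.b_low hSt (ε1 / 2) (by positivity)
  obtain ⟨h1, hh1, hsm⟩ := hP.small
  obtain ⟨K1, hK1⟩ := exists_nat_ge (R' / (P.s1 + 3 * P.d))
  have hD1 : 0 < P.s1 + P.d / 2 + i0 * (P.s1 + P.d) := by positivity
  have hR'0 : 0 < R' := hD1.trans_le hR'
  have hN := hP.N_pos
  have hbm := hP.bm_nonneg
  have hk0 := hP.k0_pos
  have hp := P.hp0
  have hm0 := P.hm0
  have hDV : 0 ≤ P.DV M := by unfold Par.DV; positivity
  have hVm : 0 ≤ P.Vm M := by unfold Par.Vm; positivity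
  have hC0 : 0 ≤ P.C0 M := by unfold Par.C0; positivity
  have hTh : 0 ≤ P.Th M := by unfold Par.Th; positivity
  set K : ℕ := i0 + K1 with hK
  set R : ℝ := P.s1 + 7 * P.d / 2 + K * (P.s1 + 3 * P.d) with hR
  have hR0 : 0 ≤ R := by positivity
  obtain ⟨δ, hδ0, hδ1, hδ2⟩ : ∃ δ : ℝ, 0 < δ ∧ δ ≤ 1 ∧ P.DV M * δ ≤ P.d / 2 := by
    refine ⟨min 1 (P.d / 2 / (P.DV M + 1)), by positivity, min_le_left _ _, ?_⟩
    calc P.DV M * min 1 (P.d / 2 / (P.DV M + 1))
        ≤ (P.DV M + 1) * (P.d / 2 / (P.DV M + 1)) := by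
          gcongr
          · linarith
          · exact min_le_right _ _
      _ = P.d / 2 := by field_simp
  set l0 : ℝ := δ / (2 * (K + 1)) with hl0
  have hl00 : 0 < l0 := by positivity
  set A : ℝ := Real.exp (-2 * (P.Th M * P.k0 * (T0 + 1))) with hA
  have hA0 : 0 < A := Real.exp_pos _
  set r0 : ℝ := P.p * b0 * (Real.exp (-(P.C0 M * (T0 + 1))) * ε1) with hr0
  have hr00 : 0 < r0 := by positivity
  set κ : ℝ := A * (r0 * (P.m0 * Real.exp (-P.C0 M)) * l0) with hκ
  have hκ0 : 0 < κ := by positivity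
  set Λ : ℝ := 1 / A + 1 / κ with hΛ
  have hΛ0 : 0 < Λ := by positivity
  have hΛA : 1 / A ≤ Λ := by
    have : 0 < 1 / κ := by positivity
    rw [hΛ]; linarith
  have hΛκ : 1 / κ ≤ Λ := by
    have : 0 < 1 / A := by positivity
    rw [hΛ]; linarith
  set Cc : ℝ := (Λ + 1 / (P.d / 4) * Λ) ^ K * (Λ * Λ) with hCc
  have hCc0 : 0 < Cc := by positivity
  refine ⟨2 * (P.Vm M * (T0 + 1)) + R + RZ, min νZ (P.d / 4), e / (2 * R') * (e / 2) / Cc,
    min h1 l0, by positivity, by positivity, by positivity, ?_⟩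
  intro L t h y n hh0 hh hn1 hn2 hnt htT hNV hU hw
  have hF := hB.2.1 P M L hM
  have hS := hB.2.2.1 P M L hM
  have hSm : P.Small M h := hsm h hh0 (hh.trans (min_le_left _ _))
  have hhl : h ≤ l0 := hh.trans (min_le_right _ _)
  set te : ℝ := t - n * h with hte
  have hnh : 0 ≤ (n : ℝ) * h := by positivity
  have hte0 : 0 ≤ te := by rw [hte]; linarith
  have htet : te ≤ t := by rw [hte]; linarith
  have hmemT : ∀ τ ∈ Icc te t, τ ∈ Icc 0 L.T := fun τ hτ => ⟨hte0.trans hτ.1, hτ.2.trans htT⟩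
  have hteI : te ∈ Icc te t := ⟨le_rfl, htet⟩
  have htI : t ∈ Icc te t := ⟨htet, le_rfl⟩
  have habs : ∀ τ ∈ Icc te t, ∀ τ' ∈ Icc te t, |τ - τ'| ≤ T0 + 1 := by
    intro τ hτ τ' hτ'
    have : t - te = n * h := by rw [hte]; ring
    rw [abs_le]; constructor <;> linarith [hτ.1, hτ.2, hτ'.1, hτ'.2]
  have hXb : ∀ y', ∀ τ ∈ Icc te t, ∀ τ' ∈ Icc te t,
      |L.X τ y' - L.X τ' y'| ≤ P.Vm M * (T0 + 1) := fun y' τ hτ τ' hτ' =>
    (hF.X_lip y' τ (hmemT τ hτ) τ' (hmemT τ' hτ')).trans (by gcongr; exact habs τ hτ τ' hτ')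
  set x0 : ℝ := L.X te y with hx0
  set c : ℝ := L.U t y with hc
  have hx0b := abs_le.mp (hXb y te hteI t htI)
  -- lower bound for the rate
  have hrate : ∀ y', L.X te y' ∈ Icc x0 (x0 + R) → (∃ τ0 ∈ Icc te t, ε1 ≤ L.U τ0 y') →
      ∀ τ ∈ Icc te t, r0 ≤ L.rate τ y' := by
    rintro y' hy' ⟨τ0, hτ0, hU0⟩ τ hτ
    have h2 := abs_le.mp (hXb y' τ hτ te hteI)
    have h3 : ε1 / 2 ≤ L.Z τ (L.X τ y') := by
      refine (hNVZ L τ (L.X τ y') ?_).1
      refine le_trans (measure_mono ?_) ((hNV τ hτ).trans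
        (ENNReal.ofReal_le_ofReal (min_le_left _ _)))
      rintro x ⟨⟨h4, h5⟩, h6⟩
      exact ⟨⟨by linarith [hy'.1], by linarith [hy'.2]⟩, h6⟩
    have h4 := hb _ ⟨h3, (hF.Z_mem τ (L.X τ y')).2⟩
    have h5 := hF.U_ratio y' τ0 (hmemT τ0 hτ0) τ (hmemT τ hτ)
    have h6 : 0 ≤ L.U τ y' := hF.u_nonneg _ _
    have h7 : ε1 ≤ Real.exp (P.C0 M * (T0 + 1)) * L.U τ y' :=
      hU0.trans (h5.trans (by gcongr; exact habs τ0 hτ0 τ hτ))
    have h8 : Real.exp (-(P.C0 M * (T0 + 1))) * Real.exp (P.C0 M * (T0 + 1)) = 1 := by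
      rw [← Real.exp_add]; simp
    have h9 : Real.exp (-(P.C0 M * (T0 + 1))) * ε1 ≤ L.U τ y' := by
      calc _ ≤ Real.exp (-(P.C0 M * (T0 + 1))) * (Real.exp (P.C0 M * (T0 + 1)) * L.U τ y') := by
            gcongr
        _ = _ := by rw [← mul_assoc, h8, one_mul]
    unfold Lag.rate
    rw [hr0]
    have h10 := P.hb0 (L.Z τ (L.X τ y'))
    gcongr
  -- number of steps in one window
  set m : ℕ := ⌈l0 / h⌉₊ with hm
  have hm1 : l0 ≤ m * h := by
    have := Nat.le_ceil (l0 / h)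
    rwa [div_le_iff₀ hh0] at this
  have hm2 : m * h ≤ 2 * l0 := by
    have h2 := (Nat.ceil_lt_add_one (show 0 ≤ l0 / h by positivity)).le
    have h3 : (m : ℝ) * h ≤ (l0 / h + 1) * h := by gcongr
    have h4 : (l0 / h + 1) * h = l0 + h := by field_simp
    linarith
  have hKm : ((K + 1 : ℝ)) * (m * h) ≤ δ := by
    calc ((K + 1 : ℝ)) * (m * h) ≤ (K + 1) * (2 * l0) := by gcongr
      _ = δ := by rw [hl0]; field_simp
  have hKn : K * m + m ≤ n := by
    have h2 : ((K * m + m : ℕ) : ℝ) * h ≤ n * h := by push_cast; nlinarith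
    exact_mod_cast le_of_mul_le_mul_right h2 hh0
  -- the value functions
  set ψ : ℝ → ℝ := fun y' => (L.U te y' - c) ^ 2 with hψ
  have hUm : Measurable (L.U te) := hF.U_meas.comp (measurable_const.prodMk measurable_id)
  have hψm : Measurable ψ := (hUm.sub_const c).pow_const 2
  have hdiff : ∀ x, |L.u te x - c| ≤ P.N M := fun x => by
    have h2 := hF.u_nonneg te x
    have h3 := L.u_le te x
    have h4 : 0 ≤ c := hF.u_nonneg _ _
    have h5 : c ≤ P.N M := L.u_le _ _
    rw [abs_le]; constructor <;> linarith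
  have hψB : ∀ x, ψ x ∈ Icc 0 (P.N M ^ 2) := fun x =>
    ⟨sq_nonneg _, by
      rw [hψ]; simp only; rw [← sq_abs]
      exact pow_le_pow_left₀ (abs_nonneg _) (hdiff _) 2⟩
  have hpow : ∀ j : ℕ, j ≤ n →
      ENNReal.ofReal A ≤ ENNReal.ofReal (1 - P.Th M * P.k0 * h) ^ j := by
    intro j hj
    refine pow_low j (by positivity) hSm.2.2.1 ?_
    have h2 : (j : ℝ) * h ≤ T0 + 1 := le_trans (by gcongr) hn2
    calc (j : ℝ) * (P.Th M * P.k0 * h) = P.Th M * P.k0 * (j * h) := by ring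
      _ ≤ _ := by gcongr
  have hstay : ∀ k j : ℕ, j ≤ n → ∀ y',
      Fk L h te ψ k y' ≤ ENNReal.ofReal Λ * Fk L h te ψ (k + j) y' := by
    intro k j hj y'
    have h2 : ENNReal.ofReal A * Fk L h te ψ k y' ≤ Fk L h te ψ (k + j) y' :=
      le_trans (by gcongr; exact hpow j hj) (Fk_stay L hP hF hS h te _ hSm ψ hψm hψB k j y')
    exact (le_inv_mul hA0 h2).trans (by gcongr)
  have hjump : ∀ k : ℕ, k + m ≤ K * m + m → ∀ y', L.X te y' ∈ Icc x0 (x0 + R) →
      (∃ τ0 ∈ Icc te t, ε1 ≤ L.U τ0 y') →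
      ∫⁻ x in Icc (L.X te y' + (P.s1 + P.d / 2)) (L.X te y' + (P.s1 + 7 * P.d / 2)),
        Fk L h te ψ k (L.Y te x) ≤ ENNReal.ofReal Λ * Fk L h te ψ (k + m) y' := by
    intro k hk y' hy' hU'
    set I := ∫⁻ x in Icc (L.X te y' + (P.s1 + P.d / 2)) (L.X te y' + (P.s1 + 7 * P.d / 2)),
        Fk L h te ψ k (L.Y te x) with hI
    have hkδ : ((k + m : ℕ) : ℝ) * h ≤ δ := by
      have h2 : ((k + m : ℕ) : ℝ) ≤ (K * m + m : ℕ) := by exact_mod_cast hk
      have h3 : ((k + m : ℕ) : ℝ) * h ≤ (K * m + m : ℕ) * h := by gcongr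
      push_cast at h3 ⊢; nlinarith
    have h2 : ∀ τ ∈ Ioc (te + k * h) (te + (k + m : ℕ) * h),
        ENNReal.ofReal r0 * (ENNReal.ofReal (P.m0 * Real.exp (-P.C0 M)) * I) ≤
          Jm L τ y' (Fk L h te ψ k) := by
      intro τ hτ
      have hk0' : 0 ≤ (k : ℝ) * h := by positivity
      have h3 : te ≤ τ := by linarith [hτ.1]
      have h4 : τ ≤ te + δ := by linarith [hτ.2]
      have h5 : τ ∈ Icc te t := ⟨h3, by rw [hte] at h4; linarith⟩
      have h6 : |te - τ| ≤ δ := by rw [abs_le]; constructor <;> linarith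
      unfold Jm
      gcongr
      · exact hrate y' hy' hU' τ h5
      · exact geo L hF te τ y' (hmemT te hteI) (hmemT τ h5) (h6.trans hδ1)
          (le_trans (by gcongr) hδ2) _ (Fk_meas L hS h te ψ hψm k)
    have h3 : ENNReal.ofReal r0 * (ENNReal.ofReal (P.m0 * Real.exp (-P.C0 M)) * I) *
        ENNReal.ofReal l0 ≤
          ∫⁻ τ in Ioc (te + k * h) (te + (k + m : ℕ) * h), Jm L τ y' (Fk L h te ψ k) := by
      refine le_trans ?_ (setLIntegral_mono' measurableSet_Ioc h2)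
      rw [setLIntegral_const, Real.volume_Ioc]
      gcongr
      push_cast; linarith
    have h4 : ENNReal.ofReal κ * I ≤ Fk L h te ψ (k + m) y' := by
      refine le_trans ?_ (Fk_win L hP hF hS h te _ hSm ψ hψm hψB k m y')
      calc ENNReal.ofReal κ * I = ENNReal.ofReal A * (ENNReal.ofReal r0 *
            (ENNReal.ofReal (P.m0 * Real.exp (-P.C0 M)) * I) * ENNReal.ofReal l0) := by
            rw [hκ, ENNReal.ofReal_mul hA0.le, ENNReal.ofReal_mul (by positivity),
              ENNReal.ofReal_mul hr00.le]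
            ring
        _ ≤ _ := by
            gcongr
            exact hpow m (by omega)
    exact (le_inv_mul hκ0 h4).trans (by gcongr)
  have hYm : Measurable (L.Y te) :=
    (L.Y_cont.comp (continuous_const.prodMk continuous_id)).measurable
  have hum : Measurable (L.u te) := L.u_meas.comp (measurable_const.prodMk measurable_id)
  have hidx : ∀ i < K, (K - (i + 1)) * m + m = (K - i) * m := by
    intro i hi
    have : K - i = K - (i + 1) + 1 := by omega
    rw [this]; ring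
  have hch := chain (fun i x => Fk L h te ψ ((K - i) * m) (L.Y te x))
    (fun i => (Fk_meas L hS h te ψ hψm _).comp hYm) {x | ε1 ≤ L.u te x}
    (measurableSet_le measurable_const hum) x0 P.s1 P.d R Λ i0 K hd hs hΛ0.le hi0'
    (by
      refine le_trans (measure_mono ?_) ((hNV te hteI).trans
        (ENNReal.ofReal_le_ofReal (min_le_right _ _)))
      rintro x ⟨⟨h4, h5⟩, h6⟩
      have h7 : 0 ≤ P.Vm M * (T0 + 1) := by positivity
      exact ⟨⟨by linarith, by linarith⟩, not_le.mp h6⟩)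
    le_rfl
    (by
      intro i hi x
      have h2 := hstay ((K - (i + 1)) * m) m (by omega) (L.Y te x)
      rwa [hidx i hi] at h2)
    (by
      intro i hi x hx hx'
      have h1' : (K - (i + 1)) * m ≤ K * m := Nat.mul_le_mul_right m (Nat.sub_le _ _)
      have h2 := hjump ((K - (i + 1)) * m) (by omega) (L.Y te x) (by rw [L.XY]; exact hx')
        ⟨te, hteI, by unfold Lag.U; rw [L.XY]; exact hx⟩
      rwa [hidx i hi, L.XY] at h2)
    K le_rfl
  have hstart : ∫⁻ x in Icc (x0 + (P.s1 + P.d / 2)) (x0 + (P.s1 + 7 * P.d / 2)),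
      Fk L h te ψ (K * m) (L.Y te x) ≤
      ENNReal.ofReal Λ * (ENNReal.ofReal Λ * ENNReal.ofReal (e / (2 * R') * (e / 2) / Cc)) := by
    refine (hjump (K * m) le_rfl y ⟨le_rfl, by linarith⟩ ⟨t, htI, hU⟩).trans ?_
    have h2 := hstay (K * m + m) (n - (K * m + m)) (Nat.sub_le _ _) y
    rw [Nat.add_sub_cancel' hKn] at h2
    have h3 : Fk L h te ψ n y ≤ ENNReal.ofReal (e / (2 * R') * (e / 2) / Cc) := by
      unfold Fk
      have e1 : te + n * h = t := by rw [hte]; ring
      rw [e1]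
      exact ENNReal.ofReal_le_ofReal hw
    gcongr
    exact h2.trans (by gcongr)
  refine final (fun x => L.u te x - c) (hum.sub_const c) (P.N M) x0 _ R' e hdiff hD1 hR' he ?_
  have hmin : min K i0 = i0 := min_eq_right (by omega)
  have hRR : R' ≤ P.s1 + 7 * P.d / 2 + K * (P.s1 + 3 * P.d) := by
    rw [div_le_iff₀ (by positivity)] at hK1
    have h2 : (K1 : ℝ) ≤ K := by exact_mod_cast (by omega : K1 ≤ K)
    have h3 : (K1 : ℝ) * (P.s1 + 3 * P.d) ≤ K * (P.s1 + 3 * P.d) := by gcongr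
    linarith
  simp only [hmin, Nat.sub_self, Nat.zero_mul, Nat.sub_zero] at hch
  calc _ = ∫⁻ x in Icc (x0 + (P.s1 + P.d / 2 + i0 * (P.s1 + P.d))) (x0 + R'),
        Fk L h te ψ 0 (L.Y te x) := by
        refine lintegral_congr fun x => ?_
        unfold Fk
        rw [Lag.Pit, hψ]
        simp only [Lag.U, L.XY]
    _ ≤ _ := lintegral_mono_set (Icc_subset_Icc le_rfl (by linarith))
    _ ≤ _ := hch
    _ ≤ ENNReal.ofReal ((Λ + 1 / (P.d / 4) * Λ) ^ K) * (ENNReal.ofReal Λ *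
          (ENNReal.ofReal Λ * ENNReal.ofReal (e / (2 * R') * (e / 2) / Cc))) := by gcongr
    _ = ENNReal.ofReal (Cc * (e / (2 * R') * (e / 2) / Cc)) := by
        rw [ENNReal.ofReal_mul hCc0.le, hCc, ENNReal.ofReal_mul (by positivity),
          ENNReal.ofReal_mul hΛ0.le]
        ring
    _ = _ := by rw [mul_div_cancel₀ _ hCc0.ne']

end MP34a893
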