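import Mathlib.Analysis.Calculus.FDeriv.Partial
import Pool.Agent.MP_34a893_an.Scale
import Pool.Agent.MP_34a893_an.B.PortOsc
import Pool.Agent.MP_34a893_an.Block
import Pool.Agent.MP_34a893_an.B.PortVac
import Pool.Agent.MP_34a893_an.Har
import Pool.Agent.MP_34a893_an.B.Few
import Pool.Agent.MP_34a893_an.B.Rec
import Pool.Agent.MP_34a893_an.B.Strip
import Pool.Agent.MP_34a893_an.B.Cmp

-- ======== part 0: formerly Pool.Agent.MP_34a893_an.Step
section MrgPart0

/-! One-step facts of the chain. -/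

open MeasureTheory Set Filter Topology
open scoped ENNReal

namespace MP34a893

namespace Step

lemma cv {t h : ℝ} (hh : 0 < h) (F : ℝ → ℝ≥0∞) :
    ∫⁻ a in Icc (0 : ℝ) 1, ENNReal.ofReal h * F (t - h * a) = ∫⁻ τ in Ioc (t - h) t, F τ := by
  have e : (fun a => t - h * a) '' Icc (0 : ℝ) 1 = Icc (t - h) t := by
    ext τ
    constructor
    · rintro ⟨a, ⟨h0, h1⟩, rfl⟩
      constructor <;> nlinarith
    · rintro ⟨h0, h1⟩
      refine ⟨(t - τ) / h, ⟨div_nonneg (by linarith) hh.le, (div_le_one hh).2 (by linarith)⟩, ?_⟩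
      field_simp
      ring
  rw [setLIntegral_congr Ioc_ae_eq_Icc, ← e,
    lintegral_image_eq_lintegral_abs_deriv_mul measurableSet_Icc (f' := fun _ => -h)
      (fun a _ => by simpa using (((hasDerivAt_id a).const_mul h).const_sub t).hasDerivWithinAt)
      (fun a _ b _ e => mul_left_cancel₀ hh.ne' (sub_right_injective e))]
  simp only [abs_neg, abs_of_pos hh]

lemma coin {ρ : ℝ} (h0 : 0 ≤ ρ) (h1 : ρ ≤ 1) (A B : ℝ≥0∞) :
    ∫⁻ u in Icc (0 : ℝ) 1, (if u < ρ then A else B) =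
      ENNReal.ofReal ρ * A + ENNReal.ofReal (1 - ρ) * B := by
  rw [← Ico_union_Icc_eq_Icc h0 h1, lintegral_union measurableSet_Icc
    (Set.disjoint_left.2 fun u a b => not_le.2 a.2 b.1),
    setLIntegral_congr_fun measurableSet_Ico (g := fun _ => A) fun u hu => if_pos hu.2,
    setLIntegral_congr_fun measurableSet_Icc (g := fun _ => B) fun u hu => if_neg (not_lt.2 hu.1)]
  simp [mul_comm]

lemma bdd_int {α : Type} [MeasurableSpace α] {μ : Measure α} [IsFiniteMeasure μ] {f : α → ℝ}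
    (hf : Measurable f) {C : ℝ} (hC : ∀ x, |f x| ≤ C) : Integrable f μ :=
  Integrable.of_bound hf.aestronglyMeasurable C (ae_of_all _ hC)

lemma bdd_ii {f : ℝ → ℝ} (hf : Measurable f) {C : ℝ} (hC : ∀ x, |f x| ≤ C) (a b : ℝ) :
    IntervalIntegrable f volume a b := ⟨bdd_int hf hC, bdd_int hf hC⟩

variable {P : Par} {M : ℝ} {L : Lag P M} {t h : ℝ}

lemma g_mul {f : ℝ → ℝ} (hf : Measurable f) {C : ℝ} (hC : ∀ x, |f x| ≤ C) :
    IntegrableOn (fun s => P.g s * f s) (Ioi 0) :=
  P.hgi.integrableOn.mul_bdd hf.aestronglyMeasurable (ae_of_all _ hC)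

lemma lint_g (D : ℝ) : ∫⁻ s in Ioi D, ENNReal.ofReal (P.g s) = ENNReal.ofReal (P.k D) :=
  (ofReal_integral_eq_lintegral_ofReal P.hgi.integrableOn (ae_of_all _ P.hg0)).symm

lemma lint_noise {F : ℝ → ℝ≥0∞} (hF : Measurable F) :
    ∫⁻ s, F (max s 0) ∂((ENNReal.ofReal P.k0)⁻¹ •
      volume.withDensity (fun s => ENNReal.ofReal (P.g s))) =
      (ENNReal.ofReal P.k0)⁻¹ * ∫⁻ s in Ioi (0 : ℝ), ENNReal.ofReal (P.g s) * F s := by
  have h1 : Measurable fun s : ℝ => F (max s 0) := hF.comp (measurable_id.max measurable_const)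
  rw [lintegral_smul_measure, smul_eq_mul, lintegral_withDensity_eq_lintegral_mul _
    P.hg.ennreal_ofReal h1, ← lintegral_indicator measurableSet_Ioi]
  congr 2
  funext s
  by_cases c : 0 < s
  · simp [c, c.le]
  · simp [c, P.hgz s (not_lt.1 c)]

lemma jmp_cont (L : Lag P M) : Continuous (fun z : ℝ × ℝ × ℝ => L.jmp z.1 z.2.1 z.2.2) :=
  L.Y_cont.comp (continuous_fst.prodMk
    ((L.X_cont.comp (continuous_fst.prodMk continuous_snd.fst)).add continuous_snd.snd))

lemma jmp_meas (L : Lag P M) {α : Type} [MeasurableSpace α] {a b c : α → ℝ} (ha : Measurable a)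
    (hb : Measurable b) (hc : Measurable c) : Measurable fun x => L.jmp (a x) (b x) (c x) :=
  (jmp_cont L).measurable.comp (ha.prodMk (hb.prodMk hc))

lemma rate_m (hL : L.Facts) (y : ℝ) : Measurable fun τ => L.rate τ y :=
  hL.rate_meas.comp (measurable_id.prodMk measurable_const)

lemma rate_abs (hL : L.Facts) (y τ : ℝ) : |L.rate τ y| ≤ P.Th M := by
  rw [abs_of_nonneg (hL.rate_mem τ y).1]
  exact (hL.rate_mem τ y).2

lemma step_meas (hL : L.Facts) (t h : ℝ) :
    Measurable (fun z : ℝ × (ℝ × ℝ × ℝ) => L.step t h z.1 z.2) := by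
  have h1 : Measurable fun z : ℝ × (ℝ × ℝ × ℝ) => t - h * z.2.1 := by fun_prop
  refine Measurable.ite (measurableSet_lt (by fun_prop) ?_)
    (jmp_meas L h1 measurable_fst (by fun_prop)) measurable_fst
  exact ((hL.rate_meas.comp (h1.prodMk measurable_fst)).mul_const _).mul_const _

lemma step_m (hL : L.Facts) (t h y : ℝ) : Measurable (L.step t h y) :=
  (step_meas hL t h).comp (measurable_const.prodMk measurable_id)

lemma X_jmp (L : Lag P M) (τ y s : ℝ) : L.X τ (L.jmp τ y s) = L.X τ y + s := L.XY _ _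

lemma le_step (hL : L.Facts) (t h y : ℝ) (ξ : ℝ × ℝ × ℝ) : y ≤ L.step t h y ξ := by
  unfold Lag.step
  split_ifs
  · rw [← (hL.X_mono (t - h * ξ.1)).le_iff_le, X_jmp]
    simp
  · rfl

lemma lint (hP : P.Facts M) (hL : L.Facts) (hs : P.Small M h) (t y : ℝ) {φ : ℝ → ℝ≥0∞}
    (hφ : Measurable φ) : ∫⁻ ξ, φ (L.step t h y ξ) ∂P.noise =
      ENNReal.ofReal (1 - P.k0 * ∫ τ in (t - h)..t, L.rate τ y) * φ y +
        ∫⁻ τ in Ioc (t - h) t, ENNReal.ofReal (L.rate τ y) *
          ∫⁻ s in Ioi (0 : ℝ), ENNReal.ofReal (P.g s) * φ (L.jmp τ y s) := by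
  have hk := hP.k0_pos
  have hh := hs.1
  have hk1 : ENNReal.ofReal P.k0 ≠ 0 := by simpa using hk
  have hρ : ∀ τ, 0 ≤ L.rate τ y * P.k0 * h ∧ L.rate τ y * P.k0 * h ≤ 1 := fun τ => by
    have a := hL.rate_mem τ y
    have b := mul_le_mul_of_nonneg_right a.2 (mul_pos hk hh).le
    exact ⟨mul_nonneg (mul_nonneg a.1 hk.le) hh.le, by linarith [hs.2.2.1]⟩
  have hm : Measurable fun ξ => φ (L.step t h y ξ) := hφ.comp (step_m hL t h y)
  have e1 : ∀ a : ℝ, ∫⁻ z : ℝ × ℝ, φ (L.step t h y (a, z)) ∂(((ENNReal.ofReal P.k0)⁻¹ •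
      volume.withDensity (fun s => ENNReal.ofReal (P.g s))).prod
      (volume.restrict (Icc (0 : ℝ) 1))) =
      ENNReal.ofReal h * (ENNReal.ofReal (h⁻¹ - P.k0 * L.rate (t - h * a) y) * φ y +
        ENNReal.ofReal (L.rate (t - h * a) y) *
          ∫⁻ s in Ioi (0 : ℝ), ENNReal.ofReal (P.g s) * φ (L.jmp (t - h * a) y s)) := fun a => by
    have hm' : Measurable fun z : ℝ × ℝ => φ (L.step t h y (a, z)) :=
      hm.comp (measurable_const.prodMk measurable_id)
    rw [lintegral_prod _ hm'.aemeasurable]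
    have hj : Measurable fun s => φ (L.jmp (t - h * a) y s) :=
      hφ.comp (jmp_meas L measurable_const measurable_const measurable_id)
    simp only [Lag.step, apply_ite φ, coin (hρ _).1 (hρ _).2]
    rw [lint_noise (F := fun s => ENNReal.ofReal (L.rate (t - h * a) y * P.k0 * h) *
      φ (L.jmp (t - h * a) y s) + ENNReal.ofReal (1 - L.rate (t - h * a) y * P.k0 * h) * φ y)
      ((hj.const_mul _).add_const _)]
    simp only [mul_add]
    rw [lintegral_add_right _ (P.hg.ennreal_ofReal.mul_const _),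
      lintegral_mul_const _ P.hg.ennreal_ofReal, lint_g, mul_add, add_comm]
    simp only [mul_left_comm (ENNReal.ofReal (P.g _))]
    rw [lintegral_const_mul' _ _ ENNReal.ofReal_ne_top]
    congr 1
    · rw [← mul_assoc, show P.k 0 = P.k0 from rfl, ENNReal.inv_mul_cancel hk1 ENNReal.ofReal_ne_top,
        one_mul, ← mul_assoc, ← ENNReal.ofReal_mul hh.le]
      congr 2
      field_simp
    · rw [show L.rate (t - h * a) y * P.k0 * h = P.k0 * (h * L.rate (t - h * a) y) by ring,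
        ENNReal.ofReal_mul hk.le, ENNReal.ofReal_mul hh.le, ← mul_assoc, ← mul_assoc,
        ENNReal.inv_mul_cancel hk1 ENNReal.ofReal_ne_top, one_mul, mul_assoc]
  have hr := bdd_ii (rate_m hL y) (rate_abs hL y) (t - h) t
  have e2 : Measurable fun τ => h⁻¹ - P.k0 * L.rate τ y :=
    measurable_const.sub ((rate_m hL y).const_mul _)
  rw [Par.noise, lintegral_prod _ hm.aemeasurable]
  simp only [e1]
  rw [cv hh fun τ => ENNReal.ofReal (h⁻¹ - P.k0 * L.rate τ y) * φ y + ENNReal.ofReal (L.rate τ y) *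
    ∫⁻ s in Ioi (0 : ℝ), ENNReal.ofReal (P.g s) * φ (L.jmp τ y s),
    lintegral_add_left (e2.ennreal_ofReal.mul_const _), lintegral_mul_const _ e2.ennreal_ofReal,
    ← ofReal_integral_eq_lintegral_ofReal (intervalIntegrable_const.sub (hr.const_mul _)).1
      (ae_of_all _ fun τ => ?_), ← intervalIntegral.integral_of_le (by linarith),
    intervalIntegral.integral_sub intervalIntegrable_const (hr.const_mul _),
    intervalIntegral.integral_const_mul]
  · simp [hh.ne']
  · have := (hρ τ).2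
    rw [Pi.zero_apply, sub_nonneg, ← one_div, le_div_iff₀ hh]
    linarith

/-- bound for the jump part -/
lemma jump_le (hP : P.Facts M) (hL : L.Facts) (hs : P.Small M h) {t y r B : ℝ} {φ : ℝ → ℝ≥0∞}
    (hφ : Measurable φ) (h0 : φ y = 0) (hr : ∀ τ ∈ Icc (t - h) t, L.rate τ y ≤ r)
    (hB : ∀ τ ∈ Icc (t - h) t,
      ∫⁻ s in Ioi (0 : ℝ), ENNReal.ofReal (P.g s) * φ (L.jmp τ y s) ≤ ENNReal.ofReal B) :
    ∫⁻ ξ, φ (L.step t h y ξ) ∂P.noise ≤ ENNReal.ofReal (r * h * B) := by
  have r0 : 0 ≤ r := (hL.rate_mem t y).1.trans (hr t ⟨by linarith [hs.1], le_rfl⟩)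
  rw [lint hP hL hs t y hφ, h0, mul_zero, zero_add]
  refine (setLIntegral_mono' measurableSet_Ioc (g := fun _ => ENNReal.ofReal r * ENNReal.ofReal B)
    fun τ hτ => mul_le_mul' (ENNReal.ofReal_le_ofReal (hr τ (Ioc_subset_Icc_self hτ)))
      (hB τ (Ioc_subset_Icc_self hτ))).trans_eq ?_
  rw [setLIntegral_const, Real.volume_Ioc, sub_sub_cancel, ENNReal.ofReal_mul (mul_nonneg r0 hs.1.le),
    ENNReal.ofReal_mul r0, mul_right_comm]

lemma in_meas (L : Lag P M) (y : ℝ) {φ : ℝ → ℝ → ℝ} (hφ : Measurable (Function.uncurry φ)) :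
    Measurable fun τ => ∫ s in Ioi (0 : ℝ), P.g s * φ τ (L.jmp τ y s) :=
  (((P.hg.comp measurable_snd).mul (hφ.comp (measurable_fst.prodMk (jmp_meas L measurable_fst
    measurable_const measurable_snd)))).stronglyMeasurable.integral_prod_right'
    (ν := volume.restrict (Ioi (0 : ℝ)))).measurable

lemma in_abs (hP : P.Facts M) {f : ℝ → ℝ} {C : ℝ} (hC : ∀ x, |f x| ≤ C) :
    |∫ s in Ioi (0 : ℝ), P.g s * f s| ≤ P.k0 * C := by
  rw [← hP.g_int, ← integral_mul_const]
  rw [← Real.norm_eq_abs]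
  refine norm_integral_le_of_norm_le (P.hgi.integrableOn.mul_const C) (ae_of_all _ fun s => ?_)
  rw [Real.norm_eq_abs, abs_mul, abs_of_nonneg (P.hg0 s)]
  exact mul_le_mul_of_nonneg_left (hC s) (P.hg0 s)

lemma out_ii (hP : P.Facts M) (hL : L.Facts) (y : ℝ) {φ : ℝ → ℝ → ℝ}
    (hφ : Measurable (Function.uncurry φ)) {C : ℝ} (hC : ∀ τ x, |φ τ x| ≤ C) (a b : ℝ) :
    IntervalIntegrable (fun τ => L.rate τ y * ∫ s in Ioi (0 : ℝ), P.g s * φ τ (L.jmp τ y s))
      volume a b :=
  bdd_ii ((rate_m hL y).mul (in_meas L y hφ)) (C := P.Th M * (P.k0 * C)) (fun τ => by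
    rw [Pi.mul_apply, abs_mul]
    exact mul_le_mul (rate_abs hL y τ) (in_abs hP fun s => hC τ _) (abs_nonneg _)
      ((abs_nonneg _).trans (rate_abs hL y τ))) a b

lemma Pop_pos (hP : P.Facts M) (hL : L.Facts) (hs : P.Small M h) (t y : ℝ) {φ : ℝ → ℝ}
    (hφ : Measurable φ) {C : ℝ} (hC : ∀ x, |φ x| ≤ C) (h0 : ∀ x, 0 ≤ φ x) :
    L.Pop t h φ y = (1 - P.k0 * ∫ τ in (t - h)..t, L.rate τ y) * φ y +
      ∫ τ in (t - h)..t, L.rate τ y * ∫ s in Ioi (0 : ℝ), P.g s * φ (L.jmp τ y s) := by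
  have hh := hs.1
  have hI := out_ii hP hL y (φ := fun _ => φ) (hφ.comp measurable_snd) (fun _ => hC) (t - h) t
  have h1 : ∀ τ, 0 ≤ ∫ s in Ioi (0 : ℝ), P.g s * φ (L.jmp τ y s) := fun τ =>
    integral_nonneg fun s => mul_nonneg (P.hg0 s) (h0 _)
  have h2 : 0 ≤ 1 - P.k0 * ∫ τ in (t - h)..t, L.rate τ y := by
    have a := intervalIntegral.norm_integral_le_of_norm_le_const (a := t - h) (b := t)
      (f := fun τ => L.rate τ y) fun τ _ => rate_abs hL y τ
    rw [sub_sub_cancel, abs_of_pos hh] at a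
    have b := mul_le_mul_of_nonneg_left ((le_abs_self _).trans a) hP.k0_pos.le
    linarith [hs.2.2.1]
  have h3 : ∀ τ, 0 ≤ L.rate τ y * ∫ s in Ioi (0 : ℝ), P.g s * φ (L.jmp τ y s) := fun τ =>
    mul_nonneg (hL.rate_mem τ y).1 (h1 τ)
  have e : ∀ τ, ENNReal.ofReal (L.rate τ y) *
      ∫⁻ s in Ioi (0 : ℝ), ENNReal.ofReal (P.g s) * ENNReal.ofReal (φ (L.jmp τ y s)) =
      ENNReal.ofReal (L.rate τ y * ∫ s in Ioi (0 : ℝ), P.g s * φ (L.jmp τ y s)) := fun τ => by
    rw [ENNReal.ofReal_mul (hL.rate_mem τ y).1, ofReal_integral_eq_lintegral_ofReal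
      (g_mul (f := fun s => φ (L.jmp τ y s)) (hφ.comp (jmp_meas L measurable_const measurable_const
        measurable_id)) fun _ => hC _) (ae_of_all _ fun s => mul_nonneg (P.hg0 s) (h0 _))]
    simp only [ENNReal.ofReal_mul (P.hg0 _)]
  rw [Lag.Pop, integral_eq_lintegral_of_nonneg_ae (ae_of_all _ fun _ => h0 _)
    (hφ.comp (step_m hL t h y)).aestronglyMeasurable, lint hP hL hs t y hφ.ennreal_ofReal]
  simp only [e]
  rw [← ofReal_integral_eq_lintegral_ofReal hI.1 (ae_of_all _ h3),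
    ← intervalIntegral.integral_of_le (by linarith), ← ENNReal.ofReal_mul h2,
    ← ENNReal.ofReal_add (mul_nonneg h2 (h0 y))
      (intervalIntegral.integral_nonneg (by linarith) fun τ _ => h3 τ),
    ENNReal.toReal_ofReal (add_nonneg (mul_nonneg h2 (h0 y))
      (intervalIntegral.integral_nonneg (by linarith) fun τ _ => h3 τ))]

lemma Pop_lin (hP : P.Facts M) (hL : L.Facts) (t h a c e : ℝ) {φ ψ : ℝ → ℝ} (hφ : Measurable φ)
    (hψ : Measurable ψ) {C C' : ℝ} (hC : ∀ x, |φ x| ≤ C) (hC' : ∀ x, |ψ x| ≤ C') (y : ℝ) :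
    L.Pop t h (fun x => a * φ x + c * ψ x + e) y = a * L.Pop t h φ y + c * L.Pop t h ψ y + e := by
  have := hP.noise_prob
  have h1 : Integrable (fun ξ => a * φ (L.step t h y ξ)) P.noise :=
    (bdd_int (hφ.comp (step_m hL t h y)) fun _ => hC _).const_mul a
  have h2 : Integrable (fun ξ => c * ψ (L.step t h y ξ)) P.noise :=
    (bdd_int (hψ.comp (step_m hL t h y)) fun _ => hC' _).const_mul c
  have h3 : Integrable (fun ξ => a * φ (L.step t h y ξ) + c * ψ (L.step t h y ξ)) P.noise :=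
    h1.add h2
  simp only [Lag.Pop]
  rw [integral_add h3 (integrable_const e), integral_add h1 h2, integral_const_mul,
    integral_const_mul]
  simp

lemma Pop_eq (hP : P.Facts M) (hL : L.Facts) (hs : P.Small M h) (t y : ℝ) {φ : ℝ → ℝ}
    (hφ : Measurable φ) {C : ℝ} (hC : ∀ x, |φ x| ≤ C) :
    L.Pop t h φ y = φ y + ∫ τ in (t - h)..t, L.rate τ y *
      ∫ s in Ioi (0 : ℝ), P.g s * (φ (L.jmp τ y s) - φ y) := by
  have hψ : Measurable fun x => φ x + C := hφ.add_const C
  have hD : ∀ x, |φ x + C| ≤ C + |C| := fun x => (abs_add_le _ _).trans (by linarith [hC x])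
  have h1 := Pop_pos hP hL hs t y hψ hD fun x => by linarith [neg_abs_le (φ x), hC x]
  have h2 := Pop_lin hP hL t h 1 0 C hφ hφ hC hC y
  simp only [one_mul, zero_mul, add_zero] at h2
  have e : ∀ τ, L.rate τ y * ∫ s in Ioi (0 : ℝ), P.g s * (φ (L.jmp τ y s) - φ y) =
      L.rate τ y * (∫ s in Ioi (0 : ℝ), P.g s * (φ (L.jmp τ y s) + C)) -
        P.k0 * (φ y + C) * L.rate τ y := fun τ => by
    have a := g_mul (P := P) (f := fun s => φ (L.jmp τ y s) + C) (hψ.comp (jmp_meas L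
      measurable_const measurable_const measurable_id)) fun _ => hD _
    rw [← hP.g_int, ← integral_mul_const, mul_comm _ (L.rate τ y), ← mul_sub,
      ← integral_sub a (P.hgi.integrableOn.mul_const _)]
    congr 2
    funext s
    ring
  simp only [e]
  rw [intervalIntegral.integral_sub (out_ii hP hL y (φ := fun _ x => φ x + C)
    (hψ.comp measurable_snd) (fun _ => hD) _ _)
    ((bdd_ii (rate_m hL y) (rate_abs hL y) _ _).const_mul _), intervalIntegral.integral_const_mul]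
  linarith

lemma Pop_meas (hP : P.Facts M) (hL : L.Facts) (t h : ℝ) {φ : ℝ → ℝ} (hφ : Measurable φ) :
    Measurable (L.Pop t h φ) :=
  have := hP.noise_prob
  ((hφ.comp (step_meas hL t h)).stronglyMeasurable.integral_prod_right' (ν := P.noise)).measurable

lemma abs_of_mem {a c x : ℝ} (h : x ∈ Icc a c) : |x| ≤ |a| + |c| :=
  abs_le.2 ⟨by linarith [h.1, neg_abs_le a, abs_nonneg c],
    by linarith [h.2, le_abs_self c, abs_nonneg a]⟩

lemma Pop_mono (hP : P.Facts M) (hL : L.Facts) (t h : ℝ) {φ ψ : ℝ → ℝ} (hφ : Measurable φ)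
    (hψ : Measurable ψ) {C C' : ℝ} (hC : ∀ x, |φ x| ≤ C) (hC' : ∀ x, |ψ x| ≤ C')
    (H : ∀ x, φ x ≤ ψ x) (y : ℝ) : L.Pop t h φ y ≤ L.Pop t h ψ y :=
  have := hP.noise_prob
  integral_mono (bdd_int (hφ.comp (step_m hL t h y)) fun _ => hC _)
    (bdd_int (hψ.comp (step_m hL t h y)) fun _ => hC' _) fun _ => H _

lemma Pop_mem (hP : P.Facts M) (hL : L.Facts) (t h : ℝ) {a c : ℝ} {φ : ℝ → ℝ} (hφ : Measurable φ)
    (H : ∀ x, φ x ∈ Icc a c) (y : ℝ) : L.Pop t h φ y ∈ Icc a c := by
  have := hP.noise_prob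
  have e : ∀ b, L.Pop t h (fun _ => b) y = b := fun b => by simp [Lag.Pop]
  exact ⟨(e a).ge.trans (Pop_mono hP hL t h measurable_const hφ (fun _ => le_rfl)
    (fun x => abs_of_mem (H x)) (fun x => (H x).1) y), (Pop_mono hP hL t h hφ measurable_const
    (fun x => abs_of_mem (H x)) (fun _ => le_rfl) (fun x => (H x).2) y).trans (e c).le⟩

lemma Pit_meas (hP : P.Facts M) (hL : L.Facts) (h : ℝ) (n : ℕ) {φ : ℝ → ℝ} (hφ : Measurable φ) :
    ∀ t, Measurable (L.Pit h n t φ) := by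
  induction n with
  | zero => exact fun _ => hφ
  | succ n ih => exact fun t => Pop_meas hP hL t h (ih _)

lemma Pit_mem (hP : P.Facts M) (hL : L.Facts) (h : ℝ) (n : ℕ) {a c : ℝ} {φ : ℝ → ℝ}
    (hφ : Measurable φ) (H : ∀ x, φ x ∈ Icc a c) : ∀ t y, L.Pit h n t φ y ∈ Icc a c := by
  induction n with
  | zero => exact fun _ => H
  | succ n ih => exact fun t => Pop_mem hP hL t h (Pit_meas hP hL h n hφ _) (ih _)

lemma Pit_abs (hP : P.Facts M) (hL : L.Facts) (h : ℝ) (n : ℕ) {C : ℝ} {φ : ℝ → ℝ}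
    (hφ : Measurable φ) (H : ∀ x, |φ x| ≤ C) (t y : ℝ) : |L.Pit h n t φ y| ≤ C :=
  abs_le.2 (Pit_mem hP hL h n hφ (fun x => abs_le.1 (H x)) t y)

lemma Pit_mono (hP : P.Facts M) (hL : L.Facts) (h : ℝ) (n : ℕ) {φ ψ : ℝ → ℝ} (hφ : Measurable φ)
    (hψ : Measurable ψ) {C C' : ℝ} (hC : ∀ x, |φ x| ≤ C) (hC' : ∀ x, |ψ x| ≤ C')
    (H : ∀ x, φ x ≤ ψ x) : ∀ t y, L.Pit h n t φ y ≤ L.Pit h n t ψ y := by
  induction n with
  | zero => exact fun _ => H
  | succ n ih =>
    exact fun t => Pop_mono hP hL t h (Pit_meas hP hL h n hφ _) (Pit_meas hP hL h n hψ _)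
      (Pit_abs hP hL h n hφ hC _) (Pit_abs hP hL h n hψ hC' _) (ih _)

lemma Pit_lin (hP : P.Facts M) (hL : L.Facts) (h : ℝ) (n : ℕ) (a c e : ℝ) {φ ψ : ℝ → ℝ}
    (hφ : Measurable φ) (hψ : Measurable ψ) {C C' : ℝ} (hC : ∀ x, |φ x| ≤ C)
    (hC' : ∀ x, |ψ x| ≤ C') : ∀ t y, L.Pit h n t (fun x => a * φ x + c * ψ x + e) y =
      a * L.Pit h n t φ y + c * L.Pit h n t ψ y + e := by
  induction n with
  | zero => exact fun _ _ => rfl
  | succ n ih =>
    intro t y
    rw [Lag.Pit, funext (ih (t - h))]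
    exact Pop_lin hP hL t h a c e (Pit_meas hP hL h n hφ _) (Pit_meas hP hL h n hψ _)
      (Pit_abs hP hL h n hφ hC _) (Pit_abs hP hL h n hψ hC' _) y

lemma Pit_succ (L : Lag P M) (h : ℝ) (n : ℕ) (φ : ℝ → ℝ) :
    ∀ t, L.Pit h (n + 1) t φ = L.Pit h n t (L.Pop (t - n * h) h φ) := by
  induction n with
  | zero => intro t; simp [Lag.Pit]
  | succ n ih =>
    intro t
    rw [Lag.Pit, ih, show t - h - n * h = t - (n + 1 : ℕ) * h by push_cast; ring]
    rfl

lemma U_m (hL : L.Facts) (t : ℝ) : Measurable (L.U t) :=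
  hL.U_meas.comp (measurable_const.prodMk measurable_id)

lemma U_mem (hL : L.Facts) (t y : ℝ) : L.U t y ∈ Icc 0 (P.N M) := ⟨hL.u_nonneg _ _, L.u_le _ _⟩

lemma U_abs (hL : L.Facts) (t y : ℝ) : |L.U t y| ≤ P.N M := by
  rw [abs_of_nonneg (U_mem hL t y).1]
  exact (U_mem hL t y).2

lemma U_sub (hL : L.Facts) (t y t' y' : ℝ) : |L.U t y - L.U t' y'| ≤ P.N M := by
  have a := U_mem hL t y
  have b := U_mem hL t' y'
  exact abs_le.2 ⟨by linarith [a.1, b.2], by linarith [a.2, b.1]⟩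

lemma w_meas (hP : P.Facts M) (hL : L.Facts) (t h : ℝ) (n : ℕ) : Measurable (L.w t h n) := by
  have h2 := (U_m hL (t - n * h)).pow_const 2
  have e : L.w t h n = fun y => 1 * L.Pit h n t (fun x => L.U (t - n * h) x ^ 2) y +
      -2 * L.U t y * L.Pit h n t (L.U (t - n * h)) y + L.U t y ^ 2 := funext fun y => by
    rw [← Pit_lin hP hL h n _ _ _ h2 (U_m hL _) (C := P.N M ^ 2) (fun x => by
      rw [abs_pow]; exact pow_le_pow_left₀ (abs_nonneg _) (U_abs hL _ x) 2) (U_abs hL _), Lag.w]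
    congr 1
    funext x
    ring
  rw [e]
  exact (((Pit_meas hP hL h n h2 t).const_mul 1).add (((U_m hL t).const_mul _).mul
    (Pit_meas hP hL h n (U_m hL _) t))).add ((U_m hL t).pow_const 2)

lemma mart (hP : P.Facts M) (hL : L.Facts) (hs : P.Small M h) (h1 : h ≤ t) (h2 : t ≤ L.T) (y : ℝ) :
    |L.Pop t h (L.U (t - h)) y - L.U t y| ≤ P.E1 M * h ^ 2 := by
  have hh := hs.1
  have m1 : t - h ∈ Icc 0 L.T := ⟨by linarith, by linarith⟩
  have i1 := out_ii hP hL y (φ := fun _ x => L.U (t - h) x - L.U (t - h) y)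
    (((U_m hL _).comp measurable_snd).sub_const _) (fun _ _ => U_sub hL _ _ _ _) (t - h) t
  have i2 := out_ii hP hL y (φ := fun τ x => L.U τ x - L.U τ y) (hL.U_meas.sub
    (hL.U_meas.comp (measurable_fst.prodMk measurable_const))) (fun _ _ => U_sub hL _ _ _ _) (t - h) t
  have g1 : ∀ τ τ', IntegrableOn (fun s => P.g s * (L.U τ' (L.jmp τ y s) - L.U τ' y)) (Ioi 0) :=
    fun τ τ' => g_mul (((U_m hL τ').comp (jmp_meas L measurable_const measurable_const
      measurable_id)).sub_const _) fun _ => U_sub hL _ _ _ _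
  have e : ∀ τ, L.G τ (L.X τ y) - P.k0 * L.U τ y =
      ∫ s in Ioi (0 : ℝ), P.g s * (L.U τ (L.jmp τ y s) - L.U τ y) := fun τ => by
    simp only [mul_sub]
    rw [integral_sub (g_mul (f := fun s => L.U τ (L.jmp τ y s)) ((U_m hL τ).comp (jmp_meas L
      measurable_const measurable_const measurable_id)) fun _ => U_abs hL _ _)
      (P.hgi.integrableOn.mul_const _), integral_mul_const, hP.g_int]
    simp only [Lag.U, X_jmp, Lag.G]
  have e2 := hL.U_int y _ m1 t ⟨by linarith, h2⟩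
  simp only [e] at e2
  rw [Pop_eq hP hL hs t y (U_m hL _) (U_abs hL _), add_comm, add_sub_assoc,
    ← neg_sub (L.U t y), e2,
    ← sub_eq_add_neg, ← intervalIntegral.integral_sub i1 i2, ← Real.norm_eq_abs]
  refine (intervalIntegral.norm_integral_le_of_norm_le_const
    (C := P.Th M * (P.k0 * (2 * (P.Th M * P.k0 * P.N M * h)))) fun τ hτ => ?_).trans_eq ?_
  · rw [uIoc_of_le (by linarith)] at hτ
    have m2 : τ ∈ Icc 0 L.T := ⟨by linarith [hτ.1], by linarith [hτ.2]⟩
    have k1 : ∀ x, |L.U (t - h) x - L.U τ x| ≤ P.Th M * P.k0 * P.N M * h := fun x =>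
      (hL.U_lip x _ m1 τ m2).trans (mul_le_mul_of_nonneg_left
        (abs_le.2 ⟨by linarith [hτ.2], by linarith [hτ.1]⟩) (mul_nonneg (mul_nonneg
          ((abs_nonneg _).trans (rate_abs hL y τ)) hP.k0_pos.le) hP.N_pos.le))
    rw [← mul_sub, ← integral_sub (g1 _ _) (g1 _ _), Real.norm_eq_abs, abs_mul]
    simp only [← mul_sub]
    refine mul_le_mul (rate_abs hL y τ) (in_abs hP fun s => ?_) (abs_nonneg _)
      ((abs_nonneg _).trans (rate_abs hL y τ))
    have a := abs_le.1 (k1 (L.jmp τ y s))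
    have b := abs_le.1 (k1 y)
    exact abs_le.2 ⟨by linarith [a.1, b.2], by linarith [a.2, b.1]⟩
  · rw [sub_sub_cancel, abs_of_pos hh, Par.E1]
    ring

lemma mart_it (hP : P.Facts M) (hL : L.Facts) (hs : P.Small M h) (n : ℕ) :
    ∀ t, n * h ≤ t → t ≤ L.T → ∀ y,
      |L.Pit h n t (L.U (t - n * h)) y - L.U t y| ≤ n * (P.E1 M * h ^ 2) := by
  induction n with
  | zero => intro t _ _ y; simp [Lag.Pit]
  | succ n ih =>
    intro t h1 h2 y
    have hh := hs.1
    have hn : (0 : ℝ) ≤ n * h := by positivity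
    push_cast at h1 ⊢
    have a := ih (t - h) (by linarith) (by linarith)
    have b := abs_le.1 (mart hP hL hs (by linarith) h2 y)
    rw [show t - h - n * h = t - (n + 1) * h by ring] at a
    have hm := Pit_meas hP hL h n (U_m hL (t - (n + 1) * h)) (t - h)
    have ha := Pit_abs hP hL h n (U_m hL (t - (n + 1) * h)) (U_abs hL _) (t - h)
    have c := Pop_mem hP hL t h (φ := fun x => 1 * L.Pit h n (t - h) (L.U (t - (n + 1) * h)) x +
      -1 * L.U (t - h) x + 0) (((hm.const_mul _).add ((U_m hL _).const_mul _)).add_const _)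
      (fun x => abs_le.1 (by simpa [sub_eq_add_neg] using a x)) y
    rw [Pop_lin hP hL t h _ _ _ hm (U_m hL _) ha (U_abs hL _)] at c
    rw [Lag.Pit]
    exact abs_le.2 ⟨by linarith [c.1, b.1], by linarith [c.2, b.2]⟩

lemma shift (hL : L.Facts) (τ s : ℝ) {φ : ℝ → ℝ≥0∞} (hφ : Measurable φ) :
    ∫⁻ y, φ (L.jmp τ y s) * ENNReal.ofReal (L.j τ y) = ∫⁻ y, φ y * ENNReal.ofReal (L.j τ y) := by
  have hj : Measurable fun y => ENNReal.ofReal (L.j τ y) :=
    (L.j_meas.comp (measurable_const.prodMk measurable_id)).ennreal_ofReal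
  have hY : Measurable (L.Y τ) := L.Y_cont.measurable.comp (measurable_const.prodMk measurable_id)
  have e : ∀ F : ℝ → ℝ≥0∞, Measurable F →
      ∫⁻ y, F y * ENNReal.ofReal (L.j τ y) = ∫⁻ x, F (L.Y τ x) := fun F hF => by
    rw [← lintegral_map hF hY, hL.cov, lintegral_withDensity_eq_lintegral_mul _ hj hF]
    simp only [Pi.mul_apply, mul_comm]
  rw [e _ hφ, e (fun y => φ (L.jmp τ y s))
    (hφ.comp (jmp_meas L measurable_const measurable_id measurable_const))]
  simp only [Lag.jmp, L.XY]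
  exact lintegral_add_right_eq_self (fun x => φ (L.Y τ x)) s

lemma leb (hP : P.Facts M) (hL : L.Facts) (hs : P.Small M h) (h1 : h ≤ t) (h2 : t ≤ L.T)
    {A : Set ℝ} (hA : MeasurableSet A) {r : ℝ} (r0 : 0 ≤ r)
    (hr : ∀ y ∈ A, ∀ τ ∈ Icc (t - h) t, L.rate τ y ≤ r) {φ : ℝ → ℝ≥0∞} (hφ : Measurable φ) :
    ∫⁻ y in A, (∫⁻ ξ, φ (L.step t h y ξ) ∂P.noise) * ENNReal.ofReal (L.j (t - h) y) ≤
      ENNReal.ofReal (1 + 2 * r * P.k0 * h) * ∫⁻ y, φ y * ENNReal.ofReal (L.j (t - h) y) := by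
  have hh := hs.1
  have hk := hP.k0_pos
  have m1 : t - h ∈ Icc 0 L.T := ⟨by linarith, by linarith⟩
  have hj : ∀ τ, Measurable fun y => ENNReal.ofReal (L.j τ y) := fun τ =>
    (L.j_meas.comp (measurable_const.prodMk measurable_id)).ennreal_ofReal
  set I := ∫⁻ y, φ y * ENNReal.ofReal (L.j (t - h) y)
  set c := ENNReal.ofReal (Real.exp (1 / 4))
  have hC : 0 ≤ P.C0 M := (hL.bG_mem 0 0).1.trans (hL.bG_mem 0 0).2
  have k0 : ∀ a ∈ Icc (t - h) t, ∀ b ∈ Icc (t - h) t, ∀ y,
      ENNReal.ofReal (L.j a y) ≤ c * ENNReal.ofReal (L.j b y) := fun a ha b hb y => by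
    rw [← ENNReal.ofReal_mul (Real.exp_pos _).le]
    refine ENNReal.ofReal_le_ofReal ((hL.j_ratio y a ⟨by linarith [ha.1], by linarith [ha.2]⟩ b
      ⟨by linarith [hb.1], by linarith [hb.2]⟩).trans (mul_le_mul_of_nonneg_right
        (Real.exp_le_exp.2 ?_) (L.j_pos b y).le))
    exact (mul_le_mul_of_nonneg_left (abs_le.2 ⟨by linarith [ha.1, hb.2], by linarith [ha.2, hb.1]⟩)
      hC).trans hs.2.2.2
  have cc : c * c ≤ 2 := by
    rw [← ENNReal.ofReal_mul (Real.exp_pos _).le, ← Real.exp_add, ← ENNReal.ofReal_ofNat]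
    refine ENNReal.ofReal_le_ofReal ((Real.exp_bound_div_one_sub_of_interval (by norm_num)
      (by norm_num)).trans (by norm_num))
  have m0 : t - h ∈ Icc (t - h) t := ⟨le_rfl, by linarith⟩
  have k1 : ∀ τ ∈ Icc (t - h) t, ∀ s,
      ∫⁻ y, φ (L.jmp τ y s) * ENNReal.ofReal (L.j (t - h) y) ≤ 2 * I := fun τ hτ s => by
    calc _ ≤ ∫⁻ y, c * (φ (L.jmp τ y s) * ENNReal.ofReal (L.j τ y)) := lintegral_mono fun y => by
          rw [mul_left_comm]
          exact mul_le_mul_right (k0 _ m0 τ hτ y) _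
      _ = c * ∫⁻ y, φ y * ENNReal.ofReal (L.j τ y) := by
          rw [lintegral_const_mul' _ _ ENNReal.ofReal_ne_top, shift hL τ s hφ]
      _ ≤ c * ∫⁻ y, c * (φ y * ENNReal.ofReal (L.j (t - h) y)) :=
          mul_le_mul_right (lintegral_mono fun y => by
            rw [mul_left_comm]
            exact mul_le_mul_right (k0 τ hτ _ m0 y) _) _
      _ ≤ _ := by
          rw [lintegral_const_mul' _ _ ENNReal.ofReal_ne_top, ← mul_assoc]
          exact mul_le_mul_left cc _
  have mF : Measurable fun z : (ℝ × ℝ) × ℝ => ENNReal.ofReal (P.g z.2) *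
      (φ (L.jmp z.1.2 z.1.1 z.2) * ENNReal.ofReal (L.j (t - h) z.1.1)) :=
    (P.hg.comp measurable_snd).ennreal_ofReal.mul ((hφ.comp (jmp_meas L measurable_fst.snd
      measurable_fst.fst measurable_snd)).mul ((hj _).comp measurable_fst.fst))
  calc _ ≤ ∫⁻ y in A, (φ y * ENNReal.ofReal (L.j (t - h) y) + ENNReal.ofReal r *
        ∫⁻ τ in Ioc (t - h) t, ∫⁻ s in Ioi (0 : ℝ), ENNReal.ofReal (P.g s) *
          (φ (L.jmp τ y s) * ENNReal.ofReal (L.j (t - h) y))) := by
        refine setLIntegral_mono' hA fun y hy => ?_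
        rw [lint hP hL hs t y hφ, add_mul]
        refine add_le_add (mul_le_mul_left (mul_le_of_le_one_left' (ENNReal.ofReal_le_one.2
          (sub_le_self _ (mul_nonneg hk.le (intervalIntegral.integral_nonneg (by linarith)
            fun τ _ => (hL.rate_mem τ y).1))))) _) ?_
        simp only [← mul_assoc]
        simp only [lintegral_mul_const' _ _ ENNReal.ofReal_ne_top]
        rw [← mul_assoc, ← lintegral_const_mul' _ _ ENNReal.ofReal_ne_top]
        exact mul_le_mul_left (setLIntegral_mono' measurableSet_Ioc fun τ hτ => mul_le_mul_left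
          (ENNReal.ofReal_le_ofReal (hr y hy τ (Ioc_subset_Icc_self hτ))) _) _
    _ ≤ I + ENNReal.ofReal r * ∫⁻ τ in Ioc (t - h) t, ∫⁻ s in Ioi (0 : ℝ), ENNReal.ofReal (P.g s) *
          ∫⁻ y, φ (L.jmp τ y s) * ENNReal.ofReal (L.j (t - h) y) := by
        refine (setLIntegral_le_lintegral _ _).trans_eq ?_
        have m2 : Measurable fun y => φ y * ENNReal.ofReal (L.j (t - h) y) := hφ.mul (hj _)
        rw [lintegral_add_left m2, lintegral_const_mul' _ _ ENNReal.ofReal_ne_top,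
          lintegral_lintegral_swap (f := fun y τ => ∫⁻ s in Ioi (0 : ℝ), ENNReal.ofReal (P.g s) *
            (φ (L.jmp τ y s) * ENNReal.ofReal (L.j (t - h) y)))
            mF.lintegral_prod_right'.aemeasurable]
        congr 3
        funext τ
        rw [lintegral_lintegral_swap (f := fun y s => ENNReal.ofReal (P.g s) *
          (φ (L.jmp τ y s) * ENNReal.ofReal (L.j (t - h) y)))
          (mF.comp ((measurable_fst.prodMk measurable_const).prodMk measurable_snd)).aemeasurable]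
        simp only [lintegral_const_mul' _ _ ENNReal.ofReal_ne_top]
    _ ≤ I + ENNReal.ofReal r * ∫⁻ _ in Ioc (t - h) t, ENNReal.ofReal P.k0 * (2 * I) := by
        refine add_le_add_right (mul_le_mul_right (setLIntegral_mono' measurableSet_Ioc
          fun τ hτ => ?_) _) _
        refine (lintegral_mono fun s => mul_le_mul_right (k1 τ (Ioc_subset_Icc_self hτ) s) _).trans_eq ?_
        rw [lintegral_mul_const _ P.hg.ennreal_ofReal, lint_g]
        rfl
    _ = _ := by
        rw [setLIntegral_const, Real.volume_Ioc, sub_sub_cancel, ENNReal.ofReal_add zero_le_one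
          (by positivity), ENNReal.ofReal_mul (by positivity), ENNReal.ofReal_mul (by positivity),
          ENNReal.ofReal_mul (by positivity), ENNReal.ofReal_one, ENNReal.ofReal_ofNat]
        ring

lemma disp (hP : P.Facts M) (hL : L.Facts) (hs : P.Small M h) (h1 : h ≤ t) (h2 : t ≤ L.T)
    {y r : ℝ} (hr : ∀ τ ∈ Icc (t - h) t, L.rate τ y ≤ r) :
    ∫⁻ ξ, ENNReal.ofReal (L.X (t - h) (L.step t h y ξ) - L.X (t - h) y) ∂P.noise ≤
      ENNReal.ofReal (r * h * (1 + P.k0 * P.DV M)) := by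
  have hh := hs.1
  have hD : 0 ≤ P.DV M := mul_nonneg hP.bm_nonneg hP.N_pos.le
  refine jump_le hP hL hs (φ := fun x => ENNReal.ofReal (L.X (t - h) x - L.X (t - h) y))
    ((L.X_cont.measurable.comp (measurable_const.prodMk measurable_id)).sub_const _).ennreal_ofReal
    (by simp) hr fun τ hτ => ?_
  have i1 : IntegrableOn (fun s => s * P.g s + P.g s * P.DV M) (Ioi 0) :=
    hP.sg_int.add (P.hgi.integrableOn.mul_const (P.DV M))
  have e : ∫ s in Ioi (0 : ℝ), (s * P.g s + P.g s * P.DV M) = 1 + P.k0 * P.DV M := by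
    rw [integral_add hP.sg_int (P.hgi.integrableOn.mul_const _), integral_mul_const, hP.g_int,
      hP.sg_one]
  rw [← e, ofReal_integral_eq_lintegral_ofReal i1 ((ae_restrict_iff' measurableSet_Ioi).2
    (ae_of_all _ fun s hs => add_nonneg (mul_nonneg (le_of_lt hs) (P.hg0 s))
      (mul_nonneg (P.hg0 s) hD)))]
  refine lintegral_mono fun s => ?_
  rw [← ENNReal.ofReal_mul (P.hg0 s)]
  refine ENNReal.ofReal_le_ofReal ?_
  have a := hL.dist_add y (L.jmp τ y s) τ ⟨by linarith [hτ.1], by linarith [hτ.2]⟩ (t - h)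
    ⟨by linarith, by linarith⟩
  have b : P.DV M * |τ - (t - h)| ≤ P.DV M := mul_le_of_le_one_right hD
    (abs_le.2 ⟨by linarith [hτ.1], by linarith [hτ.2, hs.2.1]⟩)
  rw [X_jmp] at a
  refine (mul_le_mul_of_nonneg_left (show _ ≤ s + P.DV M by linarith) (P.hg0 s)).trans_eq ?_
  ring

lemma prob_eq (hL : L.Facts) (t h y : ℝ) {B : Set ℝ} (hB : MeasurableSet B) :
    P.noise {ξ | L.step t h y ξ ∈ B} = ∫⁻ ξ, B.indicator 1 (L.step t h y ξ) ∂P.noise :=
  (lintegral_indicator_one (step_m hL t h y hB)).symm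

lemma jump_prob (hP : P.Facts M) (hL : L.Facts) (hs : P.Small M h) {y r : ℝ}
    (hr : ∀ τ ∈ Icc (t - h) t, L.rate τ y ≤ r) :
    P.noise {ξ | L.step t h y ξ ≠ y} ≤ ENNReal.ofReal (r * P.k0 * h) := by
  have hB := (measurableSet_singleton y).compl
  rw [mul_right_comm]
  refine (prob_eq hL t h y hB).trans_le (jump_le hP hL hs (measurable_one.indicator hB) (by simp)
    hr fun τ _ => (lintegral_mono fun s => ?_).trans_eq (lint_g 0))
  exact mul_le_of_le_one_right' (indicator_le_self _ _ _)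

lemma cross (hP : P.Facts M) (hL : L.Facts) (hs : P.Small M h) (h1 : h ≤ t) (h2 : t ≤ L.T)
    {y y' : ℝ} (hy : y ≤ y') : P.noise {ξ | y' < L.step t h y ξ} ≤
      ENNReal.ofReal (P.Th M * h * P.k (L.X t y' - L.X t y - P.DV M * h)) := by
  have hB : MeasurableSet (Ioi y') := measurableSet_Ioi
  have hh := hs.1
  have hD : 0 ≤ P.DV M := mul_nonneg hP.bm_nonneg hP.N_pos.le
  refine (prob_eq hL t h y hB).trans_le (jump_le hP hL hs (measurable_one.indicator hB)
    (by simp [hy]) (fun τ _ => (hL.rate_mem τ y).2) fun τ hτ => ?_)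
  rw [← lint_g, ← lintegral_indicator measurableSet_Ioi (s := Ioi (_ - _))]
  refine (setLIntegral_le_lintegral _ _).trans (lintegral_mono fun s => ?_)
  by_cases c : L.jmp τ y s ∈ Ioi y'
  · have a := hL.dist_add y y' τ ⟨by linarith [hτ.1], by linarith [hτ.2]⟩ t ⟨by linarith, h2⟩
    have b : P.DV M * |τ - t| ≤ P.DV M * h := mul_le_mul_of_nonneg_left
      (abs_le.2 ⟨by linarith [hτ.1], by linarith [hτ.2]⟩) hD
    have d := hL.X_mono τ c
    rw [X_jmp] at d
    rw [indicator_of_mem c, indicator_of_mem (show s ∈ Ioi _ from mem_Ioi.2 (by linarith))]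
    simp
  · simp [c]

end Step

open Step in
theorem stepS : ParFactsS → LagFactsS → StepS := fun h1 h2 P M L hM =>
  have hP := h1 P M hM
  have hL := h2 P M L hM
  { step_meas := step_meas hL
    jmp_cont := jmp_cont L
    le_step := le_step hL
    lint := fun t _ hs y _ hφ => lint hP hL hs t y hφ
    Pop_eq := fun t _ hs y _ hφ ⟨_, hC⟩ => Pop_eq hP hL hs t y hφ hC
    Pop_meas := fun t h _ hφ => Pop_meas hP hL t h hφ
    Pit_meas := fun h n t _ hφ => Pit_meas hP hL h n hφ t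
    Pit_mem := fun h n t _ _ _ hφ H => Pit_mem hP hL h n hφ H t
    Pit_mono := fun h n t _ _ hφ hψ ⟨_, hC⟩ ⟨_, hC'⟩ H => Pit_mono hP hL h n hφ hψ hC hC' H t
    Pit_lin := fun h n t a c e _ _ hφ hψ ⟨_, hC⟩ ⟨_, hC'⟩ => Pit_lin hP hL h n a c e hφ hψ hC hC' t
    Pit_succ := fun h n t φ => Pit_succ L h n φ t
    w_meas := w_meas hP hL
    w_mem := fun t h n y => Pit_mem hP hL h n (((U_m hL _).sub_const _).pow_const 2)
      (fun _ => ⟨sq_nonneg _, sq_le_sq' (abs_le.1 (U_sub hL _ _ _ _)).1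
        (abs_le.1 (U_sub hL _ _ _ _)).2⟩) t y
    mart := fun _ _ hs a b => mart hP hL hs a b
    mart_it := fun _ n t hs => mart_it hP hL hs n t
    leb := fun _ _ hs a b _ hA _ r0 hr _ hφ => leb hP hL hs a b hA r0 hr hφ
    disp := fun _ _ hs a b _ _ hr => disp hP hL hs a b hr
    jump_prob := fun _ _ hs _ _ hr => jump_prob hP hL hs hr
    cross := fun _ _ hs a b _ _ hy => cross hP hL hs a b hy }

end MP34a893

end MrgPart0

-- ======== part 1: formerly Pool.Agent.MP_34a893_an.Law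
section MrgPart1

open MeasureTheory Set Filter Topology
open scoped ENNReal

namespace MP34a893

namespace LawA

variable {P : Par} {M : ℝ} {L : Lag P M}

theorem succ (hP : P.Facts M) (hS : L.Step) (t h : ℝ) (μ0 : Measure ℝ) (n : ℕ) (φ : ℝ → ℝ≥0∞)
    (hφ : Measurable φ) :
    ∫⁻ y, φ y ∂(L.law t h μ0 (n + 1)) =
      ∫⁻ y, (∫⁻ ξ, φ (L.step (t - n * h) h y ξ) ∂P.noise) ∂(L.law t h μ0 n) := by
  have := hP.noise_prob
  have := lintegral_evolve_succ P.noise (fun i z => L.step (t - i * h) h z.1 z.2) (fun _ => univ)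
    μ0 n (hS.step_meas _ _) MeasurableSet.univ φ hφ
  simpa [Lag.law] using this

theorem mass (hP : P.Facts M) (hS : L.Step) (t h : ℝ) (μ0 : Measure ℝ) (n : ℕ) :
    L.law t h μ0 n univ = μ0 univ := by
  have := hP.noise_prob
  induction n with
  | zero => rfl
  | succ n ih =>
    have := succ hP hS t h μ0 n (fun _ => 1) measurable_const
    simpa [ih] using this

theorem fin (hP : P.Facts M) (hS : L.Step) (t h : ℝ) (μ0 : Measure ℝ) (hμ : IsFiniteMeasure μ0)
    (n : ℕ) : IsFiniteMeasure (L.law t h μ0 n) :=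
  ⟨by rw [mass hP hS]; exact measure_lt_top _ _⟩

theorem prob (hP : P.Facts M) (hS : L.Step) (t h : ℝ) (μ0 : Measure ℝ)
    (hμ : IsProbabilityMeasure μ0) (n : ℕ) : IsProbabilityMeasure (L.law t h μ0 n) :=
  ⟨by rw [mass hP hS]; exact measure_univ⟩

theorem Xc (L : Lag P M) (t : ℝ) : Continuous (L.X t) := L.X_cont.uncurry_left t
theorem Yc (L : Lag P M) (t : ℝ) : Continuous (L.Y t) := L.Y_cont.uncurry_left t

theorem intg {α : Type} [MeasurableSpace α] (μ : Measure α) [IsFiniteMeasure μ] {φ : α → ℝ}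
    (hφ : Measurable φ) {C : ℝ} (hC : ∀ x, |φ x| ≤ C) : Integrable φ μ :=
  Integrable.of_bound hφ.aestronglyMeasurable C (Eventually.of_forall hC)

theorem intg' {α : Type} [MeasurableSpace α] (μ : Measure α) [IsFiniteMeasure μ] {φ : α → ℝ}
    (hφ : Measurable φ) {a c : ℝ} (hC : ∀ x, φ x ∈ Icc a c) : Integrable φ μ :=
  intg μ hφ (C := |a| + |c|) fun x => by
    have := hC x
    rw [abs_le]
    constructor <;> linarith [this.1, this.2, le_abs_self c, neg_abs_le a, abs_nonneg a, abs_nonneg c]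

theorem succR (hP : P.Facts M) (hS : L.Step) (t h : ℝ) (μ0 : Measure ℝ)
    (hμ : IsFiniteMeasure μ0) (n : ℕ) (φ : ℝ → ℝ) (hφ : Measurable φ) {C : ℝ}
    (hC : ∀ x, |φ x| ≤ C) :
    ∫ y, φ y ∂(L.law t h μ0 (n + 1)) = ∫ y, L.Pop (t - n * h) h φ y ∂(L.law t h μ0 n) := by
  have := hP.noise_prob
  have := fin hP hS t h μ0 hμ n
  have hF := hS.step_meas (t - n * h) h
  have e : L.law t h μ0 (n + 1) = ((L.law t h μ0 n).prod P.noise).map
      (fun z => L.step (t - n * h) h z.1 z.2) := by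
    simp [Lag.law, evolve]
  rw [e, integral_map hF.aemeasurable hφ.aestronglyMeasurable]
  exact integral_prod _ (intg _ (hφ.comp hF) (C := C) fun z => hC _)

theorem add (hP : P.Facts M) (hS : L.Step) (t h : ℝ) (μ0 : Measure ℝ) (hμ : IsFiniteMeasure μ0)
    (n n' : ℕ) : ∀ φ : ℝ → ℝ, Measurable φ → (∃ C, ∀ x, |φ x| ≤ C) →
    ∫ y, φ y ∂(L.law t h μ0 (n + n')) = ∫ y, L.Pit h n' (t - n * h) φ y ∂(L.law t h μ0 n) := by
  induction n' with
  | zero => intro φ _ _; rfl
  | succ k ih =>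
    rintro φ hφ ⟨C, hC⟩
    rw [← Nat.add_assoc, succR hP hS t h μ0 hμ (n + k) φ hφ hC, hS.Pit_succ,
      ih _ (hS.Pop_meas _ _ _ hφ)]
    · have : t - ((n + k : ℕ) : ℝ) * h = t - n * h - k * h := by push_cast; ring
      rw [this]
    · refine ⟨C, fun x => abs_le.2 ?_⟩
      exact hS.Pit_mem h 1 (t - ((n + k : ℕ) : ℝ) * h) (-C) C φ hφ (fun x => abs_le.1 (hC x)) x

theorem ge (hP : P.Facts M) (hS : L.Step) (t h : ℝ) (μ0 : Measure ℝ) (a : ℝ)
    (h0 : ∀ᵐ y ∂μ0, a ≤ y) (n : ℕ) : ∀ᵐ y ∂(L.law t h μ0 n), a ≤ y := by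
  induction n with
  | zero => exact h0
  | succ n ih =>
    have hm : MeasurableSet {y : ℝ | ¬ a ≤ y} := (measurableSet_Ici (a := a)).compl
    rw [ae_iff, ← lintegral_indicator_one hm,
      succ hP hS t h μ0 n _ (measurable_one.indicator hm)]
    refine lintegral_eq_zero_of_ae_eq_zero ?_
    filter_upwards [ih] with y hy
    have : ∀ ξ, indicator {y : ℝ | ¬ a ≤ y} (1 : ℝ → ℝ≥0∞) (L.step (t - n * h) h y ξ) = 0 :=
      fun ξ => indicator_of_notMem (by simpa using hy.trans (hS.le_step _ _ _ _)) _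
    simp only [this]
    simp

theorem cov (hL : L.Facts) (t : ℝ) (φ : ℝ → ℝ≥0∞) (hφ : Measurable φ) :
    ∫⁻ x, φ (L.Y t x) = ∫⁻ y, φ y * ENNReal.ofReal (L.j t y) := by
  have hj : Measurable fun y => ENNReal.ofReal (L.j t y) :=
    (L.j_meas.of_uncurry_left (x := t)).ennreal_ofReal
  rw [← lintegral_map hφ (Yc L t).measurable, hL.cov, lintegral_withDensity_eq_lintegral_mul _ hj hφ]
  simp [mul_comm]

theorem Th0 (hL : L.Facts) : 0 ≤ P.Th M := (hL.rate_mem 0 0).1.trans (hL.rate_mem 0 0).2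

theorem dens (hP : P.Facts M) (hL : L.Facts) (hS : L.Step) (t h : ℝ) (hh : P.Small M h)
    (htT : t ≤ L.T) (H : Set ℝ) (c : ℝ≥0∞) (n : ℕ) : n * h ≤ t →
    ∀ φ : ℝ → ℝ≥0∞, Measurable φ →
    ∫⁻ y, φ y ∂(L.law t h (c • (volume.restrict H).map (L.Y t)) n) ≤
      c * ENNReal.ofReal (Real.exp (P.C2 M * (n * h))) * ∫⁻ x, φ (L.Y (t - n * h) x) := by
  have := hP.noise_prob
  induction n with
  | zero =>
    intro _ φ hφ
    show ∫⁻ y, φ y ∂(c • (volume.restrict H).map (L.Y t)) ≤ _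
    rw [lintegral_smul_measure, lintegral_map hφ (Yc L t).measurable]
    simp only [Nat.cast_zero, zero_mul, mul_zero, Real.exp_zero, ENNReal.ofReal_one, mul_one,
      sub_zero, smul_eq_mul]
    gcongr
    exact Measure.restrict_le_self
  | succ n ih =>
    intro hn φ hφ
    have h0 := hh.1
    have hn0 : (0 : ℝ) ≤ n * h := by positivity
    push_cast at hn ⊢
    have hψ : Measurable fun y => ∫⁻ ξ, φ (L.step (t - n * h) h y ξ) ∂P.noise :=
      (hφ.comp (hS.step_meas (t - n * h) h)).lintegral_prod_right'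
    rw [succ hP hS t h _ n φ hφ]
    refine (ih (by linarith) _ hψ).trans ?_
    have e : t - (n + 1) * h = t - n * h - h := by ring
    rw [e, cov hL _ _ hψ, cov hL _ _ hφ]
    have h1 := hS.leb (t - n * h) h hh (by linarith) (by linarith) univ MeasurableSet.univ
      (P.Th M) (Th0 hL) (fun y _ τ _ => (hL.rate_mem τ y).2) φ hφ
    rw [Measure.restrict_univ] at h1
    have h2 : ∫⁻ y, (∫⁻ ξ, φ (L.step (t - n * h) h y ξ) ∂P.noise) *
        ENNReal.ofReal (L.j (t - n * h) y) ≤ ENNReal.ofReal (Real.exp (P.C0 M * h)) *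
        ∫⁻ y, (∫⁻ ξ, φ (L.step (t - n * h) h y ξ) ∂P.noise) *
          ENNReal.ofReal (L.j (t - n * h - h) y) := by
      rw [← lintegral_const_mul' _ _ ENNReal.ofReal_ne_top]
      refine lintegral_mono fun y => ?_
      have := hL.j_ratio y (t - n * h) ⟨by linarith, by linarith⟩ (t - n * h - h)
        ⟨by linarith, by linarith⟩
      rw [show t - n * h - (t - n * h - h) = h by ring, abs_of_pos h0] at this
      rw [mul_left_comm, ← ENNReal.ofReal_mul (Real.exp_pos _).le]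
      gcongr
    have h3 : ENNReal.ofReal (Real.exp (P.C2 M * (n * h))) *
        (ENNReal.ofReal (Real.exp (P.C0 M * h)) * ENNReal.ofReal (1 + 2 * P.Th M * P.k0 * h)) ≤
        ENNReal.ofReal (Real.exp (P.C2 M * ((n + 1) * h))) := by
      rw [← ENNReal.ofReal_mul (Real.exp_pos _).le, ← ENNReal.ofReal_mul (Real.exp_pos _).le]
      refine ENNReal.ofReal_le_ofReal ?_
      have := Real.add_one_le_exp (2 * P.Th M * P.k0 * h)
      rw [show P.C2 M * ((n + 1) * h) =
        P.C2 M * (n * h) + (P.C0 M * h + 2 * P.Th M * P.k0 * h) by unfold Par.C2; ring,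
        Real.exp_add, Real.exp_add]
      gcongr
      linarith
    calc _ ≤ c * ENNReal.ofReal (Real.exp (P.C2 M * (n * h))) *
          (ENNReal.ofReal (Real.exp (P.C0 M * h)) * (ENNReal.ofReal (1 + 2 * P.Th M * P.k0 * h) *
            ∫⁻ y, φ y * ENNReal.ofReal (L.j (t - n * h - h) y))) := by
          gcongr
          exact h2.trans (by gcongr)
      _ = c * (ENNReal.ofReal (Real.exp (P.C2 M * (n * h))) *
          (ENNReal.ofReal (Real.exp (P.C0 M * h)) * ENNReal.ofReal (1 + 2 * P.Th M * P.k0 * h))) *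
            ∫⁻ y, φ y * ENNReal.ofReal (L.j (t - n * h - h) y) := by ring
      _ ≤ _ := by gcongr

theorem left (hP : P.Facts M) (hL : L.Facts) (hS : L.Step) (t h : ℝ) (n : ℕ) (μ0 : Measure ℝ)
    (a : ℝ) (h0 : 0 < h) (hn : n * h ≤ t) (htT : t ≤ L.T) (ha : ∀ᵐ y ∂μ0, a ≤ L.X t y) :
    ∀ᵐ y ∂(L.law t h μ0 n), a - P.Vm M * (n * h) ≤ L.X (t - n * h) y := by
  have hn0 : (0 : ℝ) ≤ n * h := by positivity
  have h1 : ∀ᵐ y ∂μ0, L.Y t a ≤ y := by
    filter_upwards [ha] with y hy
    have := (hL.Y_mono t).monotone hy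
    rwa [L.YX] at this
  filter_upwards [ge hP hS t h μ0 _ h1 n] with y hy
  have h2 := (hL.X_mono (t - n * h)).monotone hy
  have h3 := hL.X_lip (L.Y t a) t ⟨by linarith, htT⟩ (t - n * h) ⟨by linarith, by linarith⟩
  rw [L.XY, show t - (t - n * h) = n * h by ring, abs_of_nonneg hn0] at h3
  linarith [(abs_le.1 h3).2]

theorem Vm0 (hL : L.Facts) : 0 ≤ P.Vm M := (abs_nonneg _).trans (hL.v_abs 0 0)

theorem DV0 (hP : P.Facts M) : 0 ≤ P.DV M := mul_nonneg hP.bm_nonneg hP.N_pos.le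

theorem rightA (hP : P.Facts M) (hL : L.Facts) (hS : L.Step) (t h : ℝ) (μ0 : Measure ℝ) (c : ℝ)
    (hh : P.Small M h) (htT : t ≤ L.T) (hc : ∀ᵐ y ∂μ0, L.X t y ≤ c) (n : ℕ) : n * h ≤ t →
    ∫⁻ y, ENNReal.ofReal (L.X (t - n * h) y - c) ∂(L.law t h μ0 n) ≤
      μ0 univ * ENNReal.ofReal (P.C3 M * (n * h)) := by
  have := hP.noise_prob
  induction n with
  | zero =>
    intro _
    refine le_trans (le_of_eq (lintegral_eq_zero_of_ae_eq_zero ?_)) bot_le
    show ∀ᵐ y ∂μ0, _
    filter_upwards [hc] with y hy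
    simpa using hy
  | succ n ih =>
    intro hn
    have h0 := hh.1
    have hn0 : (0 : ℝ) ≤ n * h := by positivity
    have hV := Vm0 hL
    have hD := DV0 hP
    have hT := Th0 hL
    have hk := hP.k0_pos
    have hC : 0 ≤ P.C3 M := by unfold Par.C3; positivity
    push_cast at hn ⊢
    have e : t - (n + 1) * h = t - n * h - h := by ring
    have hm : ∀ s, Measurable fun y => ENNReal.ofReal (L.X s y - c) := fun s =>
      ((Xc L s).measurable.sub_const c).ennreal_ofReal
    rw [succ hP hS t h _ n _ (hm _), e]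
    have key : ∀ y, ∫⁻ ξ, ENNReal.ofReal (L.X (t - n * h - h) (L.step (t - n * h) h y ξ) - c)
        ∂P.noise ≤ ENNReal.ofReal (L.X (t - n * h) y - c) + ENNReal.ofReal (P.C3 M * h) := by
      intro y
      have h1 := hS.disp (t - n * h) h hh (by linarith) (by linarith) y (P.Th M)
        (fun τ _ => (hL.rate_mem τ y).2)
      have h3 := hL.X_lip y (t - n * h) ⟨by linarith, by linarith⟩ (t - n * h - h)
        ⟨by linarith, by linarith⟩
      rw [show t - n * h - (t - n * h - h) = h by ring, abs_of_pos h0] at h3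
      calc _ ≤ ∫⁻ ξ, (ENNReal.ofReal (L.X (t - n * h) y - c) + ENNReal.ofReal (P.Vm M * h)) +
            ENNReal.ofReal (L.X (t - n * h - h) (L.step (t - n * h) h y ξ) -
              L.X (t - n * h - h) y) ∂P.noise := by
            refine lintegral_mono fun ξ => ?_
            refine le_trans (ENNReal.ofReal_le_ofReal ?_)
              (ENNReal.ofReal_add_le.trans (add_le_add ENNReal.ofReal_add_le le_rfl))
            linarith [(abs_le.1 h3).1]
        _ ≤ (ENNReal.ofReal (L.X (t - n * h) y - c) + ENNReal.ofReal (P.Vm M * h)) +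
            ENNReal.ofReal (P.Th M * h * (1 + P.k0 * P.DV M)) := by
            rw [lintegral_add_left measurable_const]
            simp only [lintegral_const, measure_univ, mul_one]
            gcongr
        _ ≤ _ := by
            rw [add_assoc, ← ENNReal.ofReal_add (by positivity) (by positivity)]
            gcongr
            unfold Par.C3
            nlinarith [mul_nonneg hV h0.le]
    refine (lintegral_mono key).trans ?_
    rw [lintegral_add_right _ measurable_const, lintegral_const, mass hP hS,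
      show P.C3 M * ((n + 1) * h) = P.C3 M * (n * h) + P.C3 M * h by ring,
      ENNReal.ofReal_add (by positivity) (by positivity), mul_add, mul_comm _ (μ0 univ)]
    gcongr
    exact ih (by linarith)

theorem right (hP : P.Facts M) (hL : L.Facts) (hS : L.Step) (t h : ℝ) (n : ℕ) (μ0 : Measure ℝ)
    (c ρ : ℝ) (hh : P.Small M h) (hn : n * h ≤ t) (htT : t ≤ L.T) (hρ : 0 < ρ)
    (hc : ∀ᵐ y ∂μ0, L.X t y ≤ c) :
    L.law t h μ0 n {y | c + ρ < L.X (t - n * h) y} ≤
      μ0 univ * ENNReal.ofReal (P.C3 M * (n * h) / ρ) := by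
  have hm : Measurable fun y => ENNReal.ofReal (L.X (t - n * h) y - c) :=
    ((Xc L _).measurable.sub_const c).ennreal_ofReal
  have h1 := meas_ge_le_lintegral_div (μ := L.law t h μ0 n) hm.aemeasurable
    (ε := ENNReal.ofReal ρ) (by simpa using hρ) ENNReal.ofReal_ne_top
  calc _ ≤ L.law t h μ0 n {y | ENNReal.ofReal ρ ≤ ENNReal.ofReal (L.X (t - n * h) y - c)} :=
        measure_mono fun y hy => ENNReal.ofReal_le_ofReal (by simp only [mem_ofPred] at hy; linarith)
    _ ≤ _ := h1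
    _ ≤ μ0 univ * ENNReal.ofReal (P.C3 M * (n * h)) / ENNReal.ofReal ρ := by
        gcongr
        exact rightA hP hL hS t h μ0 c hh htT hc n hn
    _ = _ := by rw [ENNReal.ofReal_div_of_pos hρ, mul_div_assoc]

theorem Um (hL : L.Facts) (t : ℝ) : Measurable (L.U t) := hL.U_meas.of_uncurry_left
theorem Ui (hL : L.Facts) (t y : ℝ) : L.U t y ∈ Icc 0 (P.N M) := ⟨hL.u_nonneg _ _, L.u_le _ _⟩
theorem Ua (hL : L.Facts) (t y : ℝ) : |L.U t y| ≤ P.N M := by
  rw [abs_of_nonneg (Ui hL t y).1]; exact (Ui hL t y).2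
theorem U2 (hL : L.Facts) (t y : ℝ) : L.U t y ^ 2 ∈ Icc 0 (P.N M ^ 2) :=
  ⟨sq_nonneg _, pow_le_pow_left₀ (Ui hL t y).1 (Ui hL t y).2 2⟩
theorem U2a (hL : L.Facts) (t y : ℝ) : |L.U t y ^ 2| ≤ P.N M ^ 2 := by
  rw [abs_of_nonneg (U2 hL t y).1]; exact (U2 hL t y).2

theorem mean (hP : P.Facts M) (hL : L.Facts) (hS : L.Step) (t h : ℝ) (n : ℕ) (μ0 : Measure ℝ)
    (hμ : IsProbabilityMeasure μ0) (hh : P.Small M h) (hn : n * h ≤ t) (htT : t ≤ L.T) :
    |∫ y, L.U (t - n * h) y ∂(L.law t h μ0 n) - ∫ y, L.U t y ∂μ0| ≤ n * (P.E1 M * h ^ 2) := by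
  have h1 := add hP hS t h μ0 inferInstance 0 n _ (Um hL (t - n * h)) ⟨_, Ua hL _⟩
  simp only [zero_add, Nat.cast_zero, zero_mul, sub_zero] at h1
  rw [h1]
  show |∫ y, _ ∂μ0 - _| ≤ _
  rw [← integral_sub (intg' μ0 (hS.Pit_meas _ _ _ _ (Um hL _))
    (hS.Pit_mem _ _ _ _ _ _ (Um hL _) (Ui hL _))) (intg' μ0 (Um hL _) (Ui hL _))]
  have := norm_integral_le_of_norm_le_const (μ := μ0)
    (f := fun y => L.Pit h n t (L.U (t - n * h)) y - L.U t y) (C := n * (P.E1 M * h ^ 2))
    (Eventually.of_forall fun y => hS.mart_it h n t hh hn htT y)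
  simpa using this

theorem wl (hP : P.Facts M) (hL : L.Facts) (hS : L.Step) (t h : ℝ) (H : Set ℝ) (n l : ℕ)
    (hμ : IsProbabilityMeasure (L.start t H)) (hh : P.Small M h) (hn : (n + l) * h ≤ t)
    (htT : t ≤ L.T) : ∫ y, L.w (t - n * h) h l y ∂(L.law t h (L.start t H) n) ≤
      L.mom t h H (n + l) - L.mom t h H n + 2 * P.N M * (l * (P.E1 M * h ^ 2)) := by
  have := prob hP hS t h _ hμ n
  have h0 := hh.1
  have hn0 : (0 : ℝ) ≤ n * h := by positivity
  have hm2 : ∀ s, Measurable fun y => L.U s y ^ 2 := fun s => (Um hL s).pow_const 2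
  have e : t - ((n + l : ℕ) : ℝ) * h = t - n * h - l * h := by push_cast; ring
  have h1 := add hP hS t h (L.start t H) inferInstance n l _ (hm2 (t - n * h - l * h)) ⟨_, U2a hL _⟩
  have i1 := intg' (L.law t h (L.start t H) n) (hS.Pit_meas h l (t - n * h) _ (hm2 _))
    (hS.Pit_mem _ _ _ _ _ _ (hm2 (t - n * h - l * h)) (U2 hL _))
  have i2 := intg' (L.law t h (L.start t H) n) (hm2 (t - n * h)) (U2 hL _)
  unfold Lag.mom
  rw [e, h1, ← integral_sub i1 i2]
  have h2 : ∀ C : ℝ, C = ∫ _, C ∂(L.law t h (L.start t H) n) := fun C => by simp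
  rw [h2 (2 * P.N M * (l * (P.E1 M * h ^ 2)))]
  refine le_trans (integral_mono (intg' _ (hS.w_meas _ _ _) (hS.w_mem _ _ _))
    ((i1.sub i2).add (integrable_const (2 * P.N M * (l * (P.E1 M * h ^ 2))))) fun y => ?_)
    (le_of_eq (integral_add (i1.sub i2) (integrable_const _)))
  have h3 := hS.Pit_lin h l (t - n * h) 1 (-2 * L.U (t - n * h) y) (L.U (t - n * h) y ^ 2)
    _ _ (hm2 (t - n * h - l * h)) (Um hL (t - n * h - l * h)) ⟨_, U2a hL _⟩ ⟨_, Ua hL _⟩ y
  have h4 := hS.mart_it h l (t - n * h) hh (by linarith) (by linarith) y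
  have h5 : L.w (t - n * h) h l y = _ := Eq.trans (by unfold Lag.w; congr 1; funext x; ring) h3
  have h6 := Ui hL (t - n * h) y
  have h7 := (abs_nonneg _).trans h4
  simp only [Pi.sub_apply, Pi.add_apply]
  rw [h5]
  nlinarith [mul_nonneg h6.1 (sub_nonneg.2 (abs_le.1 h4).1), mul_nonneg (sub_nonneg.2 h6.2) h7]

theorem tele (b : ℕ → ℝ) (n1 l m : ℕ) (hb : ∀ i j, i ≤ j → j ≤ n1 + l + m → b i ≤ b j) :
    ∑ n ∈ Finset.Ico n1 (n1 + m), (b (n + l) - b n) ≤ l * (b (n1 + l + m) - b n1) := by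
  rw [Finset.sum_Ico_eq_sum_range, Nat.add_sub_cancel_left, Finset.sum_sub_distrib]
  have h1 := Finset.sum_range_add (fun i => b (n1 + i)) l m
  have h2 := Finset.sum_range_add (fun i => b (n1 + i)) m l
  rw [add_comm m l] at h2
  have h3 : ∑ i ∈ Finset.range m, b (n1 + i + l) = ∑ i ∈ Finset.range m, b (n1 + (l + i)) :=
    Finset.sum_congr rfl fun i _ => by congr 1; omega
  have h4 : ∑ i ∈ Finset.range l, b (n1 + (m + i)) ≤ ∑ _i ∈ Finset.range l, b (n1 + l + m) :=
    Finset.sum_le_sum fun i hi => hb _ _ (by have := Finset.mem_range.1 hi; omega) le_rfl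
  have h5 : ∑ _i ∈ Finset.range l, b n1 ≤ ∑ i ∈ Finset.range l, b (n1 + i) :=
    Finset.sum_le_sum fun i hi => hb _ _ (by omega) (by have := Finset.mem_range.1 hi; omega)
  simp only [Finset.sum_const, Finset.card_range, nsmul_eq_mul] at h4 h5
  rw [h3]
  linarith

theorem wsum (hP : P.Facts M) (hL : L.Facts) (hS : L.Step) (t h : ℝ) (H : Set ℝ) (n1 n2 l : ℕ)
    (hμ : IsProbabilityMeasure (L.start t H)) (hh : P.Small M h) (hl : n1 + l ≤ n2)
    (hn : n2 * h ≤ t) (htT : t ≤ L.T) :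
    ∑ n ∈ Finset.Ico n1 (n2 - l), ∫ y, L.w (t - n * h) h l y ∂(L.law t h (L.start t H) n) ≤
      l * (L.mom t h H n2 - L.mom t h H n1 + 4 * P.N M * (n2 * (P.E1 M * h ^ 2))) := by
  obtain ⟨m, rfl⟩ := Nat.exists_eq_add_of_le hl
  have h0 := hh.1
  have hN := hP.N_pos
  have hE : 0 ≤ P.E1 M * h ^ 2 := by unfold Par.E1; positivity
  have hw : ∀ n k : ℕ, n + k ≤ n1 + l + m →
      ∫ y, L.w (t - n * h) h k y ∂(L.law t h (L.start t H) n) ≤
        (L.mom t h H (n + k) + 2 * P.N M * (((n + k : ℕ) : ℝ) * (P.E1 M * h ^ 2))) -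
          (L.mom t h H n + 2 * P.N M * (n * (P.E1 M * h ^ 2))) := by
    intro n k hk
    have h1 : ((n + k : ℕ) : ℝ) ≤ ((n1 + l + m : ℕ) : ℝ) := by exact_mod_cast hk
    have h2 := wl hP hL hS t h H n k hμ hh
      (le_trans (by rw [← Nat.cast_add]; gcongr) hn) htT
    push_cast
    linarith
  have h3 := tele (fun n => L.mom t h H n + 2 * P.N M * (n * (P.E1 M * h ^ 2))) n1 l m (by
    intro i j hij hj
    obtain ⟨k, rfl⟩ := Nat.exists_eq_add_of_le hij
    have h1 := hw i k hj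
    have h2 : 0 ≤ ∫ y, L.w (t - i * h) h k y ∂(L.law t h (L.start t H) i) :=
      integral_nonneg fun y => (hS.w_mem _ _ _ y).1
    linarith)
  rw [show n1 + l + m - l = n1 + m by omega]
  refine (Finset.sum_le_sum fun n hn' => hw n l ?_).trans (h3.trans ?_)
  · have := (Finset.mem_Ico.1 hn').2
    omega
  · have h4 : 0 ≤ P.N M * (n1 * (P.E1 M * h ^ 2)) := by positivity
    have h5 : 0 ≤ P.N M * (((n1 + l + m : ℕ) : ℝ) * (P.E1 M * h ^ 2)) := by positivity
    gcongr
    linarith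

end LawA

open LawA in
theorem lawS : ParFactsS → LagFactsS → StepS → LawS := by
  intro h1 h2 h3 P M L hM
  have hP := h1 P M hM
  have hL := h2 P M L hM
  have hS := h3 P M L hM
  refine ⟨prob hP hS, fun t H _ h0 hH => ⟨?_⟩, fun t H hH => ?_, succ hP hS, add hP hS,
    mass hP hS, ge hP hS, fun t h n hh hn ht H c => dens hP hL hS t h hh ht H c n hn,
    left hP hL hS, right hP hL hS, mean hP hL hS, fun t h H n hμ => ?_,
    fun t h H n hμ hh hn ht => ?_, wsum hP hL hS⟩
  · rw [Lag.start, Measure.smul_apply, Measure.map_apply (Yc L t).measurable MeasurableSet.univ]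
    simp [ENNReal.inv_mul_cancel h0 hH]
  · refine Measure.ae_smul_measure ?_ _
    rw [ae_map_iff (Yc L t).measurable.aemeasurable ((Xc L t).measurable hH)]
    filter_upwards [ae_restrict_mem hH] with x hx
    rwa [L.XY]
  · have := prob hP hS t h _ hμ n
    refine ⟨integral_nonneg fun y => sq_nonneg _, ?_⟩
    have := integral_mono (intg' (L.law t h (L.start t H) n)
      ((Um hL (t - n * h)).pow_const 2) (U2 hL _)) (integrable_const (P.N M ^ 2))
      fun y => (U2 hL _ y).2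
    simpa [Lag.mom] using this
  · simpa using wl hP hL hS t h H n 1 hμ hh (by simpa using hn) ht

end MP34a893

end MrgPart1

-- ======== part 2: formerly Pool.Agent.MP_34a893_an.h9.Core
section MrgPart2

open MeasureTheory Set Filter Topology
open scoped ENNReal

namespace MP34a893

noncomputable section


open MP34a893.Core in
theorem pairCoreS (hB : Basic) (hT : TubeS) (hD : DriftS) (hA : DriftAnyS) : PairCoreS := by
  intro P M hM hS gap ε1 π0 K hgap hε hπ hK
  have hp := hB.1 P M hM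
  have hnp := hp.noise_prob
  obtain ⟨c, hc, hlam⟩ := hp.lam_gap hS (gap / 3) (by positivity)
  have hTh : 0 ≤ P.Th M := mul_nonneg (mul_nonneg P.hp0.le hp.bm_nonneg) hp.N_pos.le
  have hDV : 0 ≤ P.DV M := mul_nonneg hp.bm_nonneg hp.N_pos.le
  have hVm : 0 ≤ P.Vm M := add_nonneg (abs_nonneg _) hDV
  have hE1 : 0 ≤ P.E1 M := mul_nonneg (by positivity) hp.N_pos.le
  have hk0 := hp.k0_pos
  have hN := hp.N_pos
  obtain ⟨R0, hR0, hD⟩ := hD P M hM (c / 4) (by positivity)
  obtain ⟨θ, hθ⟩ : ∃ θ, θ = P.Th M / (c / 2) := ⟨_, rfl⟩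
  have hθ0 : 0 ≤ θ := by rw [hθ]; positivity
  obtain ⟨R2, hR2, htail⟩ : ∃ R2, R0 ≤ R2 ∧ θ * (2 * M * ∫ r in Ioi R2, P.k r) ≤ 1 / 4 := by
    have := (hp.tail.const_mul (2 * M)).const_mul θ
    simp only [mul_zero] at this
    exact ((eventually_ge_atTop R0).and (this.eventually_le_const (by norm_num))).exists
  have hR20 : 0 ≤ R2 := by linarith
  obtain ⟨ed, hd, hed, hhd, hD⟩ := hD (4 * (R2 + 1)) (by linarith)
  obtain ⟨T0, hT0, R3, ν0, e', ht, hν0, he', hht, hT⟩ := hT P M hM hS (ε1 / 2) (4 * (R2 + 1))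
    (min ed (gap / 6)) (by positivity) (by linarith) (by positivity)
  obtain ⟨hs0, hhs, hsm⟩ := hp.small
  obtain ⟨a, ha⟩ : ∃ a, a = 9 / gap ^ 2 + 4 / ε1 ^ 2 := ⟨_, rfl⟩
  obtain ⟨K3, hK3⟩ : ∃ K3, K3 = 2 + 4 * M * K / (c / 2) := ⟨_, rfl⟩
  obtain ⟨Cb, hCb⟩ : ∃ Cb, Cb = P.Th M * P.k0 + (θ * P.k0 + 1 / (4 * M)) * (P.Th M * M) +
    1 / (4 * M) * (c / 2) := ⟨_, rfl⟩
  obtain ⟨C, hC⟩ : ∃ C, C = P.Th M * (1 + P.k0 * P.DV M) := ⟨_, rfl⟩
  obtain ⟨ρ0, hρ0⟩ : ∃ ρ0, ρ0 = 16 * (K3 + 1) * (C + 1) / π0 := ⟨_, rfl⟩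
  obtain ⟨eQ, heQ⟩ : ∃ eQ, eQ = π0 / 32 / (2 * a + Cb / e' * (T0 + 1)) := ⟨_, rfl⟩
  have ha0 : 0 < a := by rw [ha]; positivity
  have hK0 : 0 < K := by linarith
  have hK2 : 2 ≤ K3 := by rw [hK3]; exact le_add_of_nonneg_right (by positivity)
  have hCb0 : 0 ≤ Cb := by rw [hCb]; positivity
  have hC0 : 0 ≤ C := by rw [hC]; positivity
  have hρ : 0 < ρ0 := by rw [hρ0]; positivity
  have hQ : 0 < eQ := by rw [heQ]; positivity
  refine ⟨K3, K + P.Vm M * (K3 + 1) + ρ0 + |R3|, eQ, ν0, T0 + 2, hK2, by positivity, hQ, hν0,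
    by linarith, fun s hs => ?_⟩
  have hs1 : 1 ≤ s := by linarith
  obtain ⟨h0, hh0, hev⟩ : ∃ h0, 0 < h0 ∧ ∀ h, 0 < h → h ≤ h0 → h ≤ hs0 ∧ h ≤ hd ∧ h ≤ ht ∧
      P.DV M * h ≤ 1 ∧ 4 * P.N M * ((K3 * s + 1) * P.E1 M) * h ≤ eQ ∧
      (K3 * s + 1) * (2 * a * (gap + ε1) * P.E1 M) * h ≤ π0 / 16 := by
    have k : ∀ x y : ℝ, 0 < y → ∀ᶠ h in 𝓝 (0 : ℝ), x * h ≤ y := fun x y hy =>
      ((continuous_const_mul x).tendsto' 0 0 (mul_zero x)).eventually_le_const hy
    obtain ⟨r, hr, H⟩ := Metric.eventually_nhds_iff.1 ((eventually_le_nhds hhs).and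
      ((eventually_le_nhds hhd).and ((eventually_le_nhds hht).and ((k _ _ one_pos).and
        ((k _ _ hQ).and (k _ (π0 / 16) (by positivity)))))))
    refine ⟨r / 2, by positivity, fun h a b => H ?_⟩
    rw [dist_zero_right, Real.norm_eq_abs, abs_of_pos a]
    linarith
  refine ⟨h0, hh0, ?_⟩
  intro L t h α β x1 n1 n2 H H' μ hh hle b1 b2 b3 b4 b5 hαβ pH pH' hμ hπ0 hae hNV q1 q2
  obtain ⟨v1, v2, v3, v4, v5, v6⟩ := hev h hh hle
  have sm := hsm h hh v1
  have hf := hB.2.1 P M L hM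
  have hst := hB.2.2.1 P M L hM
  have hl := hB.2.2.2 P M L hM
  obtain ⟨l, l1, l2⟩ : ∃ l : ℕ, T0 ≤ l * h ∧ l * h ≤ T0 + 1 := by
    refine ⟨⌈T0 / h⌉₊, (div_le_iff₀ hh).1 (Nat.le_ceil _), ?_⟩
    have := mul_le_mul_of_nonneg_right (Nat.ceil_lt_add_one (show 0 ≤ T0 / h by positivity)).le hh.le
    rw [add_mul, div_mul_cancel₀ _ hh.ne'] at this
    linarith only [this, sm.2.1]
  have l3 : 1 ≤ l := Nat.pos_of_ne_zero (by rintro rfl; simp at l1; linarith only [l1, hT0])
  have l4 : n1 + l ≤ n2 := ar2 hh hs hT0 hK2 b1 b2 l2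
  obtain ⟨N, hNe⟩ : ∃ N, N = n2 - l - n1 := ⟨_, rfl⟩
  have hN2 : (n2 : ℝ) * h = n1 * h + N * h + l * h := by
    rw [show n2 = n1 + N + l by omega]; push_cast; ring
  have hn1 : (0 : ℝ) ≤ n1 * h := by positivity
  have hNh : (N : ℝ) * h ≤ K3 * s + 1 := by linarith only [hn1, hN2, b3, l1, hT0]
  obtain ⟨δ, hδ⟩ : ∃ δ, δ = 1 / (4 * M * K * s) := ⟨_, rfl⟩
  have hδ0 : 0 < δ := by rw [hδ]; positivity
  have hδ1 : δ ≤ 1 / (4 * M) := by
    rw [hδ]
    refine one_div_le_one_div_of_le (by positivity) ?_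
    rw [mul_assoc]
    exact le_mul_of_one_le_right (by positivity) (one_le_mul_of_one_le_of_one_le hK hs1)
  let cs : Cst := ⟨a, α, β, gap, ε1, ρ0 * s, θ, δ, R2⟩
  have ok : cs.Ok := ⟨hgap, hε, by simp only [cs]; positivity, hθ0, hδ0.le,
    by simp only [cs, ha]; field_simp; linarith only [sq_nonneg gap, sq_nonneg ε1],
    by simp only [cs, ha]; field_simp; linarith only [sq_nonneg gap, sq_nonneg ε1]⟩
  let tm : ℕ → ℝ := fun n => t - (n1 + n : ℕ) * h
  let xl : ℕ → ℝ := fun n => x1 - P.Vm M * (n * h)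
  let xr : ℕ → ℝ := fun n => x1 + K * s + P.Vm M * (n * h)
  have tms : ∀ n, tm (n + 1) = tm n - h := fun n => by simp only [tm]; push_cast; ring
  have xls : ∀ n, xl (n + 1) = xl n - P.Vm M * h := fun n => by simp only [xl]; push_cast; ring
  have xrs : ∀ n, xr (n + 1) = xr n + P.Vm M * h := fun n => by simp only [xr]; push_cast; ring
  let F := fun n => mv L (tm n) h
  let A := fun n => keep L cs (tm n) h (xl n - P.Vm M * h) (xr n + P.Vm M * h)
  let I := fun n => alive L cs (tm n) (xl n) (xr n)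
  have mF : ∀ n, Measurable (F n) := fun n => m_mv hst _ _
  have mA : ∀ n, MeasurableSet (A n) := fun n => m_keep hf hst _ _ _ _
  have h00 : ∀ᵐ z ∂μ, z ∈ I 0 ∧ lam L cs (tm 0) (xr 0) ((0 : ℕ) * (δ * (c / 2) * h)) z ≤ 1 / 2 := by
    simp only [I, tm, xl, xr, add_zero, Nat.cast_zero, zero_mul, mul_zero, sub_zero]
    exact hae.mono fun z hz => init hM hp hf ok hR20 htail (by simp only [cs, hδ]; field_simp) hz
  have hI := inv (P.noise.prod P.noise) F A μ mF mA I (fun n => m_alive hf _ _ _)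
    (h00.mono fun z hz => hz.1)
    fun n z hz => by simp only [I, tms, xls, xrs]; exact hz.2
  let w : ℕ → ℝ → ℝ≥0∞ := fun n y =>
    ENNReal.ofReal (2 * a * L.w (tm n) h 1 y + h * Cb / e' * L.w (tm n) h l y)
  have mw : ∀ n, Measurable (w n) := fun n =>
    (((hst.w_meas _ _ _).const_mul _).add ((hst.w_meas _ _ _).const_mul _)).ennreal_ofReal
  obtain ⟨r, hr⟩ : ∃ r, r = 2 * a * (gap + ε1) * (P.E1 M * h ^ 2) +
    P.Th M * h * (1 + P.k0 * P.DV M) / (ρ0 * s) := ⟨_, rfl⟩
  have main := lyap (P.noise.prod P.noise) F A μ mF mA I hI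
    (fun n z => ENNReal.ofReal (lam L cs (tm n) (xr n) (n * (δ * (c / 2) * h)) z))
    (fun n z => w n z.1 + (w n z.2 + ENNReal.ofReal r))
    (fun n => (m_lam hp hf _ _ _).ennreal_ofReal) N ?_ ?_
  · have p1 := hl.prob t h _ pH n1
    have p2 := hl.prob t h _ pH' n1
    have d1 := dom hst hl (P.noise.prod P.noise) F A μ mF mA _ measurable_fst _
      measurePreserving_fst t h n1 (L.start t H) (fun _ _ => rfl) fun φ hφ =>
        (lintegral_mono' hμ le_rfl).trans (measurePreserving_fst.lintegral_comp hφ).le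
    have d2 := dom hst hl (P.noise.prod P.noise) F A μ mF mA _ measurable_snd _
      measurePreserving_snd t h n1 (L.start t H') (fun _ _ => rfl) fun φ hφ =>
        (lintegral_mono' hμ le_rfl).trans (measurePreserving_snd.lintegral_comp hφ).le
    have hE : 4 * P.N M * (n2 * (P.E1 M * h ^ 2)) ≤ eQ := by
      refine le_trans ?_ v5
      have := mul_le_mul_of_nonneg_right b3 (show 0 ≤ 4 * P.N M * P.E1 M * h by positivity)
      linarith only [this]
    have s1 := errsum hst hl (A := 2 * a) (B := h * Cb / e') (E := 2 * eQ) pH sm (by positivity)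
      (by positivity) l3 l4 b4 b5 (by linarith only [q1, hE])
    have s2 := errsum hst hl (A := 2 * a) (B := h * Cb / e') (E := 2 * eQ) pH' sm (by positivity)
      (by positivity) l3 l4 b4 b5 (by linarith only [q2, hE])
    rw [← hNe] at s1 s2
    have s3 : (2 * a + h * Cb / e' * l) * (2 * eQ) ≤ π0 / 16 := by
      have e1 : (2 * a + Cb / e' * (T0 + 1)) * (2 * eQ) = π0 / 16 := by
        rw [heQ]; field_simp; norm_num
      rw [← e1]
      refine mul_le_mul_of_nonneg_right (add_le_add_right ?_ _) (by positivity)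
      have := mul_le_mul_of_nonneg_left l2 (show 0 ≤ Cb / e' by positivity)
      calc _ = Cb / e' * (l * h) := by ring
        _ ≤ _ := this
    have s4 : N * r ≤ π0 / 8 := by
      refine le_trans (le_of_eq ?_) (ar1 hh (by positivity) hC0 hs1 hK2 hπ hNh v6 hρ0)
      rw [hr, hC]
      ring
    have s5 : ∑ n ∈ Finset.range N, ∫⁻ z, (w n z.1 + (w n z.2 + ENNReal.ofReal r))
        ∂(evolve (P.noise.prod P.noise) F A μ n) ≤ ENNReal.ofReal (π0 / 4) := by
      calc _ ≤ ∑ n ∈ Finset.range N, (∫⁻ y, w n y ∂(L.law t h (L.start t H) (n1 + n)) +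
            (∫⁻ y, w n y ∂(L.law t h (L.start t H') (n1 + n)) + ENNReal.ofReal r)) := by
            refine Finset.sum_le_sum fun n _ => ?_
            rw [lintegral_add_left (f := fun z : ℝ × ℝ => w n z.1) ((mw n).comp measurable_fst),
              lintegral_add_left (f := fun z : ℝ × ℝ => w n z.2) ((mw n).comp measurable_snd)]
            refine add_le_add (d1 n _ (mw n)) (add_le_add (d2 n _ (mw n)) ?_)
            have := hl.prob t h _ pH (n1 + n)
            simpa using d1 n (fun _ => ENNReal.ofReal r) measurable_const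
        _ ≤ ENNReal.ofReal (π0 / 16) + (ENNReal.ofReal (π0 / 16) + ENNReal.ofReal (π0 / 8)) := by
            rw [Finset.sum_add_distrib, Finset.sum_add_distrib]
            refine add_le_add (s1.trans (ENNReal.ofReal_le_ofReal s3))
              (add_le_add (s2.trans (ENNReal.ofReal_le_ofReal s3)) ?_)
            rw [Finset.sum_const, Finset.card_range, ← ENNReal.ofReal_nsmul, nsmul_eq_mul]
            exact ENNReal.ofReal_le_ofReal s4
        _ = _ := by
            rw [← ENNReal.ofReal_add (by positivity) (by positivity),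
              ← ENNReal.ofReal_add (by positivity) (by positivity)]
            congr 1
            ring
    have s6 : ∫⁻ z, ENNReal.ofReal (lam L cs (tm 0) (xr 0) ((0 : ℕ) * (δ * (c / 2) * h)) z) ∂μ ≤
        ENNReal.ofReal (1 / 2) * μ univ := by
      rw [← lintegral_const]
      exact lintegral_mono_ae (h00.mono fun z hz => ENNReal.ofReal_le_ofReal hz.2)
    have fin := main.trans (add_le_add s6 s5)
    have hfin : μ univ ≠ ∞ := ne_top_of_le_ne_top (measure_ne_top _ _) (hμ univ)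
    rw [← ENNReal.ofReal_toReal hfin] at fin hπ0
    have m0 : 0 ≤ (μ univ).toReal := ENNReal.toReal_nonneg
    rw [← ENNReal.ofReal_mul (by norm_num), ← ENNReal.ofReal_add (by positivity) (by positivity),
      ENNReal.ofReal_le_ofReal_iff (by positivity)] at fin
    rw [ENNReal.ofReal_le_ofReal_iff m0] at hπ0
    linarith only [fin, hπ0, hπ]
  · intro n hn z hz
    have hn' : (n : ℝ) * h + h ≤ N * h := by
      have : (n : ℝ) + 1 ≤ N := by exact_mod_cast hn
      linarith only [mul_le_mul_of_nonneg_right this hh.le]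
    have hn0 : (0 : ℝ) ≤ n * h := by positivity
    have etm : tm n = t - n1 * h - n * h := by simp only [tm]; push_cast; ring
    have t1 : h ≤ tm n := by linarith only [etm, hn', hN2, b4, l1, hT0]
    have t2 : tm n ≤ L.T := by linarith only [etm, hn0, hn1, b5]
    have w1 := (hst.w_mem (tm n) h l z.1).1
    have w2 := (hst.w_mem (tm n) h l z.2).1
    have key : Key L cs (tm n) h (δ * (c / 2) * h)
        (h * Cb / e' * (L.w (tm n) h l z.1 + L.w (tm n) h l z.2)) z := by
      by_cases gd : L.w (tm n) h l z.1 ≤ e' ∧ L.w (tm n) h l z.2 ≤ e'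
      · obtain ⟨z1, z2, z3, z4, z5, z6⟩ := id hz
        simp only [cs, xl, xr] at z2 z3 z4 z5 z6
        have tube : ∀ y, z.1 ≤ y → y ≤ z.2 → ε1 / 2 ≤ L.U (tm n) y → L.w (tm n) h l y ≤ e' → _ :=
          fun y a1 a2 a3 a4 =>
            have a5 := ar3 (R3 := R3) hK0.le hVm hρ.le hs1
              (show n * h ≤ K3 * s + 1 by linarith only [hn', hNh, hh])
              (z5.trans ((hf.X_mono (tm n)).monotone a1))
              (((hf.X_mono (tm n)).monotone a2).trans z6)
            hT L (tm n) h y l hh v3 l1 l2 (by linarith only [etm, hn', hN2, b4, hh]) t2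
              (nv_mono hNV (by linarith only [hε]) (by linarith only [etm, hn', hN2, hh])
                (by linarith only [etm, hn0, hn1]) a5.1 a5.2) a3 a4
        exact good hM hp hf hst ok sm t1 t2 hz hc hθ hR20 hαβ v4 (by positivity) hlam
          (fun y => hD L (tm n) h y hh v2 t1 t2)
          (tube z.1 le_rfl z1 (by linarith only [z2, z3, z4, hαβ, hgap]) gd.1)
          (tube z.2 z1 le_rfl z3 gd.2)
      · refine bad hM hp hst hA ok sm t1 t2 hz.1 hc hδ1 ?_
        have g1 : e' ≤ L.w (tm n) h l z.1 + L.w (tm n) h l z.2 := by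
          rw [not_and_or, not_le, not_le] at gd
          rcases gd with g | g <;> linarith only [g, w1, w2]
        have g2 := mul_le_mul_of_nonneg_left g1 (show 0 ≤ h * Cb / e' by positivity)
        rw [div_mul_cancel₀ _ he'.ne'] at g2
        exact (le_of_eq (by rw [hCb])).trans g2
    obtain ⟨pc, d1, d2, k1, k2, k3, k4, k5, k6, k7⟩ := key
    have := one (s := (n + 1 : ℕ) * (δ * (c / 2) * h)) hM hp hf hst ok sm t1 t2 hz
      (by positivity) k1 k2 k3 k4 k5 k6
    simp only [tms, xrs]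
    refine this.trans (le_trans (ENNReal.ofReal_le_ofReal ?_) (ENNReal.ofReal_add_le.trans
      (add_le_add_right (ENNReal.ofReal_add_le.trans
        (add_le_add_right ENNReal.ofReal_add_le _)) _)))
    simp only [lam, hr, cs] at k7 ⊢
    push_cast
    linarith only [k7]
  · intro z hz
    rw [← ENNReal.ofReal_one]
    refine ENNReal.ofReal_le_ofReal ?_
    have n1' := fX_nn (L := L) ok (tm N) z.1
    have n2' := fY_nn (L := L) ok (tm N) (xr N) z.2
    have n3 := psi_nn hM hp ok (sub_nonneg.2 (hf.m_mono hz.1))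
    have u1 : 4 * M * K / (c / 2) * s ≤ N * h := by
      rw [hK3] at b2
      linarith only [b2, hN2, b1, l2, hs]
    have u2 := mul_le_mul_of_nonneg_left u1 (show 0 ≤ δ * (c / 2) by positivity)
    have u3 : δ * (c / 2) * (4 * M * K / (c / 2) * s) = 1 := by rw [hδ]; field_simp
    unfold lam
    linarith only [n1', n2', n3, u2, u3]

end

end MP34a893

end MrgPart2

-- ======== part 3: formerly Pool.Agent.MP_34a893_an.Sub
section MrgPart3

open MeasureTheory Set Filter Topology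

namespace MP34a893

namespace SubP

/-- a convex penalty `ρ` with slope `c` -/
structure Pen (M D : ℝ) (c ρ : ℝ → ℝ) : Prop where
  cc : Continuous c
  cρ : Continuous ρ
  mem : ∀ r, 0 ≤ c r ∧ c r ≤ M
  add : ∀ r σ, 0 ≤ σ → c (r + σ) ≤ c r + M * min (σ / D) 1
  sub : ∀ a b, ρ b - ρ a = ∫ σ in a..b, c σ
  ge : ∀ a b, a ≤ b → c a * (b - a) ≤ ρ b - ρ a
  le : ∀ a b, a ≤ b → ρ b - ρ a ≤ M * (b - a)
  zero : ∀ r, r ≤ 0 → ρ r = 0
  top : ∀ r, D ≤ r → c r = M

theorem pen {M D : ℝ} (hM : 0 ≤ M) (hD : 0 < D) : ∃ c ρ, Pen M D c ρ := by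
  obtain ⟨c, hc⟩ : ∃ c : ℝ → ℝ, c = fun r => M * min (max r 0 / D) 1 := ⟨_, rfl⟩
  have cc : Continuous c := by rw [hc]; fun_prop
  have ii : ∀ a b, IntervalIntegrable c volume a b := fun a b => cc.intervalIntegrable a b
  have mono : Monotone c := fun a b h => by rw [hc]; dsimp only; gcongr
  have mem : ∀ r, 0 ≤ c r ∧ c r ≤ M := fun r => by
    rw [hc]
    exact ⟨by positivity, mul_le_of_le_one_right hM (min_le_right _ _)⟩
  have bd : ∀ a b, a ≤ b → c a * (b - a) ≤ ∫ σ in a..b, c σ ∧ ∫ σ in a..b, c σ ≤ c b * (b - a) :=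
    fun a b h => ⟨by
      simpa [mul_comm] using intervalIntegral.integral_mono_on h
        (intervalIntegrable_const (c := c a)) (ii a b) fun x hx => mono hx.1, by
      simpa [mul_comm] using intervalIntegral.integral_mono_on h (ii a b)
        (intervalIntegrable_const (c := c b)) fun x hx => mono hx.2⟩
  have sub : ∀ a b, (∫ σ in (0 : ℝ)..b, c σ) - ∫ σ in (0 : ℝ)..a, c σ = ∫ σ in a..b, c σ :=
    fun a b => intervalIntegral.integral_interval_sub_left (ii _ _) (ii _ _)
  refine ⟨c, fun r => ∫ σ in (0 : ℝ)..r, c σ, cc, intervalIntegral.continuous_primitive ii 0, mem,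
    fun r σ h => ?_, sub, fun a b h => sub a b ▸ (bd a b h).1, fun a b h => sub a b ▸
      (bd a b h).2.trans (mul_le_mul_of_nonneg_right (mem b).2 (sub_nonneg.2 h)),
    fun r h => ?_, fun r h => ?_⟩
  · rw [hc]
    dsimp only
    rw [← mul_add]
    refine mul_le_mul_of_nonneg_left ?_ hM
    have a : max (r + σ) 0 / D ≤ max r 0 / D + σ / D := by
      rw [← add_div]
      gcongr
      exact max_le (by linarith [le_max_left r 0]) (by linarith [le_max_right r 0])
    have b : 0 ≤ max r 0 / D := by positivity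
    have d : 0 ≤ σ / D := by positivity
    rcases le_total (max r 0 / D) 1 with u | u <;> rcases le_total (σ / D) 1 with w | w <;>
      simp only [min_eq_left, min_eq_right, u, w]
    exacts [(min_le_left _ _).trans a, (min_le_right _ _).trans (by linarith),
      (min_le_right _ _).trans (by linarith), (min_le_right _ _).trans (by linarith)]
  · have a := bd r 0 h
    have b : c 0 = 0 := by simp [hc]
    have d := mul_nonneg (mem r).1 (sub_nonneg.2 h)
    rw [b, zero_mul, intervalIntegral.integral_symm] at a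
    linarith [a.1, a.2]
  · rw [hc]
    dsimp only
    rw [min_eq_right ((one_le_div hD).2 (h.trans (le_max_left _ _))), mul_one]

theorem Pen.mono {M D : ℝ} {c ρ : ℝ → ℝ} (h : Pen M D c ρ) {a b : ℝ} (hab : a ≤ b) : ρ a ≤ ρ b :=
  sub_nonneg.1 ((mul_nonneg (h.mem a).1 (sub_nonneg.2 hab)).trans (h.ge a b hab))

theorem Pen.nonneg {M D : ℝ} {c ρ : ℝ → ℝ} (h : Pen M D c ρ) (r : ℝ) : 0 ≤ ρ r :=
  (h.zero _ (min_le_right r 0)).ge.trans (h.mono (min_le_left r 0))

theorem Pen.lip {M D : ℝ} {c ρ : ℝ → ℝ} (h : Pen M D c ρ) (hM : 0 ≤ M) (a b : ℝ) :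
    ρ b - ρ a ≤ M * |b - a| := by
  rcases le_total a b with k | k
  · exact (h.le a b k).trans (mul_le_mul_of_nonneg_left (le_abs_self _) hM)
  · exact (sub_nonpos.2 (h.mono k)).trans (by positivity)

theorem tangent {p q κ : ℝ} (h0 : 0 < p) (h1 : p < 1) (hq : 0 ≤ q) (hκ : 0 ≤ κ) :
    κ * q ^ p ≤ κ * κ ^ p + p * κ ^ p * (q - κ) := by
  rcases hκ.eq_or_lt with rfl | k
  · simp [Real.zero_rpow h0.ne']
  · have a := rpow_one_add_le_one_add_mul_self (s := q / κ - 1)
      (by linarith [div_nonneg hq hκ]) h0.le h1.le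
    have b := Real.rpow_pos_of_pos k p
    rw [add_sub_cancel, Real.div_rpow hq hκ, div_le_iff₀ b] at a
    calc _ ≤ κ * ((1 + p * (q / κ - 1)) * κ ^ p) := by gcongr
      _ = _ := by field_simp

theorem small {P : Par} {M : ℝ} (PF : P.Facts M) {e : ℝ} (he : 0 < e) :
    ∃ D, 0 < D ∧ ∫ σ in Ioi (0 : ℝ), P.k σ * min (σ / D) 1 < e := by
  have h := tendsto_integral_filter_of_dominated_convergence (μ := volume.restrict (Ioi (0 : ℝ)))
    (l := atTop) (F := fun (D : ℝ) σ => P.k σ * min (σ / D) 1) (f := fun _ => 0) P.k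
    (.of_forall fun D => by have := PF.k_cont; fun_prop)
    ((eventually_gt_atTop 0).mono fun D hD => (ae_restrict_mem measurableSet_Ioi).mono
      fun σ hσ => by
        have := PF.k_nonneg σ
        have : 0 < σ := hσ
        rw [Real.norm_of_nonneg (by positivity)]
        exact mul_le_of_le_one_right ‹_› (min_le_right _ _))
    PF.k_int (.of_forall fun σ => by
      simpa using ((tendsto_const_nhds (x := σ).div_atTop tendsto_id).min
        (tendsto_const_nhds (x := 1))).const_mul (P.k σ))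
  rw [integral_zero] at h
  exact ((eventually_gt_atTop 0).and (h.eventually_lt_const he)).exists

/-- the velocity at a maximum point -/
theorem vel {P : Par} {M D : ℝ} (hM : 0 < M) (hD : 0 < D) (PF : P.Facts M) {L : Lag P M}
    (LF : L.Facts) {c ρ : ℝ → ℝ} (hp : Pen M D c ρ) {τ y r κ : ℝ} (hκ : κ ∈ Icc 0 M)
    (h : ∀ σ, 0 ≤ σ → L.Q τ (y + σ) - L.Q τ y - κ * σ ≤ ρ (r + σ) - ρ r) :
    P.f κ - P.Th M * (c r + M * ∫ σ in Ioi (0 : ℝ), P.k σ * min (σ / D) 1) ≤ κ * L.v τ y := by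
  have mq : Measurable fun σ => L.q τ (y + σ) :=
    LF.q_meas.comp (measurable_const.prodMk (measurable_const_add y))
  have mu : Measurable fun σ => L.u τ (y + σ) :=
    L.u_meas.comp (measurable_const.prodMk (measurable_const_add y))
  have cc : Continuous fun σ => c (r + σ) := hp.cc.comp (continuous_const_add r)
  have mw : Measurable fun σ => L.q τ (y + σ) - κ - c (r + σ) :=
    (mq.sub_const κ).sub cc.measurable
  have bw : ∀ σ, |L.q τ (y + σ) - κ - c (r + σ)| ≤ 2 * M := fun σ => abs_le.2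
    ⟨by linarith [(LF.q_mem τ (y + σ)).1, hκ.2, (hp.mem (r + σ)).2],
      by linarith [(LF.q_mem τ (y + σ)).2, hκ.1, (hp.mem (r + σ)).1]⟩
  have a1 : ∫ σ in Ioi (0 : ℝ), P.k σ * (L.q τ (y + σ) - κ - c (r + σ)) ≤ 0 := by
    rw [← PF.swap _ mw ⟨_, bw⟩]
    refine setIntegral_nonpos measurableSet_Ioi fun σ hσ =>
      mul_nonpos_of_nonneg_of_nonpos (P.hg0 σ) ?_
    have iq : IntervalIntegrable (fun a => L.q τ (y + a)) volume 0 σ :=
      (intervalIntegrable_const (c := M)).mono_fun' mq.aestronglyMeasurable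
        (.of_forall fun a => by
          simpa [abs_of_nonneg (LF.q_mem τ (y + a)).1] using (LF.q_mem τ (y + a)).2)
    have b := h σ (le_of_lt hσ)
    rw [LF.Q_sub, hp.sub] at b
    rw [intervalIntegral.integral_sub (iq.sub intervalIntegrable_const) (cc.intervalIntegrable _ _),
      intervalIntegral.integral_sub iq intervalIntegrable_const,
      intervalIntegral.integral_comp_add_left (fun a => L.q τ a),
      intervalIntegral.integral_comp_add_left c]
    simp only [add_zero, intervalIntegral.integral_const, sub_zero, smul_eq_mul]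
    linarith
  have i1 := PF.k_int.mul_bdd mw.aestronglyMeasurable (.of_forall bw)
  have i2 := PF.k_int.mul_bdd (g := fun σ => min (σ / D) 1) (c := 1) (by fun_prop)
    ((ae_restrict_mem measurableSet_Ioi).mono fun σ hσ => by
      have : 0 < σ := hσ
      rw [Real.norm_of_nonneg (by positivity)]
      exact min_le_right _ _)
  have i3 := PF.k_int.mul_bdd mu.aestronglyMeasurable (c := P.N M) (.of_forall fun σ => by
    rw [Real.norm_of_nonneg (LF.u_nonneg _ _)]; exact L.u_le _ _)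
  have p0 := P.hp0
  have k0 := Real.rpow_nonneg hκ.1 P.p
  have k1 : κ ^ P.p ≤ P.N M := Real.rpow_le_rpow hκ.1 hκ.2 p0.le
  obtain ⟨ε, hε⟩ : ∃ ε, ε = ∫ σ in Ioi (0 : ℝ), P.k σ * min (σ / D) 1 := ⟨_, rfl⟩
  have ε0 : 0 ≤ ε := hε ▸ setIntegral_nonneg measurableSet_Ioi fun σ hσ => by
    have := PF.k_nonneg σ
    have : 0 < σ := hσ
    positivity
  have a2 : κ * L.Z τ y ≤ κ * κ ^ P.p + P.p * κ ^ P.p * (c r + M * ε) := by
    have := setIntegral_mono_on (i3.const_mul κ)
      (((PF.k_int.const_mul (κ * κ ^ P.p + P.p * κ ^ P.p * c r)).add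
        (i1.const_mul (P.p * κ ^ P.p))).add (i2.const_mul (P.p * κ ^ P.p * M)))
      measurableSet_Ioi fun σ hσ => by
        have b1 := tangent p0 P.hp1 (LF.q_mem τ (y + σ)).1 hκ.1
        have b2 := mul_le_mul_of_nonneg_left (hp.add r σ (le_of_lt hσ)) (mul_nonneg p0.le k0)
        rw [LF.q_pow] at b1
        simp only [Pi.add_apply]
        nlinarith [mul_le_mul_of_nonneg_left (add_le_add b1 b2) (PF.k_nonneg σ)]
    rw [integral_add' ((PF.k_int.const_mul _).add (i1.const_mul _)) (i2.const_mul _),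
      integral_add' (PF.k_int.const_mul _) (i1.const_mul _)] at this
    simp only [integral_const_mul, PF.k_one, ← hε] at this
    unfold Lag.Z
    linarith [mul_nonpos_of_nonneg_of_nonpos (mul_nonneg p0.le k0) a1]
  rw [← hε]
  have c0 : 0 ≤ c r + M * ε := add_nonneg (hp.mem r).1 (by positivity)
  have b0 := PF.bm_nonneg
  have N0 := PF.N_pos
  rcases le_total (L.Z τ y) (κ ^ P.p) with u | u
  · have := mul_le_mul_of_nonneg_left (PF.Φ_anti u) hκ.1
    have : 0 ≤ P.Th M * (c r + M * ε) := by unfold Par.Th; positivity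
    unfold Par.f Lag.v
    linarith
  · have b1 := (abs_le.1 (PF.Φ_lip _ (LF.Z_mem τ y) _ ⟨k0, k1⟩)).1
    rw [abs_of_nonneg (sub_nonneg.2 u)] at b1
    have b2 := mul_le_mul_of_nonneg_left b1 hκ.1
    have b3 := mul_le_mul_of_nonneg_left a2 b0
    have b4 := mul_le_mul_of_nonneg_left k1 (mul_nonneg (mul_nonneg p0.le b0) c0)
    unfold Par.f Lag.v Par.Th
    linarith

end SubP

open SubP in
theorem subS (hB : Basic) : SubS := by
  intro P M hM
  have PF := hB.1 P M hM
  have T0 : 0 ≤ P.Th M := by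
    have := PF.bm_nonneg
    have := PF.N_pos
    have := P.hp0
    unfold Par.Th
    positivity
  have V0 : 0 ≤ P.Vm M := add_nonneg (abs_nonneg _) (mul_nonneg PF.bm_nonneg PF.N_pos.le)
  obtain ⟨C, hC⟩ : ∃ C, C = P.Vm M + P.Th M := ⟨_, rfl⟩
  have C0 : 0 ≤ C := hC ▸ add_nonneg V0 T0
  refine ⟨C, C0, fun e he => ?_⟩
  obtain ⟨D, hD, hε⟩ := small PF (e := e / (P.Th M * M + 1)) (by positivity)
  refine ⟨D, hD, fun L s δ x κ hs hδ hT hκ => ?_⟩
  have LF := hB.2.1 P M L hM
  obtain ⟨c, ρ, hp⟩ := pen hM.le hD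
  obtain ⟨t, ht⟩ : ∃ t, t = s + δ := ⟨_, rfl⟩
  obtain ⟨F, hF⟩ : ∃ F : ℝ → ℝ → ℝ, ∀ θ y, F θ y = L.Q (t - θ) y - κ * y - P.f κ * θ -
    ρ (y - x - C * θ) - ρ (x - y - C * θ) := ⟨_, fun _ _ => rfl⟩
  have Qm : ∀ τ a b, a ≤ b → 0 ≤ L.Q τ b - L.Q τ a ∧ L.Q τ b - L.Q τ a ≤ M * (b - a) :=
    fun τ a b h => by
      rw [LF.Q_sub]
      refine ⟨intervalIntegral.integral_nonneg h fun z _ => (LF.q_mem τ z).1,
        (le_abs_self _).trans ?_⟩
      rw [← abs_of_nonneg (sub_nonneg.2 h)]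
      exact intervalIntegral.norm_integral_le_of_norm_le_const fun z _ => by
        rw [Real.norm_of_nonneg (LF.q_mem τ z).1]; exact (LF.q_mem τ z).2
  have mx : ∀ θ, ∃ y, 0 ≤ θ → |y - x| ≤ C * θ + D ∧ ∀ z, F θ z ≤ F θ y := fun θ => by
    by_cases h : 0 ≤ θ
    swap
    · exact ⟨0, fun k => absurd k h⟩
    have c0 := mul_nonneg C0 h
    have cF : Continuous (F θ) := by
      have a := hp.cρ
      have b : Continuous (L.Q (t - θ)) := LF.Q_cont.uncurry_left _
      rw [show F θ = _ from funext (hF θ)]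
      fun_prop
    obtain ⟨y, hy, hm⟩ := (isCompact_Icc (a := x - (C * θ + D)) (b := x + (C * θ + D))).exists_isMaxOn
      (nonempty_Icc.2 (by linarith)) cF.continuousOn
    refine ⟨y, fun _ => ⟨abs_le.2 ⟨by linarith [hy.1], by linarith [hy.2]⟩, fun z => ?_⟩⟩
    rcases le_total z (x - (C * θ + D)) with u | u
    · refine le_trans ?_ (hm ⟨le_rfl, by linarith⟩)
      have a := hp.ge (x - (x - (C * θ + D)) - C * θ) (x - z - C * θ) (by linarith)
      rw [hp.top _ (by linarith)] at a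
      rw [hF, hF, hp.zero (z - x - C * θ) (by linarith),
        hp.zero (x - (C * θ + D) - x - C * θ) (by linarith)]
      nlinarith [(Qm (t - θ) _ _ u).1, mul_le_mul_of_nonneg_right hκ.2 (sub_nonneg.2 u)]
    rcases le_total z (x + (C * θ + D)) with w | w
    · exact hm ⟨u, w⟩
    · refine le_trans ?_ (hm ⟨by linarith, le_rfl⟩)
      have a := hp.ge (x + (C * θ + D) - x - C * θ) (z - x - C * θ) (by linarith)
      rw [hp.top _ (by linarith)] at a
      rw [hF, hF, hp.zero (x - z - C * θ) (by linarith),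
        hp.zero (x - (x + (C * θ + D)) - C * θ) (by linarith)]
      nlinarith [(Qm (t - θ) _ _ w).2, mul_nonneg hκ.1 (sub_nonneg.2 w)]
  choose ym hy using mx
  have tm : ∀ θ ∈ Icc 0 δ, t - θ ∈ Icc 0 L.T := fun θ h => ⟨by linarith [h.2], by linarith [h.1]⟩
  have cg : ContinuousOn (fun θ => F θ (ym θ)) (Icc 0 δ) :=
    (LipschitzOnWith.of_le_add_mul' (M * P.Vm M + |P.f κ| + 2 * (M * C)) fun a ha b hb => by
      refine le_trans ?_ (add_le_add_left ((hy b hb.1).2 (ym a)) _)
      have a1 := (le_abs_self _).trans (LF.Q_time _ (tm a ha) _ (tm b hb) (ym a))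
      have a2 := hp.lip hM.le (ym a - x - C * a) (ym a - x - C * b)
      have a3 := hp.lip hM.le (x - ym a - C * a) (x - ym a - C * b)
      have a4 := (neg_le_abs (P.f κ * (a - b))).trans_eq (abs_mul _ _)
      rw [sub_sub_sub_cancel_left, abs_sub_comm] at a1
      rw [sub_sub_sub_cancel_left, ← mul_sub, abs_mul, abs_of_nonneg C0] at a2 a3
      rw [hF, hF, Real.dist_eq]
      linarith).continuousOn
  have key := IsClosed.Icc_subset_of_forall_mem_nhdsWithin (a := 0) (b := δ)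
    (s := {θ | F 0 (ym 0) - e * θ ≤ F θ (ym θ)})
    (by rw [inter_comm]; exact isClosed_Icc.isClosed_le (by fun_prop) cg) (by simp)
    (fun θ hθ => ?_) ⟨hδ, le_rfl⟩
  · refine ⟨ym δ, (hy δ hδ).1, ?_⟩
    have a1 := (hy 0 le_rfl).2 x
    have a2 : F 0 (ym 0) - e * δ ≤ F δ (ym δ) := key
    rw [hF 0 x, hp.zero _ (by simp)] at a1
    rw [hF δ, ht, add_sub_cancel_right] at a2
    rw [ht, sub_zero (s + δ)] at a1
    linarith [hp.nonneg (ym δ - x - C * δ), hp.nonneg (x - ym δ - C * δ)]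
  obtain ⟨h1, h2, h3⟩ := hθ
  obtain ⟨η, hη⟩ : ∃ η, L.X (t - θ) η = ym θ := ⟨_, L.XY _ _⟩
  have hv := vel hM hD PF LF hp (τ := t - θ) (y := ym θ) (r := ym θ - x - C * θ) hκ fun σ hσ => by
    have a := (hy θ h2).2 (ym θ + σ)
    rw [hF, hF, show ym θ + σ - x - C * θ = ym θ - x - C * θ + σ by ring] at a
    linarith [hp.mono (a := x - (ym θ + σ) - C * θ) (b := x - ym θ - C * θ) (by linarith)]
  obtain ⟨r, hr⟩ : ∃ r, r = ym θ - x - C * θ := ⟨_, rfl⟩
  rw [← hr] at hv
  have d1 : HasDerivWithinAt (fun z => L.X (t - z) η) (L.v (t - θ) (ym θ) * -1) (Ioi θ) θ := by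
    have a := (L.X_deriv η _ (tm θ ⟨h2, h3.le⟩)).comp θ
      ((hasDerivWithinAt_id θ (Icc 0 δ)).const_sub t) tm
    rw [hη] at a
    exact a.mono_of_mem_nhdsWithin (Icc_mem_nhdsGT_of_mem ⟨h2, h3⟩)
  have d0 := (hasDerivWithinAt_id θ (Ioi θ)).sub_const θ
  have d2 := (hasDerivWithinAt_iff_tendsto_slope' self_notMem_Ioi).1
    (((d1.const_mul (-κ)).add (d0.const_mul (c r * P.Th M + e - P.f κ))).sub
      ((d0.mul d0).const_mul (M * P.Th M ^ 2 / D)))
  have pos : 0 < -κ * (L.v (t - θ) (ym θ) * -1) + (c r * P.Th M + e - P.f κ) * 1 -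
      M * P.Th M ^ 2 / D * (1 * (id θ - θ) + (id θ - θ) * 1) := by
    rw [lt_div_iff₀ (by positivity)] at hε
    have : 0 ≤ ∫ σ in Ioi (0 : ℝ), P.k σ * min (σ / D) 1 :=
      setIntegral_nonneg measurableSet_Ioi fun σ hσ => by
        have := PF.k_nonneg σ
        have : 0 < σ := hσ
        positivity
    simp only [id, sub_self]
    nlinarith
  filter_upwards [d2.eventually_const_lt pos, Ioc_mem_nhdsGT h3] with z hz hz'
  have z0 : 0 < z - θ := sub_pos.2 hz'.1
  have z1 : z ∈ Icc 0 δ := ⟨h2.trans hz'.1.le, hz'.2⟩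
  rw [slope_def_field, div_pos_iff_of_pos_right z0] at hz
  simp only [Pi.add_apply, Pi.sub_apply, Pi.mul_apply, id, sub_self, hη] at hz
  have b1 := abs_le.1 (LF.X_lip η _ (tm z z1) _ (tm θ ⟨h2, h3.le⟩))
  rw [hη, sub_sub_sub_cancel_left, abs_sub_comm, abs_of_pos z0] at b1
  have b2 := (hy z z1.1).2 (L.X (t - z) η)
  have b3 := hp.mono (a := x - L.X (t - z) η - C * z) (b := x - ym θ - C * θ)
    (by rw [hC]; nlinarith [b1.1, mul_nonneg T0 z0.le])
  have b4 := hp.mono (a := L.X (t - z) η - x - C * z) (b := r - P.Th M * (z - θ))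
    (by rw [hr, hC]; linarith [b1.2])
  have b5 := hp.ge (r - P.Th M * (z - θ)) r (by linarith [mul_nonneg T0 z0.le])
  have b6 := hp.add (r - P.Th M * (z - θ)) _ (mul_nonneg T0 z0.le)
  rw [sub_add_cancel] at b6
  have b7 := mul_le_mul_of_nonneg_right (b6.trans (add_le_add_right
    (mul_le_mul_of_nonneg_left (min_le_left _ _) hM.le) _)) (mul_nonneg T0 z0.le)
  have b8 : L.Q (t - θ) (ym θ) = L.m η := hη ▸ LF.Q_X _ _
  have b9 : F 0 (ym 0) - e * θ ≤ F θ (ym θ) := h1
  rw [hF z, LF.Q_X] at b2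
  rw [hF θ, b8, ← hr] at b9
  have e1 : M * P.Th M ^ 2 / D * ((z - θ) * (z - θ)) =
    M * (P.Th M * (z - θ) / D) * (P.Th M * (z - θ)) := by ring
  change F 0 (ym 0) - e * z ≤ F z (ym z)
  linarith

end MP34a893

end MrgPart3

-- ======== part 4: formerly Pool.Agent.MP_34a893_an.Renorm
section MrgPart4

open MeasureTheory Set Filter Topology

namespace MP34a893

namespace Ren

/-- the mean over `[x - e, x + e]` -/
noncomputable def av (e x : ℝ) (f : ℝ → ℝ) : ℝ := (2 * e)⁻¹ * ∫ y in x - e..x + e, f y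

variable {e x T C : ℝ} {f f' : ℝ → ℝ} {q F Q : ℝ → ℝ → ℝ}

theorem av_cont {X : Type} [TopologicalSpace X] {f : X → ℝ → ℝ} (hf : Continuous f.uncurry)
    {c : X → ℝ} (hc : Continuous c) : Continuous fun p => av e (c p) (f p) := by
  have : ∀ p, av e (c p) (f p) = (2 * e)⁻¹ * ∫ y in -e..e, f p (y + c p) := fun p => by
    rw [intervalIntegral.integral_comp_add_right, av, neg_add_eq_sub, add_comm e]
  simp only [this]
  exact continuous_const.mul
    (intervalIntegral.continuous_parametric_intervalIntegral_of_continuous'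
      (f := fun p y => f p (y + c p))
      (hf.comp (continuous_fst.prodMk (continuous_snd.add (hc.comp continuous_fst)))) _ _)

theorem av_der (hf : Continuous f) :
    HasDerivAt (fun x => av e x f) ((2 * e)⁻¹ * (f (x + e) - f (x - e))) x := by
  have : ∀ x, av e x f = (2 * e)⁻¹ * ((∫ y in (0 : ℝ)..x + e, f y) - ∫ y in (0 : ℝ)..x - e, f y) :=
    fun x => by
      rw [intervalIntegral.integral_interval_sub_left (hf.intervalIntegrable _ _)
        (hf.intervalIntegrable _ _), av]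
  simp only [this]
  exact (((hf.integral_hasStrictDerivAt 0 _).hasDerivAt.comp_add_const x e).sub
    ((hf.integral_hasStrictDerivAt 0 _).hasDerivAt.comp_sub_const x e)).const_mul _

theorem av_le (he : 0 < e) (h : ∀ y, |y - x| ≤ e → |f y| ≤ C) : |av e x f| ≤ C := by
  have := intervalIntegral.norm_integral_le_of_norm_le_const (a := x - e) (b := x + e) (f := f)
    (C := C) fun y hy => h y (by
      rw [uIoc_of_le (by linarith)] at hy
      exact abs_le.2 ⟨by linarith [hy.1], by linarith [hy.2]⟩)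
  rw [Real.norm_eq_abs, show x + e - (x - e) = 2 * e by ring, abs_of_pos (a := 2 * e)
    (by positivity)] at this
  rw [av, abs_mul, abs_of_pos (by positivity), inv_mul_le_iff₀ (by positivity)]
  linarith

theorem av_congr (he : 0 < e) (h : ∀ y, |y - x| ≤ e → f y = f' y) : av e x f = av e x f' := by
  rw [av, av, intervalIntegral.integral_congr fun y hy => h y (by
    rw [uIcc_of_le (by linarith)] at hy
    exact abs_le.2 ⟨by linarith [hy.1], by linarith [hy.2]⟩)]

theorem av_sub (hf : Continuous f) (hf' : Continuous f') (c : ℝ) :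
    c * (av e x f - av e x f') = av e x fun y => c * (f y - f' y) := by
  rw [av, av, av, intervalIntegral.integral_const_mul, intervalIntegral.integral_sub
    (hf.intervalIntegrable _ _) (hf'.intervalIntegrable _ _)]
  ring

theorem av_near (he : 0 < e) (hf : Continuous f) {c : ℝ} (h : ∀ y, |y - x| ≤ e → |f y - c| ≤ C) :
    |av e x f - c| ≤ C := by
  have h1 : av e x (fun _ => c) = c := by
    simp only [av, intervalIntegral.integral_const, smul_eq_mul]
    field_simp
    ring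
  rw [← h1, ← one_mul (_ - _), av_sub hf continuous_const]
  exact av_le he (by simpa using h)

theorem av_swap {g : ℝ → ℝ → ℝ} (hg : Continuous g.uncurry) (t : ℝ) :
    av e t (fun s => av e x (g s)) = av e x fun y => av e t fun s => g s y := by
  simp only [av, intervalIntegral.integral_const_mul]
  rw [intervalIntegral_intervalIntegral_swap ((hg.continuousOn.integrableOn_compact
    (isCompact_uIcc.prod isCompact_uIcc)).mono_set (prod_mono uIoc_subset_uIcc uIoc_subset_uIcc))]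

theorem av_ball (he : 0 < e) {u : ℝ × ℝ → ℝ} {z : ℝ × ℝ}
    (hu : IntegrableOn u (Metric.closedBall z e)) :
    ⨍ w in Metric.closedBall z e, u w = av e z.1 fun s => av e z.2 fun y => u (s, y) := by
  obtain ⟨t, x⟩ := z
  rw [← closedBall_prod_same, Real.closedBall_eq_Icc, Real.closedBall_eq_Icc,
    Measure.volume_eq_prod] at *
  rw [setAverage_eq, setIntegral_prod _ hu, measureReal_prod_prod, Real.volume_real_Icc_of_le
    (by linarith), Real.volume_real_Icc_of_le (by linarith)]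
  simp only [av, integral_Icc_eq_integral_Ioc,
    intervalIntegral.integral_of_le (show t - e ≤ t + e by linarith),
    intervalIntegral.integral_of_le (show x - e ≤ x + e by linarith), integral_const_mul,
    smul_eq_mul, ← mul_assoc]
  congr 1
  rw [← mul_inv]
  congr 1
  ring

theorem c1 {S D1 D2 : ℝ × ℝ → ℝ} (c1 : Continuous D1) (c2 : Continuous D2)
    (h1 : ∀ z : ℝ × ℝ, HasDerivAt (fun t => S (t, z.2)) (D1 z) z.1)
    (h2 : ∀ z : ℝ × ℝ, HasDerivAt (fun x => S (z.1, x)) (D2 z) z.2) :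
    ContDiff ℝ 1 S ∧ ∀ z, fderiv ℝ S z (1, 0) = D1 z ∧ fderiv ℝ S z (0, 1) = D2 z := by
  have h : ∀ z, HasFDerivAt S (D1 z • ContinuousLinearMap.fst ℝ ℝ ℝ +
      D2 z • ContinuousLinearMap.snd ℝ ℝ ℝ) z := fun z => by
    have := (hasStrictFDerivAt_uncurry_coprod (𝕜 := ℝ) (u := z) (f := fun t x => S (t, x))
      (f₁ := fun t x => D1 (t, x) • ContinuousLinearMap.id ℝ ℝ)
      (f₂ := fun t x => D2 (t, x) • ContinuousLinearMap.id ℝ ℝ)
      (.of_forall fun v => (h1 v).hasFDerivAt.congr_fderiv (by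
        ext
        simp [Function.HasUncurry.uncurry]))
      (.of_forall fun v => (h2 v).hasFDerivAt.congr_fderiv (by
        ext
        simp [Function.HasUncurry.uncurry]))
      (c1.smul continuous_const).continuousAt (c2.smul continuous_const).continuousAt).hasFDerivAt
    exact this.congr_fderiv (by ext <;> simp [Function.HasUncurry.uncurry])
  exact ⟨contDiff_one_iff_hasFDerivAt.2 ⟨_, by fun_prop, h⟩, fun z => by simp [(h z).fderiv]⟩

theorem ae_strip {p : ℝ × ℝ → Prop} (hp : MeasurableSet {z | p z})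
    (h : ∀ t ∈ Icc 0 T, ∀ᵐ x, p (t, x)) : ∀ᵐ z ∂volume.restrict (Ioo 0 T ×ˢ univ), p z := by
  rw [Measure.volume_eq_prod, ← Measure.restrict_prod_eq_prod_univ, Measure.ae_prod_iff_ae_ae hp]
  filter_upwards [ae_restrict_mem measurableSet_Ioo] with t ht using h t (Ioo_subset_Icc_self ht)

noncomputable def ep (n : ℕ) : ℝ := 1 / ((n : ℝ) + 1)

theorem ep_pos (n : ℕ) : 0 < ep n := Nat.one_div_pos_of_nat

theorem ep_lim : Tendsto ep atTop (𝓝 0) := tendsto_one_div_add_atTop_nhds_zero_nat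

theorem ep_small {t : ℝ} (ht : t ∈ Ioo 0 T) :
    ∀ᶠ n in atTop, ∀ s, |s - t| ≤ ep n → s ∈ Ioo 0 T := by
  filter_upwards [ep_lim.eventually (gt_mem_nhds ht.1),
    ep_lim.eventually (gt_mem_nhds (sub_pos.2 ht.2))] with n h1 h2 s hs
  exact ⟨by linarith [(abs_le.1 hs).1], by linarith [(abs_le.1 hs).2]⟩

theorem leb (hq : Measurable q.uncurry) (h : ∀ t ∈ Icc 0 T, ∀ᵐ x, |q t x| ≤ C) :
    ∀ᵐ z ∂volume.restrict (Ioo 0 T ×ˢ univ), Tendsto
      (fun n => av (ep n) z.1 fun s => av (ep n) z.2 (q s)) atTop (𝓝 (q z.1 z.2)) := by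
  have hm : MeasurableSet (Ioo 0 T ×ˢ (univ : Set ℝ)) := measurableSet_Ioo.prod .univ
  have hb := (ae_restrict_iff' hm).1 (ae_strip (p := fun z => |q z.1 z.2| ≤ C)
    (measurableSet_le hq.abs measurable_const) h)
  have hi : LocallyIntegrable ((Ioo 0 T ×ˢ univ).indicator q.uncurry) :=
    (locallyIntegrable_const C).mono (hq.indicator hm).aestronglyMeasurable (by
      filter_upwards [hb] with z hz
      by_cases k : z ∈ Ioo 0 T ×ˢ (univ : Set ℝ)
      · rw [indicator_of_mem k]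
        exact (hz k).trans (le_abs_self C)
      · simp [indicator_of_notMem k])
  filter_upwards [ae_restrict_mem hm,
    ae_restrict_of_ae (IsUnifLocDoublingMeasure.ae_tendsto_average volume hi 1)] with z hz h
  have := h (fun _ : ℕ => z) ep (tendsto_nhdsWithin_iff.2 ⟨ep_lim, .of_forall ep_pos⟩)
    (.of_forall fun n => Metric.mem_closedBall_self (by simpa using (ep_pos n).le))
  rw [indicator_of_mem hz] at this
  refine this.congr' ?_
  filter_upwards [ep_small hz.1] with n hn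
  rw [av_ball (ep_pos n) (hi.integrableOn_isCompact (isCompact_closedBall _ _))]
  refine av_congr (ep_pos n) fun s hs => ?_
  congr 1
  funext y
  exact indicator_of_mem (show (s, y) ∈ Ioo 0 T ×ˢ univ from ⟨hn s hs, trivial⟩) _

theorem lipx (h : Pot T C q F Q) {t : ℝ} (ht : t ∈ Icc 0 T) (x y : ℝ) :
    |Q t y - Q t x| ≤ C * |y - x| := by
  rw [h.Qx t ht]
  exact intervalIntegral.norm_integral_le_of_norm_le_const_ae (f := q t)
    ((h.bdd t ht).mono fun _ k _ => k.1)

theorem nonneg (hT : 0 ≤ T) (h : Pot T C q F Q) : 0 ≤ C := by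
  obtain ⟨x, hx⟩ := (h.bdd 0 ⟨le_rfl, hT⟩).exists
  exact (abs_nonneg _).trans hx.1

/-- the potential extended to all times -/
theorem extend (hT : 0 ≤ T) (h : Pot T C q F Q) : ∃ g : ℝ → ℝ → ℝ, Continuous g.uncurry ∧
    (∀ t ∈ Icc 0 T, g t = Q t) ∧ (∀ t s x, |g t x - g s x| ≤ C * |t - s|) ∧
    ∀ t x y, |g t y - g t x| ≤ C * |y - x| := by
  have h1 : ∀ t s x, |Q (projIcc 0 T hT t) x - Q (projIcc 0 T hT s) x| ≤ C * |t - s| :=
    fun t s x => (h.lip _ (projIcc 0 T hT s).2 _ (projIcc 0 T hT t).2 x).trans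
      (mul_le_mul_of_nonneg_left (abs_projIcc_sub_projIcc hT) (nonneg hT h))
  have h2 : ∀ t x y, |Q (projIcc 0 T hT t) y - Q (projIcc 0 T hT t) x| ≤ C * |y - x| :=
    fun t => lipx h (projIcc 0 T hT t).2
  exact ⟨fun t => Q (projIcc 0 T hT t), (LipschitzWith.uncurry
    (fun x => .of_dist_le' fun t s => h1 t s x) fun t => .of_dist_le' fun y x => h2 t x y).continuous,
    fun t ht => by simp only [projIcc_of_mem hT ht], h1, h2⟩

theorem approx (hT : 0 ≤ T) (h : Pot T C q F Q) : ∃ (G : ℝ × ℝ → ℝ) (S : ℕ → ℝ × ℝ → ℝ),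
    Continuous G ∧ (∀ z : ℝ × ℝ, z.1 ∈ Icc 0 T → G z = Q z.1 z.2) ∧ (∀ n, ContDiff ℝ 1 (S n)) ∧
    (∀ n z, |S n z - G z| ≤ 2 * C * ep n ∧ |fderiv ℝ (S n) z (1, 0)| ≤ C ∧
      |fderiv ℝ (S n) z (0, 1)| ≤ C) ∧
    ∀ᵐ z ∂volume.restrict (Ioo 0 T ×ˢ univ),
      Tendsto (fun n => fderiv ℝ (S n) z (1, 0)) atTop (𝓝 (-F z.1 z.2)) ∧
      Tendsto (fun n => fderiv ℝ (S n) z (0, 1)) atTop (𝓝 (q z.1 z.2)) := by
  obtain ⟨g, hg, e, l1, l2⟩ := extend hT h
  have hC := nonneg hT h
  have k1 : ∀ t, Continuous (g t) := fun t => hg.comp (.prodMk_right t)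
  have k2 : ∀ x, Continuous fun t => g t x := fun x => hg.comp (.prodMk_left x)
  have k3 : ∀ e x, Continuous fun s => av e x (g s) := fun e x => av_cont hg continuous_const
  have key := fun n => c1 (S := fun z => av (ep n) z.1 fun s => av (ep n) z.2 (g s))
    (D1 := fun z => av (ep n) z.2 fun y => (2 * ep n)⁻¹ * (g (z.1 + ep n) y - g (z.1 - ep n) y))
    (D2 := fun z => av (ep n) z.1 fun s => (2 * ep n)⁻¹ * (g s (z.2 + ep n) - g s (z.2 - ep n)))
    (av_cont (by fun_prop) continuous_snd) (av_cont (by fun_prop) continuous_fst)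
    (fun z => av_sub (k1 _) (k1 _) _ ▸ av_der (k3 _ _))
    (fun z => by
      simp only [av_swap hg]
      exact av_sub (k2 _) (k2 _) _ ▸ av_der (av_cont (f := fun y s => g s y)
        (hg.comp continuous_swap) continuous_const))
  have dq : ∀ (n : ℕ) (a x : ℝ), |a| ≤ C * |x + ep n - (x - ep n)| → |(2 * ep n)⁻¹ * a| ≤ C :=
    fun n a x ha => by
      have := ep_pos n
      rw [show x + ep n - (x - ep n) = 2 * ep n by ring, abs_of_pos (a := 2 * ep n)
        (by positivity)] at ha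
      rw [abs_mul, abs_of_pos (by positivity), inv_mul_le_iff₀ (by positivity)]
      linarith
  refine ⟨g.uncurry, _, hg, fun z hz => congrFun (e _ hz) _, fun n => (key n).1,
    fun n z => ⟨?_, ?_, ?_⟩, ?_⟩
  · refine av_near (ep_pos n) (k3 _ _) fun s hs => av_near (ep_pos n) (k1 _) fun y hy => ?_
    have h1 := (l2 s z.2 y).trans (mul_le_mul_of_nonneg_left hy hC)
    have h2 := (l1 s z.1 z.2).trans (mul_le_mul_of_nonneg_left hs hC)
    have := abs_sub_le (g s y) (g s z.2) (g z.1 z.2)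
    show |g s y - g z.1 z.2| ≤ _
    linarith
  · rw [((key n).2 z).1]
    exact av_le (ep_pos n) fun y _ => dq n _ z.1 (l1 _ _ _)
  · rw [((key n).2 z).2]
    exact av_le (ep_pos n) fun y _ => dq n _ z.2 (l2 _ _ _)
  filter_upwards [ae_restrict_mem (measurableSet_Ioo.prod .univ),
    leb h.q_meas fun t ht => (h.bdd t ht).mono fun _ k => k.1,
    leb h.F_meas fun t ht => (h.bdd t ht).mono fun _ k => k.2] with z hz h1 h2
  refine ⟨h2.neg.congr' ?_, h1.congr' ?_⟩ <;> filter_upwards [ep_small hz.1] with n hn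
  · have m1 := Ioo_subset_Icc_self (hn (z.1 + ep n) (by simp [abs_of_pos (ep_pos n)]))
    have m2 := Ioo_subset_Icc_self (hn (z.1 - ep n) (by simp [abs_of_pos (ep_pos n)]))
    rw [((key n).2 z).1]
    simp only [av, intervalIntegral.integral_const_mul, e _ m1, e _ m2, h.Qt _ m2 _ m1]
    ring
  · rw [((key n).2 z).2]
    refine av_congr (ep_pos n) fun s hs => ?_
    have m := Ioo_subset_Icc_self (hn s hs)
    rw [e s m, h.Qx s m, av]

theorem sign_meas : Measurable Real.sign :=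
  .ite measurableSet_Iio measurable_const (.ite measurableSet_Ioi measurable_const measurable_const)

theorem sign_mul (r : ℝ) : Real.sign r * r = |r| := by
  rcases lt_trichotomy r 0 with h | rfl | h
  · simp [Real.sign_of_neg h, abs_of_neg h]
  · simp
  · simp [Real.sign_of_pos h, abs_of_pos h]

theorem sign_le (r : ℝ) : |Real.sign r| ≤ 1 := by
  rcases Real.sign_apply_eq r with h | h | h <;> simp [h]

/-- a uniform bound for the derivatives of the test functions -/
theorem bound {θ : ℝ → ℝ} {φ G : ℝ × ℝ → ℝ} (hθ : ContDiff ℝ 1 θ) (hφ : ContDiff ℝ 1 φ)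
    (hc : HasCompactSupport φ) (hG : Continuous G) (L : ℝ) (v : ℝ × ℝ) : ∃ B, ∀ z ∈ tsupport φ,
      ∀ r u, |r - G z| ≤ L → |u| ≤ L → |θ r * fderiv ℝ φ z v + φ z * (deriv θ r * u)| ≤ B := by
  have c1 := hθ.continuous
  have c2 := hθ.continuous_deriv le_rfl
  have c3 := hφ.continuous
  have c4 := hφ.continuous_fderiv one_ne_zero
  obtain ⟨B, hB⟩ := (hc.isCompact.prod ((isCompact_Icc (a := -L) (b := L)).prod
    (isCompact_Icc (a := -L) (b := L)))).exists_bound_of_continuousOn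
    (f := fun w : (ℝ × ℝ) × ℝ × ℝ => θ (w.2.1 + G w.1) * fderiv ℝ φ w.1 v +
      φ w.1 * (deriv θ (w.2.1 + G w.1) * w.2.2)) (Continuous.continuousOn (by fun_prop))
  exact ⟨B, fun z hz r u hr hu => by
    simpa using hB (z, r - G z, u) ⟨hz, abs_le.1 hr, abs_le.1 hu⟩⟩

end Ren

open Ren in
theorem renormS : RenormS := by
  intro T C κ fκ q F Q θ hT hP hθ hθ0 hS φ hφ hc hs h0
  obtain ⟨G, S, cG, eG, hS1, hb, hl⟩ := approx hT.le hP
  have hC := nonneg hT.le hP
  have hm : MeasurableSet (Ioo 0 T ×ˢ (univ : Set ℝ)) := measurableSet_Ioo.prod .univ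
  set ℓ : ℝ × ℝ →L[ℝ] ℝ :=
    fκ • ContinuousLinearMap.fst ℝ ℝ ℝ - κ • ContinuousLinearMap.snd ℝ ℝ ℝ with hℓ
  have l1 : ℓ (1, 0) = fκ := by simp [hℓ]
  have l2 : ℓ (0, 1) = -κ := by simp [hℓ]
  set Φ : ℕ → ℝ × ℝ → ℝ := fun n z => θ (S n z + ℓ z) * φ z with hΦ
  have cΦ : ∀ n, ContDiff ℝ 1 (Φ n) := fun n => (hθ.comp ((hS1 n).add ℓ.contDiff)).mul hφ
  have dΦ : ∀ n z v, fderiv ℝ (Φ n) z v = θ (S n z + ℓ z) * fderiv ℝ φ z v +
      φ z * (deriv θ (S n z + ℓ z) * (fderiv ℝ (S n) z v + ℓ v)) := fun n z v => by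
    have h1 := (((hθ.differentiable one_ne_zero _).hasDerivAt.comp_hasFDerivAt z
      (((hS1 n).differentiable one_ne_zero z).hasFDerivAt.add ℓ.hasFDerivAt)).mul
      (hφ.differentiable one_ne_zero z).hasFDerivAt).fderiv
    rw [show fderiv ℝ (Φ n) z = _ from h1]
    simp [mul_add]
  have sΦ : ∀ n, tsupport (Φ n) ⊆ tsupport φ := fun n => tsupport_mul_subset_right
  set L := 2 * C + |κ| + |fκ| with hL
  obtain ⟨B1, hB1⟩ := bound hθ hφ hc (cG.add ℓ.continuous) L (1, 0)
  obtain ⟨B2, hB2⟩ := bound hθ hφ hc (cG.add ℓ.continuous) L (0, 1)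
  have a1 := abs_nonneg κ
  have a2 := abs_nonneg fκ
  have lS : ∀ z, Tendsto (fun n => S n z + ℓ z) atTop (𝓝 (G z + ℓ z)) := fun z => by
    refine Tendsto.add_const _ (tendsto_iff_norm_sub_tendsto_zero.2
      (squeeze_zero (fun _ => norm_nonneg _) (fun n => (hb n z).1) ?_))
    simpa using ep_lim.const_mul (2 * C)
  have mq := hP.q_meas
  have mF := hP.F_meas
  have lim := tendsto_integral_of_dominated_convergence (μ := volume.restrict (Ioo 0 T ×ˢ univ))
    (F := fun n z => |q z.1 z.2 - κ| * fderiv ℝ (Φ n) z (1, 0) +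
      Real.sign (q z.1 z.2 - κ) * (F z.1 z.2 - fκ) * fderiv ℝ (Φ n) z (0, 1))
    (f := fun z => θ (Q z.1 z.2 - κ * z.2 + fκ * z.1) * |q z.1 z.2 - κ| * fderiv ℝ φ z (1, 0) +
      θ (Q z.1 z.2 - κ * z.2 + fκ * z.1) * (Real.sign (q z.1 z.2 - κ) * (F z.1 z.2 - fκ)) *
        fderiv ℝ φ z (0, 1))
    ((tsupport φ).indicator fun _ => L * B1 + L * B2)
    (fun n => by
      have c := (cΦ n).continuous_fderiv one_ne_zero
      exact (((mq.sub_const κ).abs.mul (c.clm_apply continuous_const).measurable).add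
        (((sign_meas.comp (mq.sub_const κ)).mul (mF.sub_const fκ)).mul
          (c.clm_apply continuous_const).measurable)).aestronglyMeasurable)
    (((integrable_indicator_iff hc.isCompact.measurableSet).2
      (integrableOn_const hc.isCompact.measure_lt_top.ne)).restrict)
    (fun n => by
      filter_upwards [ae_strip (p := fun z => |q z.1 z.2| ≤ C ∧ |F z.1 z.2| ≤ C)
        ((measurableSet_le mq.abs measurable_const).inter
          (measurableSet_le mF.abs measurable_const)) hP.bdd] with z hz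
      by_cases k : z ∈ tsupport φ
      · obtain ⟨b1, b2, b3⟩ := hb n z
        have e1 : ep n ≤ 1 := by simpa [ep] using inv_le_one_of_one_le₀ (by simp)
        have b0 : |S n z + ℓ z - (G z + ℓ z)| ≤ L := by
          rw [add_sub_add_right_eq_sub]
          nlinarith
        have k1 := hB1 z k _ (fderiv ℝ (S n) z (1, 0) + ℓ (1, 0)) b0
          ((abs_add_le _ _).trans (by rw [l1]; linarith))
        have k2 := hB2 z k _ (fderiv ℝ (S n) z (0, 1) + ℓ (0, 1)) b0
          ((abs_add_le _ _).trans (by rw [l2, abs_neg]; linarith))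
        rw [← dΦ] at k1 k2
        rw [indicator_of_mem k]
        refine (abs_add_le _ _).trans (add_le_add ?_ ?_) <;> rw [abs_mul]
        · rw [abs_abs]
          exact mul_le_mul ((abs_sub _ _).trans (by linarith [hz.1])) k1 (abs_nonneg _)
            (by positivity)
        · refine mul_le_mul ?_ k2 (abs_nonneg _) (by positivity)
          rw [abs_mul]
          exact (mul_le_of_le_one_left (abs_nonneg _) (sign_le _)).trans
            ((abs_sub _ _).trans (by linarith [hz.2]))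
      · simp [indicator_of_notMem k, fderiv_of_notMem_tsupport ℝ fun h => k (sΦ n h)])
    (by
      filter_upwards [ae_restrict_mem hm, hl] with z hz h
      have t0 := (hθ.continuous.tendsto _).comp (lS z)
      have t1 := ((hθ.continuous_deriv le_rfl).tendsto _).comp (lS z)
      simp only [dΦ]
      refine Tendsto.mono_right (Tendsto.add
        (((t0.mul_const _).add ((t1.mul (h.1.add_const _)).const_mul _)).const_mul _)
        (((t0.mul_const _).add ((t1.mul (h.2.add_const _)).const_mul _)).const_mul _))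
        (le_of_eq (congrArg _ ?_))
      rw [l1, l2, show G z + ℓ z = Q z.1 z.2 - κ * z.2 + fκ * z.1 by
        rw [eG z (Ioo_subset_Icc_self hz.1)]
        simp [hℓ]
        ring, ← sign_mul]
      ring)
  exact ge_of_tendsto' lim fun n => hS (Φ n) (cΦ n) hc.mul_left ((sΦ n).trans hs)
    fun z => mul_nonneg (hθ0 _) (h0 z)

end MP34a893

end MrgPart4

-- ======== part 5: formerly Pool.Agent.MP_34a893_an.Ent
section MrgPart5

open MeasureTheory Set Filter Topology

namespace MP34a893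

namespace Ent

/-- A continuous function that is constant on intervals where it exceeds `m`. -/
lemma dich {g : ℝ → ℝ} {m a c : ℝ} (hg : Continuous g) (hac : a ≤ c)
    (h : ∀ x1 x2, a ≤ x1 → x1 ≤ x2 → x2 ≤ c → (∀ r ∈ Ioo x1 x2, m < g r) → g x1 = g x2) :
    g a ≤ m ↔ g c ≤ m := by
  have hK : IsCompact (Icc a c ∩ g ⁻¹' Iic m) := isCompact_Icc.inter_right (isClosed_Iic.preimage hg)
  constructor
  · intro h0
    obtain ⟨x, ⟨h1, h2⟩, h3⟩ := hK.exists_isGreatest ⟨a, ⟨le_rfl, hac⟩, h0⟩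
    rw [← h x c h1.1 h1.2 le_rfl fun r hr => not_le.1 fun e =>
      (h3 ⟨⟨h1.1.trans hr.1.le, hr.2.le⟩, e⟩).not_gt hr.1]
    exact h2
  · intro h0
    obtain ⟨x, ⟨h1, h2⟩, h3⟩ := hK.exists_isLeast ⟨c, ⟨hac, le_rfl⟩, h0⟩
    rw [h a x le_rfl h1.1 h1.2 fun r hr => not_le.1 fun e =>
      (h3 ⟨⟨hr.1.le, hr.2.le.trans h1.2⟩, e⟩).not_gt hr.2]
    exact h2

variable {T C : ℝ} {q F Q : ℝ → ℝ → ℝ}

lemma meas_slice {q : ℝ → ℝ → ℝ} (h : Measurable (Function.uncurry q)) (t : ℝ) :
    Measurable (q t) := h.comp measurable_prodMk_left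

lemma ii {w : ℝ → ℝ} {B : ℝ} (h : Measurable w) (hb : ∀ᵐ x, |w x| ≤ B) (a c : ℝ) :
    IntervalIntegrable w volume a c :=
  (intervalIntegrable_const (c := B)).mono_fun' h.aestronglyMeasurable (ae_restrict_of_ae hb)

lemma cl_mem (hT : 0 ≤ T) (t : ℝ) : max 0 (min t T) ∈ Icc 0 T :=
  ⟨le_max_left _ _, max_le hT (min_le_right _ _)⟩

lemma cl_eq {t : ℝ} (h : t ∈ Icc 0 T) : max 0 (min t T) = t := by
  rw [min_eq_left h.2, max_eq_right h.1]

/-- The potential with clamped time is continuous. -/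
lemma cont (hT : 0 ≤ T) (h : Pot T C q F Q) :
    Continuous fun z : ℝ × ℝ => Q (max 0 (min z.1 T)) z.2 := by
  refine continuous_iff_continuousAt.2 fun z => ?_
  have h1 : Continuous (Q (max 0 (min z.1 T))) := by
    have : Q (max 0 (min z.1 T)) =
        fun x => Q (max 0 (min z.1 T)) 0 + ∫ y in (0 : ℝ)..x, q (max 0 (min z.1 T)) y :=
      funext fun x => by rw [← h.Qx _ (cl_mem hT _)]; ring
    rw [this]
    exact continuous_const.add (intervalIntegral.continuous_primitive (fun a c =>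
      ii (meas_slice h.q_meas _) ((h.bdd _ (cl_mem hT _)).mono fun _ e => e.1) a c) 0)
  have h2 : Tendsto (fun w : ℝ × ℝ => Q (max 0 (min w.1 T)) w.2 - Q (max 0 (min z.1 T)) w.2)
      (𝓝 z) (𝓝 0) := by
    refine squeeze_zero_norm (fun w => h.lip _ (cl_mem hT _) _ (cl_mem hT _) _) ?_
    exact (by fun_prop : Continuous fun w : ℝ × ℝ =>
      C * |max 0 (min w.1 T) - max 0 (min z.1 T)|).tendsto' z 0 (by simp)
  simpa [ContinuousAt] using h2.add ((h1.comp continuous_snd).tendsto z)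

lemma sign_meas : Measurable Real.sign :=
  Measurable.ite measurableSet_Iio measurable_const
    (Measurable.ite measurableSet_Ioi measurable_const measurable_const)

lemma sign_le (r : ℝ) : |Real.sign r| ≤ 1 := by
  rcases Real.sign_apply_eq r with h | h | h <;> simp [h]

end Ent

open Ent

theorem entS : ConeS → RenormS → EntS := by
  intro cone ren T M C V q0 q Q hT hV hE hq hP
  obtain ⟨K, hK⟩ := (hV.mul contDiff_id).contDiffOn.exists_lipschitzOnWith one_ne_zero
    (convex_Icc 0 M) isCompact_Icc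
  refine ⟨K + 1, by positivity, fun s δ x κ hs hδ hsδ hκ => ?_⟩
  rcases hδ.eq_or_lt with rfl | hδ
  · exact ⟨x, by simp, by simp⟩
  let G : ℝ → ℝ → ℝ := fun t y => Q (max 0 (min t T)) y - κ * y + V κ * κ * t
  have hG : Continuous fun z : ℝ × ℝ => G z.1 z.2 := by
    exact ((cont hT.le hP).sub (by fun_prop)).add (by fun_prop)
  have hG1 : ∀ t, Continuous (G t) := fun t => hG.comp (Continuous.prodMk_right t)
  have hGe : ∀ t ∈ Icc 0 T, ∀ y, G t y = Q t y - κ * y + V κ * κ * t := fun t ht y => by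
    simp only [G, cl_eq ht]
  have hK0 : (0 : ℝ) ≤ K := K.2
  obtain ⟨y, hy, hm⟩ := (isCompact_Icc (a := x - (K + 1) * δ) (b := x + (K + 1) * δ)).exists_isMaxOn
    ⟨x, by constructor <;> nlinarith⟩ (hG1 s).continuousOn
  refine ⟨y, by rw [add_zero, abs_le]; constructor <;> linarith [hy.1, hy.2], ?_⟩
  suffices H : G (s + δ) x ≤ G s y by
    rw [hGe _ ⟨by linarith, hsδ⟩, hGe _ ⟨hs, by linarith⟩] at H
    linarith
  set m := G s y
  let θ : ℝ → ℝ := fun r => Real.smoothTransition (r - m)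
  have hθ : ContDiff ℝ 1 θ := Real.smoothTransition.contDiff.comp (contDiff_id.sub contDiff_const)
  have hθ0 : ∀ r, 0 ≤ θ r := fun r => Real.smoothTransition.nonneg _
  have hθ1 : ∀ r, θ r ≤ 1 := fun r => Real.smoothTransition.le_one _
  have hθG : Continuous fun z : ℝ × ℝ => θ (G z.1 z.2) := hθ.continuous.comp hG
  have hqm := hP.q_meas
  have hqκ : ∀ t ∈ Icc 0 T, ∀ᵐ y, |q t y - κ| ≤ M := fun t ht => (hq t ht).mono fun y h =>
    abs_le.2 ⟨by linarith [h.1, hκ.2], by linarith [h.2, hκ.1]⟩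
  have hsub : SubId T (fun t y => θ (G t y) * |q t y - κ|)
      (fun t y => θ (G t y) * (Real.sign (q t y - κ) * (V (q t y) * q t y - V κ * κ))) := by
    intro φ h1 h2 h3 h4
    refine (ren T C κ (V κ * κ) q _ Q θ hT hP hθ hθ0 (hE.2.2.2 κ) φ h1 h2 h3 h4).trans_eq
      (setIntegral_congr_fun (measurableSet_Ioo.prod MeasurableSet.univ) fun z hz => ?_)
    simp only [hGe _ (Ioo_subset_Icc_self hz.1)]
  have hc := cone T K M (fun t y => θ (G t y) * |q t y - κ|)
    (fun t y => θ (G t y) * (Real.sign (q t y - κ) * (V (q t y) * q t y - V κ * κ))) hK0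
    (hθG.measurable.mul (hqm.sub measurable_const).abs)
    (hθG.measurable.mul ((sign_meas.comp (hqm.sub measurable_const)).mul
      (hP.F_meas.sub measurable_const)))
    (fun t ht => by
      filter_upwards [hq t ht, hqκ t ht] with y h1 h2
      refine ⟨mul_nonneg (hθ0 _) (abs_nonneg _),
        (mul_le_of_le_one_left (abs_nonneg _) (hθ1 _)).trans h2, ?_⟩
      have h3 := hK.dist_le_mul _ h1 _ hκ
      rw [Real.dist_eq, Real.dist_eq] at h3
      rw [abs_mul, abs_mul, abs_of_nonneg (hθ0 _), mul_left_comm (K : ℝ)]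
      exact mul_le_mul_of_nonneg_left
        ((mul_le_of_le_one_left (abs_nonneg _) (sign_le _)).trans h3) (hθ0 _))
    (fun a b t0 ht0 => by
      have h1 : Continuous fun t => ∫ y in Icc a b, M * |θ (G t y) - θ (G t0 y)| := by
        refine continuous_parametric_integral_of_continuous ?_ isCompact_Icc
        have := hθ.continuous.comp (hG1 t0)
        exact continuous_const.mul (hθG.sub (this.comp continuous_snd)).abs
      have h2 := (hE.2.1 a b t0 ht0).add
        ((h1.tendsto' t0 0 (by simp)).mono_left (nhdsWithin_le_nhds (s := Icc 0 T)))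
      rw [add_zero] at h2
      refine squeeze_zero' (.of_forall fun t => integral_nonneg fun y => abs_nonneg _) ?_ h2
      filter_upwards [self_mem_nhdsWithin] with t ht
      have i1 : IntegrableOn (fun y => |q t y - q t0 y|) (Icc a b) := by
        refine Measure.integrableOn_of_bounded (M := M) measure_Icc_lt_top.ne
          ((meas_slice hqm t).sub (meas_slice hqm t0)).abs.aestronglyMeasurable
          (ae_restrict_of_ae ?_)
        filter_upwards [hq t ht, hq t0 ht0] with y e1 e2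
        rw [Real.norm_eq_abs, abs_abs, abs_le]
        constructor <;> linarith [e1.1, e1.2, e2.1, e2.2]
      have i2 : IntegrableOn (fun y => M * |θ (G t y) - θ (G t0 y)|) (Icc a b) :=
        (continuous_const.mul ((hθ.continuous.comp (hG1 t)).sub
          (hθ.continuous.comp (hG1 t0))).abs).integrableOn_Icc
      rw [← integral_add i1 i2]
      refine integral_mono_of_nonneg (.of_forall fun y => abs_nonneg _) (i1.add i2)
        (ae_restrict_of_ae ?_)
      filter_upwards [hqκ t0 ht0] with y e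
      have e1 : θ (G t y) * |q t y - κ| - θ (G t0 y) * |q t0 y - κ| =
          θ (G t y) * (|q t y - κ| - |q t0 y - κ|) + |q t0 y - κ| * (θ (G t y) - θ (G t0 y)) := by
        ring
      have e2 := abs_abs_sub_abs_le (q t y - κ) (q t0 y - κ)
      rw [sub_sub_sub_cancel_right] at e2
      rw [e1]
      refine (abs_add_le _ _).trans (add_le_add ?_ ?_)
      · rw [abs_mul, abs_of_nonneg (hθ0 _)]
        exact (mul_le_of_le_one_left (abs_nonneg _) (hθ1 _)).trans e2
      · rw [abs_mul, abs_abs]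
        exact mul_le_mul_of_nonneg_right e (abs_nonneg _))
    hsub
  have h1 : ∀ t ∈ Icc s (s + δ), ∀ᵐ r, r ∈ Icc (x - δ) (x + δ) → m < G t r → q t r = κ := by
    intro t ht
    have := hc s (t - s) (x - δ) (x + δ) hs (by linarith [ht.1]) (by linarith [ht.2])
      (.of_forall fun r hr => by
        have e : K * (t - s) ≤ K * δ := mul_le_mul_of_nonneg_left (by linarith [ht.2]) hK0
        have : G s r ≤ m := hm ⟨by linarith [hr.1], by linarith [hr.2]⟩
        exact mul_eq_zero_of_left (Real.smoothTransition.zero_of_nonpos (sub_nonpos.2 this)) _)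
    rw [add_sub_cancel] at this
    filter_upwards [this] with r h hr hlt
    exact sub_eq_zero.1 (abs_eq_zero.1 ((mul_eq_zero.1 (h hr)).resolve_left
      (Real.smoothTransition.pos_of_pos (sub_pos.2 hlt)).ne'))
  have hI : ∀ t ∈ Icc s (s + δ), t ∈ Icc 0 T := fun t ht =>
    ⟨hs.trans ht.1, ht.2.trans hsδ⟩
  have h2 : ∀ t ∈ Icc s (s + δ), ∀ r ∈ Icc (x - δ) (x + δ), (G t r ≤ m ↔ G t x ≤ m) := by
    intro t ht
    have key : ∀ a c, x - δ ≤ a → a ≤ c → c ≤ x + δ → (G t a ≤ m ↔ G t c ≤ m) :=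
      fun a c ha hac hc => dich (hG1 t) hac fun x1 x2 e1 e2 e3 e4 => by
        have e5 : ∫ r in x1..x2, q t r = ∫ _ in x1..x2, κ := by
          refine intervalIntegral.integral_congr_ae ?_
          filter_upwards [h1 t ht, Measure.ae_ne volume x2] with r e6 e7 e8
          rw [uIoc_of_le e2] at e8
          exact e6 ⟨by linarith [e8.1], by linarith [e8.2]⟩ (e4 r ⟨e8.1, lt_of_le_of_ne e8.2 e7⟩)
        rw [← hP.Qx t (hI t ht), intervalIntegral.integral_const, smul_eq_mul] at e5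
        rw [hGe t (hI t ht), hGe t (hI t ht)]
        linarith
    intro r hr
    rcases le_total r x with h | h
    · exact key r x hr.1 h (by linarith)
    · exact (key x r (by linarith) h hr.2).symm
  by_contra hlt
  have hKc : IsCompact (Icc s (s + δ) ∩ (fun t => G t x) ⁻¹' Iic m) :=
    isCompact_Icc.inter_right (isClosed_Iic.preimage (hG.comp (Continuous.prodMk_left x)))
  obtain ⟨t1, ⟨e1, e2⟩, e3⟩ := hKc.exists_isGreatest
    ⟨s, ⟨le_rfl, by linarith⟩, hm ⟨by nlinarith, by nlinarith⟩⟩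
  have e4 : (s + δ) ∈ Icc s (s + δ) := ⟨by linarith, le_rfl⟩
  have e5 : ∫ t in t1..(s + δ), ∫ r in (x - δ)..(x + δ), V (q t r) * q t r =
      ∫ _ in t1..(s + δ), ∫ _ in (x - δ)..(x + δ), V κ * κ := by
    refine intervalIntegral.integral_congr_ae (.of_forall fun t ht => ?_)
    rw [uIoc_of_le e1.2] at ht
    have ht' : t ∈ Icc s (s + δ) := ⟨e1.1.trans ht.1.le, ht.2⟩
    refine intervalIntegral.integral_congr_ae ?_
    filter_upwards [h1 t ht'] with r e6 e7
    rw [uIoc_of_le (by linarith)] at e7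
    rw [e6 (Ioc_subset_Icc_self e7) (not_le.1 fun e8 =>
      (e3 ⟨ht', (h2 t ht' r (Ioc_subset_Icc_self e7)).1 e8⟩).not_gt ht.1)]
  have e6 := hP.Qt t1 (hI _ e1) (s + δ) (hI _ e4) (x - δ) (x + δ)
  have i1 : IntervalIntegrable (fun r => G (s + δ) r - G t1 r) volume (x - δ) (x + δ) :=
    ((hG1 _).sub (hG1 _)).intervalIntegrable _ _
  have e7 : 0 < ∫ r in (x - δ)..(x + δ), (G (s + δ) r - G t1 r) :=
    intervalIntegral.intervalIntegral_pos_of_pos_on i1 (fun r hr => sub_pos.2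
        (((h2 t1 e1 r (Ioo_subset_Icc_self hr)).2 e2).trans_lt (not_le.1 fun e8 =>
          hlt ((h2 _ e4 r (Ioo_subset_Icc_self hr)).1 e8)))) (by linarith)
  have e8 : (fun r => Q (s + δ) r - Q t1 r) =
      fun r => (G (s + δ) r - G t1 r) - V κ * κ * (s + δ - t1) := funext fun r => by
    rw [hGe _ (hI _ e1), hGe _ (hI _ e4)]
    ring
  rw [e5, e8, intervalIntegral.integral_sub i1 intervalIntegrable_const] at e6
  simp only [intervalIntegral.integral_const, smul_eq_mul] at e6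
  linarith

end MP34a893

end MrgPart5

-- ======== part 6: formerly Pool.Agent.MP_34a893_an.All
section MrgPart6

namespace MP34a893

theorem lagFacts_all : LagFactsS := lagFactsS parFactsS covS (velS parFactsS)

theorem step_all : StepS := stepS parFactsS lagFacts_all

theorem basic_all : Basic :=
  ⟨parFactsS, lagFacts_all, step_all, lawS parFactsS lagFacts_all step_all⟩

theorem gapBlock_all : GapBlockS :=
  gapBlockS basic_all (gapBaseS basic_all (widthS basic_all))
    (gapStepS basic_all (widthS basic_all))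

theorem tube_all : TubeS :=
  tubeS basic_all (harS basic_all (nvzS basic_all)) (progS basic_all (nvzS basic_all))

theorem osc_all : OscS :=
  oscS basic_all (defS basic_all (sparseS basic_all)) (vacS basic_all gapBlock_all)
    (denseS basic_all (fewS basic_all (pairS basic_all
      (pairCoreS basic_all tube_all (driftS basic_all) (driftAnyS basic_all)))))

theorem scale_all : ScaleS :=
  scaleS parFactsS lagFacts_all (potS sliceS)
    (lagS parFactsS convS (velS parFactsS) flowS constS covS jacOdeS)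
    (maxS parFactsS lagFacts_all)

theorem main_all : MainS :=
  mainS parS bvS (potS sliceS) (rangeS sliceS coneS) (entS coneS renormS) scale_all
    (potConvS basic_all osc_all (fluxS basic_all) (subS basic_all) hlupS hllowS)
    (lateS basic_all osc_all) (earlyS basic_all (initS basic_all) bvS) blockS strongS basic_all

end MP34a893

end MrgPart6

-- marker of a merged file
example : 731051 + 165404 = 731051 + 165404 := rfl
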