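import Pool.Agent.MP_34a893_an.PairCoreB

open MeasureTheory Set Filter Topology
open scoped ENNReal

namespace MP34a893

namespace PairCore

noncomputable section

variable {P : Par} {M : ℝ} {L : Lag P M}

theorem abs_lt_of {a δ d : ℝ} (hδ : 0 < δ) (ha : a = 1 / δ ^ 2)
    (h : ENNReal.ofReal (a * d ^ 2) < 1) : |d| ≤ δ := by
  rw [ENNReal.ofReal_lt_one, ha, one_div, inv_mul_lt_iff₀ (by positivity), mul_one] at h
  exact (abs_le_of_sq_le_sq' h.le hδ.le |> fun h => abs_le.2 h)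

/-- the complete one-step inequality -/
theorem full_step (hF : P.Facts M) (hL : L.Facts) (hS : L.Step) (hM : 0 < M) (τ h x y : ℝ)
    (ψ0 : ℝ → ℝ) (l : ℕ) (R lam0 θ θ1 c gap ε1 α β δ a e' eT lo x2 ρ B : ℝ)
    (hs : P.Small M h) (h1 : h ≤ τ) (h2 : τ ≤ L.T) (hDV : P.DV M * h ≤ 1) (hR : 4 ≤ R)
    (hl : 0 ≤ lam0) (hθ : 0 ≤ θ) (hθ1 : θ ≤ θ1) (hc : 0 < c) (hlc : lam0 * (c / 2) = P.Th M)
    (hgap : 0 < gap) (hαβ : α + gap ≤ β) (hεα : ε1 ≤ α) (hδ : 0 < δ) (hδ1 : δ ≤ gap / 3)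
    (hδ2 : δ ≤ ε1 / 2) (ha : a = 1 / δ ^ 2) (he' : 0 < e') (heT : eT ≤ gap / 4) (hρ : 0 < ρ)
    (hB : B = P.Th M * P.k0 + (lam0 * P.k0 + θ1) * (P.Th M * M) + θ1 * (c / 2))
    (hψ0 : ∀ g, 0 ≤ g → 0 ≤ ψ0 g)
    (hψ : ∀ g g', ψ0 g' ≤ ψ0 g + P.k (max (R / 2 - 1) (g / M - 1)) * (g' - g))
    (hcl : ∀ z ∈ Icc 0 (P.N M), ∀ z' ∈ Icc 0 (P.N M), z + gap / 3 ≤ z' → P.lam z + c ≤ P.lam z')
    (hTube : ∀ z, lo ≤ L.X τ z → L.X τ z ≤ x2 + ρ → ε1 / 2 ≤ L.U τ z → L.w τ h l z ≤ e' →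
      ∀ σ ∈ Icc (τ - h) τ, ∫ s in (0 : ℝ)..R, |L.u σ (L.X σ z + s) - L.U τ z| ≤ eT)
    (hDrift : ∀ z, (∀ σ ∈ Icc (τ - h) τ, ∫ s in (0 : ℝ)..R, |L.u σ (L.X σ z + s) - L.U τ z| ≤ eT) →
      (∫⁻ ξ, ENNReal.ofReal (L.m (L.step τ h z ξ) - L.m z) ∂P.noise ≤
        ENNReal.ofReal (h * (P.lam (L.U τ z) + c / 4))) ∧
      ∀ y', L.X τ z + R / 2 ≤ L.X τ y' →
        ENNReal.ofReal (h * (P.lam (L.U τ z) - c / 4)) ≤
          ∫⁻ ξ in {ξ | L.step τ h z ξ ≤ y'}, ENNReal.ofReal (L.m (L.step τ h z ξ) - L.m z) ∂P.noise)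
    (hAny : ∫⁻ ξ, ENNReal.ofReal (L.m (L.step τ h y ξ) - L.m y) ∂P.noise ≤
      ENNReal.ofReal (h * (P.Th M * M)))
    (hxy : x ≤ y) (hlo : lo ≤ L.X τ x)
    (hX : ENNReal.ofReal (a * (L.U τ x - cl β (max β (P.N M)) (L.U τ x)) ^ 2) < 1)
    (hY : ENNReal.ofReal (a * (L.U τ y - cl ε1 α (L.U τ y)) ^ 2) +
      ENNReal.ofReal ((L.X τ y - x2) / ρ) < 1) :
    P.noise {ξ | y < L.step τ h x ξ} +
      (∫⁻ ξ1 in {ξ | L.step τ h x ξ ≤ y}, ∫⁻ ξ2, ENNReal.ofReal
        (lam0 * ψ0 (L.m (L.step τ h y ξ2) - L.m (L.step τ h x ξ1)) +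
          θ * (L.m (L.step τ h y ξ2) - L.m (L.step τ h x ξ1))) ∂P.noise ∂P.noise) +
      ENNReal.ofReal (θ * (c / 2) * h) +
      (∫⁻ ξ, ENNReal.ofReal (a * (L.U (τ - h) (L.step τ h x ξ) -
        cl β (max β (P.N M)) (L.U (τ - h) (L.step τ h x ξ))) ^ 2) ∂P.noise) +
      (∫⁻ ξ, (ENNReal.ofReal (a * (L.U (τ - h) (L.step τ h y ξ) -
        cl ε1 α (L.U (τ - h) (L.step τ h y ξ))) ^ 2) +
        ENNReal.ofReal ((L.X (τ - h) (L.step τ h y ξ) - x2) / ρ)) ∂P.noise) ≤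
      ENNReal.ofReal (lam0 * ψ0 (L.m y - L.m x) + θ * (L.m y - L.m x)) +
      ENNReal.ofReal (a * (L.U τ x - cl β (max β (P.N M)) (L.U τ x)) ^ 2) +
      (ENNReal.ofReal (a * (L.U τ y - cl ε1 α (L.U τ y)) ^ 2) +
        ENNReal.ofReal ((L.X τ y - x2) / ρ)) +
      ENNReal.ofReal (a * L.w τ h 1 x + B * h / e' * L.w τ h l x +
        (a * (2 * δ * (P.E1 M * h ^ 2)) + P.C3 M * h / ρ)) +
      ENNReal.ofReal (a * L.w τ h 1 y + B * h / e' * L.w τ h l y +
        (a * (2 * δ * (P.E1 M * h ^ 2)) + P.C3 M * h / ρ)) := by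
  have hh := hs.1
  have hT := Th_nonneg hF
  have hk0 := hF.k0_pos
  have hE := E1_nonneg hF
  have hC3 := C3_nonneg hF
  have ha0 : 0 ≤ a := by rw [ha]; positivity
  have hθ1' : 0 ≤ θ1 := hθ.trans hθ1
  have hB0 : 0 ≤ B := by rw [hB]; positivity
  have hdX := abs_lt_of hδ ha hX
  have hdY := abs_lt_of hδ ha (lt_of_le_of_lt le_self_add hY)
  have hpos : L.X τ y ≤ x2 + ρ := by
    have := lt_of_le_of_lt le_add_self hY
    rw [ENNReal.ofReal_lt_one, div_lt_one hρ] at this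
    linarith
  have hXX : L.X τ x ≤ L.X τ y := (hL.X_mono τ).monotone hxy
  have hUx : β - δ ≤ L.U τ x := by
    have := le_cl β (max β (P.N M)) (L.U τ x)
    linarith [(abs_le.1 hdX).1]
  have hUy1 : ε1 / 2 ≤ L.U τ y := by
    have := le_cl ε1 α (L.U τ y)
    linarith [(abs_le.1 hdY).1]
  have hUy2 : L.U τ y ≤ α + δ := by
    have := cl_le hεα (L.U τ y)
    linarith [(abs_le.1 hdY).2]
  have hUU : L.U τ y + gap / 3 ≤ L.U τ x := by linarith
  have w0 : ∀ k z, 0 ≤ L.w τ h k z := fun k z => (hS.w_mem _ _ _ _).1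
  have hb0 : 0 ≤ B * h / e' := by positivity
  have S1 : P.noise {ξ | y < L.step τ h x ξ} +
      (∫⁻ ξ1 in {ξ | L.step τ h x ξ ≤ y}, ∫⁻ ξ2, ENNReal.ofReal
        (lam0 * ψ0 (L.m (L.step τ h y ξ2) - L.m (L.step τ h x ξ1)) +
          θ * (L.m (L.step τ h y ξ2) - L.m (L.step τ h x ξ1))) ∂P.noise ∂P.noise) +
      ENNReal.ofReal (θ * (c / 2) * h) ≤
      ENNReal.ofReal (lam0 * ψ0 (L.m y - L.m x) + θ * (L.m y - L.m x)) +
        (ENNReal.ofReal (B * h / e' * L.w τ h l x) + ENNReal.ofReal (B * h / e' * L.w τ h l y)) := by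
    have hbad : ∀ z, e' < L.w τ h l z →
        ENNReal.ofReal (B * h) ≤ ENNReal.ofReal (B * h / e' * L.w τ h l z) := by
      intro z hz
      refine ENNReal.ofReal_le_ofReal ?_
      calc B * h = B * h / e' * e' := by field_simp
        _ ≤ _ := mul_le_mul_of_nonneg_left hz.le hb0
    have hany := any_step hF hL hS τ h x y ψ0 R lam0 θ θ1 (c / 2) hs h1 h2 hxy hl hθ hθ1
      (by positivity) hM hψ0 hψ hAny
    rw [← hB] at hany
    by_cases hwx : L.w τ h l x ≤ e'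
    swap
    · exact hany.trans (add_le_add_right ((hbad x (not_le.1 hwx)).trans le_self_add) _)
    by_cases hwy : L.w τ h l y ≤ e'
    swap
    · exact hany.trans (add_le_add_right ((hbad y (not_le.1 hwy)).trans le_add_self) _)
    have tx := hTube x hlo (hXX.trans hpos) (by linarith) hwx
    have ty := hTube y (hlo.trans hXX) hpos hUy1 hwy
    have hτ : τ ∈ Icc (τ - h) τ := ⟨by linarith, le_rfl⟩
    have hsep : L.X τ x + R / 2 ≤ L.X τ y :=
      gap_abs (L.u τ) (L.u_meas.comp measurable_prodMk_left) (P.N M)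
        (fun z => by rw [abs_of_nonneg (hL.u_nonneg τ z)]; exact L.u_le τ z)
        (L.X τ x) (L.X τ y) R (L.U τ x) (L.U τ y) eT (gap / 3) hXX (by positivity) hUU
        (by nlinarith) (tx τ hτ) (ty τ hτ)
    have hlam := hcl _ (U_mem hL τ y) _ (U_mem hL τ x) hUU
    have hly := lam_nonneg P _ (U_mem hL τ y).1
    exact (good_step hF hL hS hM τ h x y ψ0 R lam0 θ (c / 2) (P.lam (L.U τ x) - c / 4)
      (P.lam (L.U τ y) + c / 4) hs h1 h2 hDV hxy hl hθ (by positivity) hlc hψ0 hψ hsep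
      (by positivity) (by linarith) (hDrift y ty).1 ((hDrift x tx).2 y hsep)).trans le_self_add
  have S2 := sq_step hF hL hS τ h x β (max β (P.N M)) a δ hs h1 h2 (le_max_left _ _) ha0 hdX
  have S3 := sq_step hF hL hS τ h y ε1 α a δ hs h1 h2 hεα ha0 hdY
  have S4 := pos_step hF hL hS τ h y x2 ρ hs h1 h2 hρ
  have hm : Measurable (fun ξ => ENNReal.ofReal ((L.X (τ - h) (L.step τ h y ξ) - x2) / ρ)) :=
    ENNReal.measurable_ofReal.comp
      ((((X_meas' _).comp (step_meas' hS τ h y)).sub_const _).div_const _)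
  rw [lintegral_add_right _ hm]
  have split : ∀ z, ENNReal.ofReal (a * L.w τ h 1 z + B * h / e' * L.w τ h l z +
        (a * (2 * δ * (P.E1 M * h ^ 2)) + P.C3 M * h / ρ)) =
      ENNReal.ofReal (a * L.w τ h 1 z + a * (2 * δ * (P.E1 M * h ^ 2))) +
        ENNReal.ofReal (B * h / e' * L.w τ h l z) + ENNReal.ofReal (P.C3 M * h / ρ) := by
    intro z
    have := w0 1 z
    have := w0 l z
    rw [← ENNReal.ofReal_add (by positivity) (by positivity),
      ← ENNReal.ofReal_add (by positivity) (by positivity)]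
    congr 1; ring
  rw [split x, split y]
  refine (add_le_add (add_le_add S1 S2) (add_le_add S3 S4)).trans ?_
  refine le_trans (le_add_right le_rfl (c := ENNReal.ofReal (P.C3 M * h / ρ))) (le_of_eq ?_)
  ring

end

end PairCore

open PairCore in
theorem pairCoreS : Basic → TubeS → DriftS → DriftAnyS → PairCoreS := by
  intro hB hTube hDrift hAny P M hM hSt gap ε1 π0 K hgap hε hπ hK
  have hF := hB.1 P M hM
  have hT := Th_nonneg hF
  have hk0 := hF.k0_pos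
  have hE := E1_nonneg hF
  have hC3 := C3_nonneg hF
  have hV := Vm_nonneg hF
  have hDV := DV_nonneg hF
  have hN := hF.N_pos
  obtain ⟨c, hc, hcl⟩ := hF.lam_gap hSt (gap / 3) (by positivity)
  obtain ⟨R0, hR0, hD⟩ := hDrift P M hM (c / 4) (by positivity)
  obtain ⟨lam0, hlam0⟩ : ∃ lam0, lam0 = P.Th M / (c / 2) := ⟨_, rfl⟩
  have hl0 : 0 ≤ lam0 := by rw [hlam0]; positivity
  have hlc : lam0 * (c / 2) = P.Th M := by rw [hlam0]; field_simp
  obtain ⟨R, hR, ψ0, hψ0, hψ⟩ := psi_ex hF hM lam0 (1 / 4) R0 hl0 (by norm_num) hR0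
  obtain ⟨eD, hD0, heD, hhD, hD⟩ := hD R hR
  obtain ⟨T0, hT0, R3, ν0, e', hT1, hν0, he', hhT, hTube⟩ :=
    hTube P M hM hSt (ε1 / 2) R (min eD (gap / 4)) (by positivity) (by linarith)
      (lt_min heD (by positivity))
  obtain ⟨hs0, hhs0, hsm⟩ := hF.small
  obtain ⟨δ, hδdef⟩ : ∃ δ, δ = min (gap / 3) (ε1 / 2) := ⟨_, rfl⟩
  have hδ : 0 < δ := by rw [hδdef]; exact lt_min (by positivity) (by positivity)
  have hδ1 : δ ≤ gap / 3 := by rw [hδdef]; exact min_le_left _ _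
  have hδ2 : δ ≤ ε1 / 2 := by rw [hδdef]; exact min_le_right _ _
  obtain ⟨a, ha⟩ : ∃ a, a = 1 / δ ^ 2 := ⟨_, rfl⟩
  have ha0 : 0 < a := by rw [ha]; positivity
  obtain ⟨B, hBdef⟩ : ∃ B,
    B = P.Th M * P.k0 + (lam0 * P.k0 + 1 / M) * (P.Th M * M) + 1 / M * (c / 2) := ⟨_, rfl⟩
  have hB0 : 0 ≤ B := by rw [hBdef]; positivity
  obtain ⟨Γ, hΓ⟩ : ∃ Γ, Γ = a + B * (T0 + 1) / e' := ⟨_, rfl⟩
  have hΓ0 : 0 < Γ := by rw [hΓ]; positivity
  obtain ⟨K3, hK3⟩ : ∃ K3, K3 = 2 + 4 * M * K / (c / 2) := ⟨_, rfl⟩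
  have hK32 : 2 ≤ K3 := by
    have : 0 ≤ 4 * M * K / (c / 2) := by positivity
    linarith
  obtain ⟨ρ0, hρ0⟩ : ∃ ρ0, ρ0 = 16 * (P.C3 M + 1) * (K3 + 1) / π0 := ⟨_, rfl⟩
  have hρ00 : 0 < ρ0 := by rw [hρ0]; positivity
  obtain ⟨D, hDdef⟩ : ∃ D, D = Γ * (4 * P.N M * P.E1 M) + a * (2 * δ * P.E1 M) := ⟨_, rfl⟩
  have hD00 : 0 ≤ D := by rw [hDdef]; positivity
  refine ⟨K3, P.Vm M * (K3 + 1) + K + ρ0 + |R3|, π0 / (16 * Γ), ν0, T0 + 2, hK32, by positivity,
    by positivity, hν0, by linarith, fun s hs => ?_⟩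
  have hs1 : 1 ≤ s := by linarith
  refine ⟨min (min (min hs0 hD0) (min hT1 (1 / (P.DV M + 1))))
    (π0 / (16 * (D + 1) * (K3 * s + 1))), by positivity, ?_⟩
  intro L t h α β x1 n1 n2 H H' μ hh hh0 hn1 hn2 hn2' hnt htT hαβ hH hH' hμ hπμ hae hNV hQ hQ'
  simp only [le_min_iff] at hh0
  obtain ⟨⟨⟨g1, g2⟩, g3, g4⟩, g5⟩ := hh0
  have hL := hB.2.1 P M L hM
  have hS := hB.2.2.1 P M L hM
  have hW := hB.2.2.2 P M L hM
  have hsmall := hsm h hh g1
  have hh1 : h ≤ 1 := hsmall.2.1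
  have hDVh : P.DV M * h ≤ 1 := by
    rw [le_div_iff₀ (by positivity)] at g4
    linarith
  have hμ0 : μ ≠ 0 := by
    rintro rfl
    simp only [Measure.coe_zero, Pi.zero_apply, nonpos_iff_eq_zero, ENNReal.ofReal_eq_zero] at hπμ
    linarith
  have hεα : ε1 ≤ α := by
    have : (ae μ).NeBot := ae_neBot.2 hμ0
    obtain ⟨z, hz⟩ := hae.exists
    linarith [hz.2.2.1, hz.2.2.2.1]
  obtain ⟨l, hl1, hl2⟩ : ∃ l : ℕ, T0 ≤ l * h ∧ l * h ≤ T0 + 1 := by
    refine ⟨⌈T0 / h⌉₊, ?_, ?_⟩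
    · rw [← div_le_iff₀ hh]; exact Nat.le_ceil _
    · have := (Nat.ceil_lt_add_one (show 0 ≤ T0 / h by positivity)).le
      have h3 := mul_le_mul_of_nonneg_right this hh.le
      rw [add_mul, div_mul_cancel₀ _ hh.ne'] at h3
      linarith
  have hlpos : 1 ≤ l := by
    rcases Nat.eq_zero_or_pos l with h0 | h0
    · rw [h0] at hl1; simp at hl1; linarith
    · exact h0
  have hK3s : 2 * s ≤ K3 * s := mul_le_mul_of_nonneg_right hK32 (by linarith)
  have hnl : n1 + l ≤ n2 := by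
    have : ((n1 + l : ℕ) : ℝ) * h ≤ n2 * h := by push_cast; linarith
    exact_mod_cast le_of_mul_le_mul_right this hh
  obtain ⟨θ, hθ⟩ : ∃ θ, θ = 1 / (4 * M * K * s) := ⟨_, rfl⟩
  have hθ0 : 0 ≤ θ := by rw [hθ]; positivity
  have hθ1 : θ ≤ 1 / M := by
    rw [hθ]
    refine one_div_le_one_div_of_le hM ?_
    have := mul_le_mul_of_nonneg_left (one_le_mul_of_one_le_of_one_le hK hs1) hM.le
    linarith
  obtain ⟨ρ, hρdef⟩ : ∃ ρ, ρ = ρ0 * s := ⟨_, rfl⟩
  have hρ : 0 < ρ := by rw [hρdef]; positivity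
  have := hF.noise_prob
  have htime : ∀ n : ℕ, t - ((n + 1 : ℕ) : ℝ) * h = t - n * h - h := by
    intro n; push_cast; ring
  have hrange : ∀ n : ℕ, n < n2 - l → l * h + h ≤ t - n * h ∧ t - n * h ≤ L.T ∧
      n * h + l * h ≤ n2 * h := by
    intro n hn
    have e1 : ((n + 1 + l : ℕ) : ℝ) ≤ n2 := by exact_mod_cast (by omega : n + 1 + l ≤ n2)
    have e2 := mul_le_mul_of_nonneg_right e1 hh.le
    push_cast at e2
    have : 0 ≤ (n : ℝ) * h := by positivity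
    refine ⟨by linarith, by linarith, by linarith⟩
  set S : ℕ → ℝ → ℝ × ℝ × ℝ → ℝ := fun n y ξ => L.step (t - n * h) h y ξ with hSdef
  set cost : ℕ → ℝ → ℝ≥0∞ := fun n x => ENNReal.ofReal (a * L.w (t - n * h) h 1 x +
    B * h / e' * L.w (t - n * h) h l x + (a * (2 * δ * (P.E1 M * h ^ 2)) + P.C3 M * h / ρ))
    with hcost
  have hSm : ∀ n, Measurable (fun z : ℝ × (ℝ × ℝ × ℝ) => S n z.1 z.2) :=
    fun n => hS.step_meas _ _
  have hcm : ∀ n, Measurable (cost n) := fun n => ENNReal.measurable_ofReal.comp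
    ((((hS.w_meas _ _ _).const_mul _).add ((hS.w_meas _ _ _).const_mul _)).add_const _)
  have hsq : ∀ τ lo hi, Measurable (fun x =>
      ENNReal.ofReal (a * (L.U τ x - cl lo hi (L.U τ x)) ^ 2)) := fun τ lo hi =>
    ENNReal.measurable_ofReal.comp ((((U_meas' hL τ).sub
      ((cl_cont lo hi).measurable.comp (U_meas' hL τ))).pow_const 2).const_mul a)
  have key := back_ind P.noise S cost
    (fun n x => ENNReal.ofReal (a * (L.U (t - n * h) x -
      cl β (max β (P.N M)) (L.U (t - n * h) x)) ^ 2))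
    (fun n y => ENNReal.ofReal (a * (L.U (t - n * h) y - cl ε1 α (L.U (t - n * h) y)) ^ 2) +
      ENNReal.ofReal ((L.X (t - n * h) y - (x1 + K * s)) / ρ))
    (fun x y => ENNReal.ofReal (lam0 * ψ0 (L.m y - L.m x) + θ * (L.m y - L.m x)))
    (ENNReal.ofReal (θ * (c / 2) * h)) (fun n x => x1 - P.Vm M * (n * h) ≤ L.X (t - n * h) x)
    (n2 - l) hSm hcm (fun n => hsq _ _ _)
    (fun n => (hsq _ _ _).add (ENNReal.measurable_ofReal.comp
      (((X_meas' _).sub_const _).div_const _)))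
    (fun n y ξ => hS.le_step _ _ _ _)
    (by
      intro n hn x ξ hx
      obtain ⟨r1, r2, _⟩ := hrange n hn
      have hl0' : 0 ≤ (l : ℝ) * h := by positivity
      have hlip := hL.X_lip x (t - n * h - h) ⟨by linarith, by linarith⟩ (t - n * h)
        ⟨by linarith, r2⟩
      rw [show t - n * h - h - (t - n * h) = -h by ring, abs_neg, abs_of_pos hh] at hlip
      have hmono := (hL.X_mono (t - n * h - h)).monotone (hS.le_step (t - n * h) h x ξ)
      simp only [htime]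
      push_cast
      have := (abs_le.1 hlip).1
      simp only [hSdef]
      linarith)
    (by
      intro n hn x y hxy hx hX hY
      obtain ⟨r1, r2, r3⟩ := hrange n hn
      have hl0' : 0 ≤ (l : ℝ) * h := by positivity
      have hn0 : 0 ≤ (n : ℝ) * h := by positivity
      simp only [htime]
      refine full_step hF hL hS hM (t - n * h) h x y ψ0 l R lam0 θ (1 / M) c gap ε1 α β δ a e'
        (min eD (gap / 4)) (x1 - P.Vm M * (n * h)) (x1 + K * s) ρ B hsmall (by linarith) r2 hDVh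
        (hR0.trans hR) hl0 hθ0 hθ1 hc hlc hgap hαβ hεα hδ hδ1 hδ2 ha he' (min_le_right _ _) hρ
        hBdef (fun g hg => (hψ0 g hg).1) hψ hcl ?_ ?_ (hAny P M L _ h y hM hsmall) hxy hx hX hY
      · intro z hz1 hz2 hz3 hz4
        refine hTube L (t - n * h) h z l hh g3 hl1 hl2 (by linarith) r2 ?_ hz3 hz4
        intro τ hτ
        refine le_trans (measure_mono ?_) (hNV τ ⟨by linarith [hτ.1], by linarith [hτ.2]⟩)
        rintro x' ⟨⟨k1, k2⟩, k3⟩
        have a1 := le_abs_self R3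
        have a2 : |R3| ≤ |R3| * s := le_mul_of_one_le_right (abs_nonneg _) hs1
        have a3 : P.Vm M * (n * h) ≤ P.Vm M * ((K3 + 1) * s) :=
          mul_le_mul_of_nonneg_left (by linarith) hV
        have a4 : 0 ≤ K * s := by positivity
        have a5 : 0 ≤ P.Vm M * ((K3 + 1) * s) := by positivity
        refine ⟨⟨?_, ?_⟩, by linarith⟩
        · linarith
        · linarith
      · intro z hz
        exact hD L (t - n * h) h z hh g2 (by linarith) r2
          (fun σ hσ => (hz σ hσ).trans (min_le_left _ _)))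
    (n2 - l - n1) n1 0 (by omega)
    (by
      rw [zero_add, ← ENNReal.ofReal_natCast, ← ENNReal.ofReal_mul (Nat.cast_nonneg _),
        ENNReal.one_le_ofReal]
      have e1 : ((n2 - l - n1 : ℕ) : ℝ) = n2 - l - n1 := by
        rw [Nat.cast_sub (by omega), Nat.cast_sub (by omega)]
      have e2 : (K3 - 2) * s ≤ ((n2 : ℝ) - l - n1) * h := by linarith
      have e3 : (K3 - 2) * s * (θ * (c / 2)) = 1 := by
        rw [hK3, hθ]; field_simp; ring
      have e4 := mul_le_mul_of_nonneg_right e2 (show 0 ≤ θ * (c / 2) by positivity)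
      rw [e1]
      linarith)
  have hfm := fut_meas P.noise S cost hSm hcm (n2 - l - n1) n1
  set Fu := fut P.noise S cost (n2 - l - n1) n1 with hFu
  have hpt : ∀ᵐ z ∂μ, ENNReal.ofReal (1 / 2) ≤ Fu z.1 + Fu z.2 := by
    filter_upwards [hae] with z hz
    obtain ⟨z1, z2, z3, z4, z5, z6⟩ := hz
    have hn0 : 0 ≤ P.Vm M * ((n1 : ℝ) * h) := by positivity
    have k := key z.1 z.2 z1 (by linarith)
    rw [cl_self z2 ((U_mem hL _ _).2.trans (le_max_right _ _)), cl_self z3 z4,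
      ENNReal.ofReal_eq_zero.2 (show (L.X (t - n1 * h) z.2 - (x1 + K * s)) / ρ ≤ 0 from
        div_nonpos_of_nonpos_of_nonneg (by linarith) hρ.le)] at k
    simp only [sub_self, ne_eq, OfNat.ofNat_ne_zero, not_false_eq_true, zero_pow, mul_zero,
      ENNReal.ofReal_zero, add_zero, Nat.cast_zero, zero_mul] at k
    have hg0 : 0 ≤ L.m z.2 - L.m z.1 := sub_nonneg.2 (hL.m_mono z1)
    have hg1 : L.m z.2 - L.m z.1 ≤ M * (K * s) :=
      (label_le hL (t - n1 * h) _ _ z1).trans (mul_le_mul_of_nonneg_left (by linarith) hM.le)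
    have hg2 : θ * (L.m z.2 - L.m z.1) ≤ 1 / 4 := by
      refine (mul_le_mul_of_nonneg_left hg1 hθ0).trans (le_of_eq ?_)
      rw [hθ]; field_simp
    have hg3 : ENNReal.ofReal (lam0 * ψ0 (L.m z.2 - L.m z.1) + θ * (L.m z.2 - L.m z.1)) ≤
        ENNReal.ofReal (1 / 2) := ENNReal.ofReal_le_ofReal (by linarith [(hψ0 _ hg0).2])
    have e : (1 : ℝ≥0∞) = ENNReal.ofReal (1 / 2) + ENNReal.ofReal (1 / 2) := by
      rw [← ENNReal.ofReal_add (by norm_num) (by norm_num)]; norm_num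
    have k2 : ENNReal.ofReal (1 / 2) + ENNReal.ofReal (1 / 2) ≤
        ENNReal.ofReal (1 / 2) + (Fu z.1 + Fu z.2) := by
      rw [← e, ← add_assoc]
      exact k.trans (by gcongr)
    exact (ENNReal.add_le_add_iff_left ENNReal.ofReal_ne_top).1 k2
  have hchain : ∀ G : Set ℝ, IsProbabilityMeasure (L.start t G) →
      L.mom t h G n2 - L.mom t h G n1 ≤ π0 / (16 * Γ) →
      ∫⁻ x, Fu x ∂(L.law t h (L.start t G) n1) ≤ ENNReal.ofReal (3 * π0 / 16) := by
    intro G hG hq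
    rw [hFu, fut_int P.noise S cost hSm hcm (L.law t h (L.start t G))
      (fun n φ hφ => hW.succ t h _ n φ hφ), show n1 + (n2 - l - n1) = n2 - l by omega]
    refine (cost_sum hS hW t h G n1 n2 l a (B * h / e')
      (a * (2 * δ * (P.E1 M * h ^ 2)) + P.C3 M * h / ρ) _ hG hsmall hlpos hnl hnt htT ha0.le
      (by positivity) (by positivity) hq).trans (ENNReal.ofReal_le_ofReal ?_)
    have hn20 : 0 ≤ (n2 : ℝ) * h := by positivity
    have b1 : a + B * h / e' * l ≤ Γ := by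
      rw [hΓ]
      have : B * h / e' * l = B * (l * h) / e' := by ring
      rw [this]
      gcongr
    have b2 : (a + B * h / e' * l) * (π0 / (16 * Γ) + 4 * P.N M * (n2 * (P.E1 M * h ^ 2))) ≤
        Γ * (π0 / (16 * Γ) + 4 * P.N M * (n2 * (P.E1 M * h ^ 2))) :=
      mul_le_mul_of_nonneg_right b1 (by positivity)
    have b3 : Γ * (π0 / (16 * Γ)) = π0 / 16 := by field_simp
    have b4 : D * (n2 * h) * h ≤ π0 / 16 := by
      rw [le_div_iff₀ (by positivity)] at g5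
      have : D * (n2 * h) ≤ (D + 1) * (K3 * s + 1) :=
        mul_le_mul (by linarith) hn2' hn20 (by positivity)
      linarith [mul_le_mul_of_nonneg_right this hh.le]
    have b5 : P.C3 M * h / ρ * n2 ≤ π0 / 16 := by
      have : P.C3 M * h / ρ * n2 = P.C3 M * (n2 * h) / ρ := by ring
      rw [this, div_le_iff₀ hρ, hρdef, hρ0]
      have e : π0 / 16 * (16 * (P.C3 M + 1) * (K3 + 1) / π0 * s) =
          (P.C3 M + 1) * ((K3 + 1) * s) := by field_simp
      rw [e]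
      exact mul_le_mul (by linarith) (by linarith) hn20 (by positivity)
    have b6 : Γ * (4 * P.N M * (n2 * (P.E1 M * h ^ 2))) + a * (2 * δ * (P.E1 M * h ^ 2)) * n2 =
        D * (n2 * h) * h := by rw [hDdef]; ring
    linarith
  have p1 := hW.prob t h _ hH n1
  have p2 := hW.prob t h _ hH' n1
  have fin : ENNReal.ofReal (1 / 2) * ENNReal.ofReal π0 ≤
      ENNReal.ofReal (3 * π0 / 16) + ENNReal.ofReal (3 * π0 / 16) := by
    calc _ ≤ ENNReal.ofReal (1 / 2) * μ univ := by gcongr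
      _ = ∫⁻ _z, ENNReal.ofReal (1 / 2) ∂μ := by rw [lintegral_const]
      _ ≤ ∫⁻ z, (Fu z.1 + Fu z.2) ∂μ := lintegral_mono_ae hpt
      _ ≤ ∫⁻ z, (Fu z.1 + Fu z.2)
          ∂((L.law t h (L.start t H) n1).prod (L.law t h (L.start t H') n1)) :=
        lintegral_mono' hμ le_rfl
      _ = (∫⁻ x, Fu x ∂(L.law t h (L.start t H) n1)) +
          ∫⁻ x, Fu x ∂(L.law t h (L.start t H') n1) := by
        have m1 : Measurable (fun z : ℝ × ℝ => Fu z.1) := hfm.comp measurable_fst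
        have m2 : Measurable (fun z : ℝ × ℝ => Fu z.2) := hfm.comp measurable_snd
        rw [lintegral_add_left m1, lintegral_prod _ m1.aemeasurable,
          lintegral_prod _ m2.aemeasurable]
        simp
      _ ≤ _ := add_le_add (hchain H hH hQ) (hchain H' hH' hQ')
  rw [← ENNReal.ofReal_mul (by norm_num), ← ENNReal.ofReal_add (by positivity) (by positivity),
    ENNReal.ofReal_le_ofReal_iff (by positivity)] at fin
  linarith

end MP34a893
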