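import Pool.Agent.MP_34a893_an.Scale

-- stub: this module was merged into Pool.Agent.MP_34a893_an.Scale to save build time; import that module instead
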