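import Mathlib
import Pool.Agent.MP_34a893_an.Spec

open MeasureTheory Set Filter Topology
open scoped ENNReal

namespace MP34a893

namespace PairCore

noncomputable section

/-- nearest point of the interval `[lo, hi]` -/
def cl (lo hi u : ℝ) : ℝ := max lo (min u hi)

theorem cl_cont (lo hi : ℝ) : Continuous (cl lo hi) :=
  continuous_const.max (continuous_id.min continuous_const)

theorem le_cl (lo hi u : ℝ) : lo ≤ cl lo hi u := le_max_left _ _

theorem cl_le {lo hi : ℝ} (h : lo ≤ hi) (u : ℝ) : cl lo hi u ≤ hi :=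
  max_le h (min_le_right _ _)

theorem cl_self {lo hi u : ℝ} (h1 : lo ≤ u) (h2 : u ≤ hi) : cl lo hi u = u := by
  unfold cl; rw [min_eq_left h2, max_eq_right h1]

theorem cl_near {lo hi : ℝ} (u c : ℝ) (h1 : lo ≤ c) (h2 : c ≤ hi) :
    (u - cl lo hi u) ^ 2 ≤ (u - c) ^ 2 := by
  rcases le_total u lo with h | h
  · have : cl lo hi u = lo := by
      unfold cl; exact max_eq_left ((min_le_left _ _).trans h)
    rw [this]; nlinarith
  · rcases le_total u hi with h' | h'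
    · rw [cl_self h h']; nlinarith [sq_nonneg (u - c)]
    · have : cl lo hi u = hi := by
        unfold cl; rw [min_eq_right h', max_eq_right (h1.trans h2)]
      rw [this]; nlinarith

/-- a bounded concave function with prescribed slope -/
theorem psi_ex {P : Par} {M : ℝ} (hF : P.Facts M) (hM : 0 < M) (lam0 η R0 : ℝ) (hl : 0 ≤ lam0)
    (hη : 0 < η) (hR0 : 4 ≤ R0) :
    ∃ R, R0 ≤ R ∧ ∃ ψ0 : ℝ → ℝ, (∀ g, 0 ≤ g → 0 ≤ ψ0 g ∧ lam0 * ψ0 g ≤ η) ∧
      ∀ g g', ψ0 g' ≤ ψ0 g + P.k (max (R / 2 - 1) (g / M - 1)) * (g' - g) := by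
  have h1 : Tendsto (fun r => lam0 * (M * (2 * (r * P.k r) + ∫ s in Ioi r, P.k s))) atTop (𝓝 0) := by
    have := ((hF.tail'.const_mul 2).add hF.tail).const_mul M |>.const_mul lam0
    simpa using this
  obtain ⟨R1, hR1a, hR1b⟩ := ((h1.eventually (gt_mem_nhds hη)).and
    (eventually_ge_atTop (R0 / 2 - 1))).exists
  have hR1 : 1 ≤ R1 := by linarith
  refine ⟨2 * (R1 + 1), by linarith, ?_⟩
  have hRR : 2 * (R1 + 1) / 2 - 1 = R1 := by ring
  rw [hRR]
  set κ : ℝ → ℝ := fun g => P.k (max R1 (g / M - 1)) with hκ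
  have hκc : Continuous κ :=
    hF.k_cont.comp (continuous_const.max ((continuous_id.div_const M).sub continuous_const))
  have hκa : Antitone κ := fun a b hab => hF.k_anti (max_le_max le_rfl (by
    have := div_le_div_of_nonneg_right hab hM.le
    linarith))
  have hκ0 : ∀ g, 0 ≤ κ g := fun g => hF.k_nonneg _
  have hii : ∀ a b, IntervalIntegrable κ volume a b := fun a b => hκc.intervalIntegrable a b
  have hconc : ∀ g g', ∫ r in g..g', κ r ≤ κ g * (g' - g) := by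
    intro g g'
    rcases le_total g g' with h | h
    · have := intervalIntegral.integral_mono_on h (hii g g') (intervalIntegrable_const (c := κ g))
        (fun r hr => hκa hr.1)
      simpa [mul_comm] using this
    · have := intervalIntegral.integral_mono_on h (intervalIntegrable_const (c := κ g)) (hii g' g)
        (fun r hr => hκa hr.2)
      rw [intervalIntegral.integral_symm]
      simp only [intervalIntegral.integral_const, smul_eq_mul] at this
      nlinarith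
  refine ⟨fun g => ∫ r in (0 : ℝ)..g, κ r, fun g hg => ⟨?_, ?_⟩, fun g g' => ?_⟩
  · exact intervalIntegral.integral_nonneg hg (fun r _ => hκ0 r)
  · have hk1 := hF.k_nonneg R1
    have htail : 0 ≤ ∫ s in Ioi R1, P.k s := setIntegral_nonneg measurableSet_Ioi
      (fun s _ => hF.k_nonneg s)
    have hκle : ∀ r, κ r ≤ P.k R1 := fun r => hF.k_anti (le_max_left _ _)
    have hA : ∀ b, 0 ≤ b → b ≤ M * (R1 + 1) → ∫ r in (0 : ℝ)..b, κ r ≤ M * (2 * (R1 * P.k R1)) := by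
      intro b hb hb'
      have := intervalIntegral.integral_mono_on hb (hii 0 b)
        (intervalIntegrable_const (c := P.k R1)) (fun r _ => hκle r)
      simp only [intervalIntegral.integral_const, smul_eq_mul, sub_zero] at this
      have h2 : b * P.k R1 ≤ M * (R1 + 1) * P.k R1 := mul_le_mul_of_nonneg_right hb' hk1
      have h3 : M * (R1 + 1) * P.k R1 ≤ M * (2 * R1) * P.k R1 :=
        mul_le_mul_of_nonneg_right (mul_le_mul_of_nonneg_left (by linarith) hM.le) hk1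
      nlinarith
    have hmain : ∫ r in (0 : ℝ)..g, κ r ≤ M * (2 * (R1 * P.k R1) + ∫ s in Ioi R1, P.k s) := by
      rcases le_total g (M * (R1 + 1)) with h | h
      · have := hA g hg h
        nlinarith [mul_nonneg hM.le htail]
      · have hb0 : 0 ≤ M * (R1 + 1) := by positivity
        rw [← intervalIntegral.integral_add_adjacent_intervals (hii 0 (M * (R1 + 1))) (hii _ g)]
        have e1 : ∫ r in (M * (R1 + 1))..g, κ r = ∫ r in (M * (R1 + 1))..g, P.k (r / M - 1) := by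
          refine intervalIntegral.integral_congr (fun r hr => ?_)
          rw [uIcc_of_le h] at hr
          have : R1 ≤ r / M - 1 := by
            have : R1 + 1 ≤ r / M := by rw [le_div_iff₀ hM]; linarith [hr.1]
            linarith
          simp only [hκ, max_eq_right this]
        have e2 : ∫ r in (M * (R1 + 1))..g, P.k (r / M - 1) = M * ∫ s in R1..(g / M - 1), P.k s := by
          rw [intervalIntegral.integral_comp_div_sub (fun s => P.k s) hM.ne' 1]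
          have : M * (R1 + 1) / M - 1 = R1 := by field_simp; ring
          rw [this, smul_eq_mul]
        have hle : R1 ≤ g / M - 1 := by
          have : R1 + 1 ≤ g / M := by rw [le_div_iff₀ hM]; linarith
          linarith
        have e3 : ∫ s in R1..(g / M - 1), P.k s ≤ ∫ s in Ioi R1, P.k s := by
          rw [intervalIntegral.integral_of_le hle]
          refine setIntegral_mono_set (hF.k_int.mono_set (Ioi_subset_Ioi (by linarith)))
            (Eventually.of_forall (fun s => hF.k_nonneg s)) (Eventually.of_forall ?_)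
          exact fun s hs => hs.1
        have := hA _ hb0 le_rfl
        rw [e1, e2]
        nlinarith [mul_le_mul_of_nonneg_left e3 hM.le]
    exact (mul_le_mul_of_nonneg_left hmain hl).trans hR1a.le
  · have := intervalIntegral.integral_add_adjacent_intervals (hii 0 g) (hii g g')
    have h2 := hconc g g'
    simp only [hκ] at this h2 ⊢
    linarith

/-- the concavity inequality for one step of two independent particles -/
theorem pair_abs {Ξ : Type} [MeasurableSpace Ξ] (ν : Measure Ξ) [IsProbabilityMeasure ν]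
    (m ψ : ℝ → ℝ) (hm : Monotone m) (x y κ : ℝ) (fx fy : Ξ → ℝ) (hfx : Measurable fx)
    (hfy : Measurable fy) (hx : ∀ ξ, x ≤ fx ξ) (hy : ∀ ξ, y ≤ fy ξ) (hxy : x ≤ y) (hκ : 0 ≤ κ)
    (hψ0 : ∀ g, 0 ≤ g → 0 ≤ ψ g)
    (hψ : ∀ g', ψ g' ≤ ψ (m y - m x) + κ * (g' - (m y - m x))) :
    (∫⁻ ξ1 in {ξ | fx ξ ≤ y}, ∫⁻ ξ2, ENNReal.ofReal (ψ (m (fy ξ2) - m (fx ξ1))) ∂ν ∂ν) +
      ENNReal.ofReal κ * ∫⁻ ξ in {ξ | fx ξ ≤ y}, ENNReal.ofReal (m (fx ξ) - m x) ∂ν ≤
      ENNReal.ofReal (ψ (m y - m x)) +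
        ENNReal.ofReal κ * ∫⁻ ξ, ENNReal.ofReal (m (fy ξ) - m y) ∂ν := by
  have hmm : Measurable m := hm.measurable
  have hA : MeasurableSet {ξ | fx ξ ≤ y} := measurableSet_le hfx measurable_const
  have hY : Measurable (fun ξ => ENNReal.ofReal (m (fy ξ) - m y)) :=
    ENNReal.measurable_ofReal.comp ((hmm.comp hfy).sub measurable_const)
  rw [← lintegral_const_mul' _ _ ENNReal.ofReal_ne_top]
  refine (le_lintegral_add _ _).trans ?_
  have hpt : ∀ ξ1 ∈ {ξ | fx ξ ≤ y},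
      (∫⁻ ξ2, ENNReal.ofReal (ψ (m (fy ξ2) - m (fx ξ1))) ∂ν) +
        ENNReal.ofReal κ * ENNReal.ofReal (m (fx ξ1) - m x) ≤
      ENNReal.ofReal (ψ (m y - m x)) +
        ENNReal.ofReal κ * ∫⁻ ξ, ENNReal.ofReal (m (fy ξ) - m y) ∂ν := by
    intro ξ1 h1
    have e1 : ENNReal.ofReal κ * ENNReal.ofReal (m (fx ξ1) - m x) =
        ∫⁻ _ξ2, ENNReal.ofReal κ * ENNReal.ofReal (m (fx ξ1) - m x) ∂ν := by simp
    have e2 : ENNReal.ofReal (ψ (m y - m x)) +
        ENNReal.ofReal κ * ∫⁻ ξ, ENNReal.ofReal (m (fy ξ) - m y) ∂ν =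
        ∫⁻ ξ, (ENNReal.ofReal (ψ (m y - m x)) +
          ENNReal.ofReal κ * ENNReal.ofReal (m (fy ξ) - m y)) ∂ν := by
      rw [lintegral_add_left measurable_const, lintegral_const_mul _ hY]; simp
    rw [e1, e2]
    refine (le_lintegral_add _ _).trans (lintegral_mono (fun ξ2 => ?_))
    have a1 : 0 ≤ m (fx ξ1) - m x := sub_nonneg.2 (hm (hx ξ1))
    have a2 : 0 ≤ m (fy ξ2) - m y := sub_nonneg.2 (hm (hy ξ2))
    have a3 : 0 ≤ m (fy ξ2) - m (fx ξ1) := sub_nonneg.2 (hm (le_trans h1 (hy ξ2)))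
    have a4 : 0 ≤ m y - m x := sub_nonneg.2 (hm hxy)
    show ENNReal.ofReal _ + ENNReal.ofReal κ * ENNReal.ofReal _ ≤
      ENNReal.ofReal _ + ENNReal.ofReal κ * ENNReal.ofReal _
    rw [← ENNReal.ofReal_mul hκ, ← ENNReal.ofReal_mul hκ,
      ← ENNReal.ofReal_add (hψ0 _ a3) (mul_nonneg hκ a1),
      ← ENNReal.ofReal_add (hψ0 _ a4) (mul_nonneg hκ a2)]
    refine ENNReal.ofReal_le_ofReal ?_
    have := hψ (m (fy ξ2) - m (fx ξ1))
    nlinarith
  refine (setLIntegral_mono' hA hpt).trans ?_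
  rw [setLIntegral_const]
  exact mul_le_of_le_one_right' prob_le_one

/-- expected cost of the next `k` steps from step `n` -/
def fut {Ξ : Type} [MeasurableSpace Ξ] (ν : Measure Ξ) (S : ℕ → ℝ → Ξ → ℝ) (c : ℕ → ℝ → ℝ≥0∞) :
    ℕ → ℕ → ℝ → ℝ≥0∞
  | 0, _, _ => 0
  | k + 1, n, x => c n x + ∫⁻ ξ, fut ν S c k (n + 1) (S n x ξ) ∂ν

theorem fut_meas {Ξ : Type} [MeasurableSpace Ξ] (ν : Measure Ξ) [SFinite ν] (S : ℕ → ℝ → Ξ → ℝ)
    (c : ℕ → ℝ → ℝ≥0∞) (hS : ∀ n, Measurable (fun z : ℝ × Ξ => S n z.1 z.2))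
    (hc : ∀ n, Measurable (c n)) : ∀ k n, Measurable (fut ν S c k n) := by
  intro k
  induction k with
  | zero => intro n; exact measurable_const
  | succ k ih =>
    intro n
    have : Measurable (fun x => ∫⁻ ξ, fut ν S c k (n + 1) (S n x ξ) ∂ν) :=
      Measurable.lintegral_prod_right' (f := fun z : ℝ × Ξ => fut ν S c k (n + 1) (S n z.1 z.2))
        ((ih (n + 1)).comp (hS n))
    exact (hc n).add this

theorem fut_int {Ξ : Type} [MeasurableSpace Ξ] (ν : Measure Ξ) [SFinite ν] (S : ℕ → ℝ → Ξ → ℝ)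
    (c : ℕ → ℝ → ℝ≥0∞) (hS : ∀ n, Measurable (fun z : ℝ × Ξ => S n z.1 z.2))
    (hc : ∀ n, Measurable (c n)) (law : ℕ → Measure ℝ)
    (hlaw : ∀ n, ∀ φ : ℝ → ℝ≥0∞, Measurable φ →
      ∫⁻ y, φ y ∂(law (n + 1)) = ∫⁻ y, (∫⁻ ξ, φ (S n y ξ) ∂ν) ∂(law n)) :
    ∀ k n, ∫⁻ x, fut ν S c k n x ∂(law n) = ∑ i ∈ Finset.Ico n (n + k), ∫⁻ x, c i x ∂(law i) := by
  intro k
  induction k with
  | zero => intro n; simp [fut]
  | succ k ih =>
    intro n
    rw [Finset.sum_eq_sum_Ico_succ_bot (by omega), show n + (k + 1) = n + 1 + k by omega, ← ih,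
      hlaw n _ (fut_meas ν S c hS hc k (n + 1))]
    simp only [fut]
    rw [lintegral_add_left (hc n)]

/-- backward induction with one Lyapunov function -/
theorem back_ind {Ξ : Type} [MeasurableSpace Ξ] (ν : Measure Ξ) [IsProbabilityMeasure ν]
    (S : ℕ → ℝ → Ξ → ℝ) (c VX VY : ℕ → ℝ → ℝ≥0∞) (Ψ : ℝ → ℝ → ℝ≥0∞) (r : ℝ≥0∞)
    (Inv : ℕ → ℝ → Prop) (nf : ℕ)
    (hS : ∀ n, Measurable (fun z : ℝ × Ξ => S n z.1 z.2))
    (hc : ∀ n, Measurable (c n)) (hVX : ∀ n, Measurable (VX n)) (hVY : ∀ n, Measurable (VY n))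
    (hle : ∀ n y ξ, y ≤ S n y ξ)
    (hInv : ∀ n, n < nf → ∀ x ξ, Inv n x → Inv (n + 1) (S n x ξ))
    (hstep : ∀ n, n < nf → ∀ x y, x ≤ y → Inv n x → VX n x < 1 → VY n y < 1 →
      ν {ξ | y < S n x ξ} + (∫⁻ ξ1 in {ξ | S n x ξ ≤ y}, ∫⁻ ξ2, Ψ (S n x ξ1) (S n y ξ2) ∂ν ∂ν) + r +
        (∫⁻ ξ, VX (n + 1) (S n x ξ) ∂ν) + (∫⁻ ξ, VY (n + 1) (S n y ξ) ∂ν) ≤
      Ψ x y + VX n x + VY n y + c n x + c n y) :
    ∀ k n j : ℕ, n + k ≤ nf → 1 ≤ ((j + k : ℕ) : ℝ≥0∞) * r → ∀ x y, x ≤ y → Inv n x →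
      1 ≤ Ψ x y + j * r + VX n x + VY n y + fut ν S c k n x + fut ν S c k n y := by
  intro k
  induction k with
  | zero =>
    intro n j _ hj x y _ _
    simp only [add_zero] at hj
    calc (1 : ℝ≥0∞) ≤ j * r := hj
      _ ≤ Ψ x y + j * r := le_add_self
      _ ≤ _ := le_add_right (le_add_right (le_add_right (le_add_right le_rfl)))
  | succ k ih =>
    intro n j hn hj x y hxy hI
    by_cases hX : VX n x < 1
    swap
    · calc (1 : ℝ≥0∞) ≤ VX n x := not_lt.1 hX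
        _ ≤ Ψ x y + j * r + VX n x := le_add_self
        _ ≤ _ := le_add_right (le_add_right (le_add_right le_rfl))
    by_cases hY : VY n y < 1
    swap
    · calc (1 : ℝ≥0∞) ≤ VY n y := not_lt.1 hY
        _ ≤ Ψ x y + j * r + VX n x + VY n y := le_add_self
        _ ≤ _ := le_add_right (le_add_right le_rfl)
    have hn' : n < nf := by omega
    have hSx : ∀ z, Measurable (S n z) := fun z => (hS n).comp measurable_prodMk_left
    have hA : MeasurableSet {ξ | S n x ξ ≤ y} := measurableSet_le (hSx x) measurable_const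
    have hfm := fut_meas ν S c hS hc k (n + 1)
    set A : ℝ → ℝ≥0∞ := fun z => VX (n + 1) z + fut ν S c k (n + 1) z with hAdef
    set B : ℝ → ℝ≥0∞ := fun z => VY (n + 1) z + fut ν S c k (n + 1) z with hBdef
    have hAm : Measurable (fun ξ => A (S n x ξ)) := ((hVX _).add hfm).comp (hSx x)
    have hBm : Measurable (fun ξ => B (S n y ξ)) := ((hVY _).add hfm).comp (hSx y)
    have hpt : ∀ ξ1 ∈ {ξ | S n x ξ ≤ y}, (1 : ℝ≥0∞) ≤
        (∫⁻ ξ2, Ψ (S n x ξ1) (S n y ξ2) ∂ν) +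
          ((((j + 1 : ℕ) : ℝ≥0∞) * r + ∫⁻ ξ, B (S n y ξ) ∂ν) + A (S n x ξ1)) := by
      intro ξ1 h1
      have e : (∫⁻ ξ2, Ψ (S n x ξ1) (S n y ξ2) ∂ν) +
          ((((j + 1 : ℕ) : ℝ≥0∞) * r + ∫⁻ ξ, B (S n y ξ) ∂ν) + A (S n x ξ1)) =
          ∫⁻ ξ2, (Ψ (S n x ξ1) (S n y ξ2) +
            ((((j + 1 : ℕ) : ℝ≥0∞) * r + A (S n x ξ1)) + B (S n y ξ2))) ∂ν := by
        rw [lintegral_add_right _ (hBm.const_add _), lintegral_add_left measurable_const]
        simp only [lintegral_const, measure_univ, mul_one]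
        ring
      rw [e]
      calc (1 : ℝ≥0∞) = ∫⁻ _ξ2, 1 ∂ν := by simp
        _ ≤ _ := lintegral_mono (fun ξ2 => ?_)
      have := ih (n + 1) (j + 1) (by omega) (by rwa [show j + 1 + k = j + (k + 1) by omega])
        (S n x ξ1) (S n y ξ2) (le_trans h1 (hle n y ξ2)) (hInv n hn' x ξ1 hI)
      refine this.trans (le_of_eq ?_)
      simp only [hAdef, hBdef]
      ring
    have h1 : ν {ξ | S n x ξ ≤ y} ≤
        (∫⁻ ξ1 in {ξ | S n x ξ ≤ y}, ∫⁻ ξ2, Ψ (S n x ξ1) (S n y ξ2) ∂ν ∂ν) +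
          ((((j + 1 : ℕ) : ℝ≥0∞) * r + ∫⁻ ξ, B (S n y ξ) ∂ν) + ∫⁻ ξ, A (S n x ξ) ∂ν) := by
      calc ν {ξ | S n x ξ ≤ y} = ∫⁻ _ξ in {ξ | S n x ξ ≤ y}, 1 ∂ν := by simp
        _ ≤ _ := setLIntegral_mono' hA hpt
        _ ≤ _ := by
          rw [lintegral_add_right _ (hAm.const_add _), lintegral_add_left measurable_const]
          gcongr
          · rw [setLIntegral_const]; exact mul_le_of_le_one_right' prob_le_one
          · exact Measure.restrict_le_self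
    have h2 : (1 : ℝ≥0∞) = ν {ξ | y < S n x ξ} + ν {ξ | S n x ξ ≤ y} := by
      have : {ξ | y < S n x ξ} = {ξ | S n x ξ ≤ y}ᶜ := by ext ξ; simp
      rw [this, add_comm, prob_add_prob_compl hA]
    have eA : ∫⁻ ξ, A (S n x ξ) ∂ν = (∫⁻ ξ, VX (n + 1) (S n x ξ) ∂ν) +
        ∫⁻ ξ, fut ν S c k (n + 1) (S n x ξ) ∂ν :=
      lintegral_add_left ((hVX _).comp (hSx x)) _
    have eB : ∫⁻ ξ, B (S n y ξ) ∂ν = (∫⁻ ξ, VY (n + 1) (S n y ξ) ∂ν) +
        ∫⁻ ξ, fut ν S c k (n + 1) (S n y ξ) ∂ν :=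
      lintegral_add_left ((hVY _).comp (hSx y)) _
    have h3 := hstep n hn' x y hxy hI hX hY
    calc (1 : ℝ≥0∞) = ν {ξ | y < S n x ξ} + ν {ξ | S n x ξ ≤ y} := h2
      _ ≤ ν {ξ | y < S n x ξ} +
          ((∫⁻ ξ1 in {ξ | S n x ξ ≤ y}, ∫⁻ ξ2, Ψ (S n x ξ1) (S n y ξ2) ∂ν ∂ν) +
          ((((j + 1 : ℕ) : ℝ≥0∞) * r + ∫⁻ ξ, B (S n y ξ) ∂ν) + ∫⁻ ξ, A (S n x ξ) ∂ν)) := by gcongr
      _ = (ν {ξ | y < S n x ξ} +
          (∫⁻ ξ1 in {ξ | S n x ξ ≤ y}, ∫⁻ ξ2, Ψ (S n x ξ1) (S n y ξ2) ∂ν ∂ν) + r +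
          (∫⁻ ξ, VX (n + 1) (S n x ξ) ∂ν) + (∫⁻ ξ, VY (n + 1) (S n y ξ) ∂ν)) +
          (j * r + (∫⁻ ξ, fut ν S c k (n + 1) (S n x ξ) ∂ν) +
            ∫⁻ ξ, fut ν S c k (n + 1) (S n y ξ) ∂ν) := by
        rw [eA, eB]; push_cast; ring
      _ ≤ (Ψ x y + VX n x + VY n y + c n x + c n y) +
          (j * r + (∫⁻ ξ, fut ν S c k (n + 1) (S n x ξ) ∂ν) +
            ∫⁻ ξ, fut ν S c k (n + 1) (S n y ξ) ∂ν) := by gcongr
      _ = _ := by simp only [fut]; ring

end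

end PairCore

end MP34a893
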