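import Pool.Agent.MP_34a893_an.PairCoreA

open MeasureTheory Set Filter Topology
open scoped ENNReal

namespace MP34a893

namespace PairCore

noncomputable section

variable {P : Par} {M : ℝ} {L : Lag P M}

theorem U_mem (hL : L.Facts) (t y : ℝ) : L.U t y ∈ Icc 0 (P.N M) :=
  ⟨hL.u_nonneg _ _, L.u_le _ _⟩

theorem U_meas' (hL : L.Facts) (t : ℝ) : Measurable (L.U t) :=
  hL.U_meas.comp measurable_prodMk_left

theorem X_meas' (t : ℝ) : Measurable (L.X t) :=
  (L.X_cont.comp (Continuous.prodMk_right t)).measurable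

theorem step_meas' (hS : L.Step) (t h y : ℝ) : Measurable (L.step t h y) :=
  (hS.step_meas t h).comp measurable_prodMk_left

theorem DV_nonneg (hF : P.Facts M) : 0 ≤ P.DV M := mul_nonneg hF.bm_nonneg hF.N_pos.le

theorem Vm_nonneg (hF : P.Facts M) : 0 ≤ P.Vm M := add_nonneg (abs_nonneg _) (DV_nonneg hF)

theorem Th_nonneg (hF : P.Facts M) : 0 ≤ P.Th M :=
  mul_nonneg (mul_nonneg P.hp0.le hF.bm_nonneg) hF.N_pos.le

theorem E1_nonneg (hF : P.Facts M) : 0 ≤ P.E1 M :=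
  mul_nonneg (mul_nonneg (by norm_num) (sq_nonneg _)) hF.N_pos.le

theorem C3_nonneg (hF : P.Facts M) : 0 ≤ P.C3 M :=
  add_nonneg (mul_nonneg (by norm_num) (Vm_nonneg hF))
    (mul_nonneg (Th_nonneg hF) (add_nonneg zero_le_one (mul_nonneg hF.k0_pos.le (DV_nonneg hF))))

theorem lam_nonneg (P : Par) (z : ℝ) (hz : 0 ≤ z) : 0 ≤ P.lam z :=
  mul_nonneg (mul_nonneg (mul_nonneg P.hp0.le (P.hb0 z)) hz) (Real.rpow_nonneg hz _)

theorem label_le (hL : L.Facts) (t x y : ℝ) (hxy : x ≤ y) :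
    L.m y - L.m x ≤ M * (L.X t y - L.X t x) := by
  have h1 := hL.Q_sub t (L.X t x) (L.X t y)
  rw [hL.Q_X, hL.Q_X] at h1
  have h2 : ‖∫ z in (L.X t x)..(L.X t y), L.q t z‖ ≤ M * |L.X t y - L.X t x| :=
    intervalIntegral.norm_integral_le_of_norm_le_const (fun z _ => by
      rw [Real.norm_eq_abs, abs_of_nonneg (hL.q_mem t z).1]; exact (hL.q_mem t z).2)
  rw [abs_of_nonneg (sub_nonneg.2 ((hL.X_mono t).monotone hxy)), ← h1, Real.norm_eq_abs] at h2
  exact (le_abs_self _).trans h2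

/-- one step of the squared distance to an interval -/
theorem sq_step (hF : P.Facts M) (hL : L.Facts) (hS : L.Step) (τ h x lo hi a D : ℝ)
    (hs : P.Small M h) (h1 : h ≤ τ) (h2 : τ ≤ L.T) (hlh : lo ≤ hi) (ha : 0 ≤ a)
    (hD : |L.U τ x - cl lo hi (L.U τ x)| ≤ D) :
    ∫⁻ ξ, ENNReal.ofReal (a * (L.U (τ - h) (L.step τ h x ξ) -
        cl lo hi (L.U (τ - h) (L.step τ h x ξ))) ^ 2) ∂P.noise ≤
      ENNReal.ofReal (a * (L.U τ x - cl lo hi (L.U τ x)) ^ 2) +
        ENNReal.ofReal (a * L.w τ h 1 x + a * (2 * D * (P.E1 M * h ^ 2))) := by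
  have := hF.noise_prob
  set u := L.U τ x with hu
  set c := cl lo hi u with hc
  set f : ℝ × ℝ × ℝ → ℝ := fun ξ => L.U (τ - h) (L.step τ h x ξ) with hf
  have hfm : Measurable f := (U_meas' hL _).comp (step_meas' hS τ h x)
  have hfb : ∀ ξ, f ξ ∈ Icc 0 (P.N M) := fun ξ => U_mem hL _ _
  have hub : u ∈ Icc 0 (P.N M) := U_mem hL _ _
  have hi1 : Integrable f P.noise :=
    Integrable.of_bound hfm.aestronglyMeasurable (P.N M) (Eventually.of_forall (fun ξ => by
      rw [Real.norm_eq_abs, abs_of_nonneg (hfb ξ).1]; exact (hfb ξ).2))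
  have hi2 : Integrable (fun ξ => (f ξ - u) ^ 2) P.noise :=
    Integrable.of_bound ((hfm.sub_const u).pow_const 2).aestronglyMeasurable (P.N M ^ 2)
      (Eventually.of_forall (fun ξ => by
        rw [Real.norm_eq_abs, abs_of_nonneg (sq_nonneg _)]
        have := hfb ξ
        exact sq_le_sq' (by linarith [this.1, hub.2]) (by linarith [this.2, hub.1])))
  have hw : L.w τ h 1 x = ∫ ξ, (f ξ - u) ^ 2 ∂P.noise := by
    simp [Lag.w, Lag.Pit, Lag.Pop, hf, hu]
  have hmart : |(∫ ξ, f ξ ∂P.noise) - u| ≤ P.E1 M * h ^ 2 := hS.mart τ h hs h1 h2 x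
  have hexp : ∀ ξ, a * (f ξ - c) ^ 2 =
      a * (f ξ - u) ^ 2 + (a * (2 * (u - c))) * f ξ + a * ((u - c) ^ 2 - 2 * (u - c) * u) := by
    intro ξ; ring
  have hi3 : Integrable (fun ξ => a * (f ξ - c) ^ 2) P.noise := by
    simp_rw [hexp]
    exact ((hi2.const_mul a).add (hi1.const_mul _)).add (integrable_const _)
  have hint : ∫ ξ, a * (f ξ - c) ^ 2 ∂P.noise =
      a * L.w τ h 1 x + (a * (2 * (u - c))) * (∫ ξ, f ξ ∂P.noise) +
        a * ((u - c) ^ 2 - 2 * (u - c) * u) := by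
    simp_rw [hexp]
    have hi4 : Integrable (fun ξ => a * (f ξ - u) ^ 2 + (a * (2 * (u - c))) * f ξ) P.noise :=
      (hi2.const_mul a).add (hi1.const_mul _)
    rw [integral_add hi4 (integrable_const _),
      integral_add (hi2.const_mul a) (hi1.const_mul _), integral_const_mul, integral_const_mul, hw]
    simp
  calc ∫⁻ ξ, ENNReal.ofReal (a * (f ξ - cl lo hi (f ξ)) ^ 2) ∂P.noise
      ≤ ∫⁻ ξ, ENNReal.ofReal (a * (f ξ - c) ^ 2) ∂P.noise :=
        lintegral_mono (fun ξ => ENNReal.ofReal_le_ofReal (mul_le_mul_of_nonneg_left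
          (cl_near _ _ (le_cl _ _ _) (cl_le hlh _)) ha))
    _ = ENNReal.ofReal (∫ ξ, a * (f ξ - c) ^ 2 ∂P.noise) :=
        (ofReal_integral_eq_lintegral_ofReal hi3
          (Eventually.of_forall (fun ξ => mul_nonneg ha (sq_nonneg _)))).symm
    _ ≤ ENNReal.ofReal (a * (u - c) ^ 2 +
          (a * L.w τ h 1 x + a * (2 * D * (P.E1 M * h ^ 2)))) := by
        refine ENNReal.ofReal_le_ofReal ?_
        rw [hint]
        have h3 : (u - c) * ((∫ ξ, f ξ ∂P.noise) - u) ≤ D * (P.E1 M * h ^ 2) := by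
          refine (le_abs_self _).trans ?_
          rw [abs_mul]
          exact mul_le_mul hD hmart (abs_nonneg _) ((abs_nonneg _).trans hD)
        nlinarith [mul_le_mul_of_nonneg_left h3 ha]
    _ ≤ _ := ENNReal.ofReal_add_le

/-- one step of the position test -/
theorem pos_step (hF : P.Facts M) (hL : L.Facts) (hS : L.Step) (τ h y x2 ρ : ℝ)
    (hs : P.Small M h) (h1 : h ≤ τ) (h2 : τ ≤ L.T) (hρ : 0 < ρ) :
    ∫⁻ ξ, ENNReal.ofReal ((L.X (τ - h) (L.step τ h y ξ) - x2) / ρ) ∂P.noise ≤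
      ENNReal.ofReal ((L.X τ y - x2) / ρ) + ENNReal.ofReal (P.C3 M * h / ρ) := by
  have := hF.noise_prob
  have hh := hs.1
  have hd := hS.disp τ h hs h1 h2 y (P.Th M) (fun σ _ => (hL.rate_mem σ y).2)
  have hlip := hL.X_lip y (τ - h) ⟨by linarith, by linarith⟩ τ ⟨by linarith, h2⟩
  rw [show τ - h - τ = -h by ring, abs_neg, abs_of_pos hh] at hlip
  have hm : Measurable (fun ξ => ENNReal.ofReal (L.X (τ - h) (L.step τ h y ξ) - L.X (τ - h) y)) :=
    ENNReal.measurable_ofReal.comp (((X_meas' _).comp (step_meas' hS τ h y)).sub_const _)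
  have hV := Vm_nonneg hF
  have hA : 0 ≤ P.Th M * h * (1 + P.k0 * P.DV M) :=
    mul_nonneg (mul_nonneg (Th_nonneg hF) hh.le)
      (add_nonneg zero_le_one (mul_nonneg hF.k0_pos.le (DV_nonneg hF)))
  calc _ ≤ ∫⁻ ξ, ((ENNReal.ofReal ((L.X τ y - x2) / ρ) + ENNReal.ofReal (P.Vm M * h / ρ)) +
        ENNReal.ofReal (1 / ρ) *
          ENNReal.ofReal (L.X (τ - h) (L.step τ h y ξ) - L.X (τ - h) y)) ∂P.noise := by
        refine lintegral_mono (fun ξ => ?_)
        rw [← ENNReal.ofReal_mul (by positivity)]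
        refine le_trans (ENNReal.ofReal_le_ofReal ?_)
          (ENNReal.ofReal_add_le.trans (add_le_add_left ENNReal.ofReal_add_le _))
        have : (L.X τ y - x2) / ρ + P.Vm M * h / ρ +
            1 / ρ * (L.X (τ - h) (L.step τ h y ξ) - L.X (τ - h) y) =
            (L.X τ y - x2 + P.Vm M * h + (L.X (τ - h) (L.step τ h y ξ) - L.X (τ - h) y)) / ρ := by
          ring
        rw [this]
        exact div_le_div_of_nonneg_right (by linarith [(abs_le.1 hlip).2]) hρ.le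
    _ = (ENNReal.ofReal ((L.X τ y - x2) / ρ) + ENNReal.ofReal (P.Vm M * h / ρ)) +
        ENNReal.ofReal (1 / ρ) * ∫⁻ ξ,
          ENNReal.ofReal (L.X (τ - h) (L.step τ h y ξ) - L.X (τ - h) y) ∂P.noise := by
        rw [lintegral_add_left measurable_const, lintegral_const_mul _ hm]; simp
    _ ≤ (ENNReal.ofReal ((L.X τ y - x2) / ρ) + ENNReal.ofReal (P.Vm M * h / ρ)) +
        ENNReal.ofReal (1 / ρ) * ENNReal.ofReal (P.Th M * h * (1 + P.k0 * P.DV M)) := by gcongr
    _ ≤ _ := by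
        rw [add_assoc, ← ENNReal.ofReal_mul (by positivity),
          ← ENNReal.ofReal_add (by positivity) (by positivity)]
        refine add_le_add_right (ENNReal.ofReal_le_ofReal ?_) _
        have : P.Vm M * h / ρ + 1 / ρ * (P.Th M * h * (1 + P.k0 * P.DV M)) =
            (P.Vm M * h + P.Th M * h * (1 + P.k0 * P.DV M)) / ρ := by ring
        rw [this]
        refine div_le_div_of_nonneg_right ?_ hρ.le
        unfold Par.C3
        nlinarith [mul_nonneg hV hh.le]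

/-- two tubes with different values cannot overlap much -/
theorem gap_abs (w : ℝ → ℝ) (hw : Measurable w) (C : ℝ) (hb : ∀ x, |w x| ≤ C)
    (p q R a b e δ : ℝ) (hpq : p ≤ q) (hδ : 0 < δ) (hab : b + δ ≤ a)
    (he : 2 * e < δ * (R / 2))
    (h1 : ∫ s in (0 : ℝ)..R, |w (p + s) - a| ≤ e) (h2 : ∫ s in (0 : ℝ)..R, |w (q + s) - b| ≤ e) :
    p + R / 2 ≤ q := by
  by_contra hcon
  push Not at hcon
  have hii : ∀ (r c s1 s2 : ℝ), IntervalIntegrable (fun s => |w (r + s) - c|) volume s1 s2 := by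
    intro r c s1 s2
    refine (intervalIntegrable_const (c := C + |c|)).mono_fun'
      (((hw.comp (measurable_const_add r)).sub_const c).abs.aestronglyMeasurable)
      (Eventually.of_forall (fun s => ?_))
    simp only [Real.norm_eq_abs, abs_abs]
    exact (abs_sub _ _).trans (add_le_add_left (hb _) _)
  set d := q - p with hd
  have hd0 : 0 ≤ d := by linarith
  have hdR : d ≤ R := by linarith
  have e1 : ∫ s in d..R, |w (p + s) - a| ≤ e := by
    refine le_trans ?_ h1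
    rw [← intervalIntegral.integral_add_adjacent_intervals (hii p a 0 d) (hii p a d R)]
    have : 0 ≤ ∫ s in (0 : ℝ)..d, |w (p + s) - a| :=
      intervalIntegral.integral_nonneg hd0 (fun s _ => abs_nonneg _)
    linarith
  have e2 : ∫ s in d..R, |w (p + s) - b| ≤ e := by
    have e3 : ∫ s in (0 : ℝ)..(R - d), |w (q + s) - b| = ∫ s in d..R, |w (p + s) - b| := by
      have := intervalIntegral.integral_comp_add_right (a := 0) (b := R - d)
        (fun s => |w (p + s) - b|) d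
      simp only [zero_add, sub_add_cancel] at this
      rw [← this]
      refine intervalIntegral.integral_congr (fun s _ => ?_)
      have : q + s = p + (s + d) := by rw [hd]; ring
      simp only [this]
    rw [← e3]
    refine le_trans ?_ h2
    rw [← intervalIntegral.integral_add_adjacent_intervals (hii q b 0 (R - d)) (hii q b (R - d) R)]
    have : 0 ≤ ∫ s in (R - d)..R, |w (q + s) - b| :=
      intervalIntegral.integral_nonneg (by linarith) (fun s _ => abs_nonneg _)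
    linarith
  have e4 : ∫ _s in d..R, δ ≤ ∫ s in d..R, (|w (p + s) - a| + |w (p + s) - b|) := by
    refine intervalIntegral.integral_mono_on hdR intervalIntegrable_const
      ((hii p a d R).add (hii p b d R)) (fun s _ => ?_)
    have := le_abs_self (w (p + s) - b)
    have := neg_le_abs (w (p + s) - a)
    linarith
  rw [intervalIntegral.integral_add (hii p a d R) (hii p b d R)] at e4
  simp only [intervalIntegral.integral_const, smul_eq_mul] at e4
  nlinarith

/-- the pair inequality at a state where both particles have tubes -/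
theorem good_step (hF : P.Facts M) (hL : L.Facts) (hS : L.Step) (hM : 0 < M) (τ h x y : ℝ)
    (ψ0 : ℝ → ℝ) (R lam0 θ c1 lx ly : ℝ) (hs : P.Small M h) (h1 : h ≤ τ) (h2 : τ ≤ L.T)
    (hDV : P.DV M * h ≤ 1) (hxy : x ≤ y) (hl : 0 ≤ lam0) (hθ : 0 ≤ θ) (hc1 : 0 ≤ c1)
    (hlc : lam0 * c1 = P.Th M) (hψ0 : ∀ g, 0 ≤ g → 0 ≤ ψ0 g)
    (hψ : ∀ g g', ψ0 g' ≤ ψ0 g + P.k (max (R / 2 - 1) (g / M - 1)) * (g' - g))
    (hgap : L.X τ x + R / 2 ≤ L.X τ y) (hly : 0 ≤ ly) (hlx : ly + c1 ≤ lx)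
    (hdY : ∫⁻ ξ, ENNReal.ofReal (L.m (L.step τ h y ξ) - L.m y) ∂P.noise ≤ ENNReal.ofReal (h * ly))
    (hdX : ENNReal.ofReal (h * lx) ≤ ∫⁻ ξ in {ξ | L.step τ h x ξ ≤ y},
      ENNReal.ofReal (L.m (L.step τ h x ξ) - L.m x) ∂P.noise) :
    P.noise {ξ | y < L.step τ h x ξ} +
      (∫⁻ ξ1 in {ξ | L.step τ h x ξ ≤ y}, ∫⁻ ξ2, ENNReal.ofReal
        (lam0 * ψ0 (L.m (L.step τ h y ξ2) - L.m (L.step τ h x ξ1)) +
          θ * (L.m (L.step τ h y ξ2) - L.m (L.step τ h x ξ1))) ∂P.noise ∂P.noise) +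
      ENNReal.ofReal (θ * c1 * h) ≤
      ENNReal.ofReal (lam0 * ψ0 (L.m y - L.m x) + θ * (L.m y - L.m x)) := by
  have := hF.noise_prob
  have hh := hs.1
  set g := L.m y - L.m x with hg
  set kt := P.k (max (R / 2 - 1) (g / M - 1)) with hkt
  have hkt0 : 0 ≤ kt := hF.k_nonneg _
  have hκ : 0 ≤ lam0 * kt + θ := by positivity
  have hP := pair_abs P.noise L.m (fun g => lam0 * ψ0 g + θ * g) hL.m_mono x y (lam0 * kt + θ)
    (L.step τ h x) (L.step τ h y) (step_meas' hS τ h x) (step_meas' hS τ h y)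
    (hS.le_step τ h x) (hS.le_step τ h y) hxy hκ
    (fun g hg => add_nonneg (mul_nonneg hl (hψ0 g hg)) (mul_nonneg hθ hg))
    (fun g' => by
      have := mul_le_mul_of_nonneg_left (hψ g g') hl
      simp only [← hg]
      nlinarith)
  simp only [← hg] at hP
  have hcross : P.noise {ξ | y < L.step τ h x ξ} ≤ ENNReal.ofReal (P.Th M * h * kt) := by
    refine (hS.cross τ h hs h1 h2 x y hxy).trans (ENNReal.ofReal_le_ofReal ?_)
    refine mul_le_mul_of_nonneg_left (hF.k_anti (max_le (by linarith) ?_))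
      (mul_nonneg (Th_nonneg hF) hh.le)
    have h3 := label_le hL τ x y hxy
    have : g / M ≤ L.X τ y - L.X τ x := by rw [div_le_iff₀ hM]; linarith
    linarith
  set I := ∫⁻ ξ1 in {ξ | L.step τ h x ξ ≤ y}, ∫⁻ ξ2, ENNReal.ofReal
        (lam0 * ψ0 (L.m (L.step τ h y ξ2) - L.m (L.step τ h x ξ1)) +
          θ * (L.m (L.step τ h y ξ2) - L.m (L.step τ h x ξ1))) ∂P.noise ∂P.noise with hI
  have hQ : I + ENNReal.ofReal ((lam0 * kt + θ) * (h * c1)) +
      ENNReal.ofReal (lam0 * kt + θ) * ENNReal.ofReal (h * ly) ≤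
      ENNReal.ofReal (lam0 * ψ0 g + θ * g) +
        ENNReal.ofReal (lam0 * kt + θ) * ENNReal.ofReal (h * ly) := by
    calc _ = I + ENNReal.ofReal (lam0 * kt + θ) * ENNReal.ofReal (h * (ly + c1)) := by
          rw [add_assoc, ENNReal.ofReal_mul hκ, ← mul_add,
            ← ENNReal.ofReal_add (by positivity) (by positivity)]
          congr 3; ring
      _ ≤ I + ENNReal.ofReal (lam0 * kt + θ) * ENNReal.ofReal (h * lx) := by gcongr
      _ ≤ I + ENNReal.ofReal (lam0 * kt + θ) * ∫⁻ ξ in {ξ | L.step τ h x ξ ≤ y},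
          ENNReal.ofReal (L.m (L.step τ h x ξ) - L.m x) ∂P.noise := by gcongr
      _ ≤ _ := hP
      _ ≤ _ := by gcongr
  have hQ' := (ENNReal.add_le_add_iff_right
    (ENNReal.mul_ne_top ENNReal.ofReal_ne_top ENNReal.ofReal_ne_top)).1 hQ
  refine le_trans ?_ hQ'
  have e : (lam0 * kt + θ) * (h * c1) = P.Th M * h * kt + θ * c1 * h := by rw [← hlc]; ring
  rw [e, ENNReal.ofReal_add (mul_nonneg (mul_nonneg (Th_nonneg hF) hh.le) hkt0) (by positivity)]
  calc _ ≤ ENNReal.ofReal (P.Th M * h * kt) + I + ENNReal.ofReal (θ * c1 * h) := by gcongr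
    _ = _ := by ring

/-- the pair inequality at any state -/
theorem any_step (hF : P.Facts M) (hL : L.Facts) (hS : L.Step) (τ h x y : ℝ)
    (ψ0 : ℝ → ℝ) (R lam0 θ θ1 c1 : ℝ) (hs : P.Small M h) (h1 : h ≤ τ) (h2 : τ ≤ L.T)
    (hxy : x ≤ y) (hl : 0 ≤ lam0) (hθ : 0 ≤ θ) (hθ1 : θ ≤ θ1) (hc1 : 0 ≤ c1) (hM : 0 < M)
    (hψ0 : ∀ g, 0 ≤ g → 0 ≤ ψ0 g)
    (hψ : ∀ g g', ψ0 g' ≤ ψ0 g + P.k (max (R / 2 - 1) (g / M - 1)) * (g' - g))
    (hdY : ∫⁻ ξ, ENNReal.ofReal (L.m (L.step τ h y ξ) - L.m y) ∂P.noise ≤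
      ENNReal.ofReal (h * (P.Th M * M))) :
    P.noise {ξ | y < L.step τ h x ξ} +
      (∫⁻ ξ1 in {ξ | L.step τ h x ξ ≤ y}, ∫⁻ ξ2, ENNReal.ofReal
        (lam0 * ψ0 (L.m (L.step τ h y ξ2) - L.m (L.step τ h x ξ1)) +
          θ * (L.m (L.step τ h y ξ2) - L.m (L.step τ h x ξ1))) ∂P.noise ∂P.noise) +
      ENNReal.ofReal (θ * c1 * h) ≤
      ENNReal.ofReal (lam0 * ψ0 (L.m y - L.m x) + θ * (L.m y - L.m x)) +
        ENNReal.ofReal ((P.Th M * P.k0 + (lam0 * P.k0 + θ1) * (P.Th M * M) + θ1 * c1) * h) := by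
  have := hF.noise_prob
  have hh := hs.1
  have hT := Th_nonneg hF
  have hk0 := hF.k0_pos
  set g := L.m y - L.m x with hg
  set kt := P.k (max (R / 2 - 1) (g / M - 1)) with hkt
  have hkt0 : 0 ≤ kt := hF.k_nonneg _
  have hkt1 : kt ≤ P.k0 := hF.k_le _
  have hθ1' : 0 ≤ θ1 := hθ.trans hθ1
  have hκ : 0 ≤ lam0 * kt + θ := by positivity
  have hP := pair_abs P.noise L.m (fun g => lam0 * ψ0 g + θ * g) hL.m_mono x y (lam0 * kt + θ)
    (L.step τ h x) (L.step τ h y) (step_meas' hS τ h x) (step_meas' hS τ h y)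
    (hS.le_step τ h x) (hS.le_step τ h y) hxy hκ
    (fun g hg => add_nonneg (mul_nonneg hl (hψ0 g hg)) (mul_nonneg hθ hg))
    (fun g' => by
      have := mul_le_mul_of_nonneg_left (hψ g g') hl
      simp only [← hg]
      nlinarith)
  simp only [← hg] at hP
  have hcross : P.noise {ξ | y < L.step τ h x ξ} ≤ ENNReal.ofReal (P.Th M * h * P.k0) := by
    refine (hS.cross τ h hs h1 h2 x y hxy).trans (ENNReal.ofReal_le_ofReal ?_)
    exact mul_le_mul_of_nonneg_left (hF.k_le _) (mul_nonneg hT hh.le)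
  set I := ∫⁻ ξ1 in {ξ | L.step τ h x ξ ≤ y}, ∫⁻ ξ2, ENNReal.ofReal
        (lam0 * ψ0 (L.m (L.step τ h y ξ2) - L.m (L.step τ h x ξ1)) +
          θ * (L.m (L.step τ h y ξ2) - L.m (L.step τ h x ξ1))) ∂P.noise ∂P.noise with hI
  have hQ : I ≤ ENNReal.ofReal (lam0 * ψ0 g + θ * g) +
      ENNReal.ofReal ((lam0 * P.k0 + θ1) * (h * (P.Th M * M))) := by
    calc I ≤ _ := le_self_add
      _ ≤ _ := hP
      _ ≤ ENNReal.ofReal (lam0 * ψ0 g + θ * g) +
          ENNReal.ofReal (lam0 * P.k0 + θ1) * ENNReal.ofReal (h * (P.Th M * M)) := by gcongr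
      _ = _ := by rw [← ENNReal.ofReal_mul (by positivity)]
  calc _ ≤ ENNReal.ofReal (P.Th M * h * P.k0) + (ENNReal.ofReal (lam0 * ψ0 g + θ * g) +
        ENNReal.ofReal ((lam0 * P.k0 + θ1) * (h * (P.Th M * M)))) +
        ENNReal.ofReal (θ1 * c1 * h) := by gcongr
    _ = ENNReal.ofReal (lam0 * ψ0 g + θ * g) + (ENNReal.ofReal (P.Th M * h * P.k0) +
        ENNReal.ofReal ((lam0 * P.k0 + θ1) * (h * (P.Th M * M))) +
        ENNReal.ofReal (θ1 * c1 * h)) := by ring
    _ = _ := by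
        rw [← ENNReal.ofReal_add (by positivity) (by positivity),
          ← ENNReal.ofReal_add (by positivity) (by positivity)]
        congr 2; ring

/-- total expected cost along one chain -/
theorem cost_sum (hS : L.Step) (hW : L.Law) (t h : ℝ)
    (H : Set ℝ) (n1 n2 l : ℕ) (a b γ eQ : ℝ) (hH : IsProbabilityMeasure (L.start t H))
    (hs : P.Small M h) (hl1 : 1 ≤ l) (hn : n1 + l ≤ n2) (h1 : n2 * h ≤ t) (h2 : t ≤ L.T)
    (ha : 0 ≤ a) (hb : 0 ≤ b) (hγ : 0 ≤ γ) (hQ : L.mom t h H n2 - L.mom t h H n1 ≤ eQ) :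
    ∑ i ∈ Finset.Ico n1 (n2 - l), ∫⁻ x, ENNReal.ofReal
      (a * L.w (t - i * h) h 1 x + b * L.w (t - i * h) h l x + γ) ∂(L.law t h (L.start t H) i) ≤
      ENNReal.ofReal ((a + b * l) * (eQ + 4 * P.N M * (n2 * (P.E1 M * h ^ 2))) + γ * n2) := by
  have hint : ∀ (i k : ℕ), Integrable (L.w (t - i * h) h k) (L.law t h (L.start t H) i) := by
    intro i k
    have := hW.prob t h _ hH i
    exact Integrable.of_bound (hS.w_meas _ _ _).aestronglyMeasurable (P.N M ^ 2)
      (Eventually.of_forall (fun y => by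
        rw [Real.norm_eq_abs, abs_of_nonneg (hS.w_mem _ _ _ _).1]; exact (hS.w_mem _ _ _ _).2))
  have hnn : ∀ (i k : ℕ), 0 ≤ ∫ x, L.w (t - i * h) h k x ∂(L.law t h (L.start t H) i) :=
    fun i k => integral_nonneg (fun y => (hS.w_mem _ _ _ _).1)
  have e : ∀ i : ℕ, ∫⁻ x, ENNReal.ofReal
      (a * L.w (t - i * h) h 1 x + b * L.w (t - i * h) h l x + γ) ∂(L.law t h (L.start t H) i) =
      ENNReal.ofReal (a * (∫ x, L.w (t - i * h) h 1 x ∂(L.law t h (L.start t H) i)) +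
        b * (∫ x, L.w (t - i * h) h l x ∂(L.law t h (L.start t H) i)) + γ) := by
    intro i
    have := hW.prob t h _ hH i
    have i1 : Integrable (fun x => a * L.w (t - i * h) h 1 x + b * L.w (t - i * h) h l x)
        (L.law t h (L.start t H) i) := ((hint i 1).const_mul a).add ((hint i l).const_mul b)
    have i2 : Integrable (fun x => a * L.w (t - i * h) h 1 x + b * L.w (t - i * h) h l x + γ)
        (L.law t h (L.start t H) i) := i1.add (integrable_const γ)
    rw [← ofReal_integral_eq_lintegral_ofReal i2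
      (Eventually.of_forall (fun y => add_nonneg (add_nonneg
        (mul_nonneg ha (hS.w_mem _ _ _ _).1) (mul_nonneg hb (hS.w_mem _ _ _ _).1)) hγ)),
      integral_add i1 (integrable_const γ),
      integral_add ((hint i 1).const_mul a) ((hint i l).const_mul b), integral_const_mul,
      integral_const_mul]
    simp
  simp_rw [e]
  rw [← ENNReal.ofReal_sum_of_nonneg (fun i _ => add_nonneg (add_nonneg
    (mul_nonneg ha (hnn i 1)) (mul_nonneg hb (hnn i l))) hγ)]
  refine ENNReal.ofReal_le_ofReal ?_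
  rw [Finset.sum_add_distrib, Finset.sum_add_distrib, ← Finset.mul_sum, ← Finset.mul_sum]
  have w1 := hW.wsum t h H n1 n2 1 hH hs (by omega) h1 h2
  have wl := hW.wsum t h H n1 n2 l hH hs hn h1 h2
  have w1' : ∑ i ∈ Finset.Ico n1 (n2 - l),
      ∫ x, L.w (t - i * h) h 1 x ∂(L.law t h (L.start t H) i) ≤
      ∑ i ∈ Finset.Ico n1 (n2 - 1), ∫ x, L.w (t - i * h) h 1 x ∂(L.law t h (L.start t H) i) :=
    Finset.sum_le_sum_of_subset_of_nonneg (Finset.Ico_subset_Ico le_rfl (by omega))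
      (fun i _ _ => hnn i 1)
  have hcard : ∑ _i ∈ Finset.Ico n1 (n2 - l), γ ≤ γ * n2 := by
    rw [Finset.sum_const, Nat.card_Ico, nsmul_eq_mul, mul_comm]
    exact mul_le_mul_of_nonneg_left (by exact_mod_cast (by omega : n2 - l - n1 ≤ n2)) hγ
  have hl0 : (0 : ℝ) ≤ l := Nat.cast_nonneg l
  have A1 : ∑ i ∈ Finset.Ico n1 (n2 - l),
      ∫ x, L.w (t - i * h) h 1 x ∂(L.law t h (L.start t H) i) ≤
      eQ + 4 * P.N M * (n2 * (P.E1 M * h ^ 2)) := by
    refine w1'.trans (w1.trans ?_)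
    push_cast; linarith
  have A2 : ∑ i ∈ Finset.Ico n1 (n2 - l),
      ∫ x, L.w (t - i * h) h l x ∂(L.law t h (L.start t H) i) ≤
      l * (eQ + 4 * P.N M * (n2 * (P.E1 M * h ^ 2))) :=
    wl.trans (mul_le_mul_of_nonneg_left (by linarith) hl0)
  nlinarith [mul_le_mul_of_nonneg_left A1 ha, mul_le_mul_of_nonneg_left A2 hb]

end

end PairCore

end MP34a893
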